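import Mathlib

/-!
MP_ee9c6f_al (helper22). Almost invariant sets, the flow homomorphism on a centraliser, and the
criterion for an element to be elliptic.
-/

set_option autoImplicit false

namespace Pool.Agent.H.MP_ee9c6f_al

open Pointwise Filter

section AE

variable {X : Type*}

/-- The sets are almost equal. -/
def AE (U V : Set X) : Prop := (symmDiff U V).Finite

theorem AE.refl (U : Set X) : AE U U := by simp [AE]

theorem AE.symm {U V : Set X} (h : AE U V) : AE V U := by
  unfold AE at *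
  rwa [symmDiff_comm]

theorem AE.trans {U V W : Set X} (h1 : AE U V) (h2 : AE V W) : AE U W := by
  unfold AE at *
  exact (h1.union h2).subset (symmDiff_triangle U V W)

theorem AE.compl {U V : Set X} (h : AE U V) : AE Uᶜ Vᶜ := by
  unfold AE at *
  rwa [compl_symmDiff_compl]

theorem AE.inter {U V : Set X} (h : AE U V) (W : Set X) : AE (U ∩ W) (V ∩ W) := by
  unfold AE at *
  refine h.subset ?_
  rintro x (⟨⟨h1, h2⟩, h3⟩ | ⟨⟨h1, h2⟩, h3⟩)
  · exact Or.inl ⟨h1, fun h4 => h3 ⟨h4, h2⟩⟩
  · exact Or.inr ⟨h1, fun h4 => h3 ⟨h4, h2⟩⟩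

theorem AE.of_subset_finite {U V : Set X} (h : U ⊆ V) (h' : (V \ U).Finite) : AE U V := by
  unfold AE
  refine h'.subset ?_
  rintro x (⟨h1, h2⟩ | ⟨h1, h2⟩)
  · exact absurd (h h1) h2
  · exact ⟨h1, h2⟩

theorem AE.finite_diff {U V : Set X} (h : AE U V) : (U \ V).Finite :=
  h.subset fun _ hx => Or.inl hx

theorem AE.finite_diff' {U V : Set X} (h : AE U V) : (V \ U).Finite :=
  h.subset fun _ hx => Or.inr hx

/-- The index of a pair of almost equal sets. -/
noncomputable def ind (U V : Set X) : ℤ := ((U \ V).ncard : ℤ) - ((V \ U).ncard : ℤ)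

theorem ind_self (U : Set X) : ind U U = 0 := by simp [ind]

theorem ind_symm (U V : Set X) : ind U V = - ind V U := by simp [ind]

theorem ind_eq {U V W : Set X} (hW : W.Finite) (h : symmDiff U V ⊆ W) :
    ind U V = ((U ∩ W).ncard : ℤ) - ((V ∩ W).ncard : ℤ) := by
  have h1 : U ∩ W = (U \ V) ∪ (U ∩ V ∩ W) := by
    ext x
    constructor
    · rintro ⟨h1, h2⟩
      by_cases h3 : x ∈ V
      · exact Or.inr ⟨⟨h1, h3⟩, h2⟩
      · exact Or.inl ⟨h1, h3⟩
    · rintro (⟨h1, h2⟩ | ⟨⟨h1, h2⟩, h3⟩)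
      · exact ⟨h1, h (Or.inl ⟨h1, h2⟩)⟩
      · exact ⟨h1, h3⟩
  have h2 : V ∩ W = (V \ U) ∪ (U ∩ V ∩ W) := by
    ext x
    constructor
    · rintro ⟨h1, h2⟩
      by_cases h3 : x ∈ U
      · exact Or.inr ⟨⟨h3, h1⟩, h2⟩
      · exact Or.inl ⟨h1, h3⟩
    · rintro (⟨h1, h2⟩ | ⟨⟨h1, h2⟩, h3⟩)
      · exact ⟨h1, h (Or.inr ⟨h1, h2⟩)⟩
      · exact ⟨h2, h3⟩
  have f1 : (U \ V).Finite := hW.subset fun x hx => h (Or.inl hx)
  have f2 : (V \ U).Finite := hW.subset fun x hx => h (Or.inr hx)
  have f3 : (U ∩ V ∩ W).Finite := hW.subset fun x hx => hx.2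
  have d1 : Disjoint (U \ V) (U ∩ V ∩ W) := by
    rw [Set.disjoint_left]
    rintro x ⟨_, h4⟩ ⟨⟨_, h5⟩, _⟩
    exact h4 h5
  have d2 : Disjoint (V \ U) (U ∩ V ∩ W) := by
    rw [Set.disjoint_left]
    rintro x ⟨_, h4⟩ ⟨⟨h5, _⟩, _⟩
    exact h4 h5
  rw [h1, h2, Set.ncard_union_eq d1 f1 f3, Set.ncard_union_eq d2 f2 f3, ind]
  push_cast
  ring

theorem ind_trans {U V W : Set X} (h1 : AE U V) (h2 : AE V W) :
    ind U W = ind U V + ind V W := by
  have h3 : AE U W := h1.trans h2
  have hf : (symmDiff U V ∪ symmDiff V W ∪ symmDiff U W).Finite := (h1.union h2).union h3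
  rw [ind_eq hf (U := U) (V := V) (fun x hx => Or.inl (Or.inl hx)),
    ind_eq hf (U := V) (V := W) (fun x hx => Or.inl (Or.inr hx)),
    ind_eq hf (U := U) (V := W) (fun x hx => Or.inr hx)]
  ring

end AE

section Act

variable {G X : Type*} [Group G] [MulAction G X]

theorem AE.smul {U V : Set X} (h : AE U V) (g : G) : AE (g • U) (g • V) := by
  unfold AE at *
  rw [← Set.smul_set_symmDiff]
  exact h.smul_set

theorem ind_smul (g : G) (U V : Set X) : ind (g • U) (g • V) = ind U V := by
  have h : ∀ W : Set X, (g • W).ncard = W.ncard := fun W =>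
    Set.ncard_image_of_injective W (MulAction.injective g)
  unfold ind
  rw [← Set.smul_set_sdiff, ← Set.smul_set_sdiff, h, h]

/-- Almost invariant. -/
def AInv (G : Type*) {X : Type*} [Group G] [MulAction G X] (U : Set X) : Prop :=
  ∀ g : G, AE (g • U) U

theorem AInv.compl {U : Set X} (h : AInv G U) : AInv G Uᶜ := by
  intro g
  rw [Set.smul_set_compl]
  exact (h g).compl

/-- `U` is almost equal to a set that is invariant under `t`. -/
def Ell (U : Set X) (t : G) : Prop := ∃ V : Set X, AE V U ∧ t • V = V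

theorem Ell.compl {U : Set X} {t : G} (h : Ell U t) : Ell Uᶜ t := by
  obtain ⟨V, h1, h2⟩ := h
  refine ⟨Vᶜ, h1.compl, ?_⟩
  rw [Set.smul_set_compl, h2]

theorem Ell.of_compl {U : Set X} {t : G} (h : Ell Uᶜ t) : Ell U t := by
  simpa using h.compl

theorem Ell.conj {U : Set X} (hU : AInv G U) {t : G} (h : Ell U t) (s : G) :
    Ell U (s * t * s⁻¹) := by
  obtain ⟨V, h1, h2⟩ := h
  refine ⟨s • V, (h1.smul s).trans (hU s), ?_⟩
  rw [smul_smul, mul_assoc, inv_mul_cancel, mul_one, mul_smul, h2]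

/-- Elements that satisfy the braid relation are elliptic together. -/
theorem Ell.braid {U : Set X} (hU : AInv G U) {s t : G} (h : s * t * s = t * s * t)
    (hs : Ell U s) : Ell U t := by
  have : t = (s * t) * s * (s * t)⁻¹ := by
    rw [h]
    group
  rw [this]
  exact hs.conj hU _

/-- The set of points whose forward `t`-orbit ends in `U` and whose backward orbit ends outside. -/
def Spl (U : Set X) (t : G) : Set X :=
  {x | (∀ᶠ n : ℕ in atTop, t ^ n • x ∈ U) ∧ ∀ᶠ n : ℕ in atTop, t⁻¹ ^ n • x ∉ U}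

theorem pow_fix {t : G} {x : X} {d : ℕ} (h : t ^ d • x = x) (k : ℕ) : t ^ (d * k) • x = x := by
  rw [pow_mul]
  induction k with
  | zero => simp
  | succ k ih => rw [pow_succ, mul_smul, h, ih]

theorem Spl.inj {U : Set X} {t : G} {x : X} (hx : x ∈ Spl U t) :
    Function.Injective fun n : ℕ => t ^ n • x := by
  have key : ∀ d : ℕ, 0 < d → t ^ d • x ≠ x := by
    intro d hd h
    obtain ⟨h1, h2⟩ := hx
    rw [eventually_atTop] at h1 h2
    obtain ⟨N1, h1⟩ := h1
    obtain ⟨N2, h2⟩ := h2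
    have e1 := h1 (d * N1) (Nat.le_mul_of_pos_left _ hd)
    have e2 := h2 (d * N2) (Nat.le_mul_of_pos_left _ hd)
    rw [pow_fix h] at e1
    have h' : t⁻¹ ^ d • x = x := by
      rw [inv_pow, inv_smul_eq_iff, h]
    rw [pow_fix h'] at e2
    exact e2 e1
  intro i j hij
  replace hij : t ^ i • x = t ^ j • x := hij
  rcases lt_trichotomy i j with h | h | h
  · exfalso
    obtain ⟨k, rfl⟩ := Nat.exists_eq_add_of_lt h
    apply key (k + 1) (Nat.succ_pos _)
    rw [add_assoc, pow_add, mul_smul] at hij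
    exact (MulAction.injective _ hij).symm
  · exact h
  · exfalso
    obtain ⟨k, rfl⟩ := Nat.exists_eq_add_of_lt h
    apply key (k + 1) (Nat.succ_pos _)
    rw [add_assoc, pow_add, mul_smul] at hij
    exact MulAction.injective _ hij

theorem Spl.inj' {U : Set X} {t : G} {x : X} (hx : x ∈ Spl U t) :
    Function.Injective fun n : ℕ => t⁻¹ ^ n • x := by
  intro i j hij
  replace hij : t⁻¹ ^ i • x = t⁻¹ ^ j • x := hij
  apply Spl.inj hx
  change t ^ i • x = t ^ j • x
  have h : t ^ (i + j) • t⁻¹ ^ i • x = t ^ (i + j) • t⁻¹ ^ j • x := by rw [hij]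
  have e1 : t ^ (i + j) • t⁻¹ ^ i • x = t ^ j • x := by
    rw [add_comm, pow_add, mul_smul, inv_pow, smul_inv_smul]
  have e2 : t ^ (i + j) • t⁻¹ ^ j • x = t ^ i • x := by
    rw [pow_add, mul_smul, inv_pow, smul_inv_smul]
  rw [e1, e2] at h
  exact h.symm

theorem eventually_congr_of_AE {U V : Set X} (h : AE U V) {f : ℕ → X}
    (hf : Function.Injective f) : ∀ᶠ n in atTop, (f n ∈ U ↔ f n ∈ V) := by
  have h1 : (f ⁻¹' (symmDiff U V)).Finite := h.preimage hf.injOn
  have h2 : ∀ᶠ n in atTop, n ∉ f ⁻¹' (symmDiff U V) := by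
    rw [← Nat.cofinite_eq_atTop]
    exact h1.eventually_cofinite_notMem
  filter_upwards [h2] with n hn
  constructor
  · intro h3
    by_contra h4
    exact hn (Or.inl ⟨h3, h4⟩)
  · intro h3
    by_contra h4
    exact hn (Or.inr ⟨h3, h4⟩)

/-- `Spl` is invariant under the elements that commute with `t`. -/
theorem Spl.smul_mem {U : Set X} (hU : AInv G U) {t z : G} (hz : z * t = t * z) {x : X}
    (hx : x ∈ Spl U t) : z • x ∈ Spl U t := by
  have hc : Commute z t := hz
  have hinv : AE (z⁻¹ • U) U := hU z⁻¹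
  have e1 : ∀ n : ℕ, t ^ n • z • x = z • t ^ n • x := fun n => by
    rw [smul_smul, smul_smul, (hc.pow_right n).eq]
  have e2 : ∀ n : ℕ, t⁻¹ ^ n • z • x = z • t⁻¹ ^ n • x := fun n => by
    rw [smul_smul, smul_smul, (hc.inv_right.pow_right n).eq]
  have m1 : ∀ y : X, z • y ∈ U ↔ y ∈ z⁻¹ • U := fun y => by
    rw [Set.mem_smul_set_iff_inv_smul_mem, inv_inv]
  refine ⟨?_, ?_⟩
  · filter_upwards [hx.1, eventually_congr_of_AE hinv (Spl.inj hx)] with n h1 h2
    rw [e1, m1, h2]
    exact h1
  · filter_upwards [hx.2, eventually_congr_of_AE hinv (Spl.inj' hx)] with n h1 h2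
    rw [e2, m1, h2]
    exact h1

theorem Spl.smul_eq {U : Set X} (hU : AInv G U) {t z : G} (hz : z * t = t * z) :
    z • Spl U t = Spl U t := by
  apply Set.Subset.antisymm
  · rintro _ ⟨x, hx, rfl⟩
    exact Spl.smul_mem hU hz hx
  · intro x hx
    rw [Set.mem_smul_set_iff_inv_smul_mem]
    apply Spl.smul_mem hU _ hx
    exact (show Commute z t from hz).inv_left.eq

/-- The part of `U ∩ Spl U t` whose whole forward orbit is in `U`. -/
def Hl (U : Set X) (t : G) : Set X :=
  {x | (∀ n : ℕ, t ^ n • x ∈ U) ∧ ∀ᶠ n : ℕ in atTop, t⁻¹ ^ n • x ∉ U}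

theorem Hl.subset {U : Set X} {t : G} : Hl U t ⊆ U ∩ Spl U t := by
  rintro x ⟨h1, h2⟩
  exact ⟨by simpa using h1 0, Eventually.of_forall h1, h2⟩

theorem Spl.shift_back {U : Set X} {t : G} {x : X} (hx : x ∈ Spl U t) (m : ℕ) :
    t ^ m • x ∈ Spl U t := by
  constructor
  · have h := (tendsto_add_atTop_nat m).eventually hx.1
    filter_upwards [h] with n hn
    rwa [← mul_smul, ← pow_add]
  · have h := hx.2
    rw [eventually_atTop] at h ⊢
    obtain ⟨N, h⟩ := h
    refine ⟨N + m, fun n hn => ?_⟩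
    obtain ⟨k, rfl⟩ := Nat.exists_eq_add_of_le (show m ≤ n by omega)
    rw [add_comm, pow_add, mul_smul, inv_pow t m, inv_smul_smul]
    exact h k (by omega)

theorem Hl.AE_inter {U : Set X} (hU : AInv G U) (t : G) : AE (Hl U t) (U ∩ Spl U t) := by
  apply AE.of_subset_finite Hl.subset
  -- the exit points
  have hE : (U \ (t⁻¹ • U)).Finite := (hU t⁻¹).symm.finite_diff
  have hE' : {y | y ∈ U \ (t⁻¹ • U) ∧ y ∈ Spl U t}.Finite := hE.subset fun y hy => hy.1
  have key : ∀ y ∈ {y | y ∈ U \ (t⁻¹ • U) ∧ y ∈ Spl U t},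
      {x | ∃ m : ℕ, x = t⁻¹ ^ m • y ∧ x ∈ U}.Finite := by
    rintro y ⟨-, hy⟩
    have h := hy.2
    rw [eventually_atTop] at h
    obtain ⟨N, h⟩ := h
    refine ((Set.finite_lt_nat N).image fun m => t⁻¹ ^ m • y).subset ?_
    rintro x ⟨m, rfl, hm⟩
    refine ⟨m, ?_, rfl⟩
    by_contra h5
    exact h m (not_lt.mp h5) hm
  refine (hE'.biUnion key).subset ?_
  rintro x ⟨⟨h1, h2⟩, h3⟩
  have h4 : ∃ n : ℕ, t ^ n • x ∉ U := by
    by_contra h5
    push Not at h5
    exact h3 ⟨h5, h2.2⟩
  classical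
  obtain ⟨n, hn, hmin⟩ : ∃ n : ℕ, t ^ n • x ∉ U ∧ ∀ k < n, t ^ k • x ∈ U :=
    ⟨Nat.find h4, Nat.find_spec h4, fun k hk => by
      by_contra h6
      exact Nat.find_min h4 hk h6⟩
  have hn0 : n ≠ 0 := by
    rintro rfl
    exact hn (by simpa using h1)
  obtain ⟨m, rfl⟩ := Nat.exists_eq_succ_of_ne_zero hn0
  have hy : t ^ m • x ∈ U \ (t⁻¹ • U) := by
    refine ⟨hmin m (Nat.lt_succ_self m), ?_⟩
    rw [Set.mem_smul_set_iff_inv_smul_mem, inv_inv, smul_smul, ← pow_succ']
    exact hn
  refine Set.mem_biUnion (show t ^ m • x ∈ _ from ⟨hy, Spl.shift_back h2 m⟩) ?_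
  exact ⟨m, by rw [inv_pow, inv_smul_smul], h1⟩

theorem Hl.AInv_cent {U : Set X} (hU : AInv G U) {t z : G} (hz : z * t = t * z) :
    AE (z • Hl U t) (Hl U t) := by
  have h1 := (Hl.AE_inter hU t).smul z
  rw [Set.smul_set_inter, Spl.smul_eq hU hz] at h1
  exact (h1.trans ((hU z).inter _)).trans (Hl.AE_inter hU t).symm

theorem Hl.smul_subset {U : Set X} {t : G} : t • Hl U t ⊆ Hl U t := by
  rintro _ ⟨x, ⟨h1, h2⟩, rfl⟩
  refine ⟨fun n => ?_, ?_⟩
  · simp only
    rw [smul_smul, ← pow_succ]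
    exact h1 (n + 1)
  · rw [eventually_atTop] at h2 ⊢
    obtain ⟨N, h2⟩ := h2
    refine ⟨N + 1, fun n hn => ?_⟩
    obtain ⟨k, rfl⟩ := Nat.exists_eq_add_of_le (show 1 ≤ n by omega)
    simp only
    rw [add_comm, pow_succ, mul_smul, inv_smul_smul]
    exact h2 k (by omega)

theorem Hl.diff_nonempty {U : Set X} {t : G} (h : (Hl U t).Nonempty) :
    (Hl U t \ (t • Hl U t)).Nonempty := by
  obtain ⟨x, h1, h2⟩ := h
  have h3 : ∃ n : ℕ, t⁻¹ ^ n • x ∉ U := by
    rw [eventually_atTop] at h2
    obtain ⟨N, h2⟩ := h2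
    exact ⟨N, h2 N le_rfl⟩
  classical
  obtain ⟨n, hn, hmin⟩ : ∃ n : ℕ, t⁻¹ ^ n • x ∉ U ∧ ∀ k < n, t⁻¹ ^ k • x ∈ U :=
    ⟨Nat.find h3, Nat.find_spec h3, fun k hk => by
      by_contra h6
      exact Nat.find_min h3 hk h6⟩
  have hn0 : n ≠ 0 := by
    rintro rfl
    exact hn (by simpa using h1 0)
  obtain ⟨m, rfl⟩ := Nat.exists_eq_succ_of_ne_zero hn0
  refine ⟨t⁻¹ ^ m • x, ⟨fun k => ?_, ?_⟩, ?_⟩
  · rcases le_total k m with hk | hk
    · obtain ⟨l, rfl⟩ := Nat.exists_eq_add_of_le hk
      rw [pow_add, mul_smul, inv_pow t k, smul_inv_smul]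
      exact hmin l (by omega)
    · obtain ⟨l, rfl⟩ := Nat.exists_eq_add_of_le hk
      rw [add_comm, pow_add, mul_smul, inv_pow t m, smul_inv_smul]
      exact h1 l
  · have h := (tendsto_add_atTop_nat m).eventually h2
    filter_upwards [h] with n hn
    rwa [← mul_smul, ← pow_add]
  · intro h
    rw [Set.mem_smul_set_iff_inv_smul_mem] at h
    have h5 := h.1 0
    rw [pow_zero, one_smul, smul_smul, ← pow_succ'] at h5
    exact hn h5

/-- The flow homomorphism. -/
noncomputable def flow (U : Set X) (hU : AInv G U) (t : G) :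
    Subgroup.centralizer ({t} : Set G) →* Multiplicative ℤ where
  toFun z := Multiplicative.ofAdd (ind ((z : G) • Hl U t) (Hl U t))
  map_one' := by simp [ind_self]
  map_mul' z w := by
    have hz : (z : G) * t = t * z := by
      have := Subgroup.mem_centralizer_iff.mp z.2 t rfl
      exact this.symm
    have hw : (w : G) * t = t * w := by
      have := Subgroup.mem_centralizer_iff.mp w.2 t rfl
      exact this.symm
    rw [← ofAdd_add]
    congr 1
    rw [Subgroup.coe_mul, mul_smul,
      ind_trans ((Hl.AInv_cent hU hw).smul (z : G)) (Hl.AInv_cent hU hz), ind_smul, add_comm]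

/-- The criterion for the absence of half lines. -/
theorem Hl_empty {U : Set X} (hU : AInv G U) {t : G}
    (h : ∀ φ : Subgroup.centralizer ({t} : Set G) →* Multiplicative ℤ,
      (∀ z : Subgroup.centralizer ({t} : Set G), Ell U (z : G) → φ z = 1) →
        φ ⟨t, Subgroup.mem_centralizer_iff.mpr (by rintro _ rfl; rfl)⟩ = 1) :
    Spl U t = ∅ := by
  rw [Set.eq_empty_iff_forall_notMem]
  intro x hx
  have hne : (Hl U t).Nonempty := by
    have h1 := hx.1
    rw [eventually_atTop] at h1
    obtain ⟨N, h1⟩ := h1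
    refine ⟨t ^ N • x, fun n => ?_, (Spl.shift_back hx N).2⟩
    rw [← mul_smul, ← pow_add]
    exact h1 _ (by omega)
  have h2 := h (flow U hU t) (by
    intro z hz
    obtain ⟨V, hV, hzV⟩ := hz
    have hzt : (z : G) * t = t * z := by
      have := Subgroup.mem_centralizer_iff.mp z.2 t rfl
      exact this.symm
    have h3 : AE (Hl U t) (V ∩ Spl U t) := (Hl.AE_inter hU t).trans (hV.symm.inter _)
    have h4 : (z : G) • (V ∩ Spl U t) = V ∩ Spl U t := by
      rw [Set.smul_set_inter, hzV, Spl.smul_eq hU hzt]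
    change Multiplicative.ofAdd _ = _
    rw [ofAdd_eq_one]
    have h5 := h3.smul (z : G)
    rw [h4] at h5
    rw [ind_trans h5 h3.symm, ← h4, ind_smul, h4, ind_symm]
    ring)
  change Multiplicative.ofAdd _ = _ at h2
  rw [ofAdd_eq_one] at h2
  simp only at h2
  have h3 : (t • Hl U t) \ Hl U t = ∅ := Set.sdiff_eq_empty.mpr Hl.smul_subset
  have h4 : (Hl U t \ (t • Hl U t)).Finite := by
    have := Hl.AInv_cent hU (t := t) (z := t) rfl
    exact this.finite_diff'
  have h5 : 0 < (Hl U t \ (t • Hl U t)).ncard :=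
    (Set.ncard_pos h4).mpr (Hl.diff_nonempty hne)
  unfold ind at h2
  rw [h3] at h2
  simp at h2
  omega

/-- Without half lines, `t` is elliptic. -/
theorem Ell_of_empty {U : Set X} (hU : AInv G U) {t : G} (h1 : Spl U t = ∅)
    (h2 : Spl Uᶜ t = ∅) : Ell U t := by
  set V : Set X := {x | ∀ᶠ n : ℕ in atTop, t ^ n • x ∈ U} with hV
  have hVs : ∀ (m : ℕ) (x : X), t ^ m • x ∈ V ↔ x ∈ V := by
    intro m x
    constructor
    · intro h
      simp only [hV, Set.mem_ofPred_eq] at h ⊢
      rw [eventually_atTop] at h ⊢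
      obtain ⟨N, h⟩ := h
      refine ⟨N + m, fun n hn => ?_⟩
      obtain ⟨k, rfl⟩ := Nat.exists_eq_add_of_le (show m ≤ n by omega)
      rw [add_comm, pow_add, mul_smul]
      exact h k (by omega)
    · intro h
      have h3 := (tendsto_add_atTop_nat m).eventually h
      simp only [hV, Set.mem_ofPred_eq]
      filter_upwards [h3] with n hn
      rwa [← mul_smul, ← pow_add]
  refine ⟨V, ?_, ?_⟩
  · have f1 : (V \ U).Finite := by
      have hE : (Uᶜ \ (t⁻¹ • Uᶜ)).Finite := (hU.compl t⁻¹).symm.finite_diff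
      have key : ∀ y ∈ Uᶜ \ (t⁻¹ • Uᶜ),
          {x | ∃ m : ℕ, x = t⁻¹ ^ m • y ∧ (∀ k ≤ m, t⁻¹ ^ k • y ∉ U) ∧ y ∈ V}.Finite := by
        intro y _
        by_cases hy : y ∈ V
        · have h3 : ∃ N : ℕ, t⁻¹ ^ N • y ∈ U := by
            by_contra h4
            push Not at h4
            have : y ∈ Spl U t := ⟨hy, Eventually.of_forall h4⟩
            rw [h1] at this
            exact this
          obtain ⟨N, hN⟩ := h3
          refine ((Set.finite_lt_nat N).image fun m => t⁻¹ ^ m • y).subset ?_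
          rintro x ⟨m, rfl, hm, -⟩
          refine ⟨m, ?_, rfl⟩
          by_contra h5
          exact hm N (not_lt.mp h5) hN
        · convert Set.finite_empty (α := X)
          ext x
          simp [hy]
      refine (hE.biUnion key).subset ?_
      rintro x ⟨hxV, hxU⟩
      have h4 : ∃ n : ℕ, t ^ n • x ∈ U := by
        have := hxV
        simp only [hV, Set.mem_ofPred_eq] at this
        rw [eventually_atTop] at this
        obtain ⟨N, h⟩ := this
        exact ⟨N, h N le_rfl⟩
      classical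
      obtain ⟨n, hn, hmin⟩ : ∃ n : ℕ, t ^ n • x ∈ U ∧ ∀ k < n, t ^ k • x ∉ U :=
        ⟨Nat.find h4, Nat.find_spec h4, fun k hk => Nat.find_min h4 hk⟩
      have hn0 : n ≠ 0 := by
        rintro rfl
        exact hxU (by simpa using hn)
      obtain ⟨m, rfl⟩ := Nat.exists_eq_succ_of_ne_zero hn0
      have hy : t ^ m • x ∈ Uᶜ \ (t⁻¹ • Uᶜ) := by
        refine ⟨hmin m (Nat.lt_succ_self m), ?_⟩
        rw [Set.mem_smul_set_iff_inv_smul_mem, inv_inv, smul_smul, ← pow_succ']
        simpa using hn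
      refine Set.mem_biUnion hy ⟨m, by rw [inv_pow, inv_smul_smul], ?_, (hVs m x).mpr hxV⟩
      intro k hk
      obtain ⟨l, rfl⟩ := Nat.exists_eq_add_of_le hk
      rw [pow_add, mul_smul, inv_pow t k, inv_smul_smul]
      exact hmin l (by omega)
    have f2 : (U \ V).Finite := by
      have hE : (U \ (t⁻¹ • U)).Finite := (hU t⁻¹).symm.finite_diff
      have key : ∀ y ∈ U \ (t⁻¹ • U),
          {x | ∃ m : ℕ, x = t⁻¹ ^ m • y ∧ (∀ k ≤ m, t⁻¹ ^ k • y ∈ U) ∧ y ∉ V}.Finite := by
        rintro y ⟨hyU, hyt⟩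
        by_cases h3 : ∃ N : ℕ, t⁻¹ ^ N • y ∉ U
        · obtain ⟨N, hN⟩ := h3
          refine ((Set.finite_lt_nat N).image fun m => t⁻¹ ^ m • y).subset ?_
          rintro x ⟨m, rfl, hm, -⟩
          refine ⟨m, ?_, rfl⟩
          by_contra h5
          exact hN (hm N (not_lt.mp h5))
        · push Not at h3
          have hy : y ∈ V := by
            by_cases hinj : Function.Injective fun n : ℕ => t ^ n • y
            · have h4 := eventually_congr_of_AE (hU t⁻¹) hinj
              rw [eventually_atTop] at h4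
              obtain ⟨N, h4⟩ := h4
              have h5 : ∀ n, N ≤ n → (t ^ n • y ∈ U ↔ t ^ (n + 1) • y ∈ U) := by
                intro n hn
                rw [← h4 n hn, Set.mem_smul_set_iff_inv_smul_mem, inv_inv, smul_smul, ← pow_succ']
              have h6 : ∀ n, N ≤ n → (t ^ n • y ∈ U ↔ t ^ N • y ∈ U) := by
                intro n hn
                induction n, hn using Nat.le_induction with
                | base => rfl
                | succ n hn ih => rw [← h5 n hn, ih]
              by_cases h7 : t ^ N • y ∈ U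
              · simp only [hV, Set.mem_ofPred_eq]
                rw [eventually_atTop]
                exact ⟨N, fun n hn => (h6 n hn).mpr h7⟩
              · exfalso
                have : y ∈ Spl Uᶜ t := by
                  refine ⟨?_, Eventually.of_forall fun n hn => hn (h3 n)⟩
                  rw [eventually_atTop]
                  exact ⟨N, fun n hn h8 => h7 ((h6 n hn).mp h8)⟩
                rw [h2] at this
                exact this
            · exfalso
              simp only [Function.Injective, not_forall] at hinj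
              obtain ⟨i, j, hij, hne⟩ := hinj
              have : ∃ d : ℕ, t ^ (d + 1) • y = y := by
                rcases lt_or_gt_of_ne hne with h | h
                · obtain ⟨k, rfl⟩ := Nat.exists_eq_add_of_lt h
                  refine ⟨k, ?_⟩
                  rw [add_assoc, pow_add, mul_smul] at hij
                  exact (MulAction.injective _ hij).symm
                · obtain ⟨k, rfl⟩ := Nat.exists_eq_add_of_lt h
                  refine ⟨k, ?_⟩
                  rw [add_assoc, pow_add, mul_smul] at hij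
                  exact MulAction.injective _ hij
              obtain ⟨d, hd⟩ := this
              apply hyt
              rw [Set.mem_smul_set_iff_inv_smul_mem, inv_inv]
              have h8 := h3 d
              have h9 : t • y = t⁻¹ ^ d • y := by
                conv_rhs => rw [← hd]
                rw [pow_succ, mul_smul, inv_pow, inv_smul_smul]
              rw [h9]
              exact h8
          convert Set.finite_empty (α := X)
          ext x
          simp [hy]
      refine (hE.biUnion key).subset ?_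
      rintro x ⟨hxU, hxV⟩
      have h4 : ∃ n : ℕ, t ^ n • x ∉ U := by
        by_contra h5
        push Not at h5
        exact hxV (Eventually.of_forall h5)
      classical
      obtain ⟨n, hn, hmin⟩ : ∃ n : ℕ, t ^ n • x ∉ U ∧ ∀ k < n, t ^ k • x ∈ U :=
        ⟨Nat.find h4, Nat.find_spec h4, fun k hk => by
          by_contra h6
          exact Nat.find_min h4 hk h6⟩
      have hn0 : n ≠ 0 := by
        rintro rfl
        exact hn (by simpa using hxU)
      obtain ⟨m, rfl⟩ := Nat.exists_eq_succ_of_ne_zero hn0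
      have hy : t ^ m • x ∈ U \ (t⁻¹ • U) := by
        refine ⟨hmin m (Nat.lt_succ_self m), ?_⟩
        rw [Set.mem_smul_set_iff_inv_smul_mem, inv_inv, smul_smul, ← pow_succ']
        exact hn
      refine Set.mem_biUnion hy ⟨m, by rw [inv_pow, inv_smul_smul], ?_,
        fun h => hxV ((hVs m x).mp h)⟩
      intro k hk
      obtain ⟨l, rfl⟩ := Nat.exists_eq_add_of_le hk
      rw [pow_add, mul_smul, inv_pow t k, inv_smul_smul]
      exact hmin l (by omega)
    unfold AE
    rw [Set.symmDiff_def]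
    exact f1.union f2
  · apply Set.Subset.antisymm
    · rintro _ ⟨x, hx, rfl⟩
      have := (hVs 1 x).mpr hx
      simpa using this
    · intro x hx
      rw [Set.mem_smul_set_iff_inv_smul_mem]
      rw [← hVs 1, pow_one, smul_inv_smul]
      exact hx

/-- The criterion for `t` to be elliptic. -/
theorem Ell_crit {U : Set X} (hU : AInv G U) {t : G}
    (h : ∀ φ : Subgroup.centralizer ({t} : Set G) →* Multiplicative ℤ,
      (∀ z : Subgroup.centralizer ({t} : Set G), Ell U (z : G) → φ z = 1) →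
        φ ⟨t, Subgroup.mem_centralizer_iff.mpr (by rintro _ rfl; rfl)⟩ = 1) :
    Ell U t :=
  Ell_of_empty hU (Hl_empty hU h)
    (Hl_empty hU.compl fun φ hφ => h φ fun z hz => hφ z hz.compl)

end Act

end Pool.Agent.H.MP_ee9c6f_al
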