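import Pool.Agent.H.MP_ee9c6f_al.MRel
import Pool.Agent.H.MP_ee9c6f_al.AI

/-!
MP_ee9c6f_al (helper22). In genus at least three the Dehn twists about nonseparating curves are
elliptic with respect to every almost invariant set.
-/

set_option autoImplicit false

namespace Pool.Agent.H.MP_ee9c6f_al

open Pointwise

variable {g : ℕ}

theorem phi_braid {G : Type*} [Group G] {C : Subgroup G} (φ : C →* Multiplicative ℤ) {x b : G}
    (hx : x ∈ C) (hb : b ∈ C) (h : x * b * x = b * x * b) : φ ⟨x, hx⟩ = φ ⟨b, hb⟩ := by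
  have h1 : (⟨x, hx⟩ : C) * ⟨b, hb⟩ * ⟨x, hx⟩ = ⟨b, hb⟩ * ⟨x, hx⟩ * ⟨b, hb⟩ := Subtype.ext h
  have h2 := congrArg φ h1
  simp only [map_mul] at h2
  have h3 : φ ⟨b, hb⟩ * φ ⟨x, hx⟩ * φ ⟨x, hx⟩ = φ ⟨b, hb⟩ * φ ⟨x, hx⟩ * φ ⟨b, hb⟩ := by
    rw [← h2, mul_comm (φ ⟨b, hb⟩)]
  exact mul_left_cancel h3

theorem cancel_aux (k s : Multiplicative ℤ) (h : k * s * k * k = k * k * k) : s = 1 := by
  have h1 : k * k * k * s = k * s * k * k := by ac_rfl
  rw [h] at h1
  exact mul_left_cancel (h1.trans (mul_one _).symm)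

theorem ell_base (hg : 3 ≤ g) {X : Type*} [MulAction (Mod g) X] {U : Set X}
    (hU : AInv (Mod g) U) : Ell U (twist g 1 2) := by
  apply Ell_crit hU
  intro φ _
  have hC : ∀ x : Mod g, Commute x (twist g 1 2) →
      x ∈ Subgroup.centralizer ({twist g 1 2} : Set (Mod g)) := by
    intro x hx
    rw [Subgroup.mem_centralizer_iff]
    rintro _ rfl
    exact hx.symm
  have c15 : Commute (twist g 1 5) (twist g 1 2) :=
    twist_comm (by omega) (by omega) (by unfold Lam; simp)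
  have c23 : Commute (twist g 2 3) (twist g 1 2) :=
    twist_comm (by omega) (by omega) (by unfold Lam; simp)
  have c35 : Commute (twist g 3 5) (twist g 1 2) :=
    twist_comm (by omega) (by omega) (by unfold Lam; simp)
  have c25 : Commute (twist g 2 5) (twist g 1 2) :=
    twist_comm (by omega) (by omega) (by unfold Lam; simp)
  have c13 : Commute (twist g 1 3) (twist g 1 2) :=
    twist_comm (by omega) (by omega) (by unfold Lam; simp)
  have hl := twist_lantern (g := g) 1 2 3 5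
  have cac : Commute (twAc g 1 2 3 5) (twist g 1 2) := by
    have : twAc g 1 2 3 5 = twist g 1 5 * twist g 1 2 * twist g 2 3 * twist g 3 5 *
        (twist g 1 3)⁻¹ * (twist g 2 5)⁻¹ := by
      rw [hl]
      group
    rw [this]
    exact ((((c15.mul_left (Commute.refl _)).mul_left c23).mul_left c35).mul_left
      c13.inv_left).mul_left c25.inv_left
  let j1 : Fin g := ⟨1, by omega⟩
  let j2 : Fin g := ⟨2, by omega⟩
  have ca1 : Commute (twA j1) (twist g 1 2) :=
    (twist_twA_comm j1 (Or.inr (Or.inr (by simp [j1])))).symm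
  have ca2 : Commute (twA j2) (twist g 1 2) :=
    (twist_twA_comm j2 (Or.inr (Or.inr (by simp [j2])))).symm
  have b13 : twist g 1 3 * twA j1 * twist g 1 3 = twA j1 * twist g 1 3 * twA j1 :=
    twist_braid_end (p := 1) j1 (by simp [j1])
  have b23 : twist g 2 3 * twA j1 * twist g 2 3 = twA j1 * twist g 2 3 * twA j1 :=
    twist_braid_end (p := 2) j1 (by simp [j1])
  have b35 : twist g 3 5 * twA j1 * twist g 3 5 = twA j1 * twist g 3 5 * twA j1 :=
    twist_braid_start (q := 5) j1 (by simp [j1])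
  have b35' : twist g 3 5 * twA j2 * twist g 3 5 = twA j2 * twist g 3 5 * twA j2 :=
    twist_braid_end (p := 3) j2 (by simp [j2])
  have b15 : twist g 1 5 * twA j2 * twist g 1 5 = twA j2 * twist g 1 5 * twA j2 :=
    twist_braid_end (p := 1) j2 (by simp [j2])
  have b25 : twist g 2 5 * twA j2 * twist g 2 5 = twA j2 * twist g 2 5 * twA j2 :=
    twist_braid_end (p := 2) j2 (by simp [j2])
  have bac : twAc g 1 2 3 5 * twA j2 * twAc g 1 2 3 5 = twA j2 * twAc g 1 2 3 5 * twA j2 :=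
    twAc_braid_end (p := 1) (m := 2) (n := 3) j2 (by omega) (by omega) (by simp [j2])
  have e13 := phi_braid φ (hC _ c13) (hC _ ca1) b13
  have e23 := phi_braid φ (hC _ c23) (hC _ ca1) b23
  have e35 := phi_braid φ (hC _ c35) (hC _ ca1) b35
  have e35' := phi_braid φ (hC _ c35) (hC _ ca2) b35'
  have e15 := phi_braid φ (hC _ c15) (hC _ ca2) b15
  have e25 := phi_braid φ (hC _ c25) (hC _ ca2) b25
  have eac := phi_braid φ (hC _ cac) (hC _ ca2) bac
  have hl2 : (⟨twist g 1 5, hC _ c15⟩ : Subgroup.centralizer ({twist g 1 2} : Set (Mod g))) *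
      ⟨twist g 1 2, hC _ (Commute.refl _)⟩ * ⟨twist g 2 3, hC _ c23⟩ *
      ⟨twist g 3 5, hC _ c35⟩ = ⟨twAc g 1 2 3 5, hC _ cac⟩ * ⟨twist g 2 5, hC _ c25⟩ *
      ⟨twist g 1 3, hC _ c13⟩ := Subtype.ext hl
  have hl3 := congrArg φ hl2
  simp only [map_mul] at hl3
  have e12 : φ ⟨twA j1, hC _ ca1⟩ = φ ⟨twA j2, hC _ ca2⟩ := e35.symm.trans e35'
  rw [e15, e23, e35, eac, e25, e13, e12] at hl3
  exact cancel_aux _ _ hl3

theorem ell_A (hg : 3 ≤ g) {X : Type*} [MulAction (Mod g) X] {U : Set X}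
    (hU : AInv (Mod g) U) : ∀ (j : ℕ) (hj : j < g), Ell U (twA (⟨j, hj⟩ : Fin g)) := by
  intro j
  induction j with
  | zero =>
    intro hj
    exact Ell.braid hU (twist_braid_start (q := 2) (⟨0, hj⟩ : Fin g) (by simp))
      (ell_base hg hU)
  | succ j ih =>
    intro hj
    have h1 : twist g (2 * j + 1) (2 * j + 3) * twA (⟨j, by omega⟩ : Fin g) *
        twist g (2 * j + 1) (2 * j + 3) = twA (⟨j, by omega⟩ : Fin g) *
        twist g (2 * j + 1) (2 * j + 3) * twA (⟨j, by omega⟩ : Fin g) :=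
      twist_braid_start (q := 2 * j + 3) (⟨j, by omega⟩ : Fin g) (by simp)
    have h2 : twist g (2 * j + 1) (2 * (j + 1) + 1) * twA (⟨j + 1, hj⟩ : Fin g) *
        twist g (2 * j + 1) (2 * (j + 1) + 1) = twA (⟨j + 1, hj⟩ : Fin g) *
        twist g (2 * j + 1) (2 * (j + 1) + 1) * twA (⟨j + 1, hj⟩ : Fin g) :=
      twist_braid_end (p := 2 * j + 1) (⟨j + 1, hj⟩ : Fin g) (by simp only; omega)
    have h3 := Ell.braid hU h1.symm (ih (by omega))
    rw [show 2 * j + 3 = 2 * (j + 1) + 1 by ring] at h3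
    exact Ell.braid hU h2 h3

theorem ell_start (hg : 3 ≤ g) {X : Type*} [MulAction (Mod g) X] {U : Set X}
    (hU : AInv (Mod g) U) {j q : ℕ} (hj : j < g) (hq : 2 * j + 2 ≤ q) :
    Ell U (twist g (2 * j + 1) q) :=
  Ell.braid hU (twist_braid_start (⟨j, hj⟩ : Fin g) hq).symm (ell_A hg hU j hj)

end Pool.Agent.H.MP_ee9c6f_al
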