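import Pool.Agent.H.MP_ee9c6f_al.Defs
import Pool.Agent.H.MP_ee9c6f_al.AI

/-!
MP_ee9c6f_al (helper22). Relative ends and almost invariant sets.
-/

set_option autoImplicit false

namespace Pool.Agent.H.MP_ee9c6f_al

open Pointwise

variable {Γ : Type} [Group Γ]

theorem reach_of_mem {S : Set Γ} {H : Subgroup Γ} {K : Set (Γ ⧸ H)} {s : Γ} (hs : s ∈ S)
    {x : Γ ⧸ H} (hx : x ∈ Kᶜ) (hy : s • x ∈ Kᶜ) :
    ((schreier S H).induce Kᶜ).Reachable ⟨x, hx⟩ ⟨s • x, hy⟩ := by
  by_cases h : x = s • x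
  · have : (⟨x, hx⟩ : (Kᶜ : Set (Γ ⧸ H))) = ⟨s • x, hy⟩ := Subtype.ext h
    rw [this]
  · apply SimpleGraph.Adj.reachable
    rw [SimpleGraph.comap_adj]
    exact ⟨h, Or.inl ⟨s, hs, rfl⟩⟩

theorem exists_AInv {S : Set Γ} (hS : Subgroup.closure S = ⊤) {H : Subgroup Γ}
    (h : 2 ≤ relEnds S H) : ∃ U : Set (Γ ⧸ H), AInv Γ U ∧ U.Infinite ∧ Uᶜ.Infinite := by
  obtain ⟨K, hK⟩ : ∃ K : Finset (Γ ⧸ H), ¬ Subsingleton
      {C : ((schreier S H).induce ((K : Set (Γ ⧸ H))ᶜ)).ConnectedComponent //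
        C.supp.Infinite} := by
    by_contra hcon
    push Not at hcon
    have : relEnds S H ≤ 1 := by
      apply iSup_le
      intro K
      exact (ENat.card_le_one_iff_subsingleton _).mpr (hcon K)
    exact absurd (h.trans this) (by norm_num)
  rw [not_subsingleton_iff_nontrivial] at hK
  obtain ⟨⟨C1, h1⟩, ⟨C2, h2⟩, h12⟩ := hK.exists_pair_ne
  have h12' : C1 ≠ C2 := fun e => h12 (Subtype.ext e)
  set U : Set (Γ ⧸ H) := Subtype.val '' C1.supp with hU
  have memU : ∀ (x : Γ ⧸ H) (hx : x ∈ ((K : Set (Γ ⧸ H))ᶜ)), x ∈ U ↔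
      ((schreier S H).induce ((K : Set (Γ ⧸ H))ᶜ)).connectedComponentMk ⟨x, hx⟩ = C1 := by
    intro x hx
    constructor
    · rintro ⟨⟨y, hy⟩, hy', rfl⟩
      exact hy'
    · intro h
      exact ⟨⟨x, hx⟩, h, rfl⟩
  have hUK : ∀ x ∈ U, x ∈ ((K : Set (Γ ⧸ H))ᶜ) := by
    rintro _ ⟨⟨y, hy⟩, -, rfl⟩
    exact hy
  have hstep : ∀ s ∈ S, AE (s • U) U := by
    intro s hs
    have hfin : ((K : Set (Γ ⧸ H)) ∪ s • (K : Set (Γ ⧸ H))).Finite :=
      (Finset.finite_toSet K).union ((Finset.finite_toSet K).smul_set)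
    refine hfin.subset ?_
    rintro y (⟨hy1, hy2⟩ | ⟨hy1, hy2⟩)
    · left
      obtain ⟨x, hx, rfl⟩ := hy1
      by_contra hyK
      apply hy2
      have hr := reach_of_mem hs (hUK x hx) hyK
      change s • x ∈ U
      rw [memU _ hyK, ← (memU x (hUK x hx)).mp hx]
      exact (SimpleGraph.ConnectedComponent.eq.mpr hr).symm
    · right
      rw [Set.mem_smul_set_iff_inv_smul_mem]
      by_contra hxK
      apply hy2
      rw [Set.mem_smul_set_iff_inv_smul_mem]
      have hyK : s • s⁻¹ • y ∈ ((K : Set (Γ ⧸ H))ᶜ) := by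
        rw [smul_inv_smul]
        exact hUK y hy1
      have hr := reach_of_mem hs (x := s⁻¹ • y) hxK hyK
      rw [memU _ hxK, SimpleGraph.ConnectedComponent.eq.mpr hr]
      apply (memU _ hyK).mp
      rw [smul_inv_smul]
      exact hy1
  have hAI : AInv Γ U := by
    intro g
    have hg : g ∈ Subgroup.closure S := by rw [hS]; trivial
    induction hg using Subgroup.closure_induction with
    | mem s hs => exact hstep s hs
    | one => rw [one_smul]; exact AE.refl _
    | mul g h _ _ ihg ihh =>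
      rw [mul_smul]
      exact (ihh.smul g).trans ihg
    | inv g _ ih =>
      have := (ih.smul g⁻¹).symm
      rwa [inv_smul_smul] at this
  refine ⟨U, hAI, h1.image Subtype.val_injective.injOn, ?_⟩
  refine (h2.image Subtype.val_injective.injOn (f := Subtype.val)).mono ?_
  rintro _ ⟨⟨y, hy⟩, hy', rfl⟩ hyU
  exact h12' (((memU y hy).mp hyU).symm.trans hy')

theorem relEnds_eq_zero_iff {S : Set Γ} (hS : Subgroup.closure S = ⊤) (H : Subgroup Γ) :
    relEnds S H = 0 ↔ H.FiniteIndex := by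
  constructor
  · intro h
    by_contra hH
    have hinf : Infinite (Γ ⧸ H) := by
      by_contra hfin
      rw [not_infinite_iff_finite] at hfin
      exact hH (Subgroup.finiteIndex_of_finite_quotient)
    let K : Finset (Γ ⧸ H) := ∅
    have hK : ∀ x : Γ ⧸ H, x ∈ ((K : Set (Γ ⧸ H))ᶜ) := fun x => by simp [K]
    have hreach : ∀ (g : Γ) (x : Γ ⧸ H),
        ((schreier S H).induce ((K : Set (Γ ⧸ H))ᶜ)).Reachable ⟨x, hK x⟩ ⟨g • x, hK _⟩ := by
      intro g
      have hg : g ∈ Subgroup.closure S := by rw [hS]; trivial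
      induction hg using Subgroup.closure_induction with
      | mem s hs => intro x; exact reach_of_mem hs _ _
      | one =>
        intro x
        have : (⟨x, hK x⟩ : ((K : Set (Γ ⧸ H))ᶜ : Set (Γ ⧸ H))) = ⟨(1 : Γ) • x, hK _⟩ :=
          Subtype.ext (one_smul _ _).symm
        rw [this]
      | mul g h _ _ ihg ihh =>
        intro x
        have e : (⟨(g * h) • x, hK _⟩ : ((K : Set (Γ ⧸ H))ᶜ : Set (Γ ⧸ H))) =
            ⟨g • h • x, hK _⟩ := Subtype.ext (mul_smul _ _ _)
        rw [e]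
        exact (ihh x).trans (ihg (h • x))
      | inv g _ ih =>
        intro x
        have e : (⟨g • g⁻¹ • x, hK _⟩ : ((K : Set (Γ ⧸ H))ᶜ : Set (Γ ⧸ H))) = ⟨x, hK x⟩ :=
          Subtype.ext (smul_inv_smul _ _)
        have := ih (g⁻¹ • x)
        rw [e] at this
        exact this.symm
    let x₀ : Γ ⧸ H := ((1 : Γ) : Γ ⧸ H)
    let C := ((schreier S H).induce ((K : Set (Γ ⧸ H))ᶜ)).connectedComponentMk ⟨x₀, hK x₀⟩
    have hC : C.supp = Set.univ := by
      ext ⟨y, hy⟩
      simp only [Set.mem_univ, iff_true]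
      obtain ⟨g, rfl⟩ := MulAction.exists_smul_eq Γ x₀ y
      exact (SimpleGraph.ConnectedComponent.eq.mpr (hreach g x₀)).symm
    have hCinf : C.supp.Infinite := by
      rw [hC, Set.infinite_univ_iff]
      have : Function.Injective (fun x : Γ ⧸ H =>
          (⟨x, hK x⟩ : ((K : Set (Γ ⧸ H))ᶜ : Set (Γ ⧸ H)))) := fun x y hxy =>
        congrArg Subtype.val hxy
      exact Infinite.of_injective _ this
    have h1 : ENat.card {C : ((schreier S H).induce ((K : Set (Γ ⧸ H))ᶜ)).ConnectedComponent //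
        C.supp.Infinite} ≤ 0 := by
      rw [← h]
      exact le_iSup (fun K : Finset (Γ ⧸ H) => ENat.card
        {C : ((schreier S H).induce ((K : Set (Γ ⧸ H))ᶜ)).ConnectedComponent //
          C.supp.Infinite}) K
    have h2 := ENat.card_eq_zero_iff_empty _ |>.mp (le_antisymm h1 zero_le)
    exact h2.false ⟨C, hCinf⟩
  · intro h
    have hfin : Finite (Γ ⧸ H) := Subgroup.finite_quotient_of_finiteIndex
    apply le_antisymm _ zero_le
    apply iSup_le
    intro K
    have : IsEmpty {C : ((schreier S H).induce ((K : Set (Γ ⧸ H))ᶜ)).ConnectedComponent //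
        C.supp.Infinite} := ⟨fun C => C.2 (Set.toFinite _)⟩
    rw [(ENat.card_eq_zero_iff_empty _).mpr this]

end Pool.Agent.H.MP_ee9c6f_al
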