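import Pool.Agent.H.MP_ee9c6f_al.Tau
import Pool.Agent.H.MP_ee9c6f_al.Ell
import Pool.Agent.H.MP_ee9c6f_al.Ends

/-!
MP_ee9c6f_al (helper22). Subgroups of the mapping class group with at least two relative ends.
-/

set_option autoImplicit false

namespace Pool.Agent.H.MP_ee9c6f_al

open Pointwise

/-- Some positive power of `t` lies in `H`. -/
def HasPow {Γ : Type} [Group Γ] (H : Subgroup Γ) (t : Γ) : Prop := ∃ n : ℕ, 0 < n ∧ t ^ n ∈ H

/-- First alternative: for every family `L` of pairwise disjoint or nested intervals `(i, k)`,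
after conjugation `H` contains a positive power of every Lickorish twist and of every twist about
the curve around the feet `2i + 1, …, 2k` with `(i, k)` in `L`. -/
def CaseI (g : ℕ) (H : Subgroup (Mod g)) : Prop :=
  ∀ L : Set (ℕ × ℕ), (∀ I ∈ L, I.1 < I.2 ∧ I.2 < g) → (∀ I ∈ L, ∀ J ∈ L, Lam I J) →
    ∃ γ : Mod g,
      (∀ j : Fin g, HasPow H (γ * twA j * γ⁻¹) ∧
        HasPow H (γ * twist g (2 * j + 1) (2 * j + 2) * γ⁻¹)) ∧
      (∀ j : ℕ, j + 1 < g → HasPow H (γ * twist g (2 * j + 1) (2 * j + 3) * γ⁻¹)) ∧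
      ∀ I ∈ L, HasPow H (γ * twist g (2 * I.1 + 1) (2 * I.2 + 1) * γ⁻¹)

/-- Second alternative: after conjugation `H` contains a subgroup of finite index of the
centraliser of the two twists about `a_0` and `b_0` and a positive power of the twist about the
curve around the feet `1, 2`, but no positive power of the twists about `a_0` and `b_0`. -/
def CaseII (g : ℕ) (hg : 3 ≤ g) (H : Subgroup (Mod g)) : Prop :=
  ∃ γ : Mod g,
    H.relIndex (Subgroup.centralizer ({γ * twA (⟨0, by omega⟩ : Fin g) * γ⁻¹,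
      γ * twist g 1 2 * γ⁻¹} : Set (Mod g))) ≠ 0 ∧
    HasPow H (γ * twist g 1 3 * γ⁻¹) ∧
    ¬ HasPow H (γ * twA (⟨0, by omega⟩ : Fin g) * γ⁻¹) ∧
    ¬ HasPow H (γ * twist g 1 2 * γ⁻¹)

/-! ### From orbits to subgroups -/

section Orbits

variable {Γ : Type} [Group Γ] {H : Subgroup Γ}

theorem hasPow_of_not_InfO {t δ : Γ} (h : ((δ : Γ) : Γ ⧸ H) ∉ InfO (Γ ⧸ H) t) :
    HasPow H (δ⁻¹ * t * δ⁻¹⁻¹) := by
  have : ∃ n : ℕ, 0 < n ∧ t ^ n • ((δ : Γ) : Γ ⧸ H) = ((δ : Γ) : Γ ⧸ H) := by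
    by_contra hcon
    exact h fun n hn h' => hcon ⟨n, hn, h'⟩
  obtain ⟨n, hn, h'⟩ := this
  refine ⟨n, hn, ?_⟩
  have h2 : (((t ^ n * δ : Γ)) : Γ ⧸ H) = ((δ : Γ) : Γ ⧸ H) := h'
  rw [conj_pow, inv_inv]
  have h3 := QuotientGroup.eq.mp h2.symm
  simpa [mul_assoc] using h3

theorem not_hasPow_of_InfO {t δ : Γ} (h : ((δ : Γ) : Γ ⧸ H) ∈ InfO (Γ ⧸ H) t) :
    ¬ HasPow H (δ⁻¹ * t * δ⁻¹⁻¹) := by
  rintro ⟨n, hn, h'⟩
  apply h n hn
  rw [conj_pow, inv_inv] at h'
  change (((t ^ n * δ : Γ)) : Γ ⧸ H) = ((δ : Γ) : Γ ⧸ H)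
  symm
  rw [QuotientGroup.eq]
  simpa [mul_assoc] using h'

theorem relIndex_of_orbit (C : Subgroup Γ)
    (h : (MulAction.orbit C (((1 : Γ)) : Γ ⧸ H)).Finite) : H.relIndex C ≠ 0 := by
  have h1 : H.subgroupOf C = MulAction.stabilizer C (((1 : Γ)) : Γ ⧸ H) := by
    ext ⟨z, hz⟩
    rw [Subgroup.mem_subgroupOf, MulAction.mem_stabilizer_iff]
    change z ∈ H ↔ (((z * 1 : Γ)) : Γ ⧸ H) = ((1 : Γ) : Γ ⧸ H)
    rw [mul_one, eq_comm, QuotientGroup.eq]
    simp
  unfold Subgroup.relIndex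
  rw [h1, MulAction.index_stabilizer]
  exact ((Set.ncard_pos h).mpr ⟨_, MulAction.mem_orbit_self _⟩).ne'

end Orbits

/-! ### Pairs of curves that meet once -/

variable {g : ℕ}

/-- The pair `u, v` is conjugate to the pair of twists about `a_0, b_0`. -/
def PairEq (hg : 0 < g) (u v : Mod g) : Prop :=
  ∃ s : Mod g, s * twA (⟨0, hg⟩ : Fin g) * s⁻¹ = u ∧ s * twist g 1 2 * s⁻¹ = v

theorem PairEq.step {hg : 0 < g} {u v u' v' : Mod g} (h : PairEq hg u v) (D : Mod g)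
    (h1 : D * u = u' * D) (h2 : D * v = v' * D) : PairEq hg u' v' := by
  obtain ⟨s, h3, h4⟩ := h
  refine ⟨D * s, ?_, ?_⟩
  · calc D * s * twA (⟨0, hg⟩ : Fin g) * (D * s)⁻¹ =
        D * (s * twA (⟨0, hg⟩ : Fin g) * s⁻¹) * D⁻¹ := by group
      _ = u' := by rw [h3, h1]; group
  · calc D * s * twist g 1 2 * (D * s)⁻¹ = D * (s * twist g 1 2 * s⁻¹) * D⁻¹ := by group
      _ = v' := by rw [h4, h2]; group

theorem braid_b (j : Fin g) : twist g (2 * j + 1) (2 * j + 2) * twA j *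
    twist g (2 * j + 1) (2 * j + 2) = twA j * twist g (2 * j + 1) (2 * j + 2) * twA j :=
  twist_braid_start j le_rfl

/-- If the twist `z` commutes with `b_j` and satisfies the braid relation with `a_j`, then the
pairs `a_j, b_j` and `a_j, z` are conjugate. -/
theorem PairEq.change {hg : 0 < g} {j : Fin g} {z : Mod g}
    (h : PairEq hg (twA j) (twist g (2 * j + 1) (2 * j + 2)))
    (hz : z * twA j * z = twA j * z * twA j)
    (hc : twist g (2 * j + 1) (2 * j + 2) * z = z * twist g (2 * j + 1) (2 * j + 2)) :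
    PairEq hg (twA j) z := by
  have h1 := chain_swap (braid_b j) hz.symm hc
  exact h.step _ h1.2.1 h1.1

theorem pairEq_b (hg : 0 < g) : ∀ (j : ℕ) (hj : j < g),
    PairEq hg (twA (⟨j, hj⟩ : Fin g)) (twist g (2 * j + 1) (2 * j + 2)) := by
  intro j
  induction j with
  | zero => intro hj; exact ⟨1, by simp, by simp⟩
  | succ j ih =>
    intro hj
    have hj' : j < g := by omega
    have k1 : twist g (2 * j + 1) (2 * j + 3) * twA (⟨j, hj'⟩ : Fin g) *
        twist g (2 * j + 1) (2 * j + 3) = twA (⟨j, hj'⟩ : Fin g) *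
        twist g (2 * j + 1) (2 * j + 3) * twA (⟨j, hj'⟩ : Fin g) :=
      twist_braid_start (q := 2 * j + 3) (⟨j, hj'⟩ : Fin g) (by simp)
    have k2 : twist g (2 * j + 1) (2 * (j + 1) + 1) * twA (⟨j + 1, hj⟩ : Fin g) *
        twist g (2 * j + 1) (2 * (j + 1) + 1) = twA (⟨j + 1, hj⟩ : Fin g) *
        twist g (2 * j + 1) (2 * (j + 1) + 1) * twA (⟨j + 1, hj⟩ : Fin g) :=
      twist_braid_end (p := 2 * j + 1) (⟨j + 1, hj⟩ : Fin g) (by simp only; omega)
    rw [show 2 * (j + 1) + 1 = 2 * j + 3 by ring] at k2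
    -- `a_j, c_j`
    have s1 : PairEq hg (twA (⟨j, hj'⟩ : Fin g)) (twist g (2 * j + 1) (2 * j + 3)) :=
      (ih hj').change k1 (twist_comm (by omega) (by omega) (by unfold Lam; simp)).eq
    -- `a_{j+1}, c_j`
    have w1 := chain_swap k1.symm k2 (twA_comm (⟨j, hj'⟩ : Fin g) (⟨j + 1, hj⟩ : Fin g)).eq
    have s2 : PairEq hg (twA (⟨j + 1, hj⟩ : Fin g)) (twist g (2 * j + 1) (2 * j + 3)) :=
      s1.step _ w1.1 w1.2.1
    -- `a_{j+1}, b_{j+1}`
    have k3 := braid_b (⟨j + 1, hj⟩ : Fin g)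
    simp only at k3
    have w2 := chain_swap k2 k3.symm
      (twist_comm (g := g) (p := 2 * j + 1) (q := 2 * j + 3) (p' := 2 * (j + 1) + 1)
        (q' := 2 * (j + 1) + 2) (by omega) (by omega) (by unfold Lam; simp only; omega)).eq
    exact s2.step _ w2.2.1 w2.1

theorem pairEq_start (hg : 0 < g) (j : Fin g) {q : ℕ} (hq : 2 * (j : ℕ) + 2 ≤ q) :
    PairEq hg (twA j) (twist g (2 * j + 1) q) := by
  have h : PairEq hg (twA j) (twist g (2 * j + 1) (2 * j + 2)) := pairEq_b hg j j.2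
  exact h.change (twist_braid_start j hq)
    (twist_comm (by omega) (by omega) (by unfold Lam; simp only; omega)).eq

theorem pairEq_end (hg : 0 < g) (j : Fin g) {p : ℕ} (hp : p ≤ 2 * j) :
    PairEq hg (twA j) (twist g p (2 * j + 1)) := by
  have h : PairEq hg (twA j) (twist g (2 * j + 1) (2 * j + 2)) := pairEq_b hg j j.2
  exact h.change (twist_braid_end j hp)
    (twist_comm (by omega) (by omega) (by unfold Lam; simp only; omega)).eq

/-! ### The second alternative from two different values -/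

theorem caseII_of_ne (hg : 3 ≤ g) {H : Subgroup (Mod g)} {U : Set (Mod g ⧸ H)}
    (hU : AInv (Mod g) U) {u v : Mod g} (huv : PairEq (by omega : 0 < g) u v)
    {V W : Set (Mod g ⧸ H)} (hV : AE V U) (huV : u • V = V) (hW : AE W U) (hvW : v • W = W)
    {x : Mod g ⧸ H} (hxu : x ∈ InfO (Mod g ⧸ H) u) (hxv : x ∈ InfO (Mod g ⧸ H) v)
    (hne : ¬ (x ∈ V ↔ x ∈ W)) : CaseII g hg H := by
  obtain ⟨s, h1, h2⟩ := huv
  set a := twA (⟨0, by omega⟩ : Fin g) with ha
  set b := twist g 1 2 with hb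
  set c := twist g 1 3 with hc
  have hab : a * b * a = b * a * b :=
    (twist_braid_start (q := 2) (⟨0, by omega⟩ : Fin g) (by simp)).symm
  have hac : a * c * a = c * a * c :=
    (twist_braid_start (q := 3) (⟨0, by omega⟩ : Fin g) (by simp)).symm
  have hbc : b * c = c * b :=
    (twist_comm (g := g) (p := 1) (q := 2) (p' := 1) (q' := 3) (by omega) (by omega)
      (by unfold Lam; simp)).eq
  have hmove : ∀ (t : Mod g) (Z : Set (Mod g ⧸ H)), (s * t * s⁻¹) • Z = Z →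
      t • (s⁻¹ • Z) = s⁻¹ • Z := by
    intro t Z hZ
    have : t • (s⁻¹ • Z) = s⁻¹ • ((s * t * s⁻¹) • Z) := by
      simp only [smul_smul]
      congr 1
      group
    rw [this, hZ]
  obtain ⟨y, hya, hyb, hyf, n, hn, hyc⟩ := tau_main hU hab hac hbc (b_mem_closure hg)
    (V := s⁻¹ • V) (W := s⁻¹ • W) ((hV.smul _).trans (hU _)) (hmove a V (by rw [h1, huV]))
    ((hW.smul _).trans (hU _)) (hmove b W (by rw [h2, hvW]))
    (InfO.of_conj s (by rwa [h1])) (InfO.of_conj s (by rwa [h2]))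
    (x := s⁻¹ • x) (by rw [Set.smul_mem_smul_set_iff, Set.smul_mem_smul_set_iff]; exact hne)
  induction y using QuotientGroup.induction_on with
  | H δ =>
  refine ⟨δ⁻¹, ?_, ?_, not_hasPow_of_InfO hya, not_hasPow_of_InfO hyb⟩
  · apply relIndex_of_orbit
    have h3 := orbit_conj (u := δ⁻¹ * a * δ⁻¹⁻¹) (v := δ⁻¹ * b * δ⁻¹⁻¹) δ
      (x := ((δ : Mod g) : Mod g ⧸ H)) (by
        rw [show δ * (δ⁻¹ * a * δ⁻¹⁻¹) * δ⁻¹ = a by group,
          show δ * (δ⁻¹ * b * δ⁻¹⁻¹) * δ⁻¹ = b by group]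
        exact hyf)
    have h4 : δ⁻¹ • ((δ : Mod g) : Mod g ⧸ H) = ((1 : Mod g) : Mod g ⧸ H) := by
      change (((δ⁻¹ * δ : Mod g)) : Mod g ⧸ H) = _
      rw [inv_mul_cancel]
    rwa [h4] at h3
  · apply hasPow_of_not_InfO
    exact fun h => h n hn hyc

/-! ### The main theorem -/

/-- The curves in the family: `inl j` is `a_j`, `inr (p, q)` is the curve around the feet
`p, …, q - 1`. -/
def crv (g : ℕ) : Fin g ⊕ ℕ × ℕ → Mod g
  | Sum.inl j => twA j
  | Sum.inr I => twist g I.1 I.2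

/-- Crossing. -/
def cr {g : ℕ} : Fin g ⊕ ℕ × ℕ → Fin g ⊕ ℕ × ℕ → Prop
  | Sum.inl j, Sum.inr I => I.1 = 2 * j + 1 ∨ I.2 = 2 * j + 1
  | Sum.inr I, Sum.inl j => I.1 = 2 * j + 1 ∨ I.2 = 2 * j + 1
  | _, _ => False

/-- The intervals in the family. -/
def ivs (g : ℕ) (L : Set (ℕ × ℕ)) : Set (ℕ × ℕ) :=
  {I | (∃ j < g, I = (2 * j + 1, 2 * j + 2)) ∨ (∃ j, j + 1 < g ∧ I = (2 * j + 1, 2 * j + 3)) ∨
    ∃ J ∈ L, I = (2 * J.1 + 1, 2 * J.2 + 1)}

theorem ivs_spec {L : Set (ℕ × ℕ)} (hL : ∀ I ∈ L, I.1 < I.2 ∧ I.2 < g) {I : ℕ × ℕ}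
    (hI : I ∈ ivs g L) : I.1 < I.2 ∧ I.2 ≤ 2 * g ∧ I.1 % 2 = 1 ∧ I.1 < 2 * g := by
  rcases hI with ⟨j, hj, rfl⟩ | ⟨j, hj, rfl⟩ | ⟨J, hJ, rfl⟩
  · simp only; omega
  · simp only; omega
  · have := hL J hJ
    simp only; omega

theorem ivs_lam {L : Set (ℕ × ℕ)} (hL : ∀ I ∈ L, I.1 < I.2 ∧ I.2 < g)
    (hLam : ∀ I ∈ L, ∀ J ∈ L, Lam I J) {I J : ℕ × ℕ} (hI : I ∈ ivs g L) (hJ : J ∈ ivs g L) :
    Lam I J := by
  unfold Lam
  rcases hI with ⟨i, hi, rfl⟩ | ⟨i, hi, rfl⟩ | ⟨I, hI, rfl⟩ <;>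
    rcases hJ with ⟨j, hj, rfl⟩ | ⟨j, hj, rfl⟩ | ⟨J, hJ, rfl⟩
  · simp only; omega
  · simp only; omega
  · have := hL J hJ
    simp only; omega
  · simp only; omega
  · simp only; omega
  · have := hL J hJ
    simp only; omega
  · have := hL I hI
    simp only; omega
  · have := hL I hI
    simp only; omega
  · have h1 := hL I hI
    have h2 := hL J hJ
    have h3 := hLam I hI J hJ
    unfold Lam at h3
    simp only
    omega

/-- The generators of `Mod g`. -/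
theorem closure_crv (L : Set (ℕ × ℕ)) :
    Subgroup.closure (crv g '' (Set.range Sum.inl ∪ Sum.inr '' ivs g L)) = ⊤ := by
  rw [eq_top_iff]
  have h2 := Subgroup.closure_closure_coe_preimage
    (k := {x : Out (Surf g) | ∃ j : Fin g, x = Bt j ∨ x = Tw g (2 * j + 1) (2 * j + 2) ∨
      ((j : ℕ) + 1 < g ∧ x = Tw g (2 * j + 1) (2 * j + 3))})
  change Subgroup.closure ((Subtype.val : Mod g → Out (Surf g)) ⁻¹' _) = ⊤ at h2
  rw [← h2]
  apply Subgroup.closure_mono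
  rintro ⟨x, hx⟩ hx'
  change ∃ j : Fin g, x = Bt j ∨ x = Tw g (2 * j + 1) (2 * j + 2) ∨
      ((j : ℕ) + 1 < g ∧ x = Tw g (2 * j + 1) (2 * j + 3)) at hx'
  obtain ⟨j, h | h | ⟨h', h⟩⟩ := hx'
  · exact ⟨Sum.inl j, Or.inl ⟨j, rfl⟩, Subtype.ext h.symm⟩
  · exact ⟨Sum.inr (2 * j + 1, 2 * j + 2), Or.inr ⟨_, Or.inl ⟨j, j.2, rfl⟩, rfl⟩,
      Subtype.ext h.symm⟩
  · exact ⟨Sum.inr (2 * j + 1, 2 * j + 3), Or.inr ⟨_, Or.inr (Or.inl ⟨j, h', rfl⟩), rfl⟩,
      Subtype.ext h.symm⟩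

theorem dichotomy (hg : 3 ≤ g) {S : Set (Mod g)} (hS : Subgroup.closure S = ⊤)
    {H : Subgroup (Mod g)} (h : 2 ≤ relEnds S H) : CaseI g H ∨ CaseII g hg H := by
  by_cases hII : CaseII g hg H
  · exact Or.inr hII
  left
  intro L hL hLam
  obtain ⟨U, hU, hU1, hU2⟩ := exists_AInv hS h
  have hcon : ¬ (U.Finite ∨ Uᶜ.Finite) := by
    rintro (h | h)
    · exact hU1 h
    · exact hU2 h
  set K := ivs g L with hK
  set K₀ := ivs g ∅ with hK₀
  have hK₀K : K₀ ⊆ K := by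
    rintro I (h | h | ⟨J, hJ, -⟩)
    · exact Or.inl h
    · exact Or.inr (Or.inl h)
    · exact absurd hJ (by simp)
  let C : Set (Fin g ⊕ ℕ × ℕ) := Set.range Sum.inl ∪ Sum.inr '' K
  let C₀ : Set (Fin g ⊕ ℕ × ℕ) := Set.range Sum.inl ∪ Sum.inr '' K₀
  have hCfin : C.Finite := by
    apply (Set.finite_range _).union
    apply Set.Finite.image
    apply ((Set.finite_Iio (2 * g)).prod (Set.finite_Iic (2 * g))).subset
    intro I hI
    have := ivs_spec hL hI
    exact ⟨this.2.2.2, this.2.1⟩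
  have hnot : ¬ ∀ x : Mod g ⧸ H, ∃ i ∈ C, x ∈ InfO (Mod g ⧸ H) (crv g i) := by
    intro one
    apply hcon
    refine family (crv g) C hCfin C₀ ?_ hU ?_ cr ?_ ?_ ?_ one (closure_crv ∅)
    · rintro i (hi | ⟨I, hI, rfl⟩)
      · exact Or.inl hi
      · exact Or.inr ⟨I, hK₀K hI, rfl⟩
    · -- ellipticity
      rintro i (⟨j, rfl⟩ | ⟨I, hI, rfl⟩)
      · exact ell_A hg hU j j.2
      · have h1 := ivs_spec hL hI
        have h2 : I.1 = 2 * (I.1 / 2) + 1 := by omega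
        change Ell U (twist g I.1 I.2)
        rw [h2]
        exact ell_start hg hU (by omega) (by omega)
    · -- commutation
      rintro i (⟨j, rfl⟩ | ⟨I, hI, rfl⟩) k (⟨l, rfl⟩ | ⟨J, hJ, rfl⟩) hcr
      · exact twA_comm j l
      · have h1 := ivs_spec hL hJ
        change ¬ (J.1 = 2 * j + 1 ∨ J.2 = 2 * j + 1) at hcr
        exact (twist_twA_comm j (by omega)).symm
      · have h1 := ivs_spec hL hI
        change ¬ (I.1 = 2 * l + 1 ∨ I.2 = 2 * l + 1) at hcr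
        exact twist_twA_comm l (by omega)
      · have h1 := ivs_spec hL hI
        have h2 := ivs_spec hL hJ
        exact twist_comm h1.1.le h2.1.le (ivs_lam hL hLam hI hJ)
    · -- the values agree
      have key : ∀ (j : Fin g) (I : ℕ × ℕ), I ∈ K → (I.1 = 2 * j + 1 ∨ I.2 = 2 * j + 1) →
          PairEq (by omega : 0 < g) (twA j) (twist g I.1 I.2) := by
        intro j I hI hcr
        have h1 := ivs_spec hL hI
        rcases hcr with h2 | h2
        · rw [h2]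
          exact pairEq_start _ j (by omega)
        · rw [h2]
          exact pairEq_end _ j (by omega)
      rintro i (⟨j, rfl⟩ | ⟨I, hI, rfl⟩) k (⟨l, rfl⟩ | ⟨J, hJ, rfl⟩) hcr x hxi hxk V W hV hW
        hiV hkW
      · exact hcr.elim
      · by_contra hne
        exact hII (caseII_of_ne hg hU (key j J hJ hcr) hV hiV hW hkW hxi hxk hne)
      · by_contra hne
        exact hII (caseII_of_ne hg hU (key l I hI hcr) hW hkW hV hiV hxk hxi
          fun h => hne h.symm)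
      · exact hcr.elim
    · -- curves that cross a generator
      rintro e (⟨m, rfl⟩ | ⟨M, hM, rfl⟩) i (⟨j, rfl⟩ | ⟨I, hI, rfl⟩) k (⟨l, rfl⟩ | ⟨J, hJ, rfl⟩)
        hie hke
      · exact hie.elim
      · exact hie.elim
      · exact hke.elim
      · refine ⟨fun h => h, ?_⟩
        have h1 := ivs_spec hL hJ
        change J.1 = 2 * m + 1 ∨ J.2 = 2 * m + 1 at hke
        change twist g J.1 J.2 * twA m * twist g J.1 J.2 = twA m * twist g J.1 J.2 * twA m
        rcases hke with h2 | h2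
        · rw [h2]
          exact twist_braid_start m (by omega)
        · rw [h2]
          exact twist_braid_end m (by omega)
      · refine ⟨fun h => h, ?_⟩
        have h1 := ivs_spec hL (hK₀K hM)
        change M.1 = 2 * l + 1 ∨ M.2 = 2 * l + 1 at hke
        change twA l * twist g M.1 M.2 * twA l = twist g M.1 M.2 * twA l * twist g M.1 M.2
        rcases hke with h2 | h2
        · rw [h2]
          exact (twist_braid_start l (by omega)).symm
        · rw [h2]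
          exact (twist_braid_end l (by omega)).symm
      · exact hke.elim
      · exact hie.elim
      · exact hie.elim
  push Not at hnot
  obtain ⟨x, hx⟩ := hnot
  induction x using QuotientGroup.induction_on with
  | H δ =>
  refine ⟨δ⁻¹, fun j => ⟨?_, ?_⟩, fun j hj => ?_, fun I hI => ?_⟩
  · exact hasPow_of_not_InfO (hx (Sum.inl j) (Or.inl ⟨j, rfl⟩))
  · exact hasPow_of_not_InfO (hx (Sum.inr (2 * j + 1, 2 * j + 2))
      (Or.inr ⟨_, Or.inl ⟨j, j.2, rfl⟩, rfl⟩))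
  · exact hasPow_of_not_InfO (hx (Sum.inr (2 * j + 1, 2 * j + 3))
      (Or.inr ⟨_, Or.inr (Or.inl ⟨j, hj, rfl⟩), rfl⟩))
  · exact hasPow_of_not_InfO (hx (Sum.inr (2 * I.1 + 1, 2 * I.2 + 1))
      (Or.inr ⟨_, Or.inr (Or.inr ⟨I, hI, rfl⟩), rfl⟩))

/-- In both alternatives: after conjugation `H` contains a positive power of every Lickorish twist
except possibly the twists about `a_0` and `b_0`. -/
theorem uniform (hg : 3 ≤ g) {S : Set (Mod g)} (hS : Subgroup.closure S = ⊤)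
    {H : Subgroup (Mod g)} (h : 2 ≤ relEnds S H) :
    ∃ γ : Mod g, (∀ j : Fin g, 0 < (j : ℕ) → HasPow H (γ * twA j * γ⁻¹) ∧
        HasPow H (γ * twist g (2 * j + 1) (2 * j + 2) * γ⁻¹)) ∧
      ∀ j : ℕ, j + 1 < g → HasPow H (γ * twist g (2 * j + 1) (2 * j + 3) * γ⁻¹) := by
  rcases dichotomy hg hS h with hI | ⟨γ, h1, h2, -, -⟩
  · obtain ⟨γ, h1, h2, -⟩ := hI ∅ (by simp) (by simp)
    exact ⟨γ, fun j _ => h1 j, h2⟩
  · have key : ∀ z : Mod g, Commute (twA (⟨0, by omega⟩ : Fin g)) z → Commute (twist g 1 2) z →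
        HasPow H (γ * z * γ⁻¹) := by
      intro z hz1 hz2
      have hz : γ * z * γ⁻¹ ∈ Subgroup.centralizer ({γ * twA (⟨0, by omega⟩ : Fin g) * γ⁻¹,
          γ * twist g 1 2 * γ⁻¹} : Set (Mod g)) := by
        rw [Subgroup.mem_centralizer_iff]
        rintro w (rfl | rfl)
        · calc γ * twA (⟨0, by omega⟩ : Fin g) * γ⁻¹ * (γ * z * γ⁻¹) =
              γ * (twA (⟨0, by omega⟩ : Fin g) * z) * γ⁻¹ := by group
            _ = γ * (z * twA (⟨0, by omega⟩ : Fin g)) * γ⁻¹ := by rw [hz1.eq]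
            _ = _ := by group
        · calc γ * twist g 1 2 * γ⁻¹ * (γ * z * γ⁻¹) = γ * (twist g 1 2 * z) * γ⁻¹ := by group
            _ = γ * (z * twist g 1 2) * γ⁻¹ := by rw [hz2.eq]
            _ = _ := by group
      obtain ⟨n, hn, -, hn'⟩ := Subgroup.exists_pow_mem_of_relIndex_ne_zero h1 hz
      exact ⟨n, hn, hn'.1⟩
    refine ⟨γ, fun j hj => ⟨?_, ?_⟩, fun j hj => ?_⟩
    · exact key _ (twA_comm _ _) (twist_twA_comm j (by omega))
    · exact key _ (twist_twA_comm (⟨0, by omega⟩ : Fin g) (by simp only; omega)).symm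
        (twist_comm (by omega) (by omega) (by unfold Lam; simp only; omega))
    · rcases Nat.eq_zero_or_pos j with rfl | hj'
      · exact h2
      · exact key _ (twist_twA_comm (⟨0, by omega⟩ : Fin g) (by simp only; omega)).symm
          (twist_comm (by omega) (by omega) (by unfold Lam; simp only; omega))

/-- The trichotomy for subgroups of infinite index. -/
theorem trichotomy (hg : 3 ≤ g) {S : Set (Mod g)} (hS : Subgroup.closure S = ⊤)
    {H : Subgroup (Mod g)} (hH : ¬ H.FiniteIndex) :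
    relEnds S H = 1 ∨ CaseI g H ∨ CaseII g hg H := by
  by_cases h : 2 ≤ relEnds S H
  · exact Or.inr (dichotomy hg hS h)
  · left
    have h0 : relEnds S H ≠ 0 := fun h0 => hH ((relEnds_eq_zero_iff hS H).mp h0)
    have h1 : 1 ≤ relEnds S H := Order.one_le_iff_ne_zero.mpr h0
    apply le_antisymm _ h1
    by_contra hlt
    have h3 : (1 : ℕ∞) < relEnds S H := lt_of_not_ge hlt
    have h4 := Order.add_one_le_of_lt h3
    have h5 : (1 : ℕ∞) + 1 = 2 := by norm_num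
    rw [h5] at h4
    exact h h4

theorem one_end (hg : 3 ≤ g) {S : Set (Mod g)} (hS : Subgroup.closure S = ⊤)
    {H : Subgroup (Mod g)} (hH : ¬ H.FiniteIndex)
    (h : ∀ γ : Mod g, ¬ HasPow H (γ * twA (⟨0, by omega⟩ : Fin g) * γ⁻¹)) :
    relEnds S H = 1 := by
  have h0 : relEnds S H ≠ 0 := fun h0 => hH ((relEnds_eq_zero_iff hS H).mp h0)
  have h1 : 1 ≤ relEnds S H := Order.one_le_iff_ne_zero.mpr h0
  apply le_antisymm _ h1
  by_contra hlt
  have h2 : 2 ≤ relEnds S H := by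
    have h3 : (1 : ℕ∞) < relEnds S H := lt_of_not_ge hlt
    have h4 := Order.add_one_le_of_lt h3
    have h5 : (1 : ℕ∞) + 1 = 2 := by norm_num
    rwa [h5] at h4
  rcases dichotomy hg hS h2 with hI | ⟨γ, -, hc, -, -⟩
  · obtain ⟨γ, h1, -, -⟩ := hI ∅ (by simp) (by simp)
    exact h γ (h1 ⟨0, by omega⟩).1
  · -- the twist `twist 1 3` is conjugate to `twA 0`
    set a := twA (⟨0, by omega⟩ : Fin g) with ha
    set c := twist g 1 3 with hc'
    have hac : a * c * a = c * a * c :=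
      (twist_braid_start (q := 3) (⟨0, by omega⟩ : Fin g) (by simp)).symm
    have e : γ * c * γ⁻¹ = (γ * (a * c)) * a * (γ * (a * c))⁻¹ := by
      calc γ * c * γ⁻¹ = γ * (c * a * c) * (c⁻¹ * a⁻¹) * γ⁻¹ := by group
        _ = γ * (a * c * a) * (c⁻¹ * a⁻¹) * γ⁻¹ := by rw [hac]
        _ = _ := by group
    rw [e] at hc
    exact h _ hc

end Pool.Agent.H.MP_ee9c6f_al
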