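import Pool.Agent.H.MP_ee9c6f_al.EllS
import Pool.Agent.H.MP_ee9c6f_al.Final

/-!
MP_ee9c6f_al (helper22). The groups generated by the twists in a set of units.
-/

set_option autoImplicit false

namespace Pool.Agent.H.MP_ee9c6f_al

open Pointwise

/-- The units, arranged in a circle: the unit `2j` consists of the twists about `a_j` and `b_j`, the
unit `2j + 1` consists of the twist about the curve that joins the handles `j` and `j + 1`. -/
def unit (g : ℕ) (u : ZMod (2 * g)) : Set (Mod g) :=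
  {t | ∃ j : Fin g, (u.val = 2 * j ∧ (t = twA j ∨ t = twist g (2 * j + 1) (2 * j + 2))) ∨
    (u.val = 2 * j + 1 ∧ (j : ℕ) + 1 < g ∧ t = twist g (2 * j + 1) (2 * j + 3)) ∨
    (u.val = 2 * j + 1 ∧ (j : ℕ) + 1 = g ∧ t = twist g 1 (2 * g - 1))}

/-- The twists in a set of units. -/
def tws (g : ℕ) (J : Set (ZMod (2 * g))) : Set (Mod g) := ⋃ u ∈ J, unit g u

/-- The group generated by the twists in a set of units. -/
def grp (g : ℕ) (J : Set (ZMod (2 * g))) : Subgroup (Mod g) := Subgroup.closure (tws g J)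

/-- The `n` consecutive units that start at `p`. -/
def arc (g : ℕ) (p : ZMod (2 * g)) (n : ℕ) : Set (ZMod (2 * g)) := {u | ∃ r < n, u = p + (r : ℕ)}

/-- The units that are neither in `I` nor adjacent to a unit in `I`. -/
def far {g : ℕ} (I : Set (ZMod (2 * g))) : Set (ZMod (2 * g)) :=
  {u | ∀ v ∈ I, u ≠ v ∧ u ≠ v + 1 ∧ u + 1 ≠ v}

/-- The set contains no `n` consecutive units. -/
def Thin {g : ℕ} (n : ℕ) (J : Set (ZMod (2 * g))) : Prop := ∀ p, ¬ arc g p n ⊆ J

variable {g : ℕ}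

theorem tws_mono {J K : Set (ZMod (2 * g))} (h : J ⊆ K) : tws g J ⊆ tws g K :=
  Set.biUnion_subset_biUnion_left h

theorem grp_mono {J K : Set (ZMod (2 * g))} (h : J ⊆ K) : grp g J ≤ grp g K :=
  Subgroup.closure_mono (tws_mono h)

theorem tws_union (J K : Set (ZMod (2 * g))) : tws g (J ∪ K) = tws g J ∪ tws g K :=
  Set.biUnion_union J K _

theorem grp_union (J K : Set (ZMod (2 * g))) : grp g (J ∪ K) = grp g J ⊔ grp g K := by
  unfold grp
  rw [tws_union, Subgroup.closure_union]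

theorem unit_subset (u : ZMod (2 * g)) : unit g u ⊆
    (Set.range (twA (g := g)) ∪ (Set.range fun j : Fin g => twist g (2 * j + 1) (2 * j + 2))) ∪
    ((Set.range fun j : Fin g => twist g (2 * j + 1) (2 * j + 3)) ∪ {twist g 1 (2 * g - 1)}) := by
  rintro t ⟨j, ⟨-, rfl | rfl⟩ | ⟨-, -, rfl⟩ | ⟨-, -, rfl⟩⟩
  · exact Or.inl (Or.inl ⟨j, rfl⟩)
  · exact Or.inl (Or.inr ⟨j, rfl⟩)
  · exact Or.inr (Or.inl ⟨j, rfl⟩)
  · exact Or.inr (Or.inr rfl)

theorem tws_finite (J : Set (ZMod (2 * g))) : (tws g J).Finite := by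
  refine (((Set.finite_range _).union (Set.finite_range _)).union
    ((Set.finite_range _).union (Set.finite_singleton _))).subset
    (Set.iUnion₂_subset fun u _ => unit_subset u)

theorem val_add_one (hg : 3 ≤ g) (u : ZMod (2 * g)) : (u + 1).val = (u.val + 1) % (2 * g) := by
  have : NeZero (2 * g) := ⟨by omega⟩
  rw [ZMod.val_add, ZMod.val_one_eq_one_mod, Nat.mod_eq_of_lt (show 1 < 2 * g by omega)]

/-- Units that are neither equal nor adjacent commute. -/
theorem unit_comm (hg : 3 ≤ g) {u v : ZMod (2 * g)} (h1 : u ≠ v) (h2 : u ≠ v + 1)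
    (h3 : u + 1 ≠ v) {s t : Mod g} (hs : s ∈ unit g u) (ht : t ∈ unit g v) : Commute s t := by
  have : NeZero (2 * g) := ⟨by omega⟩
  have e1 : u.val ≠ v.val := fun h => h1 (ZMod.val_injective _ h)
  have e2 : u.val ≠ (v.val + 1) % (2 * g) := fun h => h2 (ZMod.val_injective _ (by
    rw [val_add_one hg]; exact h))
  have e3 : (u.val + 1) % (2 * g) ≠ v.val := fun h => h3 (ZMod.val_injective _ (by
    rw [val_add_one hg]; exact h))
  have lu := ZMod.val_lt u
  have lv := ZMod.val_lt v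
  clear h1 h2 h3
  obtain ⟨i, hs⟩ := hs
  obtain ⟨j, ht⟩ := ht
  have hi := i.2
  have hj := j.2
  -- arithmetic
  have key : ∀ m : ℕ, m + 1 < 2 * g → (m + 1) % (2 * g) = m + 1 := fun m hm =>
    Nat.mod_eq_of_lt hm
  have key0 : (2 * g - 1 + 1) % (2 * g) = 0 := by
    rw [Nat.sub_add_cancel (by omega), Nat.mod_self]
  rcases hs with ⟨hu, hs⟩ | ⟨hu, hi', rfl⟩ | ⟨hu, hi', rfl⟩
  · rcases ht with ⟨hv, ht⟩ | ⟨hv, hj', rfl⟩ | ⟨hv, hj', rfl⟩
    · -- two handles
      rw [hu, hv] at e1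
      rcases hs with rfl | rfl <;> rcases ht with rfl | rfl
      · exact twA_comm i j
      · exact (twist_twA_comm i (by omega)).symm
      · exact twist_twA_comm j (by omega)
      · exact twist_comm (by omega) (by omega) (by unfold Lam; simp only; omega)
    · rw [hu, hv, key _ (by omega)] at e2
      rw [hu, hv, key _ (by omega)] at e3
      rcases hs with rfl | rfl
      · exact (twist_twA_comm i (by omega)).symm
      · exact twist_comm (by omega) (by omega) (by unfold Lam; simp only; omega)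
    · have hv' : v.val = 2 * g - 1 := by omega
      rw [hu, hv', key0] at e2
      rw [hu, hv', key _ (by omega)] at e3
      rcases hs with rfl | rfl
      · exact (twist_twA_comm i (by omega)).symm
      · exact twist_comm (by omega) (by omega) (by unfold Lam; simp only; omega)
  · rcases ht with ⟨hv, ht⟩ | ⟨hv, hj', rfl⟩ | ⟨hv, hj', rfl⟩
    · rw [hu, hv, key _ (by omega)] at e2
      rw [hu, hv, key _ (by omega)] at e3
      rcases ht with rfl | rfl
      · exact twist_twA_comm j (by omega)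
      · exact twist_comm (by omega) (by omega) (by unfold Lam; simp only; omega)
    · rw [hu, hv] at e1
      exact twist_comm (by omega) (by omega) (by unfold Lam; simp only; omega)
    · exact twist_comm (by omega) (by omega) (by unfold Lam; simp only; omega)
  · have hu' : u.val = 2 * g - 1 := by omega
    rcases ht with ⟨hv, ht⟩ | ⟨hv, hj', rfl⟩ | ⟨hv, hj', rfl⟩
    · rw [hu', hv, key _ (by omega)] at e2
      rw [hu', hv, key0] at e3
      rcases ht with rfl | rfl
      · exact twist_twA_comm j (by omega)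
      · exact twist_comm (by omega) (by omega) (by unfold Lam; simp only; omega)
    · exact twist_comm (by omega) (by omega) (by unfold Lam; simp only; omega)
    · exact Commute.refl _

theorem grp_comm (hg : 3 ≤ g) {J K : Set (ZMod (2 * g))}
    (h : ∀ u ∈ J, ∀ v ∈ K, u ≠ v ∧ u ≠ v + 1 ∧ u + 1 ≠ v) :
    ∀ a ∈ grp g J, ∀ b ∈ grp g K, Commute a b := by
  have h0 : ∀ s ∈ tws g J, ∀ t ∈ tws g K, Commute s t := by
    intro s hs t ht
    obtain ⟨u, hu, hs⟩ := Set.mem_iUnion₂.mp hs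
    obtain ⟨v, hv, ht⟩ := Set.mem_iUnion₂.mp ht
    obtain ⟨h1, h2, h3⟩ := h u hu v hv
    exact unit_comm hg h1 h2 h3 hs ht
  have h1 : ∀ s ∈ tws g J, grp g K ≤ Subgroup.centralizer {s} := by
    intro s hs
    unfold grp
    rw [Subgroup.closure_le]
    intro t ht
    rw [SetLike.mem_coe, Subgroup.mem_centralizer_iff]
    rintro _ rfl
    exact h0 _ hs t ht
  intro a ha b hb
  have h2 : grp g J ≤ Subgroup.centralizer {b} := by
    unfold grp
    rw [Subgroup.closure_le]
    intro s hs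
    rw [SetLike.mem_coe, Subgroup.mem_centralizer_iff]
    rintro _ rfl
    have := Subgroup.mem_centralizer_iff.mp (h1 s hs hb) s rfl
    exact this.symm
  have := Subgroup.mem_centralizer_iff.mp (h2 ha) b rfl
  exact this.symm

theorem grp_far_comm (hg : 3 ≤ g) (I : Set (ZMod (2 * g))) :
    ∀ a ∈ grp g I, ∀ b ∈ grp g (far I), Commute a b := by
  apply grp_comm hg
  intro u hu v hv
  obtain ⟨h1, h2, h3⟩ := hv u hu
  exact ⟨fun h => h1 h.symm, fun h => h3 h.symm, fun h => h2 h.symm⟩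

/-- Everything is generated by all units except the last one. -/
theorem grp_arc_top (hg : 3 ≤ g) : grp g (arc g 0 (2 * g - 1)) = ⊤ := by
  rw [eq_top_iff, ← closure_crv (g := g) ∅]
  apply Subgroup.closure_mono
  have hmem : ∀ m : ℕ, m < 2 * g - 1 → ((m : ℕ) : ZMod (2 * g)) ∈ arc g 0 (2 * g - 1) := by
    intro m hm
    exact ⟨m, hm, by rw [zero_add]⟩
  have hval : ∀ m : ℕ, m < 2 * g → ((m : ℕ) : ZMod (2 * g)).val = m := fun m hm =>
    ZMod.val_natCast_of_lt hm
  rintro _ ⟨i, hi, rfl⟩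
  rcases hi with ⟨j, rfl⟩ | ⟨I, hI, rfl⟩
  · have := j.2
    refine Set.mem_biUnion (hmem (2 * j) (by omega)) ⟨j, Or.inl ⟨?_, Or.inl rfl⟩⟩
    exact hval _ (by omega)
  · rcases hI with ⟨j, hj, rfl⟩ | ⟨j, hj, rfl⟩ | ⟨J, hJ, -⟩
    · refine Set.mem_biUnion (hmem (2 * j) (by omega)) ⟨⟨j, hj⟩, Or.inl ⟨?_, Or.inr rfl⟩⟩
      exact hval _ (by omega)
    · refine Set.mem_biUnion (hmem (2 * j + 1) (by omega))
        ⟨⟨j, by omega⟩, Or.inr (Or.inl ⟨?_, hj, rfl⟩)⟩
      exact hval _ (by omega)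
    · exact absurd hJ (by simp)

/-! ### Ellipticity -/

theorem ell_unit (hg : 3 ≤ g) {X : Type*} [MulAction (Mod g) X] {U : Set X}
    (hU : AInv (Mod g) U) {u : ZMod (2 * g)} {t : Mod g} (ht : t ∈ unit g u) : Ell U t := by
  obtain ⟨j, ⟨-, rfl | rfl⟩ | ⟨-, -, rfl⟩ | ⟨-, -, rfl⟩⟩ := ht
  · exact ell_A hg hU j j.2
  · exact ell_start hg hU j.2 le_rfl
  · exact ell_start hg hU j.2 (by omega)
  · have := ell_start hg hU (j := 0) (q := 2 * g - 1) (by omega) (by omega)
    simpa using this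

/-- A power of a Dehn twist about a nonseparating curve. -/
def TwPow (t : Mod g) : Prop := ∃ (γ : Mod g) (j : Fin g) (m : ℤ), t = γ * twA j ^ m * γ⁻¹

theorem ell_twPow (hg : 3 ≤ g) {X : Type*} [MulAction (Mod g) X] {U : Set X}
    (hU : AInv (Mod g) U) {t : Mod g} (ht : TwPow t) : Ell U t := by
  obtain ⟨γ, j, m, rfl⟩ := ht
  exact ((ell_A hg hU j j.2).pow m).conj hU γ

theorem grp_empty : grp g ∅ = ⊥ := by
  unfold grp tws
  simp

theorem ellS_bot {X : Type*} [MulAction (Mod g) X] {U : Set X} :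
    EllS U (⊥ : Subgroup (Mod g)) :=
  ⟨U, AE.refl U, fun p hp => by rw [Subgroup.mem_bot.mp hp, one_smul]⟩

/-- A single odd unit is elliptic. -/
theorem ellS_odd (hg : 3 ≤ g) {X : Type*} [MulAction (Mod g) X] {U : Set X}
    (hU : AInv (Mod g) U) {p : ZMod (2 * g)} (hp : p.val % 2 = 1) :
    EllS U (grp g (arc g p 1)) := by
  have : NeZero (2 * g) := ⟨by omega⟩
  have hlt := ZMod.val_lt p
  -- the twist
  obtain ⟨t, ht, huniq⟩ : ∃ t, t ∈ unit g p ∧ ∀ s ∈ unit g p, s = t := by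
    by_cases h : p.val / 2 + 1 < g
    · refine ⟨twist g (2 * (p.val / 2) + 1) (2 * (p.val / 2) + 3),
        ⟨⟨p.val / 2, by omega⟩, Or.inr (Or.inl ⟨by simp only; omega, h, rfl⟩)⟩, ?_⟩
      rintro s ⟨j, ⟨hj, -⟩ | ⟨hj, -, rfl⟩ | ⟨hj, hj', -⟩⟩
      · omega
      · have : (j : ℕ) = p.val / 2 := by omega
        rw [this]
      · omega
    · refine ⟨twist g 1 (2 * g - 1),
        ⟨⟨p.val / 2, by omega⟩, Or.inr (Or.inr ⟨by simp only; omega, by simp only; omega,
          rfl⟩)⟩, ?_⟩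
      rintro s ⟨j, ⟨hj, -⟩ | ⟨hj, hj', -⟩ | ⟨hj, hj', rfl⟩⟩
      · omega
      · omega
      · rfl
  obtain ⟨V, hV, htV⟩ := ell_unit hg hU ht
  refine ⟨V, hV, ?_⟩
  have h1 : grp g (arc g p 1) ≤ MulAction.stabilizer (Mod g) V := by
    unfold grp
    rw [Subgroup.closure_le]
    intro s hs
    obtain ⟨u, ⟨r, hr, hu⟩, hs⟩ := Set.mem_iUnion₂.mp hs
    have hr0 : r = 0 := by omega
    rw [hr0, Nat.cast_zero, add_zero] at hu
    rw [hu] at hs
    rw [huniq s hs]
    exact htV
  exact fun s hs => h1 hs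

end Pool.Agent.H.MP_ee9c6f_al
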