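import Pool.Agent.H.MP_ee9c6f_al.Sub

/-!
MP_ee9c6f_al (helper22). Commuting groups with a bad orbit: the translation homomorphism and its
kernel.
-/

set_option autoImplicit false

namespace Pool.Agent.H.MP_ee9c6f_al

open Pointwise

variable {G X : Type*} [Group G] [MulAction G X]

/-- The products of at most `n` elements of `T` and their inverses. -/
def ball (T : Set G) : ℕ → Set G
  | 0 => {1}
  | n + 1 => ball T n ∪ {w | ∃ s, (s ∈ T ∨ s⁻¹ ∈ T) ∧ ∃ v ∈ ball T n, w = s * v}

theorem ball_finite {T : Set G} (hT : T.Finite) : ∀ n, (ball T n).Finite := by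
  intro n
  induction n with
  | zero => exact Set.finite_singleton 1
  | succ n ih =>
    apply ih.union
    refine ((Set.Finite.image2 (fun s v => s * v) (hT.union hT.inv) ih)).subset ?_
    rintro w ⟨s, hs, v, hv, rfl⟩
    exact ⟨s, by simpa using hs, v, hv, rfl⟩

theorem ball_mono {T : Set G} {n m : ℕ} (h : n ≤ m) : ball T n ⊆ ball T m := by
  induction m, h using Nat.le_induction with
  | base => exact subset_rfl
  | succ m _ ih => exact ih.trans Set.subset_union_left

theorem ball_subset {T : Set G} : ∀ n, ball T n ⊆ Subgroup.closure T := by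
  intro n
  induction n with
  | zero =>
    rintro _ rfl
    exact one_mem _
  | succ n ih =>
    rintro w (h | ⟨s, hs, v, hv, rfl⟩)
    · exact ih h
    · apply mul_mem _ (ih hv)
      rcases hs with hs | hs
      · exact Subgroup.subset_closure hs
      · rw [← inv_inv s]
        exact inv_mem (Subgroup.subset_closure hs)

theorem exists_ball {T : Set G} {w : G} (hw : w ∈ Subgroup.closure T) : ∃ n, w ∈ ball T n := by
  induction hw using Subgroup.closure_induction_left with
  | one => exact ⟨0, rfl⟩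
  | mul_left s hs v _ ih =>
    obtain ⟨n, hn⟩ := ih
    exact ⟨n + 1, Or.inr ⟨s, Or.inl hs, v, hn, rfl⟩⟩
  | inv_mul_cancel s hs v _ ih =>
    obtain ⟨n, hn⟩ := ih
    exact ⟨n + 1, Or.inr ⟨s⁻¹, Or.inr (by rwa [inv_inv]), v, hn, rfl⟩⟩

theorem exists_ball_of_finite {T : Set G} {x : X} {F : Set X} (hF : F.Finite)
    (hFx : F ⊆ MulAction.orbit (Subgroup.closure T) x) :
    ∃ n, ∀ z ∈ F, ∃ w ∈ ball T n, z = w • x := by
  classical
  have h : ∀ z ∈ F, ∃ n, ∃ w ∈ ball T n, z = w • x := by
    intro z hz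
    obtain ⟨w, hw, rfl⟩ := mem_orbit_sub.mp (hFx hz)
    obtain ⟨n, hn⟩ := exists_ball hw
    exact ⟨n, w, hn, rfl⟩
  choose! n hn using h
  refine ⟨hF.toFinset.sup n, fun z hz => ?_⟩
  obtain ⟨w, hw, e⟩ := hn z hz
  exact ⟨w, ball_mono (Finset.le_sup (f := n) (by simpa using hz)) hw, e⟩

theorem cross {U : Set X} {T : Set G} {z : X} (hz : z ∉ bd U T) (hz' : z ∉ bd Uᶜ T) {s : G}
    (hs : s ∈ T ∨ s⁻¹ ∈ T) : s • z ∈ U ↔ z ∈ U := by
  constructor
  · intro h
    by_contra h'
    exact hz' ⟨h', s, hs, fun h'' => h'' h⟩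
  · intro h
    by_contra h'
    exact hz ⟨h, s, hs, h'⟩

/-- The points of the orbit of `x` in the boundary lie in the ball around `x`. -/
def Cov (U : Set X) (T : Set G) (x : X) (n : ℕ) : Prop :=
  ∀ z ∈ MulAction.orbit (Subgroup.closure T) x, (z ∈ bd U T ∨ z ∈ bd Uᶜ T) →
    ∃ w ∈ ball T n, z = w • x

theorem Cov.compl {U : Set X} {T : Set G} {x : X} {n : ℕ} (h : Cov U T x n) :
    Cov Uᶜ T x n := by
  intro z hz h'
  rw [compl_compl] at h'
  exact h z hz h'.symm

theorem ball_side {U : Set X} {T : Set G} {n : ℕ} {x y : X} (hK : Cov U T x n)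
    (hy : y ∈ MulAction.orbit (Subgroup.closure T) x)
    (hdis : ∀ w ∈ ball T n, ∀ w' ∈ ball T n, w • y ≠ w' • x) :
    ∀ m ≤ n, ∀ w ∈ ball T m, (w • y ∈ U ↔ y ∈ U) := by
  intro m
  induction m with
  | zero =>
    rintro - w rfl
    rw [one_smul]
  | succ m ih =>
    rintro hm w (hw | ⟨s, hs, v, hv, rfl⟩)
    · exact ih (by omega) w hw
    · have hvn : v ∈ ball T n := ball_mono (by omega) hv
      rw [← ih (by omega) v hv, mul_smul]
      have hmem : v • y ∈ MulAction.orbit (Subgroup.closure T) x := by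
        rw [← orbit_sub_eq hy]
        exact mem_orbit_sub.mpr ⟨v, ball_subset n hvn, rfl⟩
      have h1 : ¬ (v • y ∈ bd U T ∨ v • y ∈ bd Uᶜ T) := by
        intro h
        obtain ⟨w', hw', e⟩ := hK _ hmem h
        exact hdis v hvn w' hw' e
      push Not at h1
      exact cross h1.1 h1.2 hs

theorem inv_mem_orbit {T : Set G} {a : G} (ha : ∀ b ∈ Subgroup.closure T, Commute b a) {x : X}
    (hax : a • x ∈ MulAction.orbit (Subgroup.closure T) x) :
    a⁻¹ • x ∈ MulAction.orbit (Subgroup.closure T) x := by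
  obtain ⟨b, hb, e⟩ := mem_orbit_sub.mp hax
  refine mem_orbit_sub.mpr ⟨b⁻¹, inv_mem hb, ?_⟩
  rw [inv_smul_eq_iff, smul_smul, ((ha b hb).inv_right).eq, mul_smul, e, inv_smul_smul]

theorem side {U : Set X} {T : Set G} {n : ℕ} {x : X} (hK : Cov U T x n) {a : G}
    (ha : ∀ b ∈ Subgroup.closure T, Commute b a)
    (hax : a • x ∈ MulAction.orbit (Subgroup.closure T) x)
    (hdis : ∀ w ∈ ball T n, ∀ w' ∈ ball T n, w • a • x ≠ w' • x) (haU : a • x ∈ U) :
    ∀ m, ∀ w ∈ ball T m, (w • x ∉ U ∨ ∃ w' ∈ ball T n, w • x = w' • x) →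
      (a⁻¹ • w • x ∈ U ↔ a⁻¹ • x ∈ U) := by
  have hinv := inv_mem_orbit ha hax
  have hK' : ∀ w : G, (∃ w' ∈ ball T n, w • x = w' • x) →
      (a⁻¹ • w • x ∈ U ↔ a⁻¹ • x ∈ U) := by
    rintro w ⟨w', hw', e⟩
    rw [e, smul_smul, ← ((ha w' (ball_subset n hw')).inv_right).eq, mul_smul]
    refine ball_side hK hinv ?_ n le_rfl w' hw'
    intro v hv v' hv' e'
    apply hdis v' hv' v hv
    have h1 : a • v • a⁻¹ • x = a • v' • x := by rw [e']
    rw [smul_smul a v, ← (ha v (ball_subset n hv)).eq, mul_smul, smul_inv_smul, smul_smul a v',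
      ← (ha v' (ball_subset n hv')).eq, mul_smul] at h1
    exact h1.symm
  intro m
  induction m with
  | zero =>
    rintro w rfl -
    rw [one_smul]
  | succ m ih =>
    rintro w (hw | ⟨s, hs, v, hv, rfl⟩) hor
    · exact ih w hw hor
    · by_cases hin : ∃ w' ∈ ball T n, (s * v) • x = w' • x
      · exact hK' _ hin
      · have hzU : (s * v) • x ∉ U := hor.resolve_right hin
        have hsT : s ∈ Subgroup.closure T := by
          rcases hs with hs | hs
          · exact Subgroup.subset_closure hs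
          · rw [← inv_inv s]
            exact inv_mem (Subgroup.subset_closure hs)
        have hvT : v ∈ Subgroup.closure T := ball_subset m hv
        have hzO : (s * v) • x ∈ MulAction.orbit (Subgroup.closure T) x :=
          mem_orbit_sub.mpr ⟨s * v, mul_mem hsT hvT, rfl⟩
        have hs' : s⁻¹ ∈ T ∨ s⁻¹⁻¹ ∈ T := by
          rw [inv_inv]
          exact hs.symm
        have h1 : ¬ ((s * v) • x ∈ bd U T ∨ (s * v) • x ∈ bd Uᶜ T) := fun h =>
          hin (hK _ hzO h)
        push Not at h1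
        have h2 := cross h1.1 h1.2 hs'
        rw [mul_smul, inv_smul_smul] at h2
        have hvU : v • x ∉ U := by
          rw [h2, ← mul_smul]
          exact hzU
        rw [← ih v hv (Or.inl hvU)]
        -- the points `a⁻¹ s v x` and `a⁻¹ v x` are on the same side
        have hzO' : a⁻¹ • (s * v) • x ∈ MulAction.orbit (Subgroup.closure T) x := by
          rw [smul_smul, ← ((ha _ (mul_mem hsT hvT)).inv_right).eq, mul_smul,
            ← orbit_sub_eq hinv]
          exact mem_orbit_sub.mpr ⟨s * v, mul_mem hsT hvT, rfl⟩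
        have h3 : ¬ (a⁻¹ • (s * v) • x ∈ bd U T ∨ a⁻¹ • (s * v) • x ∈ bd Uᶜ T) := by
          intro h
          obtain ⟨w', hw', e⟩ := hK _ hzO' h
          have e' : (s * v) • x = w' • a • x := by
            rw [inv_smul_eq_iff] at e
            rw [e, smul_smul a w', ← (ha w' (ball_subset n hw')).eq, mul_smul w' a]
          apply hzU
          rw [e']
          refine (ball_side hK hax hdis n le_rfl w' hw').mpr haU
        push Not at h3
        have h4 := cross h3.1 h3.2 hs'
        have e5 : s⁻¹ • a⁻¹ • (s * v) • x = a⁻¹ • v • x := by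
          rw [smul_smul, (((ha s hsT).inv_right).inv_left).eq]
          simp only [smul_smul]
          congr 1
          group
        rw [e5] at h4
        exact h4.symm

/-- The translation number of `a` on the part of `U` in the orbit of `x`. -/
noncomputable def tr (U : Set X) (B : Subgroup G) (x : X) (a : G) : ℤ :=
  ind (a • (U ∩ MulAction.orbit B x)) (U ∩ MulAction.orbit B x)

section Tr

variable {U : Set X} {B : Subgroup G} {x : X}

theorem smul_orbit {a : G} (ha : ∀ b ∈ B, Commute b a) (hax : a • x ∈ MulAction.orbit B x) :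
    a • MulAction.orbit B x = MulAction.orbit B x := by
  rw [← orbit_comm ha, orbit_sub_eq hax]

theorem smul_part {a : G} (ha : ∀ b ∈ B, Commute b a) (hax : a • x ∈ MulAction.orbit B x) :
    a • (U ∩ MulAction.orbit B x) = a • U ∩ MulAction.orbit B x := by
  rw [Set.smul_set_inter, smul_orbit ha hax]

theorem AE_part (hU : AInv G U) {a : G} (ha : ∀ b ∈ B, Commute b a)
    (hax : a • x ∈ MulAction.orbit B x) :
    AE (a • (U ∩ MulAction.orbit B x)) (U ∩ MulAction.orbit B x) := by
  rw [smul_part ha hax]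
  exact (hU a).inter _

theorem tr_one : tr U B x 1 = 0 := by
  unfold tr
  rw [one_smul, ind_self]

theorem tr_mul (hU : AInv G U) {a a' : G} (ha : ∀ b ∈ B, Commute b a)
    (hax : a • x ∈ MulAction.orbit B x) (ha' : ∀ b ∈ B, Commute b a')
    (hax' : a' • x ∈ MulAction.orbit B x) : tr U B x (a * a') = tr U B x a + tr U B x a' := by
  unfold tr
  rw [mul_smul, ind_trans ((AE_part hU ha' hax').smul a) (AE_part hU ha hax), ind_smul, add_comm]

theorem tr_compl {a : G} (ha : ∀ b ∈ B, Commute b a) (hax : a • x ∈ MulAction.orbit B x) :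
    tr Uᶜ B x a = - tr U B x a := by
  have h1 : (a • (Uᶜ ∩ MulAction.orbit B x)) \ (Uᶜ ∩ MulAction.orbit B x) =
      (U ∩ MulAction.orbit B x) \ (a • (U ∩ MulAction.orbit B x)) := by
    rw [smul_part ha hax, smul_part ha hax, Set.smul_set_compl]
    ext z
    simp only [Set.mem_sdiff, Set.mem_inter_iff, Set.mem_compl_iff]
    tauto
  have h2 : (Uᶜ ∩ MulAction.orbit B x) \ (a • (Uᶜ ∩ MulAction.orbit B x)) =
      (a • (U ∩ MulAction.orbit B x)) \ (U ∩ MulAction.orbit B x) := by
    rw [smul_part ha hax, smul_part ha hax, Set.smul_set_compl]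
    ext z
    simp only [Set.mem_sdiff, Set.mem_inter_iff, Set.mem_compl_iff]
    tauto
  unfold tr ind
  rw [h1, h2]
  ring

theorem tr_ell {a : G} (ha : ∀ b ∈ B, Commute b a)
    (hax : a • x ∈ MulAction.orbit B x) (hell : Ell U a) : tr U B x a = 0 := by
  obtain ⟨V, hV, haV⟩ := hell
  have h1 : AE (V ∩ MulAction.orbit B x) (U ∩ MulAction.orbit B x) := hV.inter _
  have h2 : a • (V ∩ MulAction.orbit B x) = V ∩ MulAction.orbit B x := by
    rw [smul_part ha hax, haV]
  have h3 := h1.symm.smul a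
  rw [h2] at h3
  unfold tr
  rw [ind_trans h3 h1, ← h2, ind_smul, h2, ind_symm]
  ring

/-- Elements that fix `x` act trivially. -/
theorem tr_fix {a : G} (ha : ∀ b ∈ B, Commute b a) (hax : a • x = x) : tr U B x a = 0 := by
  have h : a • (U ∩ MulAction.orbit B x) = U ∩ MulAction.orbit B x := by
    have h1 : ∀ z ∈ MulAction.orbit B x, a • z = z := by
      intro z hz
      obtain ⟨b, hb, rfl⟩ := mem_orbit_sub.mp hz
      rw [smul_smul, ← (ha b hb).eq, mul_smul, hax]
    ext z
    constructor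
    · rintro ⟨y, hy, rfl⟩
      change a • y ∈ _
      rw [h1 y hy.2]
      exact hy
    · intro hz
      exact ⟨z, hz, h1 z hz.2⟩
  unfold tr
  rw [h, ind_self]

end Tr

theorem tr_neg {U : Set X} (hU : AInv G U) {T : Set G} {n : ℕ} {x : X} (hK : Cov U T x n)
    (hbad : Bad U (Subgroup.closure T) x) {a : G} (ha : ∀ b ∈ Subgroup.closure T, Commute b a)
    (hax : a • x ∈ MulAction.orbit (Subgroup.closure T) x)
    (hdis : ∀ w ∈ ball T n, ∀ w' ∈ ball T n, w • a • x ≠ w' • x) (haU : a • x ∈ U) :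
    tr U (Subgroup.closure T) x a < 0 := by
  set O := MulAction.orbit (Subgroup.closure T) x with hO
  have hside : ∀ z ∈ O, (z ∉ U ∨ ∃ w' ∈ ball T n, z = w' • x) →
      (a⁻¹ • z ∈ U ↔ a⁻¹ • x ∈ U) := by
    intro z hz hor
    obtain ⟨w, hw, rfl⟩ := mem_orbit_sub.mp hz
    obtain ⟨m, hm⟩ := exists_ball hw
    exact side hK ha hax hdis haU m w hm hor
  have hx : a⁻¹ • x ∉ U := by
    intro hx
    apply hbad.2
    refine (hU a).finite_diff.subset ?_
    rintro z ⟨hz, hzU⟩
    refine ⟨?_, hzU⟩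
    rw [Set.mem_smul_set_iff_inv_smul_mem]
    exact (hside z hz (Or.inl hzU)).mpr hx
  have e1 : (a • (U ∩ O)) \ (U ∩ O) = ∅ := by
    rw [smul_part ha hax, Set.sdiff_eq_empty]
    rintro z ⟨hz, hzO⟩
    refine ⟨?_, hzO⟩
    by_contra hzU
    rw [Set.mem_smul_set_iff_inv_smul_mem] at hz
    exact hx ((hside z hzO (Or.inl hzU)).mp hz)
  obtain ⟨z, hzO, hzb⟩ := hbad.meets
  have e2 : z ∈ (U ∩ O) \ (a • (U ∩ O)) := by
    refine ⟨⟨hzb.1, hzO⟩, ?_⟩
    rw [smul_part ha hax]
    rintro ⟨hz, -⟩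
    rw [Set.mem_smul_set_iff_inv_smul_mem] at hz
    exact hx ((hside z hzO (Or.inr (hK z hzO (Or.inl hzb)))).mp hz)
  have e3 : 0 < ((U ∩ O) \ (a • (U ∩ O))).ncard :=
    (Set.ncard_pos (AE_part hU ha hax).finite_diff').mpr ⟨z, e2⟩
  unfold tr ind
  rw [e1]
  simp
  omega

theorem Bad.compl {U : Set X} {A : Subgroup G} {x : X} (h : Bad U A x) : Bad Uᶜ A x := by
  refine ⟨?_, ?_⟩
  · rw [Set.inter_comm, ← Set.sdiff_eq]
    exact h.2
  · rw [Set.sdiff_eq, compl_compl, Set.inter_comm]
    exact h.1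

/-- Outside a finite set of points `a • x` the sign of the translation number of `a` is determined
by the side of `a • x`. -/
theorem tr_sign {U : Set X} (hU : AInv G U) {T : Set G} (hT : T.Finite) {x : X}
    (hbad : Bad U (Subgroup.closure T) x) :
    ∃ F : Set X, F.Finite ∧ ∀ a : G, (∀ b ∈ Subgroup.closure T, Commute b a) →
      a • x ∈ MulAction.orbit (Subgroup.closure T) x → a • x ∉ F →
      (a • x ∈ U → tr U (Subgroup.closure T) x a < 0) ∧
        (a • x ∉ U → 0 < tr U (Subgroup.closure T) x a) := by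
  obtain ⟨n, hn⟩ := exists_ball_of_finite (T := T) (x := x)
    (F := (bd U T ∪ bd Uᶜ T) ∩ MulAction.orbit (Subgroup.closure T) x)
    (((bd_finite hU hT).union (bd_finite hU.compl hT)).inter_of_left _) Set.inter_subset_right
  have hK : Cov U T x n := fun z hz h => hn z ⟨h, hz⟩
  refine ⟨_, Set.Finite.image2 (fun w w' : G => w⁻¹ • w' • x) (ball_finite hT n)
    (ball_finite hT n), ?_⟩
  intro a ha hax hF
  have hdis : ∀ w ∈ ball T n, ∀ w' ∈ ball T n, w • a • x ≠ w' • x := by
    intro w hw w' hw' e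
    exact hF ⟨w, hw, w', hw', by simp only; rw [← e, inv_smul_smul]⟩
  refine ⟨fun haU => tr_neg hU hK hbad ha hax hdis haU, fun haU => ?_⟩
  have := tr_neg hU.compl hK.compl hbad.compl ha hax hdis haU
  rw [tr_compl ha hax] at this
  omega

/-- Only finitely many points `a • x` of the orbit have translation number zero. -/
theorem ker_finite {U : Set X} (hU : AInv G U) {T : Set G} (hT : T.Finite) {x : X}
    (hbad : Bad U (Subgroup.closure T) x) :
    {y | ∃ a : G, (∀ b ∈ Subgroup.closure T, Commute b a) ∧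
      a • x ∈ MulAction.orbit (Subgroup.closure T) x ∧ tr U (Subgroup.closure T) x a = 0 ∧
      y = a • x}.Finite := by
  obtain ⟨F, hF, h⟩ := tr_sign hU hT hbad
  refine hF.subset ?_
  rintro y ⟨a, ha, hax, h0, rfl⟩
  by_contra hcon
  have h1 := h a ha hax hcon
  by_cases haU : a • x ∈ U
  · have := h1.1 haU
    omega
  · have := h1.2 haU
    omega

end Pool.Agent.H.MP_ee9c6f_al
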