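import Mathlib

/-!
MP_ee9c6f_al (helper22). Definitions: surface group, Dehn twists as explicit automorphisms, the
mapping class group, the number of relative ends.
-/

set_option autoImplicit false

namespace Pool.Agent.H.MP_ee9c6f_al

/-! ### Automorphisms and outer automorphisms -/

/-- The group of inner automorphisms of `G`. -/
def Inn (G : Type) [Group G] : Subgroup (MulAut G) := (MulAut.conj : G →* MulAut G).range

instance (G : Type) [Group G] : (Inn G).Normal := by
  constructor
  rintro _ ⟨u, rfl⟩ φ
  refine ⟨φ u, ?_⟩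
  ext x
  simp [MulAut.conj_apply]

/-- The outer automorphism group of `G`. -/
abbrev Out (G : Type) [Group G] : Type := MulAut G ⧸ Inn G

/-! ### The surface group -/

/-- The free group on `a_0, b_0, …, a_{g-1}, b_{g-1}`. -/
abbrev Fr (g : ℕ) : Type := FreeGroup (Fin g ⊕ Fin g)

/-- The generator `a_i`. -/
def A {g : ℕ} (i : Fin g) : Fr g := FreeGroup.of (Sum.inl i)

/-- The generator `b_i`. -/
def B {g : ℕ} (i : Fin g) : Fr g := FreeGroup.of (Sum.inr i)

/-- The relator `[a_0, b_0] ⋯ [a_{g-1}, b_{g-1}]`. -/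
def surfRel (g : ℕ) : Fr g :=
  (List.ofFn fun i : Fin g => A i * B i * (A i)⁻¹ * (B i)⁻¹).prod

/-- The fundamental group of the closed orientable surface of genus `g`. -/
abbrev Surf (g : ℕ) : Type := PresentedGroup ({surfRel g} : Set (Fr g))

theorem hom_ext {g : ℕ} {M : Type} [Monoid M] {f f' : Fr g →* M}
    (hA : ∀ i, f (A i) = f' (A i)) (hB : ∀ i, f (B i) = f' (B i)) : f = f' := by
  apply FreeGroup.ext_hom
  rintro (i | i)
  · exact hA i
  · exact hB i

/-! ### Feet and words

Cut the surface along the curves `b_0, …, b_{g-1}`: the result is a sphere with `2g` boundary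
circles, the feet of the handles. The loop around the foot `2i` is `a_i b_i a_i⁻¹`, the loop around
the foot `2i + 1` is `b_i⁻¹`, and the relator is the product of these loops. -/

/-- The loop around the foot `r`. -/
def foot (g r : ℕ) : Fr g :=
  if h : r / 2 < g then
    (if r % 2 = 0 then A ⟨r / 2, h⟩ * B ⟨r / 2, h⟩ * (A ⟨r / 2, h⟩)⁻¹ else (B ⟨r / 2, h⟩)⁻¹)
  else 1

/-- The loop around the feet `p, p + 1, …, q - 1`. -/
def word (g p q : ℕ) : Fr g := ((List.Ico p q).map (foot g)).prod

/-- The endomorphism `a_i ↦ c(2i) a_i c(2i+1)⁻¹`, `b_i ↦ c(2i+1) b_i c(2i+1)⁻¹`; it conjugates the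
loop around the foot `r` by `c r`. -/
def fc {g : ℕ} (c : ℕ → Fr g) : Fr g →* Fr g :=
  FreeGroup.lift (Sum.elim (fun i => c (2 * i) * A i * (c (2 * i + 1))⁻¹)
    (fun i => c (2 * i + 1) * B i * (c (2 * i + 1))⁻¹))

theorem fc_A {g : ℕ} (c : ℕ → Fr g) (i : Fin g) :
    fc c (A i) = c (2 * i) * A i * (c (2 * i + 1))⁻¹ := by
  simp [fc, A]

theorem fc_B {g : ℕ} (c : ℕ → Fr g) (i : Fin g) :
    fc c (B i) = c (2 * i + 1) * B i * (c (2 * i + 1))⁻¹ := by
  simp [fc, B]

theorem fc_foot {g : ℕ} (c : ℕ → Fr g) (r : ℕ) :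
    fc c (foot g r) = c r * foot g r * (c r)⁻¹ := by
  unfold foot
  split_ifs with h h2
  · have e : 2 * (r / 2) = r := by omega
    have e' : 2 * (r / 2) + 1 = r + 1 := by omega
    simp only [map_mul, map_inv, fc_A, fc_B]
    rw [e']
    conv_lhs => simp only [e]
    group
  · have e : 2 * (r / 2) + 1 = r := by omega
    simp only [map_inv, fc_B]
    conv_lhs => simp only [e]
    group
  · simp

theorem fc_one {g : ℕ} : fc (fun _ => (1 : Fr g)) = MonoidHom.id _ :=
  hom_ext (fun i => by simp [fc_A]) (fun i => by simp [fc_B])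

theorem fc_comp {g : ℕ} (c d : ℕ → Fr g) :
    (fc c).comp (fc d) = fc (fun r => fc c (d r) * c r) := by
  apply hom_ext
  · intro i
    simp only [MonoidHom.comp_apply, fc_A, map_mul, map_inv]
    group
  · intro i
    simp only [MonoidHom.comp_apply, fc_B, map_mul, map_inv]
    group

theorem fc_congr {g : ℕ} {c d : ℕ → Fr g} (h : ∀ r < 2 * g, c r = d r) : fc c = fc d := by
  apply hom_ext
  · intro i
    rw [fc_A, fc_A, h _ (by have := i.2; omega), h _ (by have := i.2; omega)]
  · intro i
    rw [fc_B, fc_B, h _ (by have := i.2; omega)]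

theorem word_split {g p m q : ℕ} (h1 : p ≤ m) (h2 : m ≤ q) :
    word g p q = word g p m * word g m q := by
  unfold word
  rw [← List.prod_append, ← List.map_append, List.Ico.append_consecutive h1 h2]

theorem word_succ {g p q : ℕ} (h : p ≤ q) : word g p (q + 1) = word g p q * foot g q := by
  unfold word
  rw [List.Ico.succ_top h]
  simp

theorem word_self (g p : ℕ) : word g p p = 1 := by simp [word]

theorem word_single (g p : ℕ) : word g p (p + 1) = foot g p := by
  rw [word_succ le_rfl, word_self, one_mul]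

theorem fc_word {g : ℕ} (c : ℕ → Fr g) (u : Fr g) (p q : ℕ) (h : ∀ r, p ≤ r → r < q → c r = u) :
    fc c (word g p q) = u * word g p q * u⁻¹ := by
  rcases le_total p q with hpq | hpq
  · induction q, hpq using Nat.le_induction with
    | base => simp [word_self]
    | succ q hq ih =>
      rw [word_succ hq, map_mul, ih (fun r h1 h2 => h r h1 (by omega)), fc_foot,
        h q hq (by omega)]
      group
  · have : word g p q = 1 := by
      unfold word
      rw [List.Ico.eq_nil_of_le hpq]
      rfl
    rw [this]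
    simp

/-! ### Dehn twists on the free group -/

/-- `word g p q` on the feet `p ≤ r < q`, and `1` on the other feet. -/
def cut (g p q r : ℕ) : Fr g := if p ≤ r ∧ r < q then word g p q else 1

theorem cut_in {g p q r : ℕ} (h1 : p ≤ r) (h2 : r < q) : cut g p q r = word g p q := by
  simp [cut, h1, h2]

theorem cut_out {g p q r : ℕ} (h : ¬ (p ≤ r ∧ r < q)) : cut g p q r = 1 := by
  simp [cut, h]

theorem fc_cut_word (g p q : ℕ) : fc (cut g p q) (word g p q) = word g p q := by
  rw [fc_word _ (word g p q) p q (fun r h1 h2 => cut_in h1 h2)]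
  group

theorem fc_cut_inv_word (g p q : ℕ) :
    fc (fun r => (cut g p q r)⁻¹) (word g p q) = word g p q := by
  rw [fc_word _ (word g p q)⁻¹ p q (fun r h1 h2 => by rw [cut_in h1 h2])]
  group

theorem tw_aux1 (g p q : ℕ) :
    (fc fun r => (cut g p q r)⁻¹).comp (fc (cut g p q)) = MonoidHom.id _ := by
  rw [fc_comp, ← fc_one]
  congr 1
  funext r
  by_cases h : p ≤ r ∧ r < q
  · rw [cut_in h.1 h.2, fc_cut_inv_word]
    group
  · rw [cut_out h]
    simp

theorem tw_aux2 (g p q : ℕ) :
    (fc (cut g p q)).comp (fc fun r => (cut g p q r)⁻¹) = MonoidHom.id _ := by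
  rw [fc_comp, ← fc_one]
  congr 1
  funext r
  by_cases h : p ≤ r ∧ r < q
  · rw [cut_in h.1 h.2, map_inv, fc_cut_word]
    group
  · rw [cut_out h]
    simp

/-- The Dehn twist about the curve that encloses the feet `p, …, q - 1`, as an automorphism of the
free group. -/
def tw (g p q : ℕ) : MulAut (Fr g) :=
  MonoidHom.toMulEquiv (fc (cut g p q)) (fc fun r => (cut g p q r)⁻¹) (tw_aux1 g p q)
    (tw_aux2 g p q)

theorem tw_apply (g p q : ℕ) (x : Fr g) : tw g p q x = fc (cut g p q) x := rfl

/-- The endomorphism `b_j ↦ b_j a_j⁻¹`. -/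
def btHom {g : ℕ} (j : Fin g) : Fr g →* Fr g :=
  FreeGroup.lift (Sum.elim A (fun i => if i = j then B i * (A i)⁻¹ else B i))

/-- The endomorphism `b_j ↦ b_j a_j`. -/
def btHom' {g : ℕ} (j : Fin g) : Fr g →* Fr g :=
  FreeGroup.lift (Sum.elim A (fun i => if i = j then B i * A i else B i))

theorem btHom_A {g : ℕ} (j i : Fin g) : btHom j (A i) = A i := by simp [btHom, A]

theorem btHom_B {g : ℕ} (j i : Fin g) :
    btHom j (B i) = if i = j then B i * (A i)⁻¹ else B i := by simp [btHom, B]

theorem btHom'_A {g : ℕ} (j i : Fin g) : btHom' j (A i) = A i := by simp [btHom', A]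

theorem btHom'_B {g : ℕ} (j i : Fin g) :
    btHom' j (B i) = if i = j then B i * A i else B i := by simp [btHom', B]

/-- The Dehn twist `b_j ↦ b_j a_j⁻¹` about the curve `a_j`, as an automorphism of the free
group. -/
def bt {g : ℕ} (j : Fin g) : MulAut (Fr g) :=
  MonoidHom.toMulEquiv (btHom j) (btHom' j)
    (hom_ext (fun i => by simp [btHom_A, btHom'_A])
      (fun i => by
        by_cases h : i = j <;> simp [btHom_B, btHom'_B, btHom'_A, h]))
    (hom_ext (fun i => by simp [btHom_A, btHom'_A])
      (fun i => by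
        by_cases h : i = j <;> simp [btHom_B, btHom'_B, btHom_A, h]))

theorem bt_apply {g : ℕ} (j : Fin g) (x : Fr g) : bt j x = btHom j x := rfl

/-! ### The relator is fixed -/

theorem word_even (g : ℕ) : ∀ (k : ℕ) (hk : k ≤ g),
    word g 0 (2 * k) = (List.ofFn fun i : Fin k => A (Fin.castLE hk i) * B (Fin.castLE hk i) *
      (A (Fin.castLE hk i))⁻¹ * (B (Fin.castLE hk i))⁻¹).prod := by
  intro k
  induction k with
  | zero => intro hk; simp [word_self]
  | succ k ih =>
    intro hk
    rw [List.ofFn_succ', List.concat_eq_append, List.prod_append]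
    have e : 2 * (k + 1) = 2 * k + 1 + 1 := by ring
    rw [e, word_succ (by omega), word_succ (by omega), ih (by omega)]
    simp only [List.prod_singleton]
    have h1 : foot g (2 * k) = A ⟨k, hk⟩ * B ⟨k, hk⟩ * (A ⟨k, hk⟩)⁻¹ := by
      unfold foot
      have e1 : 2 * k / 2 = k := by omega
      have e2 : 2 * k % 2 = 0 := by omega
      simp only [e1, e2]
      rw [dif_pos (by omega)]
      simp
    have h2 : foot g (2 * k + 1) = (B ⟨k, hk⟩)⁻¹ := by
      unfold foot
      have e1 : (2 * k + 1) / 2 = k := by omega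
      have e2 : (2 * k + 1) % 2 = 1 := by omega
      simp only [e1, e2]
      rw [dif_pos (by omega)]
      simp
    rw [h1, h2]
    have h3 : Fin.castLE hk (Fin.last k) = ⟨k, hk⟩ := rfl
    rw [h3]
    simp only [mul_assoc]
    rfl

theorem surfRel_eq (g : ℕ) : surfRel g = word g 0 (2 * g) := by
  rw [word_even g g le_rfl]
  rfl

theorem foot_top {g r : ℕ} (h : 2 * g ≤ r) : foot g r = 1 := by
  unfold foot
  rw [dif_neg (by omega)]

theorem word_top {g p : ℕ} (h : 2 * g ≤ p) (q : ℕ) : word g p q = 1 := by
  unfold word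
  apply List.prod_eq_one
  intro x hx
  rw [List.mem_map] at hx
  obtain ⟨r, hr, rfl⟩ := hx
  rw [List.Ico.mem] at hr
  exact foot_top (h.trans hr.1)

theorem tw_surfRel (g p q : ℕ) : tw g p q (surfRel g) = surfRel g := by
  rw [tw_apply, surfRel_eq]
  rcases le_total p (2 * g) with hp | hp
  · rcases le_total q (2 * g) with hq | hq
    · rcases le_total p q with hpq | hpq
      · rw [word_split (Nat.zero_le p) (hpq.trans hq), word_split hpq hq, map_mul, map_mul,
          fc_cut_word, fc_word _ 1 0 p (fun r _ h => cut_out (by omega)),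
          fc_word _ 1 q (2 * g) (fun r h _ => cut_out (by omega))]
        simp
      · rw [fc_word _ 1 0 (2 * g) (fun r _ h => cut_out (by omega))]
        simp
    · have e : word g p q = word g p (2 * g) := by
        rw [word_split hp hq, word_top le_rfl, mul_one]
      rw [word_split (Nat.zero_le p) hp, map_mul,
        fc_word _ 1 0 p (fun r _ h => cut_out (by omega)),
        fc_word _ (word g p q) p (2 * g) (fun r h h' => cut_in h (by omega)), e]
      group
  · rw [fc_word _ 1 0 (2 * g) (fun r _ h => cut_out (by omega))]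
    simp

theorem bt_foot_other {g : ℕ} (j : Fin g) {r : ℕ} (h : r / 2 ≠ j) :
    btHom j (foot g r) = foot g r := by
  unfold foot
  split_ifs with h1 h2
  · have : (⟨r / 2, h1⟩ : Fin g) ≠ j := fun e => h (by rw [← e])
    simp [btHom_A, btHom_B, this]
  · have : (⟨r / 2, h1⟩ : Fin g) ≠ j := fun e => h (by rw [← e])
    simp [btHom_B, this]
  · simp

theorem foot_even {g : ℕ} (j : Fin g) : foot g (2 * j) = A j * B j * (A j)⁻¹ := by
  unfold foot
  have e1 : 2 * (j : ℕ) / 2 = j := by omega
  have e2 : 2 * (j : ℕ) % 2 = 0 := by omega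
  simp only [e1, e2]
  rw [dif_pos j.2]
  simp

theorem foot_odd {g : ℕ} (j : Fin g) : foot g (2 * j + 1) = (B j)⁻¹ := by
  unfold foot
  have e1 : (2 * (j : ℕ) + 1) / 2 = j := by omega
  have e2 : (2 * (j : ℕ) + 1) % 2 = 1 := by omega
  simp only [e1, e2]
  rw [dif_pos j.2]
  simp

theorem bt_foot_even {g : ℕ} (j : Fin g) :
    btHom j (foot g (2 * j)) = foot g (2 * j) * (A j)⁻¹ := by
  rw [foot_even]
  simp [btHom_A, btHom_B, mul_assoc]

theorem bt_foot_odd {g : ℕ} (j : Fin g) :
    btHom j (foot g (2 * j + 1)) = A j * foot g (2 * j + 1) := by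
  rw [foot_odd]
  simp [btHom_B]

theorem bt_word_out {g : ℕ} (j : Fin g) (p q : ℕ) (h : ∀ r, p ≤ r → r < q → r / 2 ≠ j) :
    btHom j (word g p q) = word g p q := by
  rcases le_total p q with hpq | hpq
  · induction q, hpq using Nat.le_induction with
    | base => simp [word_self]
    | succ q hq ih =>
      rw [word_succ hq, map_mul, ih (fun r h1 h2 => h r h1 (by omega)),
        bt_foot_other j (h q hq (by omega))]
  · have : word g p q = 1 := by
      unfold word
      rw [List.Ico.eq_nil_of_le hpq]
      rfl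
    rw [this]
    simp

theorem bt_word_in {g : ℕ} (j : Fin g) (p q : ℕ) (h1 : p ≤ 2 * j) (h2 : 2 * (j : ℕ) + 2 ≤ q) :
    btHom j (word g p q) = word g p q := by
  rw [word_split h1 (by omega : 2 * (j : ℕ) ≤ q),
    word_split (by omega : 2 * (j : ℕ) ≤ 2 * j + 1 + 1) (by omega : 2 * (j : ℕ) + 1 + 1 ≤ q),
    word_succ (by omega), word_single]
  simp only [map_mul]
  rw [bt_word_out j p (2 * j) (fun r _ _ => by omega),
    bt_word_out j (2 * j + 1 + 1) q (fun r _ _ => by omega), bt_foot_even, bt_foot_odd]
  group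

theorem bt_surfRel {g : ℕ} (j : Fin g) : bt j (surfRel g) = surfRel g := by
  rw [bt_apply, surfRel_eq]
  exact bt_word_in j 0 (2 * g) (Nat.zero_le _) (by have := j.2; omega)

/-! ### The mapping class group -/

/-- The automorphisms of the free group that fix the relator. -/
def Stab (g : ℕ) : Subgroup (MulAut (Fr g)) where
  carrier := {φ | φ (surfRel g) = surfRel g}
  one_mem' := rfl
  mul_mem' := by
    intro φ ψ h1 h2
    change φ (ψ (surfRel g)) = surfRel g
    rw [show ψ (surfRel g) = surfRel g from h2]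
    exact h1
  inv_mem' := by
    intro φ h
    exact (MulEquiv.symm_apply_eq φ).mpr (Eq.symm h)

theorem map_normalClosure {g : ℕ} (φ : Stab g) :
    (Subgroup.normalClosure ({surfRel g} : Set (Fr g))).map (φ.1 : Fr g →* Fr g) =
      Subgroup.normalClosure ({surfRel g} : Set (Fr g)) := by
  rw [Subgroup.map_normalClosure _ _ φ.1.surjective]
  congr 1
  simp only [Set.image_singleton]
  exact congrArg _ φ.2

/-- An automorphism of the free group that fixes the relator induces an automorphism of the surface
group. -/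
def desc (g : ℕ) : Stab g →* MulAut (Surf g) where
  toFun φ := QuotientGroup.congr _ _ φ.1 (map_normalClosure φ)
  map_one' := by
    ext x
    induction x using QuotientGroup.induction_on
    rfl
  map_mul' φ ψ := by
    ext x
    induction x using QuotientGroup.induction_on
    rfl

/-- The outer automorphism of the surface group induced by an automorphism of the free group that
fixes the relator. -/
def out (g : ℕ) : Stab g →* Out (Surf g) := (QuotientGroup.mk' (Inn (Surf g))).comp (desc g)

/-- The Dehn twist about the curve around the feet `p, …, q - 1`, in `Out (π₁)`. -/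
def Tw (g p q : ℕ) : Out (Surf g) := out g ⟨tw g p q, tw_surfRel g p q⟩

/-- The Dehn twist about the curve `a_j`, in `Out (π₁)`. -/
def Bt {g : ℕ} (j : Fin g) : Out (Surf g) := out g ⟨bt j, bt_surfRel j⟩

/-- The mapping class group of the closed orientable surface of genus `g`, as the subgroup of the
outer automorphism group of its fundamental group that is generated by Lickorish's Dehn twists:
the twists about the curves `a_j`, about the curves around the foot `2j + 1` (that is `b_j`), and
about the curves around the two feet `2j + 1` and `2j + 2`. -/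
def Mod (g : ℕ) : Subgroup (Out (Surf g)) :=
  Subgroup.closure {x | ∃ j : Fin g, x = Bt j ∨ x = Tw g (2 * j + 1) (2 * j + 2) ∨
    ((j : ℕ) + 1 < g ∧ x = Tw g (2 * j + 1) (2 * j + 3))}

/-- The intervals are disjoint or nested (the curves are disjoint). -/
def Lam (I J : ℕ × ℕ) : Prop :=
  I.2 ≤ J.1 ∨ J.2 ≤ I.1 ∨ (I.1 ≤ J.1 ∧ J.2 ≤ I.2) ∨ (J.1 ≤ I.1 ∧ I.2 ≤ J.2)

/-! ### Relative ends -/

/-- The Schreier graph of the subgroup `H` with respect to `S`. -/
def schreier {Γ : Type} [Group Γ] (S : Set Γ) (H : Subgroup Γ) : SimpleGraph (Γ ⧸ H) :=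
  SimpleGraph.fromRel fun x y => ∃ s ∈ S, s • x = y

/-- The number of relative ends `e(Γ, H)`: the number of ends of the Schreier graph, that is the
supremum over the finite sets `K` of vertices of the number of infinite connected components of the
complement of `K`. -/
noncomputable def relEnds {Γ : Type} [Group Γ] (S : Set Γ) (H : Subgroup Γ) : ℕ∞ :=
  ⨆ K : Finset (Γ ⧸ H), ENat.card
    {C : ((schreier S H).induce ((K : Set (Γ ⧸ H))ᶜ)).ConnectedComponent // C.supp.Infinite}

end Pool.Agent.H.MP_ee9c6f_al
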