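import Pool.Agent.H.MP_ee9c6f_al.Fib2

/-!
MP_ee9c6f_al (helper22). Elliptic subgroups.
-/

set_option autoImplicit false

namespace Pool.Agent.H.MP_ee9c6f_al

open Pointwise

variable {G X : Type*} [Group G] [MulAction G X]

/-- `U` is almost equal to a set that is invariant under `P`. -/
def EllS (U : Set X) (P : Subgroup G) : Prop := ∃ V : Set X, AE V U ∧ ∀ p ∈ P, p • V = V

theorem smul_eq_of_subset {P : Subgroup G} {V : Set X} (h : ∀ p ∈ P, ∀ z ∈ V, p • z ∈ V) :
    ∀ p ∈ P, p • V = V := by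
  intro p hp
  apply Set.Subset.antisymm
  · rintro _ ⟨z, hz, rfl⟩
    exact h p hp z hz
  · intro z hz
    rw [Set.mem_smul_set_iff_inv_smul_mem]
    exact h p⁻¹ (inv_mem hp) z hz

theorem mem_iff_of_inv {P : Subgroup G} {V : Set X} (h : ∀ p ∈ P, p • V = V) {x y : X}
    (hy : y ∈ MulAction.orbit P x) : y ∈ V ↔ x ∈ V := by
  obtain ⟨p, hp, rfl⟩ := mem_orbit_sub.mp hy
  exact smul_mem_of_eq (h p hp) x

theorem EllS.not_bad {U : Set X} {P : Subgroup G} (h : EllS U P) (x : X) : ¬ Bad U P x := by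
  obtain ⟨V, hV, hP⟩ := h
  rintro ⟨h1, h2⟩
  by_cases hx : x ∈ V
  · apply h2
    refine hV.finite_diff.subset ?_
    rintro z ⟨hz, hzU⟩
    exact ⟨(mem_iff_of_inv hP hz).mpr hx, hzU⟩
  · apply h1
    refine hV.finite_diff'.subset ?_
    rintro z ⟨hzU, hz⟩
    exact ⟨hzU, fun h => hx ((mem_iff_of_inv hP hz).mp h)⟩

theorem EllS.of_not_bad {U : Set X} (hU : AInv G U) {T : Set G} (hT : T.Finite)
    (h : ∀ x, ¬ Bad U (Subgroup.closure T) x) : EllS U (Subgroup.closure T) := by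
  classical
  set P := Subgroup.closure T with hP
  set V : Set X := {x | ((MulAction.orbit P x).Infinite ∧ (MulAction.orbit P x \ U).Finite) ∨
    ((MulAction.orbit P x).Finite ∧ (U ∩ MulAction.orbit P x).Nonempty)} with hV
  refine ⟨V, ?_, ?_⟩
  · -- the finite orbits that meet the boundary
    let f : X → Set X := fun z => if (MulAction.orbit P z).Finite then MulAction.orbit P z else ∅
    have hf : (⋃ z ∈ bd U T, f z).Finite := by
      apply (bd_finite hU hT).biUnion
      intro z _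
      by_cases h : (MulAction.orbit P z).Finite
      · simp only [f, if_pos h]
        exact h
      · simp only [f, if_neg h]
        exact Set.finite_empty
    have f1 : (V \ U).Finite := by
      refine ((fin_small hU.compl hT).union hf).subset ?_
      rintro x ⟨⟨h1, h2⟩ | ⟨h1, ⟨y, hyU, hy⟩⟩, hxU⟩
      · left
        refine ⟨hxU, h1, ?_⟩
        rwa [Set.inter_comm, ← Set.sdiff_eq]
      · right
        obtain ⟨w, hw, hwb⟩ := exists_bd hy hyU (MulAction.mem_orbit_self x) hxU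
        refine Set.mem_biUnion hwb ?_
        have e := orbit_sub_eq hw
        rw [← hP] at e
        simp only [f, e, if_pos h1]
        exact MulAction.mem_orbit_self x
    have f2 : (U \ V).Finite := by
      refine (fin_small hU hT).subset ?_
      rintro x ⟨hxU, hxV⟩
      have h1 : (MulAction.orbit P x).Infinite := by
        intro h1
        exact hxV (Or.inr ⟨h1, x, hxU, MulAction.mem_orbit_self x⟩)
      refine ⟨hxU, h1, ?_⟩
      rcases not_bad_iff (h x) with h2 | h2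
      · exact h2
      · exact absurd (Or.inl ⟨h1, h2⟩) hxV
    unfold AE
    rw [Set.symmDiff_def]
    exact f1.union f2
  · apply smul_eq_of_subset
    intro p hp z hz
    have e := orbit_smul_sub hp z
    simp only [hV, Set.mem_ofPred_eq] at hz ⊢
    rw [e]
    exact hz

theorem mem_sup_comm {P Q : Subgroup G} (hPQ : ∀ a ∈ P, ∀ b ∈ Q, Commute a b) {c : G}
    (hc : c ∈ P ⊔ Q) : ∃ a ∈ P, ∃ b ∈ Q, c = a * b := by
  have hc' : c ∈ Subgroup.closure ((P : Set G) ∪ (Q : Set G)) := by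
    rw [← Subgroup.sup_eq_closure]
    exact hc
  clear hc
  induction hc' using Subgroup.closure_induction with
  | mem s hs =>
    rcases hs with hs | hs
    · exact ⟨s, hs, 1, one_mem _, (mul_one s).symm⟩
    · exact ⟨1, one_mem _, s, hs, (one_mul s).symm⟩
  | one => exact ⟨1, one_mem _, 1, one_mem _, (one_mul 1).symm⟩
  | mul s t _ _ ihs iht =>
    obtain ⟨a, ha, b, hb, rfl⟩ := ihs
    obtain ⟨a', ha', b', hb', rfl⟩ := iht
    refine ⟨a * a', mul_mem ha ha', b * b', mul_mem hb hb', ?_⟩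
    have := (hPQ a' ha' b hb).eq
    calc a * b * (a' * b') = a * (b * a') * b' := by group
      _ = a * (a' * b) * b' := by rw [this]
      _ = _ := by group
  | inv s _ ih =>
    obtain ⟨a, ha, b, hb, rfl⟩ := ih
    refine ⟨a⁻¹, inv_mem ha, b⁻¹, inv_mem hb, ?_⟩
    rw [mul_inv_rev, ((hPQ a ha b hb).inv_inv).eq]

theorem orbit_sup_comm {P Q : Subgroup G} (hPQ : ∀ a ∈ P, ∀ b ∈ Q, Commute a b) {x z : X}
    (hz : z ∈ MulAction.orbit (P ⊔ Q : Subgroup G) x) : ∃ a ∈ P, ∃ b ∈ Q, z = a • b • x := by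
  obtain ⟨c, hc, rfl⟩ := mem_orbit_sub.mp hz
  obtain ⟨a, ha, b, hb, rfl⟩ := mem_sup_comm hPQ hc
  exact ⟨a, ha, b, hb, mul_smul _ _ _⟩

theorem finite_sup_comm {P Q : Subgroup G} (hPQ : ∀ a ∈ P, ∀ b ∈ Q, Commute a b) {x : X}
    (hP : (MulAction.orbit P x).Finite) (hQ : (MulAction.orbit Q x).Finite) :
    (MulAction.orbit (P ⊔ Q : Subgroup G) x).Finite := by
  have h1 : (⋃ w ∈ MulAction.orbit Q x, MulAction.orbit P w).Finite := by
    apply hQ.biUnion
    intro w hw
    obtain ⟨b, hb, rfl⟩ := mem_orbit_sub.mp hw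
    rw [orbit_comm fun a ha => hPQ a ha b hb]
    exact hP.smul_set
  refine h1.subset ?_
  intro z hz
  obtain ⟨a, ha, b, hb, rfl⟩ := orbit_sup_comm hPQ hz
  exact Set.mem_biUnion (mem_orbit_sub.mpr ⟨b, hb, rfl⟩) (mem_orbit_sub.mpr ⟨a, ha, rfl⟩)

/-- Two commuting groups without bad orbits generate a group without bad orbits. -/
theorem not_bad_sup {U : Set X} (hU : AInv G U) {P Q : Subgroup G} (hP : EllS U P)
    (hQ : EllS U Q) (hPQ : ∀ a ∈ P, ∀ b ∈ Q, Commute a b) (x : X) : ¬ Bad U (P ⊔ Q) x := by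
  have horb : ∀ z ∈ MulAction.orbit (P ⊔ Q : Subgroup G) x, ∃ a ∈ P, ∃ b ∈ Q,
      z = a • b • x := fun z hz => orbit_sup_comm hPQ hz
  -- finite orbits of one of the groups
  have key : ∀ (P Q : Subgroup G), EllS U Q → (∀ a ∈ P, ∀ b ∈ Q, Commute a b) →
      (∀ z ∈ MulAction.orbit (P ⊔ Q : Subgroup G) x, ∃ a ∈ P, ∃ b ∈ Q, z = a • b • x) →
      (MulAction.orbit P x).Finite → ¬ Bad U (P ⊔ Q) x := by
    intro P Q hQ hPQ horb hfin
    have hcase := not_bad_iff (hQ.not_bad x)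
    have h2 : ∀ W : Set X, AInv G W → (W ∩ MulAction.orbit Q x).Finite →
        (W ∩ MulAction.orbit (P ⊔ Q : Subgroup G) x).Finite := by
      intro W hW hWf
      have h3 : (⋃ w ∈ MulAction.orbit P x, (W ∩ MulAction.orbit Q w)).Finite := by
        apply hfin.biUnion
        intro w hw
        obtain ⟨a, ha, rfl⟩ := mem_orbit_sub.mp hw
        rw [orbit_comm fun b hb => (hPQ a ha b hb).symm]
        exact fin_smul hW a hWf
      refine h3.subset ?_
      rintro z ⟨hzW, hz⟩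
      obtain ⟨a, ha, b, hb, rfl⟩ := horb z hz
      refine Set.mem_biUnion (mem_orbit_sub.mpr ⟨a, ha, rfl⟩) ⟨hzW, ?_⟩
      refine mem_orbit_sub.mpr ⟨b, hb, ?_⟩
      rw [smul_smul, smul_smul, (hPQ a ha b hb).eq]
    rintro ⟨b1, b2⟩
    rcases hcase with h | h
    · exact b1 (h2 U hU h)
    · apply b2
      have := h2 Uᶜ hU.compl (by rwa [Set.inter_comm, ← Set.sdiff_eq])
      rwa [Set.inter_comm, ← Set.sdiff_eq] at this
  by_cases hPf : (MulAction.orbit P x).Finite
  · exact key P Q hQ hPQ horb hPf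
  by_cases hQf : (MulAction.orbit Q x).Finite
  · have := key Q P hP (fun a ha b hb => (hPQ b hb a ha).symm) (by
      intro z hz
      rw [sup_comm] at hz
      obtain ⟨a, ha, b, hb, rfl⟩ := horb z hz
      refine ⟨b, hb, a, ha, ?_⟩
      rw [smul_smul, smul_smul, (hPQ a ha b hb).eq]) hQf
    rwa [sup_comm] at this
  -- both orbits are infinite
  obtain ⟨V, hV, hPV⟩ := hP
  have hinfP : ∀ z ∈ MulAction.orbit (P ⊔ Q : Subgroup G) x, (MulAction.orbit P z).Infinite := by
    intro z hz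
    obtain ⟨a, ha, b, hb, rfl⟩ := horb z hz
    rw [orbit_smul_sub ha, orbit_comm fun a ha => hPQ a ha b hb]
    exact Set.Infinite.smul_set hPf
  -- `V` is invariant under `Q` on the orbit
  have hQV : ∀ b ∈ Q, ∀ z ∈ MulAction.orbit (P ⊔ Q : Subgroup G) x, (b • z ∈ V ↔ z ∈ V) := by
    intro b hb z hz
    by_contra hne
    have h1 : AE (b⁻¹ • V) V := ((hV.smul b⁻¹).trans (hU b⁻¹)).trans hV.symm
    apply hinfP z hz
    refine h1.subset ?_
    intro w hw
    have h2 : ∀ p ∈ P, p • (b⁻¹ • V) = b⁻¹ • V := by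
      intro p hp
      rw [smul_smul, ((hPQ p hp b hb).inv_right).eq, mul_smul, hPV p hp]
    have e1 := mem_iff_of_inv hPV hw
    have e2 := mem_iff_of_inv h2 hw
    rw [Set.mem_inv_smul_set_iff, Set.mem_inv_smul_set_iff] at e2
    rw [Set.mem_symmDiff, Set.mem_inv_smul_set_iff]
    tauto
  have hall : ∀ z ∈ MulAction.orbit (P ⊔ Q : Subgroup G) x, (z ∈ V ↔ x ∈ V) := by
    intro z hz
    obtain ⟨a, ha, b, hb, rfl⟩ := horb z hz
    rw [smul_mem_of_eq (hPV a ha), hQV b hb x (MulAction.mem_orbit_self x)]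
  rintro ⟨b1, b2⟩
  by_cases hx : x ∈ V
  · apply b2
    refine hV.finite_diff.subset ?_
    rintro z ⟨hz, hzU⟩
    exact ⟨(hall z hz).mpr hx, hzU⟩
  · apply b1
    refine hV.finite_diff'.subset ?_
    rintro z ⟨hzU, hz⟩
    exact ⟨hzU, fun h => hx ((hall z hz).mp h)⟩

/-- If two elliptic groups have different invariant sets at `y` then every common subgroup has a
finite orbit. -/
theorem finite_of_ne {U : Set X} {P Q D : Subgroup G} {V W : Set X} (hV : AE V U)
    (hPV : ∀ p ∈ P, p • V = V) (hW : AE W U) (hQW : ∀ p ∈ Q, p • W = W) (hDP : D ≤ P)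
    (hDQ : D ≤ Q) {y : X} (hne : ¬ (y ∈ V ↔ y ∈ W)) : (MulAction.orbit D y).Finite := by
  refine (hV.trans hW.symm).subset ?_
  intro z hz
  have e1 := mem_iff_of_inv (P := D) (fun p hp => hPV p (hDP hp)) hz
  have e2 := mem_iff_of_inv (P := D) (fun p hp => hQW p (hDQ hp)) hz
  rw [Set.mem_symmDiff]
  tauto

end Pool.Agent.H.MP_ee9c6f_al
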