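import Pool.Agent.H.MP_ee9c6f_al.Fib

/-!
MP_ee9c6f_al (helper22). Two commuting groups, one with a bad orbit, the other one with an infinite
orbit: the fibre product.
-/

set_option autoImplicit false

namespace Pool.Agent.H.MP_ee9c6f_al

open Pointwise

variable {G X : Type*} [Group G] [MulAction G X]

theorem bad_other {U : Set X} (hU : AInv G U) {A : Subgroup G} {T : Set G} (hT : T.Finite)
    (hAB : ∀ a ∈ A, ∀ b ∈ Subgroup.closure T, Commute a b) {x : X} (h : Bad U A x)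
    (hB : (MulAction.orbit (Subgroup.closure T) x).Infinite) : Bad U (Subgroup.closure T) x := by
  have key : ∀ W : Set X, AInv G W → Bad W A x →
      (W ∩ MulAction.orbit (Subgroup.closure T) x).Infinite := by
    intro W hW hbad hfin
    obtain ⟨F, hF, hFZ, hcov⟩ := finite_B hW hT hAB hbad hB
    apply hbad.1
    have h1 : (⋃ w ∈ F, (W ∩ MulAction.orbit (Subgroup.closure T) w)).Finite := by
      apply hF.biUnion
      intro w hw
      obtain ⟨a, -, e⟩ := orbit_B hAB (hFZ hw)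
      rw [e]
      exact fin_smul hW a hfin
    refine h1.subset ?_
    rintro z ⟨hzW, hz⟩
    obtain ⟨w, hw, hzw⟩ := hcov z (subset_prodOrbit x hz)
    exact Set.mem_biUnion hw ⟨hzW, hzw⟩
  refine ⟨key U hU h, ?_⟩
  have := key Uᶜ hU.compl h.compl
  rwa [Set.inter_comm, ← Set.sdiff_eq] at this

theorem zpow_eq {a b : G} (hab : Commute a b) {x : X} (h : a • x = b • x) (m : ℤ) :
    a ^ m • x = b ^ m • x := by
  have h1 : b⁻¹ * a ∈ MulAction.stabilizer G x := by
    rw [MulAction.mem_stabilizer_iff, mul_smul, h, inv_smul_smul]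
  have h2 := zpow_mem h1 m
  rw [hab.inv_right.symm.mul_zpow, MulAction.mem_stabilizer_iff, mul_smul, inv_zpow,
    inv_smul_eq_iff] at h2
  exact h2

theorem Ell.pow {U : Set X} {t : G} (h : Ell U t) (m : ℤ) : Ell U (t ^ m) := by
  obtain ⟨V, hV, htV⟩ := h
  refine ⟨V, hV, ?_⟩
  have h1 : t ∈ MulAction.stabilizer G V := htV
  exact zpow_mem h1 m

/-- The main theorem about two commuting groups. -/
theorem fibre {U : Set X} (hU : AInv G U) {S T : Set G} (hS : S.Finite) (hT : T.Finite)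
    (hAB : ∀ a ∈ Subgroup.closure S, ∀ b ∈ Subgroup.closure T, Commute a b) {x : X}
    (h : Bad U (Subgroup.closure S) x)
    (hB : (MulAction.orbit (Subgroup.closure T) x).Infinite) :
    ∃ A₁ B₁ : Subgroup G, A₁ ≤ Subgroup.closure S ∧ B₁ ≤ Subgroup.closure T ∧
      A₁.relIndex (Subgroup.closure S) ≠ 0 ∧ B₁.relIndex (Subgroup.closure T) ≠ 0 ∧
      ∃ (χ : A₁ →* Multiplicative ℤ) (χ' : B₁ →* Multiplicative ℤ),
        Function.Surjective χ ∧ Function.Surjective χ' ∧
        (∀ (a : A₁) (b : B₁), χ a = χ' b ↔ (a : G) • x = (b : G) • x) ∧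
        (∀ a : A₁, Ell U (a : G) → χ a = 1) ∧ (∀ b : B₁, Ell U (b : G) → χ' b = 1) ∧
        (∀ a : A₁, χ a ≠ 1 → Bad U (Subgroup.closure {(a : G)}) x) ∧
        ∀ b : B₁, χ' b ≠ 1 → Bad U (Subgroup.closure {(b : G)}) x := by
  set A := Subgroup.closure S with hA
  set B := Subgroup.closure T with hBd
  have hBA : ∀ b ∈ B, ∀ a ∈ A, Commute b a := fun b hb a ha => (hAB a ha b hb).symm
  have hbadB : Bad U B x := bad_other hU hT hAB h hB
  obtain ⟨FA, hFA, hFAZ, hcovA⟩ := finite_A (B := B) hU hS hAB h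
  obtain ⟨FB, hFB, hFBZ, hcovB⟩ := finite_B (A := A) hU hT hAB h hB
  -- the subgroups
  set A' := tog A B hAB x with hA'
  set B' := tog B A hBA x with hB'
  have hA'A : A' ≤ A := fun a ha => ha.1
  have hB'B : B' ≤ B := fun a ha => ha.1
  have iA' : A'.relIndex A ≠ 0 := by
    refine relIndex_ne_zero hFB (fun a w => a • x ∈ MulAction.orbit B w) ?_ ?_
    · intro a ha
      exact hcovB _ (subset_prodOrbit x (mem_orbit_sub.mpr ⟨a, ha, rfl⟩))
    · intro a ha a' ha' w hw hw'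
      refine ⟨mul_mem (inv_mem ha) ha', ?_⟩
      rw [← orbit_sub_eq hw] at hw'
      obtain ⟨b, hb, e⟩ := mem_orbit_sub.mp hw'
      refine mem_orbit_sub.mpr ⟨b, hb, ?_⟩
      rw [mul_smul, ← e, smul_smul b, ← (hAB a ha b hb).eq, mul_smul, inv_smul_smul]
  have iB' : B'.relIndex B ≠ 0 := by
    refine relIndex_ne_zero hFA (fun a w => a • x ∈ MulAction.orbit A w) ?_ ?_
    · intro b hb
      exact hcovA _ ⟨1, one_mem _, b, hb, by rw [one_smul]⟩
    · intro b hb b' hb' w hw hw'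
      refine ⟨mul_mem (inv_mem hb) hb', ?_⟩
      rw [← orbit_sub_eq hw] at hw'
      obtain ⟨a, ha, e⟩ := mem_orbit_sub.mp hw'
      refine mem_orbit_sub.mpr ⟨a, ha, ?_⟩
      rw [mul_smul, ← e, smul_smul a, (hAB a ha b hb).eq, mul_smul, inv_smul_smul]
  have hcm : ∀ a ∈ A, ∀ b ∈ B, Commute b a := fun a ha b hb => (hAB a ha b hb).symm
  -- the translation homomorphism
  let φ : A' →* Multiplicative ℤ :=
    { toFun := fun a => Multiplicative.ofAdd (tr U B x (a : G))
      map_one' := by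
        rw [ofAdd_eq_one]
        exact tr_one
      map_mul' := by
        intro a a'
        rw [← ofAdd_add]
        congr 1
        exact tr_mul hU (hcm a a.2.1) a.2.2 (hcm a' a'.2.1) a'.2.2 }
  have hφ : ∀ a : A', φ a = Multiplicative.ofAdd (tr U B x (a : G)) := fun a => rfl
  have hφ1 : ∀ a : A', φ a = 1 ↔ tr U B x (a : G) = 0 := fun a => by
    rw [hφ, ofAdd_eq_one]
  -- the kernel points
  set Kf : Set X := {y | ∃ a : A', φ a = 1 ∧ y = (a : G) • x} with hKf
  have hKfin : Kf.Finite := by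
    refine (ker_finite hU hT hbadB).subset ?_
    rintro y ⟨a, ha, rfl⟩
    exact ⟨a, hcm a a.2.1, a.2.2, (hφ1 a).mp ha, rfl⟩
  -- a generator of the image
  obtain ⟨⟨_, ⟨a₀, rfl⟩⟩, hgen⟩ := (inferInstance : IsCyclic φ.range).exists_generator
  have hgen' : ∀ a : A', ∃ m : ℤ, φ a = φ (a₀ ^ m) := by
    intro a
    obtain ⟨m, hm⟩ := hgen ⟨φ a, a, rfl⟩
    refine ⟨m, ?_⟩
    rw [map_zpow]
    exact (congrArg Subtype.val hm).symm
  have hne : φ a₀ ≠ 1 := by
    intro h1
    have hall : ∀ a : A', φ a = 1 := by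
      intro a
      obtain ⟨m, hm⟩ := hgen' a
      rw [hm, map_zpow, h1, one_zpow]
    have hfin : (MulAction.orbit A' x).Finite := by
      refine hKfin.subset ?_
      intro y hy
      obtain ⟨a, ha, rfl⟩ := mem_orbit_sub.mp hy
      exact ⟨⟨a, ha⟩, hall _, rfl⟩
    have hfin2 : (MulAction.orbit A x).Finite :=
      orbit_finite_iff.mpr (Subgroup.relIndex_ne_zero_trans (orbit_finite_iff.mp hfin) iA')
    exact h.1 (hfin2.subset Set.inter_subset_right)
  set τ := tr U B x (a₀ : G) with hτ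
  have hτ0 : τ ≠ 0 := fun h0 => hne ((hφ1 a₀).mpr h0)
  have htr : ∀ m : ℤ, tr U B x ((a₀ : G) ^ m) = m * τ := by
    intro m
    have h1 : φ (a₀ ^ m) = Multiplicative.ofAdd (tr U B x ((a₀ : G) ^ m)) := by
      rw [hφ]
      rfl
    rw [map_zpow, hφ] at h1
    have h2 := congrArg Multiplicative.toAdd h1
    rw [toAdd_zpow, toAdd_ofAdd, toAdd_ofAdd, smul_eq_mul] at h2
    exact h2.symm
  have ha₀A : (a₀ : G) ∈ A := a₀.2.1
  obtain ⟨b₀, hb₀, e₀⟩ := mem_orbit_sub.mp a₀.2.2
  have he : ∀ m : ℤ, (a₀ : G) ^ m • x = b₀ ^ m • x :=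
    zpow_eq (hAB _ ha₀A _ hb₀) e₀.symm
  have hinj : ∀ m : ℤ, (a₀ : G) ^ m • x = x → m = 0 := by
    intro m hm
    have h1 := tr_fix (U := U) (B := B) (hcm _ (zpow_mem ha₀A m)) hm
    rw [htr] at h1
    exact (mul_eq_zero.mp h1).resolve_right hτ0
  obtain ⟨A₁, χ, hA₁A, hA₁, hχs, hχ⟩ := exists_line hAB ha₀A hb₀ he hinj
  obtain ⟨B₁, χ', hB₁B, hB₁, hχs', hχ'⟩ := exists_line hBA hb₀ ha₀A (fun m => (he m).symm)
    (fun m hm => hinj m (by rw [he, hm]))
  have huniq : ∀ m m' : ℤ, (a₀ : G) ^ m • x = (a₀ : G) ^ m' • x → m = m' := by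
    intro m m' h
    have : (a₀ : G) ^ (m - m') • x = x := by
      rw [sub_eq_neg_add, zpow_add, mul_smul, h, zpow_neg, inv_smul_smul]
    have := hinj _ this
    omega
  have hca : ∀ a ∈ A, ∀ m : ℤ, a • b₀ ^ m • x = b₀ ^ m • a • x := by
    intro a ha m
    rw [smul_smul, (hAB a ha _ (zpow_mem hb₀ m)).eq, mul_smul]
  have hcb : ∀ b ∈ B, ∀ m : ℤ, b • (a₀ : G) ^ m • x = (a₀ : G) ^ m • b • x := by
    intro b hb m
    rw [smul_smul, (hBA b hb _ (zpow_mem ha₀A m)).eq, mul_smul]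
  have hA₁A' : A₁ ≤ A' := by
    intro a ha
    refine ⟨hA₁A ha, mem_orbit_sub.mpr ⟨b₀ ^ (Multiplicative.toAdd (χ ⟨a, ha⟩)),
      zpow_mem hb₀ _, ?_⟩⟩
    rw [← he]
    exact (hχ ⟨a, ha⟩).symm
  have iA₁ : A₁.relIndex A' ≠ 0 := by
    refine relIndex_ne_zero hKfin (fun a y => ∃ m : ℤ, y = a • (a₀ : G) ^ (-m) • x) ?_ ?_
    · intro a ha
      obtain ⟨m, hm⟩ := hgen' ⟨a, ha⟩
      refine ⟨_, ⟨⟨a, ha⟩ * a₀ ^ (-m), ?_, rfl⟩, m, ?_⟩
      · rw [map_mul, hm, zpow_neg, map_inv, mul_inv_cancel]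
      · rw [smul_smul]
        rfl
    · rintro a ha a' ha' y ⟨m, hy⟩ ⟨m', hy'⟩
      apply hA₁ _ (mul_mem (inv_mem ha.1) ha'.1)
      refine ⟨m' - m, ?_⟩
      rw [hy, he, he, hca a ha.1, hca a' ha'.1] at hy'
      have e1 : a' • x = b₀ ^ (m' - m) • a • x := by
        rw [zpow_neg, zpow_neg, eq_inv_smul_iff] at hy'
        rw [← hy', sub_eq_add_neg, zpow_add, mul_smul, zpow_neg]
      rw [mul_smul, e1, ← hca a ha.1, inv_smul_smul, he]
  have iB₁ : B₁.relIndex B' ≠ 0 := by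
    refine relIndex_ne_zero hKfin (fun b y => ∃ m : ℤ, y = (a₀ : G) ^ (-m) • b • x) ?_ ?_
    · intro b hb
      obtain ⟨a, ha, e⟩ := mem_orbit_sub.mp hb.2
      have ha' : a ∈ A' := ⟨ha, by rw [e]; exact mem_orbit_sub.mpr ⟨b, hb.1, rfl⟩⟩
      obtain ⟨m, hm⟩ := hgen' ⟨a, ha'⟩
      refine ⟨_, ⟨a₀ ^ (-m) * ⟨a, ha'⟩, ?_, rfl⟩, m, ?_⟩
      · rw [map_mul, hm, zpow_neg, map_inv, inv_mul_cancel]
      · rw [← e, smul_smul]
        rfl
    · rintro b hb b' hb' y ⟨m, hy⟩ ⟨m', hy'⟩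
      apply hB₁ _ (mul_mem (inv_mem hb.1) hb'.1)
      refine ⟨m' - m, ?_⟩
      rw [hy] at hy'
      have e1 : b' • x = (a₀ : G) ^ (m' - m) • b • x := by
        rw [zpow_neg _ m', eq_inv_smul_iff] at hy'
        rw [← hy', sub_eq_add_neg, zpow_add, mul_smul]
      rw [mul_smul, e1, ← hcb b hb.1, inv_smul_smul, he]
  -- the points on the line
  have hline : ∀ (c : G) (k : ℤ), k ≠ 0 → (∀ j : ℤ, c ^ j • x = (a₀ : G) ^ (k * j) • x) →
      Bad U (Subgroup.closure {c}) x := by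
    intro c k hk0 hck
    obtain ⟨F, hF, hsign⟩ := tr_sign hU hT hbadB
    have hmemC : ∀ j : ℤ, (a₀ : G) ^ (k * j) • x ∈ MulAction.orbit (Subgroup.closure {c}) x := by
      intro j
      rw [← hck]
      exact mem_orbit_sub.mpr ⟨_, zpow_mem (Subgroup.subset_closure (Set.mem_singleton c)) j, rfl⟩
    -- the points with a prescribed sign
    have main : ∀ P : ℤ → Prop, {j : ℤ | P j}.Infinite →
        ({z | ∃ j : ℤ, P j ∧ z = (a₀ : G) ^ (k * j) • x} \ F).Infinite := by
      intro P hP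
      apply Set.Infinite.sdiff _ hF
      have : {z | ∃ j : ℤ, P j ∧ z = (a₀ : G) ^ (k * j) • x} =
          (fun j : ℤ => (a₀ : G) ^ (k * j) • x) '' {j | P j} := by
        ext z
        constructor
        · rintro ⟨j, hj, rfl⟩
          exact ⟨j, hj, rfl⟩
        · rintro ⟨j, hj, rfl⟩
          exact ⟨j, hj, rfl⟩
      rw [this]
      apply hP.image
      intro j _ j' _ hjj
      have := huniq _ _ hjj
      exact mul_left_cancel₀ hk0 this
    have hsgn : ∀ j : ℤ, (a₀ : G) ^ (k * j) • x ∉ F →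
        ((a₀ : G) ^ (k * j) • x ∈ U → k * j * τ < 0) ∧
          ((a₀ : G) ^ (k * j) • x ∉ U → 0 < k * j * τ) := by
      intro j hj
      have h1 := hsign ((a₀ : G) ^ (k * j)) (hcm _ (zpow_mem ha₀A _))
        (zpow_mem (show (a₀ : G) ∈ A' from a₀.2) _).2 hj
      rw [htr] at h1
      exact h1
    have hpos : {j : ℤ | 0 < k * j * τ}.Infinite := by
      have hinj2 : Function.Injective fun n : ℕ => ((n : ℤ) + 1) * (k * τ) := by
        intro n n' hn
        have := mul_right_cancel₀ (mul_ne_zero hk0 hτ0) hn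
        omega
      refine (Set.infinite_range_of_injective hinj2).mono ?_
      rintro _ ⟨n, rfl⟩
      change 0 < k * (((n : ℤ) + 1) * (k * τ)) * τ
      have h1 : k * (((n : ℤ) + 1) * (k * τ)) * τ = ((n : ℤ) + 1) * ((k * τ) * (k * τ)) := by ring
      rw [h1]
      have h2 : 0 < (k * τ) * (k * τ) := mul_self_pos.mpr (mul_ne_zero hk0 hτ0)
      positivity
    have hneg : {j : ℤ | k * j * τ < 0}.Infinite := by
      have : {j : ℤ | k * j * τ < 0} = (fun j => -j) '' {j : ℤ | 0 < k * j * τ} := by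
        ext j
        simp only [Set.mem_image, Set.mem_ofPred_eq]
        constructor
        · intro hj
          refine ⟨-j, ?_, neg_neg j⟩
          have : k * -j * τ = -(k * j * τ) := by ring
          omega
        · rintro ⟨i, hi, rfl⟩
          have : k * -i * τ = -(k * i * τ) := by ring
          omega
      rw [this]
      exact hpos.image (fun _ _ _ _ h => neg_injective h)
    refine ⟨(main _ hneg).mono ?_, (main _ hpos).mono ?_⟩
    · rintro z ⟨⟨j, hj, rfl⟩, hzF⟩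
      refine ⟨?_, hmemC j⟩
      by_contra hzU
      have := (hsgn j hzF).2 hzU
      omega
    · rintro z ⟨⟨j, hj, rfl⟩, hzF⟩
      refine ⟨hmemC j, ?_⟩
      intro hzU
      have := (hsgn j hzF).1 hzU
      omega
  have hle1 : A₁.relIndex A ≠ 0 := Subgroup.relIndex_ne_zero_trans iA₁ iA'
  have hle2 : B₁.relIndex B ≠ 0 := Subgroup.relIndex_ne_zero_trans iB₁ iB'
  refine ⟨A₁, B₁, hA₁A, hB₁B, hle1, hle2, χ, χ', hχs, hχs', ?_, ?_, ?_, ?_, ?_⟩
  · intro a b
    rw [hχ a, hχ' b, ← he]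
    constructor
    · intro h1
      rw [h1]
    · intro h1
      exact Multiplicative.toAdd.injective (huniq _ _ h1)
  · -- elliptic elements of the first group
    intro a hell
    have h1 : tr U B x (a : G) = 0 := tr_ell (hcm a (hA₁A a.2)) (hA₁A' a.2).2 hell
    have h2 : tr U B x ((a₀ : G) ^ (-(Multiplicative.toAdd (χ a))) * a) = 0 := by
      apply tr_fix (hcm _ (mul_mem (zpow_mem ha₀A _) (hA₁A a.2)))
      rw [mul_smul, hχ a, smul_smul, ← zpow_add, neg_add_cancel, zpow_zero, one_smul]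
    rw [tr_mul hU (hcm _ (zpow_mem ha₀A _)) (zpow_mem (show (a₀ : G) ∈ A' from a₀.2) _).2
      (hcm a (hA₁A a.2)) (hA₁A' a.2).2, h1, htr, add_zero] at h2
    have h3 := (mul_eq_zero.mp h2).resolve_right hτ0
    apply Multiplicative.toAdd.injective
    rw [toAdd_one]
    omega
  · -- elliptic elements of the second group
    intro b hell
    have hcm' : ∀ b ∈ B, ∀ a ∈ A, Commute a b := fun b hb a ha => hAB a ha b hb
    have hbx : ∀ m : ℤ, b₀ ^ m • x ∈ MulAction.orbit A x := by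
      intro m
      rw [← he]
      exact mem_orbit_sub.mpr ⟨_, zpow_mem ha₀A m, rfl⟩
    have hbx1 : b₀ • x ∈ MulAction.orbit A x := by
      have := hbx 1
      rwa [zpow_one] at this
    have hmul : ∀ m : ℕ, tr U A x (b₀ ^ m) = m * tr U A x b₀ := by
      intro m
      induction m with
      | zero => simp [tr_one]
      | succ m ih =>
        have h1 : b₀ ^ m • x ∈ MulAction.orbit A x := by
          have := hbx m
          rwa [zpow_natCast] at this
        rw [pow_succ, tr_mul hU (hcm' _ (pow_mem hb₀ m)) h1 (hcm' _ hb₀) hbx1, ih]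
        push_cast
        ring
    have h0 : tr U A x b₀ ≠ 0 := by
      intro h0
      have hf := ker_finite hU hS h
      have hinf : (Set.range fun m : ℕ => b₀ ^ m • x).Infinite := by
        apply Set.infinite_range_of_injective
        intro m m' hmm
        have h1 : b₀ ^ (m : ℤ) • x = b₀ ^ (m' : ℤ) • x := by
          rw [zpow_natCast, zpow_natCast]
          exact hmm
        rw [← he, ← he] at h1
        exact_mod_cast huniq _ _ h1
      apply hinf
      refine hf.subset ?_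
      rintro y ⟨m, rfl⟩
      refine ⟨b₀ ^ m, hcm' _ (pow_mem hb₀ m), ?_, ?_, rfl⟩
      · have := hbx m
        rwa [zpow_natCast] at this
      · rw [hmul, h0, mul_zero]
    have hzmul : ∀ m : ℤ, tr U A x (b₀ ^ m) = m * tr U A x b₀ := by
      intro m
      rcases Int.eq_nat_or_neg m with ⟨k, rfl | rfl⟩
      · rw [zpow_natCast, hmul]
      · have h1 := tr_mul hU (hcm' _ (zpow_mem hb₀ (-(k : ℤ)))) (hbx _)
          (hcm' _ (zpow_mem hb₀ (k : ℤ))) (hbx _)
        rw [← zpow_add, neg_add_cancel, zpow_zero, tr_one, zpow_natCast, hmul] at h1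
        linarith
    have hbxb : (b : G) • x ∈ MulAction.orbit A x := by
      rw [hχ' b]
      exact hbx _
    have h1 : tr U A x (b : G) = 0 := tr_ell (hcm' b (hB₁B b.2)) hbxb hell
    have h2 : tr U A x (b₀ ^ (-(Multiplicative.toAdd (χ' b))) * b) = 0 := by
      apply tr_fix (hcm' _ (mul_mem (zpow_mem hb₀ _) (hB₁B b.2)))
      rw [mul_smul, hχ' b, smul_smul, ← zpow_add, neg_add_cancel, zpow_zero, one_smul]
    rw [tr_mul hU (hcm' _ (zpow_mem hb₀ _)) (hbx _) (hcm' b (hB₁B b.2)) hbxb, h1, hzmul,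
      add_zero] at h2
    have h3 := (mul_eq_zero.mp h2).resolve_right h0
    apply Multiplicative.toAdd.injective
    rw [toAdd_one]
    omega
  · intro a ha
    refine hline a (Multiplicative.toAdd (χ a)) (fun h0 => ha (Multiplicative.toAdd.injective h0))
      fun j => ?_
    have h1 := hχ (a ^ j)
    rw [map_zpow, toAdd_zpow, smul_eq_mul, mul_comm j] at h1
    exact h1
  · intro b hb
    refine hline b (Multiplicative.toAdd (χ' b)) (fun h0 => hb (Multiplicative.toAdd.injective h0))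
      fun j => ?_
    have h1 := hχ' (b ^ j)
    rw [map_zpow, toAdd_zpow, smul_eq_mul, mul_comm j, ← he] at h1
    exact h1

end Pool.Agent.H.MP_ee9c6f_al
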