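import Pool.Agent.H.MP_ee9c6f_al.Ends
import Pool.Agent.H.MP_ee9c6f_al.Fib2

/-!
MP_ee9c6f_al (helper22). Almost invariant sets give relative ends.
-/

set_option autoImplicit false

namespace Pool.Agent.H.MP_ee9c6f_al

open Pointwise

theorem two_le_relEnds {Γ : Type} [Group Γ] {S : Set Γ} (hfin : S.Finite)
    (hS : Subgroup.closure S = ⊤) {H : Subgroup Γ} {U : Set (Γ ⧸ H)} (hU : AInv Γ U)
    (h1 : U.Infinite) (h2 : Uᶜ.Infinite) : 2 ≤ relEnds S H := by
  classical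
  have hKfin : (bd U S ∪ bd Uᶜ S).Finite := (bd_finite hU hfin).union (bd_finite hU.compl hfin)
  set K : Finset (Γ ⧸ H) := hKfin.toFinset with hK
  have memK : ∀ x, x ∈ ((K : Set (Γ ⧸ H))ᶜ) ↔ x ∉ bd U S ∧ x ∉ bd Uᶜ S := by
    intro x
    simp [K, Set.mem_compl_iff]
  set Gr := (schreier S H).induce ((K : Set (Γ ⧸ H))ᶜ) with hGr
  have hadj : ∀ x y : ((K : Set (Γ ⧸ H))ᶜ : Set (Γ ⧸ H)), Gr.Adj x y →
      ((x : Γ ⧸ H) ∈ U ↔ (y : Γ ⧸ H) ∈ U) := by
    rintro ⟨x, hx⟩ ⟨y, hy⟩ h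
    rw [hGr, SimpleGraph.comap_adj] at h
    obtain ⟨-, ⟨s, hs, e⟩ | ⟨s, hs, e⟩⟩ := h
    · change s • x = y at e
      change x ∈ U ↔ y ∈ U
      rw [← e]
      exact (cross ((memK x).mp hx).1 ((memK x).mp hx).2 (Or.inl hs)).symm
    · change s • y = x at e
      change x ∈ U ↔ y ∈ U
      rw [← e]
      exact cross ((memK y).mp hy).1 ((memK y).mp hy).2 (Or.inl hs)
  have hreach : ∀ x y : ((K : Set (Γ ⧸ H))ᶜ : Set (Γ ⧸ H)), Gr.Reachable x y →
      ((x : Γ ⧸ H) ∈ U ↔ (y : Γ ⧸ H) ∈ U) := by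
    rintro x y ⟨w⟩
    induction w with
    | nil => rfl
    | cons h _ ih => exact (hadj _ _ h).trans ih
  -- the neighbours of `K`
  set N : Set (Γ ⧸ H) := (⋃ s ∈ S, s⁻¹ • (K : Set (Γ ⧸ H))) ∪ ⋃ s ∈ S, s • (K : Set (Γ ⧸ H))
    with hN
  have hNfin : N.Finite := (hfin.biUnion fun s _ => (Finset.finite_toSet K).smul_set).union
    (hfin.biUnion fun s _ => (Finset.finite_toSet K).smul_set)
  have step : ∀ γ : Γ, ∀ z : ((K : Set (Γ ⧸ H))ᶜ : Set (Γ ⧸ H)),
      (∃ hz : γ • (z : Γ ⧸ H) ∈ ((K : Set (Γ ⧸ H))ᶜ), Gr.Reachable z ⟨γ • (z : Γ ⧸ H), hz⟩) ∨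
        ∃ w : ((K : Set (Γ ⧸ H))ᶜ : Set (Γ ⧸ H)), (w : Γ ⧸ H) ∈ N ∧ Gr.Reachable z w := by
    intro γ z
    have hγ : γ ∈ Subgroup.closure S := by rw [hS]; trivial
    induction hγ using Subgroup.closure_induction_left with
    | one =>
      left
      refine ⟨by rw [one_smul]; exact z.2, ?_⟩
      have : (⟨(1 : Γ) • (z : Γ ⧸ H), by rw [one_smul]; exact z.2⟩ :
          ((K : Set (Γ ⧸ H))ᶜ : Set (Γ ⧸ H))) = z := Subtype.ext (one_smul _ _)
      rw [this]
    | mul_left s hs v _ ih =>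
      rcases ih with ⟨hz, hr⟩ | h
      · by_cases hk : (s * v) • (z : Γ ⧸ H) ∈ ((K : Set (Γ ⧸ H))ᶜ)
        · left
          refine ⟨hk, hr.trans ?_⟩
          have e : (⟨(s * v) • (z : Γ ⧸ H), hk⟩ : ((K : Set (Γ ⧸ H))ᶜ : Set (Γ ⧸ H))) =
              ⟨s • v • (z : Γ ⧸ H), by rw [← mul_smul]; exact hk⟩ :=
            Subtype.ext (mul_smul _ _ _)
          rw [e]
          exact reach_of_mem hs hz _
        · right
          refine ⟨_, Or.inl (Set.mem_biUnion hs ?_), hr⟩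
          rw [Set.mem_inv_smul_set_iff, ← mul_smul]
          exact Set.notMem_compl_iff.mp hk
      · exact Or.inr h
    | inv_mul_cancel s hs v _ ih =>
      rcases ih with ⟨hz, hr⟩ | h
      · by_cases hk : (s⁻¹ * v) • (z : Γ ⧸ H) ∈ ((K : Set (Γ ⧸ H))ᶜ)
        · left
          refine ⟨hk, hr.trans ?_⟩
          have hk' : s • (s⁻¹ * v) • (z : Γ ⧸ H) ∈ ((K : Set (Γ ⧸ H))ᶜ) := by
            rw [← mul_smul, mul_inv_cancel_left]
            exact hz
          have := (reach_of_mem (S := S) (H := H) hs hk hk').symm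
          have e : (⟨v • (z : Γ ⧸ H), hz⟩ : ((K : Set (Γ ⧸ H))ᶜ : Set (Γ ⧸ H))) =
              ⟨s • (s⁻¹ * v) • (z : Γ ⧸ H), hk'⟩ :=
            Subtype.ext (show v • (z : Γ ⧸ H) = s • (s⁻¹ * v) • (z : Γ ⧸ H) by
              rw [← mul_smul s, mul_inv_cancel_left])
          rw [e]
          exact this
        · right
          refine ⟨_, Or.inr (Set.mem_biUnion hs ?_), hr⟩
          rw [Set.mem_smul_set_iff_inv_smul_mem, ← mul_smul]
          exact Set.notMem_compl_iff.mp hk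
      · exact Or.inr h
  -- infinite components
  have comp : ∀ W : Set (Γ ⧸ H), W.Infinite → Wᶜ.Infinite →
      (∀ x y : ((K : Set (Γ ⧸ H))ᶜ : Set (Γ ⧸ H)), Gr.Reachable x y →
        ((x : Γ ⧸ H) ∈ W ↔ (y : Γ ⧸ H) ∈ W)) →
      ∃ C : Gr.ConnectedComponent, C.supp.Infinite ∧ ∀ x ∈ C.supp, (x : Γ ⧸ H) ∈ W := by
    intro W hW hW' hinv
    by_contra hcon
    push Not at hcon
    have hfinC : ∀ C : Gr.ConnectedComponent, (∀ x ∈ C.supp, (x : Γ ⧸ H) ∈ W) →
        C.supp.Finite := by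
      intro C hC
      by_contra hCi
      obtain ⟨x, hx, hxW⟩ := hcon C hCi
      exact hxW (hC x hx)
    obtain ⟨z₁, hz₁, hz₁K⟩ := (hW'.sdiff (Finset.finite_toSet K)).nonempty
    apply hW
    -- the components that meet `N`
    have hNsub : ((fun x : ((K : Set (Γ ⧸ H))ᶜ : Set (Γ ⧸ H)) => (x : Γ ⧸ H)) ⁻¹' (N ∩ W)).Finite :=
      (hNfin.inter_of_left _).preimage Subtype.val_injective.injOn
    have hbig : (⋃ w ∈ ((fun x : ((K : Set (Γ ⧸ H))ᶜ : Set (Γ ⧸ H)) => (x : Γ ⧸ H)) ⁻¹' (N ∩ W)),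
        ((fun x : ((K : Set (Γ ⧸ H))ᶜ : Set (Γ ⧸ H)) => (x : Γ ⧸ H)) ''
          (Gr.connectedComponentMk w).supp)).Finite := by
      apply hNsub.biUnion
      intro w hw
      apply Set.Finite.image
      apply hfinC
      intro x hx
      have hr : Gr.Reachable x w := SimpleGraph.ConnectedComponent.eq.mp hx
      exact (hinv x w hr).mpr hw.2
    refine ((Finset.finite_toSet K).union hbig).subset ?_
    intro z hz
    by_cases hzK : z ∈ (K : Set (Γ ⧸ H))
    · exact Or.inl hzK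
    · right
      obtain ⟨γ, hγ⟩ := MulAction.exists_smul_eq Γ z z₁
      rcases step γ ⟨z, hzK⟩ with ⟨hz', hr⟩ | ⟨w, hwN, hr⟩
      · exfalso
        have h3 := (hinv _ _ hr).mp hz
        apply hz₁
        change γ • z ∈ W at h3
        rwa [hγ] at h3
      · refine Set.mem_biUnion (show w ∈ _ from ⟨hwN, (hinv _ _ hr).mp hz⟩) ?_
        exact ⟨⟨z, hzK⟩, SimpleGraph.ConnectedComponent.eq.mpr hr, rfl⟩
  obtain ⟨C₁, hC₁, hC₁U⟩ := comp U h1 h2 hreach
  obtain ⟨C₂, hC₂, hC₂U⟩ := comp Uᶜ h2 (by rwa [compl_compl]) (fun x y h => by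
    rw [Set.mem_compl_iff, Set.mem_compl_iff, hreach x y h])
  have hne : C₁ ≠ C₂ := by
    rintro rfl
    obtain ⟨x, hx⟩ := hC₁.nonempty
    exact hC₂U x hx (hC₁U x hx)
  have hnt : Nontrivial {C : Gr.ConnectedComponent // C.supp.Infinite} :=
    ⟨⟨C₁, hC₁⟩, ⟨C₂, hC₂⟩, fun e => hne (congrArg Subtype.val e)⟩
  have h3 : 1 < ENat.card {C : Gr.ConnectedComponent // C.supp.Infinite} :=
    (ENat.one_lt_card_iff_nontrivial _).mpr hnt
  have h4 := Order.add_one_le_of_lt h3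
  have h5 : (1 : ℕ∞) + 1 = 2 := by norm_num
  rw [h5] at h4
  exact h4.trans (le_iSup (fun K : Finset (Γ ⧸ H) => ENat.card
    {C : ((schreier S H).induce ((K : Set (Γ ⧸ H))ᶜ)).ConnectedComponent // C.supp.Infinite}) K)

/-- A bad orbit gives relative ends. -/
theorem relEnds_of_bad {G X : Type} [Group G] [MulAction G X] {U : Set X} (hU : AInv G U)
    {T : Set G} (hT : T.Finite) {x : X} (h : Bad U (Subgroup.closure T) x) :
    2 ≤ relEnds ((Subtype.val : Subgroup.closure T → G) ⁻¹' T)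
      ((MulAction.stabilizer G x).subgroupOf (Subgroup.closure T)) := by
  set A := Subgroup.closure T with hA
  set L := (MulAction.stabilizer G x).subgroupOf A with hL
  have hwd : ∀ a b : A, (QuotientGroup.leftRel L) a b → (a : G) • x = (b : G) • x := by
    intro a b hab
    rw [QuotientGroup.leftRel_apply, hL, Subgroup.mem_subgroupOf] at hab
    have h1 : ((a⁻¹ * b : A) : G) • x = x := hab
    rw [Subgroup.coe_mul, Subgroup.coe_inv, mul_smul, inv_smul_eq_iff] at h1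
    exact h1.symm
  let f : A ⧸ L → X := Quotient.lift (fun a : A => (a : G) • x) hwd
  have hf : ∀ a : A, f (a : A ⧸ L) = (a : G) • x := fun a => rfl
  have hinj : Function.Injective f := by
    intro q q' hqq
    induction q using QuotientGroup.induction_on with
    | H a =>
    induction q' using QuotientGroup.induction_on with
    | H b =>
    rw [hf, hf] at hqq
    apply QuotientGroup.eq.mpr
    rw [hL, Subgroup.mem_subgroupOf, MulAction.mem_stabilizer_iff]
    rw [Subgroup.coe_mul, Subgroup.coe_inv, mul_smul, inv_smul_eq_iff]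
    exact hqq.symm
  have hequi : ∀ (a : A) (q : A ⧸ L), f (a • q) = (a : G) • f q := by
    intro a q
    induction q using QuotientGroup.induction_on with
    | H b =>
    rw [hf]
    change f ((a * b : A) : A ⧸ L) = _
    rw [hf, Subgroup.coe_mul, mul_smul]
  have hpre : ∀ (a : A) (W : Set X), a • (f ⁻¹' W) = f ⁻¹' ((a : G) • W) := by
    intro a W
    ext q
    rw [Set.mem_smul_set_iff_inv_smul_mem, Set.mem_preimage, Set.mem_preimage, hequi,
      Set.mem_smul_set_iff_inv_smul_mem]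
    rfl
  have hAI : AInv A (f ⁻¹' U) := by
    intro a
    have h1 := hU (a : G)
    unfold AE at *
    rw [hpre, ← Set.preimage_symmDiff]
    exact h1.preimage hinj.injOn
  have hrange : ∀ z ∈ MulAction.orbit A x, ∃ q, f q = z := by
    intro z hz
    obtain ⟨a, ha, rfl⟩ := mem_orbit_sub.mp hz
    exact ⟨((⟨a, ha⟩ : A) : A ⧸ L), rfl⟩
  have hinf : ∀ W : Set X, (W ∩ MulAction.orbit A x).Infinite → (f ⁻¹' W).Infinite := by
    intro W hW hfin
    apply hW
    refine (hfin.image f).subset ?_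
    rintro z ⟨hzW, hz⟩
    obtain ⟨q, rfl⟩ := hrange z hz
    exact ⟨q, hzW, rfl⟩
  apply two_le_relEnds (U := f ⁻¹' U) (hT.preimage Subtype.val_injective.injOn)
    (Subgroup.closure_closure_coe_preimage (k := T)) hAI
  · exact hinf U h.1
  · rw [← Set.preimage_compl]
    apply hinf
    rw [Set.inter_comm, ← Set.sdiff_eq]
    exact h.2

end Pool.Agent.H.MP_ee9c6f_al
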