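import Pool.Agent.H.MP_ee9c6f_al.AI

/-!
MP_ee9c6f_al (helper22). The abstract theorem about families of commuting elliptic elements.
-/

set_option autoImplicit false

namespace Pool.Agent.H.MP_ee9c6f_al

open Pointwise Filter

variable {G X : Type*} [Group G] [MulAction G X]

/-- The points with infinite `t`-orbit. -/
def InfO (X : Type*) {G : Type*} [Group G] [MulAction G X] (t : G) : Set X :=
  {x | ∀ n : ℕ, 0 < n → t ^ n • x ≠ x}

theorem InfO.inj {t : G} {x : X} (hx : x ∈ InfO X t) :
    Function.Injective fun n : ℕ => t ^ n • x := by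
  intro i j hij
  replace hij : t ^ i • x = t ^ j • x := hij
  rcases lt_trichotomy i j with h | h | h
  · exfalso
    obtain ⟨k, rfl⟩ := Nat.exists_eq_add_of_lt h
    apply hx (k + 1) (Nat.succ_pos _)
    rw [add_assoc, pow_add, mul_smul] at hij
    exact (MulAction.injective _ hij).symm
  · exact h
  · exfalso
    obtain ⟨k, rfl⟩ := Nat.exists_eq_add_of_lt h
    apply hx (k + 1) (Nat.succ_pos _)
    rw [add_assoc, pow_add, mul_smul] at hij
    exact MulAction.injective _ hij

theorem smul_mem_of_eq {t : G} {V : Set X} (hV : t • V = V) (x : X) : t • x ∈ V ↔ x ∈ V := by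
  constructor
  · intro h
    rw [← hV, Set.smul_mem_smul_set_iff] at h
    exact h
  · intro h
    rw [← hV]
    exact Set.smul_mem_smul_set h

theorem pow_smul_mem_of_eq {t : G} {V : Set X} (hV : t • V = V) (n : ℕ) (x : X) :
    t ^ n • x ∈ V ↔ x ∈ V := by
  induction n with
  | zero => simp
  | succ n ih => rw [pow_succ', mul_smul, smul_mem_of_eq hV, ih]

theorem uniq {t : G} {V W : Set X} (hV : t • V = V) (hW : t • W = W) (h : AE V W) {x : X}
    (hx : x ∈ InfO X t) : x ∈ V ↔ x ∈ W := by
  obtain ⟨N, hN⟩ := eventually_atTop.mp (eventually_congr_of_AE h (InfO.inj hx))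
  have := hN N le_rfl
  rwa [pow_smul_mem_of_eq hV, pow_smul_mem_of_eq hW] at this

theorem InfO.smul {s t : G} (h : Commute t s) {x : X} (hx : x ∈ InfO X t) :
    s • x ∈ InfO X t := by
  intro n hn h1
  apply hx n hn
  rw [smul_smul, (h.pow_left n).eq, ← smul_smul] at h1
  exact MulAction.injective _ h1

/-- If `V` is the `t`-invariant approximation of an almost invariant set, then membership of the
points of `InfO t` in `V` is invariant under the elements that commute with `t`. -/
theorem inv_of_commute {U : Set X} (hU : AInv G U) {s t : G} (h : Commute t s) {V : Set X}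
    (hV : AE V U) (htV : t • V = V) {x : X} (hx : x ∈ InfO X t) : s • x ∈ V ↔ x ∈ V := by
  have h1 : s • x ∈ V ↔ x ∈ s⁻¹ • V := by
    rw [Set.mem_smul_set_iff_inv_smul_mem, inv_inv]
  rw [h1]
  apply uniq _ htV _ hx
  · rw [smul_smul, h.inv_right.eq, ← smul_smul, htV]
  · exact ((hV.smul s⁻¹).trans (hU s⁻¹)).trans hV.symm

/-- Commuting elements agree. -/
theorem agree_of_commute {U : Set X} (hU : AInv G U) {s t : G} (h : Commute t s) {V W : Set X}
    (hV : AE V U) (htV : t • V = V) (hW : AE W U) (hsW : s • W = W) {x : X}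
    (hx : x ∈ InfO X t) (hx' : x ∈ InfO X s) : x ∈ V ↔ x ∈ W := by
  obtain ⟨N, hN⟩ := eventually_atTop.mp
    (eventually_congr_of_AE (hV.trans hW.symm) (InfO.inj hx'))
  have h1 := hN N le_rfl
  rw [pow_smul_mem_of_eq hsW] at h1
  rw [← h1]
  exact (inv_of_commute hU (h.pow_right N) hV htV hx).symm

/-- If the values of the two invariant sets at `x` differ then the centraliser of the two elements
has a finite orbit on `x`. -/
theorem orbit_finite {U : Set X} (hU : AInv G U) {u v : G} {V W : Set X} (hV : AE V U)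
    (huV : u • V = V) (hW : AE W U) (hvW : v • W = W) {x : X} (hxu : x ∈ InfO X u)
    (hxv : x ∈ InfO X v) (hne : ¬ (x ∈ V ↔ x ∈ W)) :
    (MulAction.orbit (Subgroup.centralizer ({u, v} : Set G)) x).Finite := by
  refine (hV.trans hW.symm).subset ?_
  rintro _ ⟨⟨z, hz⟩, rfl⟩
  change z • x ∈ symmDiff V W
  have h1 : Commute u z := Subgroup.mem_centralizer_iff.mp hz u (by simp)
  have h2 : Commute v z := Subgroup.mem_centralizer_iff.mp hz v (by simp)
  have e1 := inv_of_commute hU h1 hV huV hxu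
  have e2 := inv_of_commute hU h2 hW hvW hxv
  rw [Set.mem_symmDiff]
  by_cases h : x ∈ V
  · exact Or.inl ⟨e1.mpr h, fun h' => hne ⟨fun _ => e2.mp h', fun _ => h⟩⟩
  · have h' : x ∈ W := by
      by_contra h'
      exact hne ⟨fun h'' => absurd h'' h, fun h'' => absurd h'' h'⟩
    exact Or.inr ⟨e2.mpr h', fun h'' => h (e1.mp h'')⟩

theorem InfO.conj {t : G} (s : G) {x : X} (hx : x ∈ InfO X t) : s • x ∈ InfO X (s * t * s⁻¹) := by
  intro n hn h
  apply hx n hn
  rw [conj_pow, smul_smul, mul_assoc, inv_mul_cancel, mul_one, mul_smul] at h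
  exact MulAction.injective s h

theorem InfO.of_conj {t : G} (s : G) {x : X} (hx : x ∈ InfO X (s * t * s⁻¹)) :
    s⁻¹ • x ∈ InfO X t := by
  have := InfO.conj s⁻¹ hx
  rwa [show s⁻¹ * (s * t * s⁻¹) * s⁻¹⁻¹ = t by group] at this

theorem orbit_conj {u v : G} (s : G) {x : X}
    (h : (MulAction.orbit (Subgroup.centralizer ({s * u * s⁻¹, s * v * s⁻¹} : Set G)) x).Finite) :
    (MulAction.orbit (Subgroup.centralizer ({u, v} : Set G)) (s⁻¹ • x)).Finite := by
  refine (h.image (fun y => s⁻¹ • y)).subset ?_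
  rintro _ ⟨⟨z, hz⟩, rfl⟩
  have h1 := Subgroup.mem_centralizer_iff.mp hz u (by simp)
  have h2 := Subgroup.mem_centralizer_iff.mp hz v (by simp)
  refine ⟨(s * z * s⁻¹) • x, ⟨⟨s * z * s⁻¹, ?_⟩, rfl⟩, ?_⟩
  · rw [Subgroup.mem_centralizer_iff]
    rintro w (rfl | rfl)
    · calc s * u * s⁻¹ * (s * z * s⁻¹) = s * (u * z) * s⁻¹ := by group
        _ = s * (z * u) * s⁻¹ := by rw [h1]
        _ = _ := by group
    · calc s * v * s⁻¹ * (s * z * s⁻¹) = s * (v * z) * s⁻¹ := by group
        _ = s * (z * v) * s⁻¹ := by rw [h2]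
        _ = _ := by group
  · change s⁻¹ • (s * z * s⁻¹) • x = z • s⁻¹ • x
    simp only [smul_smul]
    congr 1
    group

/-- The family theorem. `cr i j` stands for: the curves `i` and `j` cross. -/
theorem family {ι : Type*} (t : ι → G) (C : Set ι) (hC : C.Finite) (L : Set ι) (hLC : L ⊆ C)
    [MulAction.IsPretransitive G X] {U : Set X} (hU : AInv G U)
    (ell : ∀ i ∈ C, Ell U (t i)) (cr : ι → ι → Prop)
    (comm : ∀ i ∈ C, ∀ j ∈ C, ¬ cr i j → Commute (t i) (t j))
    (nofin : ∀ i ∈ C, ∀ j ∈ C, cr i j → ∀ x : X, x ∈ InfO X (t i) → x ∈ InfO X (t j) →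
      ∀ V W : Set X, AE V U → AE W U → t i • V = V → t j • W = W → (x ∈ V ↔ x ∈ W))
    (str : ∀ e ∈ L, ∀ i ∈ C, ∀ j ∈ C, cr i e → cr j e →
      ¬ cr i j ∧ t j * t e * t j = t e * t j * t e)
    (one : ∀ x : X, ∃ i ∈ C, x ∈ InfO X (t i))
    (gen : Subgroup.closure (t '' L) = ⊤) :
    U.Finite ∨ Uᶜ.Finite := by
  classical
  -- the invariant approximations
  let V : ι → Set X := fun i => if h : Ell U (t i) then h.choose else ∅
  have hV : ∀ i ∈ C, AE (V i) U ∧ t i • V i = V i := by
    intro i hi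
    have h := ell i hi
    simp only [V, dif_pos h]
    exact h.choose_spec
  -- all values agree
  have agree : ∀ i ∈ C, ∀ j ∈ C, ∀ x : X, x ∈ InfO X (t i) → x ∈ InfO X (t j) →
      (x ∈ V i ↔ x ∈ V j) := by
    intro i hi j hj x hxi hxj
    by_cases h : cr i j
    · exact nofin i hi j hj h x hxi hxj _ _ (hV i hi).1 (hV j hj).1 (hV i hi).2 (hV j hj).2
    · exact agree_of_commute hU (comm i hi j hj h) (hV i hi).1 (hV i hi).2 (hV j hj).1
        (hV j hj).2 hxi hxj
  -- the invariant function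
  let b : X → Prop := fun x => ∃ i ∈ C, x ∈ InfO X (t i) ∧ x ∈ V i
  have hb : ∀ i ∈ C, ∀ x : X, x ∈ InfO X (t i) → (b x ↔ x ∈ V i) := by
    intro i hi x hx
    constructor
    · rintro ⟨j, hj, h1, h2⟩
      exact (agree i hi j hj x hx h1).mpr h2
    · intro h
      exact ⟨i, hi, hx, h⟩
  have hbL : ∀ e ∈ L, ∀ x, (b (t e • x) ↔ b x) := by
    intro e he x
    obtain ⟨i, hi, hxi⟩ := one x
    by_cases hie : cr i e
    · obtain ⟨j, hj, hxj⟩ := one (t e • x)
      by_cases hje : cr j e
      · -- the main case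
        obtain ⟨hij, hbr⟩ := str e he i hi j hj hie hje
        have hcij := comm i hi j hj hij
        have hv : (t e)⁻¹ * t j * t e = t j * t e * (t j)⁻¹ := by
          rw [mul_assoc, inv_mul_eq_iff_eq_mul, ← mul_assoc, ← mul_assoc,
            eq_mul_inv_iff_mul_eq]
          exact hbr
        have hji := hV j hj
        -- `W` is invariant under `t j * t e * (t j)⁻¹`
        have hW1 : AE ((t e)⁻¹ • V j) U := (hji.1.smul _).trans (hU _)
        have hW2 : ((t e)⁻¹ * t j * t e) • ((t e)⁻¹ • V j) = (t e)⁻¹ • V j := by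
          rw [smul_smul, mul_assoc, mul_inv_cancel, mul_one, mul_smul, hji.2]
        -- move everything by `(t j)⁻¹`
        set y := (t j)⁻¹ • x with hy
        have hxv : x ∈ InfO X ((t e)⁻¹ * t j * t e) := by
          have := InfO.conj (t e)⁻¹ hxj
          rwa [inv_smul_smul, inv_inv] at this
        have hye : y ∈ InfO X (t e) := by
          rw [hv] at hxv
          exact InfO.of_conj _ hxv
        have hyi : y ∈ InfO X (t i) := by
          have := InfO.smul hcij.inv_right hxi
          exact this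
        have hVi := hV i hi
        have hA1 : AE ((t j)⁻¹ • V i) U := (hVi.1.smul _).trans (hU _)
        have hA2 : t i • ((t j)⁻¹ • V i) = (t j)⁻¹ • V i := by
          rw [smul_smul, hcij.inv_right.eq, mul_smul, hVi.2]
        have hB1 : AE ((t j)⁻¹ • ((t e)⁻¹ • V j)) U := (hW1.smul _).trans (hU _)
        have hB2 : t e • ((t j)⁻¹ • ((t e)⁻¹ • V j)) = (t j)⁻¹ • ((t e)⁻¹ • V j) := by
          rw [hv] at hW2
          have h3 : t e • ((t j)⁻¹ • ((t e)⁻¹ • V j)) =
              (t j)⁻¹ • ((t j * t e * (t j)⁻¹) • ((t e)⁻¹ • V j)) := by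
            simp only [smul_smul]
            congr 1
            group
          rw [h3, hW2]
        have h4 := nofin i hi e (hLC he) hie y hyi hye _ _ hA1 hB1 hA2 hB2
        rw [hy, Set.smul_mem_smul_set_iff, Set.smul_mem_smul_set_iff] at h4
        rw [hb i hi x hxi, hb j hj _ hxj, h4, Set.mem_inv_smul_set_iff]
      · have hc := comm j hj e (hLC he) hje
        have hxj' : x ∈ InfO X (t j) := by
          have := InfO.smul hc.inv_right hxj
          rwa [inv_smul_smul] at this
        rw [hb j hj _ hxj, hb j hj x hxj']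
        exact inv_of_commute hU hc (hV j hj).1 (hV j hj).2 hxj'
    · have hc := comm i hi e (hLC he) hie
      rw [hb i hi x hxi, hb i hi _ (InfO.smul hc hxi)]
      exact inv_of_commute hU hc (hV i hi).1 (hV i hi).2 hxi
  have hbG : ∀ g : G, ∀ x, (b (g • x) ↔ b x) := by
    intro g
    have hg : g ∈ Subgroup.closure (t '' L) := by rw [gen]; trivial
    induction hg using Subgroup.closure_induction with
    | mem s hs =>
      obtain ⟨e, he, rfl⟩ := hs
      exact hbL e he
    | one => intro x; simp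
    | mul g h _ _ ihg ihh => intro x; rw [mul_smul, ihg, ihh]
    | inv g _ ih => intro x; rw [← ih (g⁻¹ • x), smul_inv_smul]
  have hfin : ∀ W : Set X, (∀ i ∈ C, (W ∩ InfO X (t i)).Finite) → W.Finite := by
    intro W hW
    have : (⋃ i ∈ C, (W ∩ InfO X (t i))).Finite := Set.Finite.biUnion hC hW
    refine this.subset ?_
    intro x hx
    obtain ⟨i, hi, hxi⟩ := one x
    exact Set.mem_biUnion hi ⟨hx, hxi⟩
  by_cases hall : ∃ x, b x
  · right
    obtain ⟨x₀, hx₀⟩ := hall
    have hall' : ∀ x, b x := by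
      intro x
      obtain ⟨g, rfl⟩ := MulAction.exists_smul_eq G x₀ x
      exact (hbG g x₀).mpr hx₀
    apply hfin
    intro i hi
    refine ((hV i hi).1.finite_diff).subset ?_
    rintro x ⟨hx, hxi⟩
    exact ⟨(hb i hi x hxi).mp (hall' x), hx⟩
  · left
    apply hfin
    intro i hi
    refine ((hV i hi).1.finite_diff').subset ?_
    rintro x ⟨hx, hxi⟩
    exact ⟨hx, fun h => hall ⟨x, (hb i hi x hxi).mpr h⟩⟩

end Pool.Agent.H.MP_ee9c6f_al
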