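import Pool.Agent.H.MP_ee9c6f_al.Ball

/-!
MP_ee9c6f_al (helper22). Two commuting groups, one with a bad orbit, the other one with an infinite
orbit: both have a subgroup of finite index that acts through a homomorphism onto the integers.
-/

set_option autoImplicit false

namespace Pool.Agent.H.MP_ee9c6f_al

open Pointwise

variable {G X : Type*} [Group G] [MulAction G X]

theorem orbit_finite_iff {A : Subgroup G} {x : X} :
    (MulAction.orbit A x).Finite ↔ (MulAction.stabilizer G x).relIndex A ≠ 0 := by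
  have h1 : (MulAction.stabilizer G x).subgroupOf A = MulAction.stabilizer A x := by
    ext ⟨z, hz⟩
    rfl
  unfold Subgroup.relIndex
  rw [h1, MulAction.index_stabilizer]
  constructor
  · intro h
    exact ((Set.ncard_pos h).mpr ⟨_, MulAction.mem_orbit_self _⟩).ne'
  · intro h
    exact Set.finite_of_ncard_ne_zero h

/-- A criterion for finite index. -/
theorem relIndex_ne_zero {A A' : Subgroup G} {Y : Type*} {F : Set Y} (hF : F.Finite)
    (R : G → Y → Prop) (hR : ∀ a ∈ A, ∃ y ∈ F, R a y)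
    (h : ∀ a ∈ A, ∀ a' ∈ A, ∀ y, R a y → R a' y → a⁻¹ * a' ∈ A') : A'.relIndex A ≠ 0 := by
  classical
  choose f hfF hfR using hR
  have : Finite F := hF
  have hfin : Finite (A ⧸ A'.subgroupOf A) := by
    refine Finite.of_injective (β := F)
      (fun q => ⟨f (q.out : G) q.out.2, hfF _ q.out.2⟩) ?_
    intro q q' hqq
    have e : f (q.out : G) q.out.2 = f (q'.out : G) q'.out.2 := congrArg Subtype.val hqq
    have h1 := h _ q.out.2 _ q'.out.2 _ (hfR _ q.out.2) (e ▸ hfR _ q'.out.2)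
    rw [← q.out_eq, ← q'.out_eq]
    apply QuotientGroup.eq.mpr
    rw [Subgroup.mem_subgroupOf]
    exact h1
  unfold Subgroup.relIndex
  exact Subgroup.index_ne_zero_of_finite

/-- The elements of `A` that map `x` into its `B`-orbit. -/
def tog (A B : Subgroup G) (hAB : ∀ a ∈ A, ∀ b ∈ B, Commute a b) (x : X) : Subgroup G where
  carrier := {a | a ∈ A ∧ a • x ∈ MulAction.orbit B x}
  one_mem' := ⟨one_mem _, by rw [one_smul]; exact MulAction.mem_orbit_self x⟩
  mul_mem' := by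
    rintro a a' ⟨ha, h⟩ ⟨ha', h'⟩
    refine ⟨mul_mem ha ha', ?_⟩
    obtain ⟨b, hb, e⟩ := mem_orbit_sub.mp h
    obtain ⟨b', hb', e'⟩ := mem_orbit_sub.mp h'
    refine mem_orbit_sub.mpr ⟨b' * b, mul_mem hb' hb, ?_⟩
    rw [mul_smul a a', ← e', smul_smul a b', (hAB a ha b' hb').eq, mul_smul b' a, ← e, mul_smul]
  inv_mem' := by
    rintro a ⟨ha, h⟩
    refine ⟨inv_mem ha, ?_⟩
    obtain ⟨b, hb, e⟩ := mem_orbit_sub.mp h
    refine mem_orbit_sub.mpr ⟨b⁻¹, inv_mem hb, ?_⟩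
    have hc : Commute a b⁻¹ := (hAB a ha b hb).inv_right
    rw [eq_inv_smul_iff, smul_smul, hc.eq, mul_smul, ← e, inv_smul_smul]

theorem mem_tog {A B : Subgroup G} {hAB : ∀ a ∈ A, ∀ b ∈ B, Commute a b} {x : X} {a : G} :
    a ∈ tog A B hAB x ↔ a ∈ A ∧ a • x ∈ MulAction.orbit B x := Iff.rfl

theorem subset_prodOrbit {A B : Subgroup G} (x : X) :
    MulAction.orbit A x ⊆ prodOrbit A B x := by
  intro y hy
  obtain ⟨a, ha, rfl⟩ := mem_orbit_sub.mp hy
  exact ⟨a, ha, 1, one_mem _, by rw [one_smul]⟩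

/-- The subgroup that preserves the line through `x`, and its translation homomorphism. -/
theorem exists_line {A B : Subgroup G} (hAB : ∀ a ∈ A, ∀ b ∈ B, Commute a b) {x : X} {a₀ b₀ : G}
    (ha₀ : a₀ ∈ A) (hb₀ : b₀ ∈ B) (he : ∀ m : ℤ, a₀ ^ m • x = b₀ ^ m • x)
    (hinj : ∀ m : ℤ, a₀ ^ m • x = x → m = 0) :
    ∃ (A₁ : Subgroup G) (χ : A₁ →* Multiplicative ℤ), A₁ ≤ A ∧
      (∀ a ∈ A, (∃ m : ℤ, a • x = a₀ ^ m • x) → a ∈ A₁) ∧ Function.Surjective χ ∧
      ∀ a : A₁, (a : G) • x = a₀ ^ (Multiplicative.toAdd (χ a)) • x := by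
  have huniq : ∀ m m' : ℤ, a₀ ^ m • x = a₀ ^ m' • x → m = m' := by
    intro m m' h
    have : a₀ ^ (m - m') • x = x := by
      rw [sub_eq_neg_add, zpow_add, mul_smul, h, zpow_neg, inv_smul_smul]
    have := hinj _ this
    omega
  have hmul : ∀ a ∈ A, ∀ (a' : G) (m m' : ℤ), a • x = a₀ ^ m • x → a' • x = a₀ ^ m' • x →
      (a * a') • x = a₀ ^ (m + m') • x := by
    intro a ha a' m m' h h'
    have hc : Commute a (b₀ ^ m') := hAB a ha _ (zpow_mem hb₀ _)
    have hc' : Commute (a₀ ^ m) (b₀ ^ m') := hAB _ (zpow_mem ha₀ _) _ (zpow_mem hb₀ _)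
    rw [mul_smul, h', he m', smul_smul a, hc.eq, mul_smul, h, smul_smul, ← hc'.eq, mul_smul,
      ← he m', smul_smul, ← zpow_add]
  let A₁ : Subgroup G :=
    { carrier := {a | a ∈ A ∧ ∃ m : ℤ, a • x = a₀ ^ m • x}
      one_mem' := ⟨one_mem _, 0, by rw [zpow_zero]⟩
      mul_mem' := by
        rintro a a' ⟨ha, m, h⟩ ⟨ha', m', h'⟩
        exact ⟨mul_mem ha ha', m + m', hmul a ha a' m m' h h'⟩
      inv_mem' := by
        rintro a ⟨ha, m, h⟩
        refine ⟨inv_mem ha, -m, ?_⟩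
        have hc : Commute a (b₀ ^ (-m)) := hAB a ha _ (zpow_mem hb₀ _)
        rw [inv_smul_eq_iff, he, smul_smul, hc.eq, mul_smul, h, he, zpow_neg, inv_smul_smul] }
  have hspec : ∀ a : A₁, ∃ m : ℤ, (a : G) • x = a₀ ^ m • x := fun a => a.2.2
  choose f hf using hspec
  let χ : A₁ →* Multiplicative ℤ :=
    { toFun := fun a => Multiplicative.ofAdd (f a)
      map_one' := by
        rw [ofAdd_eq_one]
        apply huniq
        rw [← hf 1, zpow_zero]
        rfl
      map_mul' := by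
        intro a a'
        rw [← ofAdd_add]
        congr 1
        apply huniq
        rw [← hf]
        exact hmul a a.2.1 a' _ _ (hf a) (hf a') }
  refine ⟨A₁, χ, fun a ha => ha.1, fun a ha h => ⟨ha, h⟩, ?_, fun a => hf a⟩
  intro m
  refine ⟨⟨a₀ ^ (Multiplicative.toAdd m), zpow_mem ha₀ _, _, rfl⟩, ?_⟩
  change Multiplicative.ofAdd (f _) = m
  have : f ⟨a₀ ^ (Multiplicative.toAdd m), zpow_mem ha₀ _, _, rfl⟩ = Multiplicative.toAdd m := by
    apply huniq
    rw [← hf]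
  rw [this, ofAdd_toAdd]

end Pool.Agent.H.MP_ee9c6f_al
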