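import Pool.Agent.H.MP_ee9c6f_al.Star

/-!
MP_ee9c6f_al (helper22). The element that exchanges the two ends of a chain of three curves moves
the curve around the feet `p, …, 2m` to the curve `ac p (2m) (2m+1) q`.
-/

set_option autoImplicit false
set_option linter.unusedSimpArgs false

namespace Pool.Agent.H.MP_ee9c6f_al

variable {g : ℕ}

theorem garside (m : Fin g) {p q : ℕ} (hp : p ≤ 2 * m) (hq : 2 * (m : ℕ) + 2 ≤ q) :
    tw g (2 * m + 1) (2 * m + 2) * bt m * tw g (2 * m + 1) q * tw g (2 * m + 1) (2 * m + 2) *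
        bt m * tw g (2 * m + 1) (2 * m + 2) * tw g p (2 * m + 1) =
      ac g p (2 * m) (2 * m + 1) q * (tw g (2 * m + 1) (2 * m + 2) * bt m * tw g (2 * m + 1) q *
        tw g (2 * m + 1) (2 * m + 2) * bt m * tw g (2 * m + 1) (2 * m + 2)) := by
  set P := word g p (2 * m) with hP
  set Q := word g (2 * m + 2) q with hQ
  have eE : word g p (2 * m + 1) = P * (A m * B m * (A m)⁻¹) := by
    rw [hP, word_succ hp, foot_even]
  have eG : word g (2 * m + 1) q = (B m)⁻¹ * Q := by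
    rw [hQ, word_split (by omega : 2 * (m : ℕ) + 1 ≤ 2 * m + 2) hq, foot_eq_word_odd]
  have eF : word g p q = P * (A m * B m * (A m)⁻¹) * ((B m)⁻¹ * Q) := by
    rw [word_split (by omega : p ≤ 2 * (m : ℕ) + 1) (by omega : 2 * (m : ℕ) + 1 ≤ q), eG, eE]
  have eM := foot_eq_word_even m
  have eN := foot_eq_word_odd m
  set b := tw g (2 * m + 1) (2 * m + 2) with hb
  set c := tw g (2 * m + 1) q with hc
  set a := bt m with ha
  set e := tw g p (2 * m + 1) with he
  set z := ac g p (2 * m) (2 * m + 1) q with hz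
  -- values of `a`
  have aA : ∀ i, a (A i) = A i := fun i => by rw [ha, bt_apply, btHom_A]
  have aB : a (B m) = B m * (A m)⁻¹ := by rw [ha, bt_apply, btHom_B, if_pos rfl]
  have aO : ∀ i, i ≠ m → a (B i) = B i := fun i h => by rw [ha, bt_apply, btHom_B, if_neg h]
  have aP : a P = P := by
    rw [ha, hP, bt_apply, bt_word_out m p (2 * m) (fun r _ _ => by omega)]
  have aQ : a Q = Q := by
    rw [ha, hQ, bt_apply, bt_word_out m _ q (fun r _ _ => by omega)]
  -- values of `b`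
  have bA : b (A m) = A m * B m := by
    rw [hb, (isFc_tw _ _).A, cut_out (by omega), cut_in le_rfl (by omega), eN]
    group
  have bB : b (B m) = B m := by
    rw [hb, (isFc_tw _ _).B, cut_in le_rfl (by omega), eN]
    group
  have bP : b P = P := by rw [hb, hP, tw_word_out (Or.inl (by omega))]
  have bQ : b Q = Q := by rw [hb, hQ, tw_word_out (Or.inr (by omega))]
  have bO : ∀ i, i ≠ m → b (A i) = A i ∧ b (B i) = B i := by
    intro i hi
    have hi' : (i : ℕ) ≠ m := fun h => hi (Fin.ext h)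
    constructor
    · rw [hb, (isFc_tw _ _).A, cut_out (by omega), cut_out (by omega)]
      group
    · rw [hb, (isFc_tw _ _).B, cut_out (by omega)]
      group
  -- values of `c`
  have cA : c (A m) = A m * ((B m)⁻¹ * Q)⁻¹ := by
    rw [hc, (isFc_tw _ _).A, cut_out (by omega), cut_in le_rfl (by omega), eG]
    group
  have cB : c (B m) = ((B m)⁻¹ * Q) * B m * ((B m)⁻¹ * Q)⁻¹ := by
    rw [hc, (isFc_tw _ _).B, cut_in le_rfl (by omega), eG]
  have cP : c P = P := by rw [hc, hP, tw_word_out (Or.inl (by omega))]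
  have cQ : c Q = ((B m)⁻¹ * Q) * Q * ((B m)⁻¹ * Q)⁻¹ := by
    rw [hc, hQ, tw_word_in (by omega) le_rfl, eG]
  have cO : ∀ i, i ≠ m → c (A i) = cut g (2 * m + 1) q (2 * i) * A i *
      (cut g (2 * m + 1) q (2 * i + 1))⁻¹ ∧ c (B i) = cut g (2 * m + 1) q (2 * i + 1) * B i *
      (cut g (2 * m + 1) q (2 * i + 1))⁻¹ := by
    intro i hi
    exact ⟨(isFc_tw _ _).A i, (isFc_tw _ _).B i⟩
  -- values of `e`
  have eA : e (A m) = P * (A m * B m * (A m)⁻¹) * A m := by
    rw [he, (isFc_tw _ _).A, cut_in hp (by omega), cut_out (by omega), eE]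
    group
  have eB : e (B m) = B m := by
    rw [he, (isFc_tw _ _).B, cut_out (by omega)]
    group
  -- values of `z`
  have hzc : IsFc z (acut g p (2 * m) (2 * m + 1) q) := isFc_ac hp (by omega) (by omega)
  have z1 : ∀ r, p ≤ r → r < 2 * m → acut g p (2 * m) (2 * m + 1) q r =
      P * (A m * B m * (A m)⁻¹) * ((B m)⁻¹ * Q) * (A m * B m * (A m)⁻¹)⁻¹ := by
    intro r h1 h2
    unfold acut
    rw [if_pos ⟨h1, h2⟩, eF, eM]
  have z2 : acut g p (2 * m) (2 * m + 1) q (2 * m) = 1 := by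
    unfold acut
    rw [if_neg (by omega), if_neg (by omega)]
  have z3 : ∀ r, 2 * (m : ℕ) + 1 ≤ r → r < q → acut g p (2 * m) (2 * m + 1) q r =
      (A m * B m * (A m)⁻¹)⁻¹ * (P * (A m * B m * (A m)⁻¹) * ((B m)⁻¹ * Q)) := by
    intro r h1 h2
    unfold acut
    rw [if_neg (by omega), if_pos ⟨h1, h2⟩, eF, eM]
  have z4 : ∀ r, ¬ (p ≤ r ∧ r < q) → acut g p (2 * m) (2 * m + 1) q r = 1 := by
    intro r h
    unfold acut
    rw [if_neg (by omega), if_neg (by omega)]
  have zA : z (A m) = A m * ((A m * B m * (A m)⁻¹)⁻¹ *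
      (P * (A m * B m * (A m)⁻¹) * ((B m)⁻¹ * Q)))⁻¹ := by
    rw [hzc.A, z2, z3 _ le_rfl (by omega)]
    group
  have zB : z (B m) = ((A m * B m * (A m)⁻¹)⁻¹ * (P * (A m * B m * (A m)⁻¹) *
      ((B m)⁻¹ * Q))) * B m * ((A m * B m * (A m)⁻¹)⁻¹ *
      (P * (A m * B m * (A m)⁻¹) * ((B m)⁻¹ * Q)))⁻¹ := by
    rw [hzc.B, z3 _ le_rfl (by omega)]
  have zP : z P = (P * (A m * B m * (A m)⁻¹) * ((B m)⁻¹ * Q) * (A m * B m * (A m)⁻¹)⁻¹) * P *
      (P * (A m * B m * (A m)⁻¹) * ((B m)⁻¹ * Q) * (A m * B m * (A m)⁻¹)⁻¹)⁻¹ := by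
    rw [hzc, hP, fc_word _ _ p (2 * m) (fun r h1 h2 => z1 r h1 h2)]
  have zQ : z Q = ((A m * B m * (A m)⁻¹)⁻¹ * (P * (A m * B m * (A m)⁻¹) *
      ((B m)⁻¹ * Q))) * Q * ((A m * B m * (A m)⁻¹)⁻¹ *
      (P * (A m * B m * (A m)⁻¹) * ((B m)⁻¹ * Q)))⁻¹ := by
    rw [hzc, hQ, fc_word _ _ (2 * m + 2) q (fun r h1 h2 => z3 r (by omega) h2)]
  -- the key identity
  have key : ∀ r : ℕ, r / 2 ≠ (m : ℕ) →
      (b * a * c * b * a * b) (cut g p (2 * m + 1) r) * b (a (cut g (2 * m + 1) q r)) =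
        z (b (a (cut g (2 * m + 1) q r))) * acut g p (2 * m) (2 * m + 1) q r := by
    intro r hr
    by_cases h : p ≤ r ∧ r < q
    · rcases lt_or_ge r (2 * (m : ℕ)) with h' | h'
      · rw [cut_in h.1 (by omega), cut_out (by omega), z1 r h.1 h', eE]
        simp only [MulAut.mul_apply, map_mul, map_inv, map_one, aA, aB, aP, aQ, bA, bB, bP, bQ,
          cA, cB, cP, cQ]
        group
      · rw [cut_out (by omega), cut_in (by omega) h.2, z3 r (by omega) h.2, eG]
        simp only [map_mul, map_inv, map_one, aA, aB, aP, aQ, bA, bB, bP, bQ, zA, zB, zP, zQ]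
        group
    · rw [cut_out (by omega), cut_out (by omega), z4 r h]
      simp
  apply aut_ext
  · intro i
    by_cases hi : i = m
    · subst hi
      simp only [MulAut.mul_apply, map_mul, map_inv, map_one, aA, aB, aP, aQ, bA, bB, bP, bQ,
          cA, cB, cP, cQ, eA, eB, zA, zB, zP, zQ]
      group
    · have hi' : (i : ℕ) ≠ m := fun h => hi (Fin.ext h)
      have k1 := key (2 * i) (by omega)
      have k2 := key (2 * i + 1) (by omega)
      have l1 : e (A i) = cut g p (2 * m + 1) (2 * i) * A i *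
          (cut g p (2 * m + 1) (2 * i + 1))⁻¹ := (isFc_tw _ _).A i
      have l2 : (b * a * c * b * a * b) (A i) = b (a (cut g (2 * m + 1) q (2 * i))) * A i *
          (b (a (cut g (2 * m + 1) q (2 * i + 1))))⁻¹ := by
        simp only [MulAut.mul_apply, map_mul, map_inv, (bO i hi).1, aA, (cO i hi).1]
      rw [MulAut.mul_apply, l1, map_mul, map_mul, map_inv, l2,
        MulAut.mul_apply _ z (b * a * c * b * a * b), l2, map_mul,
        map_mul, map_inv, hzc.A]
      have : ∀ x1 x2 y1 y2 u1 u2 v1 v2 w : Fr g, x1 * y1 = u1 * v1 → x2 * y2 = u2 * v2 →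
          x1 * (y1 * w * y2⁻¹) * x2⁻¹ = u1 * (v1 * w * v2⁻¹) * u2⁻¹ := by
        intro x1 x2 y1 y2 u1 u2 v1 v2 w e1 e2
        calc x1 * (y1 * w * y2⁻¹) * x2⁻¹ = (x1 * y1) * w * (x2 * y2)⁻¹ := by group
          _ = (u1 * v1) * w * (u2 * v2)⁻¹ := by rw [e1, e2]
          _ = _ := by group
      exact this _ _ _ _ _ _ _ _ _ k1 k2
  · intro i
    by_cases hi : i = m
    · subst hi
      simp only [MulAut.mul_apply, map_mul, map_inv, map_one, aA, aB, aP, aQ, bA, bB, bP, bQ,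
          cA, cB, cP, cQ, eA, eB, zA, zB, zP, zQ]
      group
    · have hi' : (i : ℕ) ≠ m := fun h => hi (Fin.ext h)
      have k2 := key (2 * i + 1) (by omega)
      have l1 : e (B i) = cut g p (2 * m + 1) (2 * i + 1) * B i *
          (cut g p (2 * m + 1) (2 * i + 1))⁻¹ := (isFc_tw _ _).B i
      have l2 : (b * a * c * b * a * b) (B i) = b (a (cut g (2 * m + 1) q (2 * i + 1))) * B i *
          (b (a (cut g (2 * m + 1) q (2 * i + 1))))⁻¹ := by
        simp only [MulAut.mul_apply, map_mul, map_inv, (bO i hi).2, aO i hi, (cO i hi).2]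
      rw [MulAut.mul_apply, l1, map_mul, map_mul, map_inv, l2,
        MulAut.mul_apply _ z (b * a * c * b * a * b), l2, map_mul,
        map_mul, map_inv, hzc.B]
      have : ∀ x1 x2 y1 y2 u1 u2 v1 v2 w : Fr g, x1 * y1 = u1 * v1 → x2 * y2 = u2 * v2 →
          x1 * (y1 * w * y2⁻¹) * x2⁻¹ = u1 * (v1 * w * v2⁻¹) * u2⁻¹ := by
        intro x1 x2 y1 y2 u1 u2 v1 v2 w e1 e2
        calc x1 * (y1 * w * y2⁻¹) * x2⁻¹ = (x1 * y1) * w * (x2 * y2)⁻¹ := by group
          _ = (u1 * v1) * w * (u2 * v2)⁻¹ := by rw [e1, e2]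
          _ = _ := by group
      exact this _ _ _ _ _ _ _ _ _ k2 k2

end Pool.Agent.H.MP_ee9c6f_al
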