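import Pool.Agent.H.MP_ee9c6f_al.Stmt

/-!
MP_ee9c6f_al (helper22). The action on the first cohomology group: a subgroup of infinite index
with more than one relative end preserves no subspace of dimension between `2` and `2g - 2`.
-/

set_option autoImplicit false

namespace Pool.Agent.H.MP_ee9c6f_al.St

variable {g : ℕ}

/-- The first rational cohomology group of the surface: the homomorphisms of its fundamental group
to the rational numbers. -/
abbrev H1 (g : ℕ) : Type := Additive (Surf g) →+ ℚ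

/-- The composition of a homomorphism to the rational numbers with an automorphism. -/
def pull (φ : MulAut (Surf g)) (f : H1 g) : H1 g :=
  AddMonoidHom.comp f (MonoidHom.toAdditive φ.toMonoidHom)

/-- The mapping class maps the subspace to itself. -/
def Preserves (h : Mod g) (W : Submodule ℚ (H1 g)) : Prop :=
  ∀ φ : MulAut (Surf g), cls φ = h.1 → ∀ f ∈ W, pull φ f ∈ W

/-- Every element of `H` has a positive power that maps the subspace to itself. -/
def Invariant (H : Subgroup (Mod g)) (W : Submodule ℚ (H1 g)) : Prop :=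
  ∀ h ∈ H, ∃ k : ℕ, 0 < k ∧ Preserves (h ^ k) W

/-- Value at a group element. -/
def ev (f : H1 g) (x : Surf g) : ℚ := f (Additive.ofMul x)

theorem ev_mul (f : H1 g) (x y : Surf g) : ev f (x * y) = ev f x + ev f y := by
  unfold ev
  rw [ofMul_mul]
  exact map_add _ _ _

theorem ev_one (f : H1 g) : ev f 1 = 0 := by
  unfold ev
  rw [ofMul_one]
  exact map_zero _

theorem ev_inv (f : H1 g) (x : Surf g) : ev f x⁻¹ = - ev f x := by
  have := ev_mul f x x⁻¹
  rw [mul_inv_cancel, ev_one] at this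
  linarith

theorem ev_add (f f' : H1 g) (x : Surf g) : ev (f + f') x = ev f x + ev f' x := rfl

theorem ev_smul (c : ℚ) (f : H1 g) (x : Surf g) : ev (c • f) x = c * ev f x := rfl

theorem ev_pull (φ : MulAut (Surf g)) (f : H1 g) (x : Surf g) : ev (pull φ f) x = ev f (φ x) := rfl

theorem ev_ext {f f' : H1 g} (h : ∀ x, ev f x = ev f' x) : f = f' := by
  apply DFunLike.ext (F := Additive (Surf g) →+ ℚ) (f := f) (g := f')
  intro x
  exact h (Additive.toMul x)

/-- The class of a word. -/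
def mkS (w : Fr g) : Surf g := PresentedGroup.mk ({surfRel g} : Set (Fr g)) w

theorem mkS_mul (v w : Fr g) : mkS (v * w) = mkS v * mkS w := map_mul (PresentedGroup.mk _) v w

theorem mkS_inv (v : Fr g) : mkS v⁻¹ = (mkS v)⁻¹ := map_inv (PresentedGroup.mk _) v

theorem mkS_one : mkS (1 : Fr g) = 1 := map_one (PresentedGroup.mk _)

theorem desc_mkS (φ : MulAut (Fr g)) (h : φ (surfRel g) = surfRel g) (w : Fr g) :
    desc φ h (mkS w) = mkS (φ w) := rfl

theorem mkS_surj (x : Surf g) : ∃ w, mkS w = x := PresentedGroup.mk_surjective _ x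

theorem ext_gens {f f' : H1 g} (hA : ∀ i, ev f (mkS (A i)) = ev f' (mkS (A i)))
    (hB : ∀ i, ev f (mkS (B i)) = ev f' (mkS (B i))) : f = f' := by
  apply ev_ext
  intro x
  obtain ⟨w, rfl⟩ := mkS_surj x
  induction w using FreeGroup.induction_on with
  | C1 => rw [mkS_one, ev_one, ev_one]
  | of s =>
    rcases s with i | i
    · exact hA i
    · exact hB i
  | inv_of s h => rw [mkS_inv, ev_inv, ev_inv, h]
  | mul v w h1 h2 => rw [mkS_mul, ev_mul, ev_mul, h1, h2]

/-- The coordinates. -/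
noncomputable def toVec (g : ℕ) : H1 g →ₗ[ℚ] (Fin g ⊕ Fin g → ℚ) where
  toFun f := fun s => ev f (mkS (FreeGroup.of s))
  map_add' _ _ := rfl
  map_smul' _ _ := rfl

theorem toVec_inj (g : ℕ) : Function.Injective (toVec g) := by
  intro f f' h
  exact ext_gens (fun i => congrFun h (Sum.inl i)) (fun i => congrFun h (Sum.inr i))

theorem lift_surfRel (u : Fin g ⊕ Fin g → Multiplicative ℚ) :
    FreeGroup.lift u (surfRel g) = 1 := by
  unfold surfRel
  rw [map_list_prod]
  apply List.prod_eq_one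
  intro x hx
  rw [List.mem_map] at hx
  obtain ⟨y, hy, rfl⟩ := hx
  rw [List.mem_ofFn] at hy
  obtain ⟨i, rfl⟩ := hy
  simp only [map_mul, map_inv]
  rw [mul_comm (FreeGroup.lift u (A i)) (FreeGroup.lift u (B i))]
  group

theorem toVec_surj (g : ℕ) : Function.Surjective (toVec g) := by
  intro u
  let F : Surf g →* Multiplicative ℚ :=
    PresentedGroup.toGroup (rels := {surfRel g}) (f := fun s => Multiplicative.ofAdd (u s)) (by
      intro r hr
      rw [Set.mem_singleton_iff.1 hr]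
      exact lift_surfRel _)
  refine ⟨MonoidHom.toAdditiveLeft F, ?_⟩
  funext s
  exact congrArg Multiplicative.toAdd (PresentedGroup.toGroup.of (rels := {surfRel g})
    (f := fun s => Multiplicative.ofAdd (u s)) (x := s) (by
      intro r hr
      rw [Set.mem_singleton_iff.1 hr]
      exact lift_surfRel _))

/-- The coordinates. -/
noncomputable def vec (g : ℕ) : H1 g ≃ₗ[ℚ] (Fin g ⊕ Fin g → ℚ) :=
  LinearEquiv.ofBijective (toVec g) ⟨toVec_inj g, toVec_surj g⟩

theorem vec_apply (f : H1 g) (s : Fin g ⊕ Fin g) : vec g f s = ev f (mkS (FreeGroup.of s)) := rfl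

theorem vec_inl (f : H1 g) (i : Fin g) : vec g f (Sum.inl i) = ev f (mkS (A i)) := rfl

theorem vec_inr (f : H1 g) (i : Fin g) : vec g f (Sum.inr i) = ev f (mkS (B i)) := rfl

/-! ### The action of twists -/

/-- The action of `φ` is the transvection `f ↦ f + l f • v`. -/
def IsTrans (φ : MulAut (Surf g)) (l : (Fin g ⊕ Fin g → ℚ) →ₗ[ℚ] ℚ) (v : Fin g ⊕ Fin g → ℚ) :
    Prop :=
  (∀ f : H1 g, vec g (pull φ f) = vec g f + l (vec g f) • v) ∧ l v = 0

theorem pull_mul (φ ψ : MulAut (Surf g)) (f : H1 g) : pull (φ * ψ) f = pull ψ (pull φ f) := rfl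

theorem pull_one (f : H1 g) : pull (1 : MulAut (Surf g)) f = f := rfl

theorem IsTrans.pow {φ : MulAut (Surf g)} {l : (Fin g ⊕ Fin g → ℚ) →ₗ[ℚ] ℚ}
    {v : Fin g ⊕ Fin g → ℚ} (h : IsTrans φ l v) (n : ℕ) (f : H1 g) :
    vec g (pull (φ ^ n) f) = vec g f + ((n : ℚ) * l (vec g f)) • v := by
  induction n with
  | zero => simp [pull_one]
  | succ n ih =>
    rw [pow_succ, pull_mul, h.1, ih, map_add, map_smul, h.2]
    push_cast
    simp only [smul_eq_mul, mul_zero, add_zero]
    module

/-- The unit vectors. -/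
noncomputable def ex (i : Fin g) : Fin g ⊕ Fin g → ℚ := Pi.single (Sum.inl i) 1

/-- The unit vectors. -/
noncomputable def ey (i : Fin g) : Fin g ⊕ Fin g → ℚ := Pi.single (Sum.inr i) 1

/-- The coordinate functions. -/
noncomputable def co (s : Fin g ⊕ Fin g) : (Fin g ⊕ Fin g → ℚ) →ₗ[ℚ] ℚ := LinearMap.proj s

theorem trans_a (j : Fin g) :
    IsTrans (desc (bt j) (bt_surfRel j)) (- co (Sum.inl j)) (ey j) := by
  constructor
  · intro f
    funext s
    rcases s with i | i
    · rw [vec_inl, ev_pull, desc_mkS, bt_apply, btHom_A]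
      simp [ey, vec_inl]
    · rw [vec_inr, ev_pull, desc_mkS, bt_apply, btHom_B]
      by_cases h : i = j
      · subst h
        rw [if_pos rfl, mkS_mul, mkS_inv, ev_mul, ev_inv]
        simp [ey, co, vec_inl, vec_inr]
      · rw [if_neg h]
        simp [ey, h, vec_inr]
  · simp [ey, co]

theorem ev_cut_out {p q r : ℕ} (h : ¬ (p ≤ r ∧ r < q)) (f : H1 g) :
    ev f (mkS (cut g p q r)) = 0 := by
  rw [cut_out h, mkS_one, ev_one]

theorem trans_b (j : Fin g) :
    IsTrans (desc (tw g (2 * j + 1) (2 * j + 2)) (tw_surfRel g _ _)) (co (Sum.inr j)) (ex j) := by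
  constructor
  · intro f
    funext s
    rcases s with i | i
    · rw [vec_inl, ev_pull, desc_mkS, tw_apply, fc_A, mkS_mul, mkS_mul, mkS_inv, ev_mul, ev_mul,
        ev_inv, ev_cut_out (r := 2 * (i : ℕ)) (by omega)]
      by_cases h : i = j
      · subst h
        rw [cut_in (r := 2 * (i : ℕ) + 1) le_rfl (by omega), word_single, foot_odd, mkS_inv,
          ev_inv]
        simp [ex, co, vec_inl, vec_inr]
      · have h' : (i : ℕ) ≠ j := fun e => h (Fin.ext e)
        rw [ev_cut_out (r := 2 * (i : ℕ) + 1) (by omega)]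
        simp [ex, h, vec_inl]
    · rw [vec_inr, ev_pull, desc_mkS, tw_apply, fc_B, mkS_mul, mkS_mul, mkS_inv, ev_mul, ev_mul,
        ev_inv]
      simp [ex, vec_inr]
  · simp [ex, co]

theorem trans_c (j : Fin g) (hj : (j : ℕ) + 1 < g) :
    IsTrans (desc (tw g (2 * j + 1) (2 * j + 3)) (tw_surfRel g _ _))
      (co (Sum.inr ⟨j + 1, hj⟩) - co (Sum.inr j)) (ex ⟨j + 1, hj⟩ - ex j) := by
  have hne : (⟨j + 1, hj⟩ : Fin g) ≠ j := fun e => by
    have := congrArg Fin.val e
    simp at this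
  have hw : ∀ f : H1 g, ev f (mkS (word g (2 * j + 1) (2 * j + 3))) =
      ev f (mkS (B ⟨j + 1, hj⟩)) - ev f (mkS (B j)) := by
    intro f
    have e : foot g (2 * (j : ℕ) + 1 + 1) =
        A ⟨j + 1, hj⟩ * B ⟨j + 1, hj⟩ * (A ⟨j + 1, hj⟩)⁻¹ := foot_even (⟨j + 1, hj⟩ : Fin g)
    rw [show 2 * (j : ℕ) + 3 = 2 * j + 1 + 1 + 1 by omega, word_succ (by omega), word_single,
      foot_odd, e]
    simp only [mkS_mul, mkS_inv, ev_mul, ev_inv]
    ring
  constructor
  · intro f
    funext s
    rcases s with i | i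
    · rw [vec_inl, ev_pull, desc_mkS, tw_apply, fc_A, mkS_mul, mkS_mul, mkS_inv, ev_mul, ev_mul,
        ev_inv]
      by_cases h : i = j
      · subst h
        rw [cut_in (r := 2 * (i : ℕ) + 1) le_rfl (by omega), ev_cut_out (r := 2 * (i : ℕ))
          (by omega), hw]
        simp [ex, co, vec_inl, vec_inr, hne.symm]
      · by_cases h2 : i = ⟨j + 1, hj⟩
        · subst h2
          rw [cut_in (r := 2 * ((⟨j + 1, hj⟩ : Fin g) : ℕ)) (by simp only; omega)
              (by simp only; omega),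
            ev_cut_out (r := 2 * ((⟨j + 1, hj⟩ : Fin g) : ℕ) + 1) (by simp; omega), hw]
          simp [ex, co, vec_inl, vec_inr, h]
          ring
        · have h' : (i : ℕ) ≠ j := fun e => h (Fin.ext e)
          have h'' : (i : ℕ) ≠ j + 1 := fun e => h2 (Fin.ext e)
          rw [ev_cut_out (r := 2 * (i : ℕ)) (by omega), ev_cut_out (r := 2 * (i : ℕ) + 1)
            (by omega)]
          simp [ex, h, h2, vec_inl]
    · rw [vec_inr, ev_pull, desc_mkS, tw_apply, fc_B, mkS_mul, mkS_mul, mkS_inv, ev_mul, ev_mul,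
        ev_inv]
      simp [ex, vec_inr]
  · simp [ex, co]

/-! ### Invariant subspaces -/

theorem lin (hg : 2 ≤ g) (W : Submodule ℚ (Fin g ⊕ Fin g → ℚ))
    (ha : ∀ j : Fin g, 0 < (j : ℕ) → ∀ u ∈ W, u (Sum.inl j) ≠ 0 → ey j ∈ W)
    (hb : ∀ j : Fin g, 0 < (j : ℕ) → ∀ u ∈ W, u (Sum.inr j) ≠ 0 → ex j ∈ W)
    (hc : ∀ (j : Fin g) (hj : (j : ℕ) + 1 < g), ∀ u ∈ W,
      u (Sum.inr ⟨j + 1, hj⟩) - u (Sum.inr j) ≠ 0 → ex ⟨j + 1, hj⟩ - ex j ∈ W) :
    (∀ u ∈ W, ∀ s, s ≠ Sum.inl (⟨0, by omega⟩ : Fin g) → u s = 0) ∨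
      ∀ s, s ≠ Sum.inr (⟨0, by omega⟩ : Fin g) → Pi.single s (1 : ℚ) ∈ W := by
  have hxy : ∀ j : Fin g, 0 < (j : ℕ) → ex j ∈ W → ey j ∈ W := fun j hj h =>
    ha j hj _ h (by simp [ex])
  have hyx : ∀ j : Fin g, 0 < (j : ℕ) → ey j ∈ W → ex j ∈ W := fun j hj h =>
    hb j hj _ h (by simp [ey])
  by_cases h : ∃ j : Fin g, 0 < (j : ℕ) ∧ ex j ∈ W
  · right
    obtain ⟨j, hj, hjW⟩ := h
    have up : ∀ i : ℕ, (j : ℕ) ≤ i → ∀ hi : i < g, ex (⟨i, hi⟩ : Fin g) ∈ W := by
      intro i hji
      induction i, hji using Nat.le_induction with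
      | base => exact fun _ => hjW
      | succ i hi ih =>
        intro hi'
        have h1 := ih (by omega)
        have h2 := hxy ⟨i, by omega⟩ (by simp only; omega) h1
        have h3 := hc ⟨i, by omega⟩ hi' _ h2 (by simp [ey])
        have h4 := W.add_mem h3 h1
        rwa [sub_add_cancel] at h4
    have down : ∀ d : ℕ, ∀ hd : d ≤ (j : ℕ), ex (⟨(j : ℕ) - d, by omega⟩ : Fin g) ∈ W := by
      intro d
      induction d with
      | zero => exact fun _ => hjW
      | succ d ih =>
        intro hd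
        have h1 := ih (by omega)
        have h2 := hxy ⟨(j : ℕ) - d, by omega⟩ (by simp only; omega) h1
        have e : (⟨(j : ℕ) - (d + 1) + 1, by omega⟩ : Fin g) = ⟨(j : ℕ) - d, by omega⟩ :=
          Fin.ext (by simp only; omega)
        have h3 := hc ⟨(j : ℕ) - (d + 1), by omega⟩ (by simp only; omega) _ h2 (by
          have hne : (⟨(j : ℕ) - (d + 1), by omega⟩ : Fin g) ≠ ⟨(j : ℕ) - d, by omega⟩ := by
            intro e'
            have := congrArg Fin.val e'
            simp only at this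
            omega
          rw [e]
          simp [ey, hne])
        rw [e] at h3
        have h4 := W.sub_mem h1 h3
        rwa [sub_sub_cancel] at h4
    have all : ∀ i : Fin g, ex i ∈ W := by
      intro i
      rcases le_total (j : ℕ) i with h1 | h1
      · exact up i h1 i.2
      · have := down ((j : ℕ) - i) (by omega)
        have e : (⟨(j : ℕ) - ((j : ℕ) - i), by omega⟩ : Fin g) = i :=
          Fin.ext (by simp only; omega)
        rwa [e] at this
    rintro (i | i) hs
    · exact all i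
    · refine hxy i ?_ (all i)
      apply Nat.pos_of_ne_zero
      intro h0
      exact hs (congrArg Sum.inr (Fin.ext h0))
  · left
    push Not at h
    have hx0 : ∀ u ∈ W, ∀ j : Fin g, 0 < (j : ℕ) → u (Sum.inl j) = 0 := by
      intro u hu j hj
      by_contra hne
      exact h j hj (hyx j hj (ha j hj u hu hne))
    have hy0 : ∀ u ∈ W, ∀ j : Fin g, 0 < (j : ℕ) → u (Sum.inr j) = 0 := by
      intro u hu j hj
      by_contra hne
      exact h j hj (hb j hj u hu hne)
    rintro u hu (i | i) hs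
    · apply hx0 u hu i
      apply Nat.pos_of_ne_zero
      intro h0
      exact hs (congrArg Sum.inl (Fin.ext h0))
    · rcases Nat.eq_zero_or_pos (i : ℕ) with h0 | h0
      · by_contra hne
        have h1 := hc i (by omega) u hu (by
          rw [hy0 u hu ⟨i + 1, by omega⟩ (by simp only; omega)]
          simpa using hne)
        have h2 := hx0 _ h1 ⟨i + 1, by omega⟩ (by simp only; omega)
        have hne' : (⟨(i : ℕ) + 1, by omega⟩ : Fin g) ≠ i := fun e => by
          have := congrArg Fin.val e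
          simp at this
        simp [ex, hne'] at h2
      · exact hy0 u hu i h0

theorem dim_cases (hg : 2 ≤ g) (W : Submodule ℚ (Fin g ⊕ Fin g → ℚ))
    (h : (∀ u ∈ W, ∀ s, s ≠ Sum.inl (⟨0, by omega⟩ : Fin g) → u s = 0) ∨
      ∀ s, s ≠ Sum.inr (⟨0, by omega⟩ : Fin g) → Pi.single s (1 : ℚ) ∈ W) :
    Module.finrank ℚ W ≤ 1 ∨ 2 * g - 1 ≤ Module.finrank ℚ W := by
  rcases h with h | h
  · left
    have h1 : W ≤ Submodule.span ℚ {Pi.single (Sum.inl (⟨0, by omega⟩ : Fin g)) (1 : ℚ)} := by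
      intro u hu
      rw [Submodule.mem_span_singleton]
      refine ⟨u (Sum.inl (⟨0, by omega⟩ : Fin g)), ?_⟩
      funext s
      by_cases hs : s = Sum.inl (⟨0, by omega⟩ : Fin g)
      · subst hs
        simp
      · rw [h u hu s hs]
        simp [hs]
    refine (Submodule.finrank_mono h1).trans ?_
    refine (finrank_span_le_card _).trans ?_
    simp
  · right
    have h1 : W ⊔ Submodule.span ℚ {Pi.single (Sum.inr (⟨0, by omega⟩ : Fin g)) (1 : ℚ)} = ⊤ := by
      rw [eq_top_iff]
      intro u _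
      rw [← Finset.univ_sum_single u]
      refine Submodule.sum_mem _ fun s _ => ?_
      have e : (Pi.single s (u s) : Fin g ⊕ Fin g → ℚ) = u s • Pi.single s (1 : ℚ) := by
        rw [← Pi.single_smul, smul_eq_mul, mul_one]
      rw [e]
      apply Submodule.smul_mem
      by_cases hs : s = Sum.inr (⟨0, by omega⟩ : Fin g)
      · subst hs
        exact (le_sup_right : _ ≤ W ⊔ _) (Submodule.mem_span_singleton_self _)
      · exact (le_sup_left : W ≤ _) (h s hs)
    have h2 := Submodule.finrank_add_le_finrank_add_finrank W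
      (Submodule.span ℚ {Pi.single (Sum.inr (⟨0, by omega⟩ : Fin g)) (1 : ℚ)})
    rw [h1, finrank_top, Module.finrank_pi, Fintype.card_sum, Fintype.card_fin] at h2
    have h3 : Module.finrank ℚ (Submodule.span ℚ
        {Pi.single (M := fun _ : Fin g ⊕ Fin g => ℚ) (Sum.inr (⟨0, by omega⟩ : Fin g)) (1 : ℚ)})
          ≤ 1 := by
      refine (finrank_span_le_card _).trans ?_
      simp
    omega

/-- The action of an automorphism on the cohomology. -/
noncomputable def pullE (φ : MulAut (Surf g)) : H1 g ≃ₗ[ℚ] H1 g where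
  toFun := pull φ
  invFun := pull φ⁻¹
  map_add' _ _ := rfl
  map_smul' _ _ := rfl
  left_inv f := by
    rw [← pull_mul, mul_inv_cancel, pull_one]
  right_inv f := by
    rw [← pull_mul, inv_mul_cancel, pull_one]

theorem cls_mul (φ ψ : MulAut (Surf g)) : cls (φ * ψ) = cls φ * cls ψ := rfl

theorem cls_inv (φ : MulAut (Surf g)) : cls φ⁻¹ = (cls φ)⁻¹ := rfl

theorem cls_pow (φ : MulAut (Surf g)) (n : ℕ) : cls (φ ^ n) = cls φ ^ n := by
  induction n with
  | zero => rfl
  | succ n ih => rw [pow_succ, cls_mul, ih, pow_succ]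

theorem step {H : Subgroup (Mod g)} {W : Submodule ℚ (H1 g)} (hW : Invariant H W) {γ t : Mod g}
    (ht : HasPow H (γ * t * γ⁻¹)) {φ ψ : MulAut (Surf g)} (hφ : cls φ = γ.1) (hψ : cls ψ = t.1)
    {l : (Fin g ⊕ Fin g → ℚ) →ₗ[ℚ] ℚ} {v : Fin g ⊕ Fin g → ℚ} (hl : IsTrans ψ l v)
    {u : Fin g ⊕ Fin g → ℚ} (hu : u ∈ (W.map (pullE φ).toLinearMap).map (vec g).toLinearMap)
    (h : l u ≠ 0) : v ∈ (W.map (pullE φ).toLinearMap).map (vec g).toLinearMap := by
  obtain ⟨m, hm, hm'⟩ := ht
  obtain ⟨k, hk, hk'⟩ := hW _ hm'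
  obtain ⟨n, hn, hmn⟩ : ∃ n : ℕ, 0 < n ∧ m * k = n := ⟨m * k, Nat.mul_pos hm hk, rfl⟩
  rw [← pow_mul, hmn] at hk'
  obtain ⟨_, ⟨f, hf, rfl⟩, rfl⟩ := hu
  have h1 : pull (φ * ψ ^ n * φ⁻¹) f ∈ W := by
    refine hk' _ ?_ f hf
    rw [cls_mul, cls_mul, cls_inv, cls_pow, hφ, hψ, conj_pow]
    rfl
  have h2 : vec g (pull (ψ ^ n) (pull φ f)) ∈
      (W.map (pullE φ).toLinearMap).map (vec g).toLinearMap := by
    refine ⟨_, ⟨_, h1, ?_⟩, rfl⟩
    change pull φ (pull (φ * ψ ^ n * φ⁻¹) f) = _
    rw [← pull_mul, ← pull_mul]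
    congr 1
    group
  rw [hl.pow] at h2
  have h3 := Submodule.sub_mem _ h2 (⟨_, ⟨f, hf, rfl⟩, rfl⟩ : vec g (pull φ f) ∈
      (W.map (pullE φ).toLinearMap).map (vec g).toLinearMap)
  rw [add_sub_cancel_left] at h3
  have h4 : (n : ℚ) * l (vec g (pull φ f)) ≠ 0 :=
    mul_ne_zero (by exact_mod_cast hn.ne') h
  exact (Submodule.smul_mem_iff _ h4).mp h3

/-- If every element of a subgroup with at least two relative ends has a positive power that
preserves a subspace of the first rational cohomology group, then this subspace has dimension or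
codimension at most one. -/
theorem invariant_subspace (hg : 3 ≤ g) {S : Set (Mod g)} (hS : Subgroup.closure S = ⊤)
    {H : Subgroup (Mod g)} (h : 2 ≤ relEnds S H) {W : Submodule ℚ (H1 g)} (hW : Invariant H W) :
    Module.finrank ℚ W ≤ 1 ∨ 2 * g - 1 ≤ Module.finrank ℚ W := by
  obtain ⟨γ, h1, h2⟩ := uniform hg hS h
  obtain ⟨φ, hφ⟩ : ∃ φ : MulAut (Surf g), cls φ = γ.1 := Quotient.exists_rep _
  have e : Module.finrank ℚ ((W.map (pullE φ).toLinearMap).map (vec g).toLinearMap) =
      Module.finrank ℚ W := by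
    rw [LinearEquiv.finrank_map_eq, LinearEquiv.finrank_map_eq]
  rw [← e]
  refine dim_cases (by omega) _ (lin (by omega) _ ?_ ?_ ?_)
  · intro j hj u hu hne
    exact step hW (h1 j hj).1 hφ rfl (trans_a j) hu (by simpa [co] using hne)
  · intro j hj u hu hne
    exact step hW (h1 j hj).2 hφ rfl (trans_b j) hu (by simpa [co] using hne)
  · intro j hj u hu hne
    exact step hW (h2 j hj) hφ rfl (trans_c j hj) hu (by simpa [co] using hne)

theorem one_of_not_two {S : Set (Mod g)} (hS : Subgroup.closure S = ⊤)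
    {H : Subgroup (Mod g)} (hH : ¬ H.FiniteIndex) (h : ¬ 2 ≤ relEnds S H) :
    relEnds S H = 1 := by
  have h0 : relEnds S H ≠ 0 := fun h0 => hH ((relEnds_eq_zero_iff hS H).mp h0)
  have h1 : 1 ≤ relEnds S H := Order.one_le_iff_ne_zero.mpr h0
  apply le_antisymm _ h1
  by_contra hlt
  have h3 : (1 : ℕ∞) < relEnds S H := lt_of_not_ge hlt
  have h4 := Order.add_one_le_of_lt h3
  have h5 : (1 : ℕ∞) + 1 = 2 := by norm_num
  rw [h5] at h4
  exact h h4

/-- Only one end if a subspace of dimension between `2` and `2g - 2` is preserved. -/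
theorem one_of_invariant (hg : 3 ≤ g) {S : Set (Mod g)} (hS : Subgroup.closure S = ⊤)
    {H : Subgroup (Mod g)} (hH : ¬ H.FiniteIndex) {W : Submodule ℚ (H1 g)}
    (hW : Invariant H W) (h1 : 2 ≤ Module.finrank ℚ W) (h2 : Module.finrank ℚ W ≤ 2 * g - 2) :
    relEnds S H = 1 := by
  refine one_of_not_two hS hH fun h => ?_
  rcases invariant_subspace hg hS h hW with h3 | h3 <;> omega

/-- Only one end if a Lickorish twist has no power in any conjugate: two twists about curves that
meet once. -/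
theorem one_of_no_pair (hg : 3 ≤ g) {S : Set (Mod g)} (hS : Subgroup.closure S = ⊤)
    {H : Subgroup (Mod g)} (hH : ¬ H.FiniteIndex)
    (h : ∀ (γ : Mod g) (j : Fin g), ¬ (HasPow H (con γ (twA j)) ∧ HasPow H (con γ (twB j)))) :
    relEnds S H = 1 := by
  refine one_of_not_two hS hH fun h' => ?_
  obtain ⟨γ, h1, -⟩ := uniform hg hS h'
  exact h γ ⟨1, by omega⟩ (h1 ⟨1, by omega⟩ (by simp only; omega))

end Pool.Agent.H.MP_ee9c6f_al.St
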