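import Pool.Agent.H.MP_ee9c6f_al.Arc
import Pool.Agent.H.MP_ee9c6f_al.Ends2

/-!
MP_ee9c6f_al (helper22). Subgroups with at least two relative ends contain large subgroups of
mapping class groups of subsurfaces.
-/

set_option autoImplicit false

namespace Pool.Agent.H.MP_ee9c6f_al

open Pointwise

variable {g : ℕ}

theorem cast_ne {r s : ℕ} (h : r < s) (h' : s < r + 2 * g) :
    ((r : ℕ) : ZMod (2 * g)) ≠ (s : ℕ) := by
  intro e
  rw [ZMod.natCast_eq_natCast_iff] at e
  have h1 := (Nat.modEq_iff_dvd' h.le).mp e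
  have h2 := Nat.le_of_dvd (by omega) h1
  omega

/-- Thin sets of units generate elliptic groups. -/
theorem thin_ellS (hg : 3 ≤ g) {X : Type*} [MulAction (Mod g) X] {U : Set X}
    (hU : AInv (Mod g) U) {n : ℕ} (hmin : ∀ m < n, ∀ p, EllS U (grp g (arc g p m)))
    {J : Set (ZMod (2 * g))} (hJ : Thin n J) : EllS U (grp g J) := by
  have : NeZero (2 * g) := ⟨by omega⟩
  obtain ⟨o, -, ho⟩ := Set.not_subset.mp (hJ 0)
  let Jm : ℕ → Set (ZMod (2 * g)) := fun m => {u | u ∈ J ∧ ∃ r, 1 ≤ r ∧ r ≤ m ∧ u = o + (r : ℕ)}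
  have hempty : ∀ p : ZMod (2 * g), arc g p 0 = ∅ := by
    intro p
    ext u
    simp [arc]
  have main : ∀ m, m ≤ 2 * g - 1 → EllS U (grp g (Jm m)) := by
    intro m
    induction m using Nat.strong_induction_on with
    | _ m ih =>
    intro hm
    rcases Nat.eq_zero_or_pos m with rfl | hm0
    · have : Jm 0 = ∅ := by
        ext u
        simp only [Jm, Set.mem_ofPred_eq, Set.mem_empty_iff_false, iff_false]
        rintro ⟨-, r, h1, h2, -⟩
        omega
      rw [this, grp_empty]
      exact ellS_bot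
    by_cases hmJ : o + ((m : ℕ) : ZMod (2 * g)) ∈ J
    · -- the last omitted unit
      classical
      obtain ⟨s, hs1, hs2, hs3⟩ : ∃ s, s < m ∧ o + ((s : ℕ) : ZMod (2 * g)) ∉ J ∧
          ∀ r, s < r → r ≤ m → o + ((r : ℕ) : ZMod (2 * g)) ∈ J := by
        let P : ℕ → Prop := fun s => o + ((s : ℕ) : ZMod (2 * g)) ∉ J
        have hP0 : P 0 := by simpa [P] using ho
        have h1 := Nat.findGreatest_spec (P := P) (Nat.zero_le (m - 1)) hP0
        refine ⟨Nat.findGreatest P (m - 1), ?_, h1, ?_⟩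
        · have := Nat.findGreatest_le (P := P) (m - 1)
          omega
        · intro r hr1 hr2
          by_contra hr3
          rcases Nat.lt_or_ge (m - 1) r with h2 | h2
          · have : r = m := by omega
            exact hr3 (this ▸ hmJ)
          · have := Nat.le_findGreatest h2 (show P r from hr3)
            omega
      have hrun : arc g (o + ((s + 1 : ℕ) : ZMod (2 * g))) (m - s) ⊆ J := by
        rintro u ⟨r, hr, rfl⟩
        rw [add_assoc, ← Nat.cast_add]
        exact hs3 _ (by omega) (by omega)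
      have hlen : m - s < n := by
        by_contra hcon
        apply hJ (o + ((s + 1 : ℕ) : ZMod (2 * g)))
        refine Set.Subset.trans ?_ hrun
        rintro u ⟨r, hr, rfl⟩
        exact ⟨r, by omega, rfl⟩
      have hrunE := hmin _ hlen (o + ((s + 1 : ℕ) : ZMod (2 * g)))
      have hprev : EllS U (grp g (Jm (s - 1))) := ih (s - 1) (by omega) (by omega)
      have hsplit : Jm m = Jm (s - 1) ∪ arc g (o + ((s + 1 : ℕ) : ZMod (2 * g))) (m - s) := by
        ext u
        constructor
        · rintro ⟨huJ, r, h1, h2, rfl⟩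
          rcases Nat.lt_trichotomy r s with h3 | h3 | h3
          · exact Or.inl ⟨huJ, r, h1, by omega, rfl⟩
          · exact absurd huJ (h3 ▸ hs2)
          · refine Or.inr ⟨r - (s + 1), by omega, ?_⟩
            rw [add_assoc, ← Nat.cast_add]
            congr 2
            omega
        · rintro (⟨huJ, r, h1, h2, rfl⟩ | hu)
          · exact ⟨huJ, r, h1, by omega, rfl⟩
          · refine ⟨hrun hu, ?_⟩
            obtain ⟨r, hr, rfl⟩ := hu
            refine ⟨s + 1 + r, by omega, by omega, ?_⟩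
            rw [add_assoc, ← Nat.cast_add]
      have hcomm : ∀ a ∈ grp g (Jm (s - 1)),
          ∀ b ∈ grp g (arc g (o + ((s + 1 : ℕ) : ZMod (2 * g))) (m - s)), Commute a b := by
        apply grp_comm hg
        rintro u ⟨-, r, h1, h2, rfl⟩ v ⟨q, hq, rfl⟩
        have e1 : o + ((s + 1 : ℕ) : ZMod (2 * g)) + (q : ℕ) = o + ((s + 1 + q : ℕ) :
            ZMod (2 * g)) := by
          rw [add_assoc, ← Nat.cast_add]
        rw [e1]
        refine ⟨?_, ?_, ?_⟩
        · intro e
          exact cast_ne (r := r) (s := s + 1 + q) (by omega) (by omega) (add_left_cancel e)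
        · intro e
          rw [add_assoc] at e
          have := add_left_cancel e
          rw [← Nat.cast_succ] at this
          exact cast_ne (r := r) (s := s + 1 + q + 1) (by omega) (by omega) this
        · intro e
          rw [add_assoc] at e
          have := add_left_cancel e
          rw [← Nat.cast_succ] at this
          exact cast_ne (r := r + 1) (s := s + 1 + q) (by omega) (by omega) this
      rw [hsplit]
      have h1 : ∀ x, ¬ Bad U (grp g (Jm (s - 1) ∪
          arc g (o + ((s + 1 : ℕ) : ZMod (2 * g))) (m - s))) x := by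
        rw [grp_union]
        exact not_bad_sup hU hprev hrunE hcomm
      exact EllS.of_not_bad hU (tws_finite _) h1
    · have : Jm m = Jm (m - 1) := by
        ext u
        constructor
        · rintro ⟨huJ, r, h1, h2, rfl⟩
          rcases Nat.lt_or_ge (m - 1) r with h3 | h3
          · have : r = m := by omega
            exact absurd huJ (this ▸ hmJ)
          · exact ⟨huJ, r, h1, h3, rfl⟩
        · rintro ⟨huJ, r, h1, h2, rfl⟩
          exact ⟨huJ, r, h1, by omega, rfl⟩
      rw [this]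
      exact ih (m - 1) (by omega) (by omega)
  have hall : Jm (2 * g - 1) = J := by
    ext u
    constructor
    · rintro ⟨h, -⟩
      exact h
    · intro hu
      have hlt := ZMod.val_lt (u - o)
      have hcast : (((u - o).val : ℕ) : ZMod (2 * g)) = u - o := ZMod.natCast_zmod_val _
      refine ⟨hu, (u - o).val, ?_, by omega, ?_⟩
      · by_contra h0
        have h1 : (u - o).val = 0 := by omega
        rw [ZMod.val_eq_zero, sub_eq_zero] at h1
        exact ho (h1 ▸ hu)
      · rw [hcast]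
        ring
  rw [← hall]
  exact main _ le_rfl

/-- The minimal arc with a bad orbit. -/
theorem exists_arc (hg : 3 ≤ g) {X : Type*} [MulAction (Mod g) X]
    [MulAction.IsPretransitive (Mod g) X] {U : Set X} (hU : AInv (Mod g) U) (h1 : U.Infinite)
    (h2 : Uᶜ.Infinite) :
    ∃ (p : ZMod (2 * g)) (n : ℕ), 1 ≤ n ∧ n ≤ 2 * g - 1 ∧ (n = 1 → p.val % 2 = 0) ∧
      (∃ x, Bad U (grp g (arc g p n)) x) ∧ ∀ J, Thin n J → EllS U (grp g J) := by
  classical
  have hex : ∃ n, ∃ p, ∃ x, Bad U (grp g (arc g p n)) x := by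
    obtain ⟨x, -⟩ := h1.nonempty
    refine ⟨2 * g - 1, 0, x, ?_⟩
    rw [grp_arc_top hg]
    have : MulAction.orbit (⊤ : Subgroup (Mod g)) x = Set.univ := by
      ext y
      simp only [Set.mem_univ, iff_true]
      obtain ⟨s, hs⟩ := MulAction.exists_smul_eq (Mod g) x y
      exact mem_orbit_sub.mpr ⟨s, trivial, hs⟩
    unfold Bad
    rw [this]
    refine ⟨by simpa using h1, ?_⟩
    rwa [← Set.compl_eq_univ_sdiff]
  obtain ⟨p, x, hbad⟩ := Nat.find_spec hex
  have hmin : ∀ m < Nat.find hex, ∀ p, EllS U (grp g (arc g p m)) := by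
    intro m hm p
    apply EllS.of_not_bad hU (tws_finite _)
    intro x hx
    exact Nat.find_min hex hm ⟨p, x, hx⟩
  refine ⟨p, Nat.find hex, ?_, ?_, ?_, ⟨x, hbad⟩, fun J hJ => thin_ellS hg hU hmin hJ⟩
  · by_contra h0
    have h0' : Nat.find hex = 0 := by omega
    have hb : Bad U (grp g (arc g p 0)) x := h0' ▸ hbad
    have : arc g p 0 = ∅ := by
      ext u
      simp [arc]
    rw [this, grp_empty] at hb
    exact ellS_bot.not_bad x hb
  · apply Nat.find_min'
    obtain ⟨x, -⟩ := h1.nonempty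
    refine ⟨0, x, ?_⟩
    rw [grp_arc_top hg]
    have : MulAction.orbit (⊤ : Subgroup (Mod g)) x = Set.univ := by
      ext y
      simp only [Set.mem_univ, iff_true]
      obtain ⟨s, hs⟩ := MulAction.exists_smul_eq (Mod g) x y
      exact mem_orbit_sub.mpr ⟨s, trivial, hs⟩
    unfold Bad
    rw [this]
    refine ⟨by simpa using h1, ?_⟩
    rwa [← Set.compl_eq_univ_sdiff]
  · intro h1
    by_contra hodd
    rw [h1] at hbad
    exact (ellS_odd hg hU (by omega : p.val % 2 = 1)).not_bad x hbad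

/-- `K` contains a subgroup of finite index of `P`. -/
def Virt (K P : Subgroup (Mod g)) : Prop := K.relIndex P ≠ 0

/-- The conjugate of `H` by `γ`. -/
def cj (γ : Mod g) (H : Subgroup (Mod g)) : Subgroup (Mod g) :=
  H.map (MulAut.conj γ).toMonoidHom

/-- The subgroup is conjugate into a group generated by a set of units that contains no `n`
consecutive units. -/
def Small (n : ℕ) (P : Subgroup (Mod g)) : Prop :=
  ∃ (δ : Mod g) (J : Set (ZMod (2 * g))), Thin n J ∧ P ≤ cj δ (grp g J)

/-- There are subgroups `A₁` and `B₁` of finite index in `A` and `B` with homomorphisms onto the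
integers, which kill the powers of Dehn twists about nonseparating curves, such that `K ∩ A₁B₁` is
their fibre product; and `K` contains a subgroup of finite index of every small group that
centralises an element of `A₁` or `B₁` outside the kernels. -/
def Fibre (n : ℕ) (K A B : Subgroup (Mod g)) : Prop :=
  ∃ A₁ B₁ : Subgroup (Mod g), A₁ ≤ A ∧ B₁ ≤ B ∧ Virt A₁ A ∧ Virt B₁ B ∧
    ∃ (χ : A₁ →* Multiplicative ℤ) (χ' : B₁ →* Multiplicative ℤ),
      Function.Surjective χ ∧ Function.Surjective χ' ∧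
      (∀ (a : A₁) (b : B₁), χ a = χ' b ↔ (a : Mod g)⁻¹ * (b : Mod g) ∈ K) ∧
      (∀ a : A₁, TwPow (a : Mod g) → χ a = 1) ∧ (∀ b : B₁, TwPow (b : Mod g) → χ' b = 1) ∧
      ∀ P, Small n P → ((∃ a : A₁, χ a ≠ 1 ∧ ∀ p ∈ P, Commute p (a : Mod g)) ∨
        ∃ b : B₁, χ' b ≠ 1 ∧ ∀ p ∈ P, Commute p (b : Mod g)) → Virt K P

/-- The number of relative ends of the pair `(grp g I, K ∩ grp g I)`. -/
noncomputable def endsIn (K : Subgroup (Mod g)) (I : Set (ZMod (2 * g))) : ℕ∞ :=
  relEnds ((Subtype.val : grp g I → Mod g) ⁻¹' tws g I) (K.subgroupOf (grp g I))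

/-- `K` contains a subgroup of finite index of the group of the units far from `I`; and if two small
groups generate `grp g I` then there is a conjugate of `K` that contains, for every small group `P`,
a subgroup of finite index of the intersection of `P` with one of the two groups. -/
def Product (n : ℕ) (K : Subgroup (Mod g)) (I : Set (ZMod (2 * g))) : Prop :=
  Virt K (grp g (far I)) ∧ ∀ P₁ P₂, Small n P₁ → Small n P₂ →
    grp g I ≤ (P₁ ⊓ grp g I) ⊔ (P₂ ⊓ grp g I) → ∃ a ∈ grp g I, ∀ P, Small n P →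
      Virt (cj a K) (P ⊓ P₁) ∨ Virt (cj a K) (P ⊓ P₂)

theorem stab_eq (H : Subgroup (Mod g)) (γ : Mod g) :
    MulAction.stabilizer (Mod g) ((γ : Mod g) : Mod g ⧸ H) = cj γ H := by
  have h1 := MulAction.stabilizer_smul_eq_stabilizer_map_conj γ (((1 : Mod g)) : Mod g ⧸ H)
  have h2 : γ • (((1 : Mod g)) : Mod g ⧸ H) = ((γ : Mod g) : Mod g ⧸ H) := by
    change (((γ * 1 : Mod g)) : Mod g ⧸ H) = _
    rw [mul_one]
  rw [h2, MulAction.stabilizer_quotient] at h1
  exact h1

theorem cj_mul (a γ : Mod g) (H : Subgroup (Mod g)) : cj a (cj γ H) = cj (a * γ) H := by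
  unfold cj
  rw [Subgroup.map_map]
  congr 1
  ext x
  simp

theorem mem_cj {γ : Mod g} {H : Subgroup (Mod g)} {x : Mod g} :
    x ∈ cj γ H ↔ ∃ h ∈ H, γ * h * γ⁻¹ = x := by
  unfold cj
  rw [Subgroup.mem_map]
  rfl

theorem virt_iff {X : Type*} [MulAction (Mod g) X] {x : X} {P : Subgroup (Mod g)} :
    Virt (MulAction.stabilizer (Mod g) x) P ↔ (MulAction.orbit P x).Finite :=
  orbit_finite_iff.symm

theorem EllS.cj {X : Type*} [MulAction (Mod g) X] {U : Set X} (hU : AInv (Mod g) U)
    {P : Subgroup (Mod g)} (h : EllS U P) (δ : Mod g) :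
    EllS U (Pool.Agent.H.MP_ee9c6f_al.cj δ P) := by
  obtain ⟨V, hV, hP⟩ := h
  refine ⟨δ • V, (hV.smul δ).trans (hU δ), ?_⟩
  intro q hq
  obtain ⟨p, hp, rfl⟩ := mem_cj.mp hq
  rw [smul_smul, mul_assoc, inv_mul_cancel, mul_one, mul_smul, hP p hp]

theorem EllS.mono {X : Type*} [MulAction (Mod g) X] {U : Set X} {P Q : Subgroup (Mod g)}
    (h : EllS U Q) (hPQ : P ≤ Q) : EllS U P := by
  obtain ⟨V, hV, hQ⟩ := h
  exact ⟨V, hV, fun p hp => hQ p (hPQ hp)⟩

/-- An elliptic group that commutes with an element with a bad orbit has a finite orbit. -/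
theorem finite_of_comm {G X : Type*} [Group G] [MulAction G X] {U : Set X} (hU : AInv G U)
    {P : Subgroup G} (hP : EllS U P) {c : G} (hc : ∀ p ∈ P, Commute p c) {x : X}
    (hbad : Bad U (Subgroup.closure {c}) x) : (MulAction.orbit P x).Finite := by
  by_contra hinf
  obtain ⟨V, hV, hPV⟩ := hP
  have hcz : ∀ z ∈ Subgroup.closure {c}, ∀ p ∈ P, Commute p z := by
    intro z hz p hp
    obtain ⟨j, rfl⟩ := Subgroup.mem_closure_singleton.mp hz
    exact (hc p hp).zpow_right j
  have key : ∀ z ∈ MulAction.orbit (Subgroup.closure {c}) x, (z ∈ V ↔ x ∈ V) := by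
    intro z hz
    obtain ⟨s, hs, rfl⟩ := mem_orbit_sub.mp hz
    by_contra hne
    have h1 : AE (s⁻¹ • V) V := ((hV.smul s⁻¹).trans (hU s⁻¹)).trans hV.symm
    apply hinf
    refine h1.subset ?_
    intro w hw
    have h2 : ∀ p ∈ P, p • (s⁻¹ • V) = s⁻¹ • V := by
      intro p hp
      rw [smul_smul, ((hcz s hs p hp).inv_right).eq, mul_smul, hPV p hp]
    have e1 := mem_iff_of_inv hPV hw
    have e2 := mem_iff_of_inv h2 hw
    rw [Set.mem_inv_smul_set_iff, Set.mem_inv_smul_set_iff] at e2
    rw [Set.mem_symmDiff, Set.mem_inv_smul_set_iff]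
    tauto
  by_cases hx : x ∈ V
  · apply hbad.2
    refine hV.finite_diff.subset ?_
    rintro z ⟨hz, hzU⟩
    exact ⟨(key z hz).mpr hx, hzU⟩
  · apply hbad.1
    refine hV.finite_diff'.subset ?_
    rintro z ⟨hzU, hz⟩
    exact ⟨hzU, fun h => hx ((key z hz).mp h)⟩

/-- The structure theorem for actions with a commensurated set. -/
theorem large_act (hg : 3 ≤ g) {X : Type} [MulAction (Mod g) X]
    [MulAction.IsPretransitive (Mod g) X] {U : Set X} (hU : AInv (Mod g) U) (hU1 : U.Infinite)
    (hU2 : Uᶜ.Infinite) :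
    ∃ (p : ZMod (2 * g)) (n : ℕ) (x : X), 1 ≤ n ∧ n ≤ 2 * g - 1 ∧ (n = 1 → p.val % 2 = 0) ∧
      2 ≤ relEnds ((Subtype.val : grp g (arc g p n) → Mod g) ⁻¹' tws g (arc g p n))
        ((MulAction.stabilizer (Mod g) x).subgroupOf (grp g (arc g p n))) ∧
      ((Virt (MulAction.stabilizer (Mod g) x) (grp g (far (arc g p n))) ∧
        ∀ P₁ P₂, Small n P₁ → Small n P₂ →
          grp g (arc g p n) ≤ (P₁ ⊓ grp g (arc g p n)) ⊔ (P₂ ⊓ grp g (arc g p n)) →
          ∃ a ∈ grp g (arc g p n), ∀ P, Small n P →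
            Virt (MulAction.stabilizer (Mod g) (a • x)) (P ⊓ P₁) ∨
            Virt (MulAction.stabilizer (Mod g) (a • x)) (P ⊓ P₂)) ∨
      Fibre n (MulAction.stabilizer (Mod g) x) (grp g (arc g p n))
          (grp g (far (arc g p n)))) := by
  obtain ⟨p, n, hn1, hn2, hn3, ⟨x, hbad⟩, hthin⟩ := exists_arc hg hU hU1 hU2
  have hsmall : ∀ P : Subgroup (Mod g), Small n P → EllS U P := by
    rintro P ⟨δ, J, hJ, hP⟩
    exact ((hthin J hJ).cj hU δ).mono hP
  refine ⟨p, n, x, hn1, hn2, hn3, relEnds_of_bad hU (tws_finite _) hbad, ?_⟩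
  set I := arc g p n with hI
  have hcomm := grp_far_comm hg I
  by_cases hB : (MulAction.orbit (grp g (far I)) x).Finite
  · left
    refine ⟨virt_iff.mpr hB, ?_⟩
    intro P₁ P₂ hP₁ hP₂ hgen
    obtain ⟨V₁, hV₁, hinv₁⟩ := hsmall P₁ hP₁
    obtain ⟨V₂, hV₂, hinv₂⟩ := hsmall P₂ hP₂
    obtain ⟨y, hy, hne⟩ : ∃ y ∈ MulAction.orbit (grp g I) x, ¬ (y ∈ V₁ ↔ y ∈ V₂) := by
      by_contra hcon
      push Not at hcon
      have key : ∀ a ∈ grp g I, ∀ z ∈ MulAction.orbit (grp g I) x, (a • z ∈ V₁ ↔ z ∈ V₁) := by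
        intro a ha
        have ha' : a ∈ Subgroup.closure (((P₁ ⊓ grp g I : Subgroup (Mod g)) : Set (Mod g)) ∪
            ((P₂ ⊓ grp g I : Subgroup (Mod g)) : Set (Mod g))) := by
          rw [← Subgroup.sup_eq_closure]
          exact hgen ha
        have hle : Subgroup.closure (((P₁ ⊓ grp g I : Subgroup (Mod g)) : Set (Mod g)) ∪
            ((P₂ ⊓ grp g I : Subgroup (Mod g)) : Set (Mod g))) ≤ grp g I := by
          rw [← Subgroup.sup_eq_closure]
          exact sup_le inf_le_right inf_le_right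
        clear ha
        induction ha' using Subgroup.closure_induction with
        | mem s hs =>
          intro z hz
          rcases hs with hs | hs
          · exact smul_mem_of_eq (hinv₁ s hs.1) z
          · have hsz : s • z ∈ MulAction.orbit (grp g I) x := by
              rw [← orbit_sub_eq hz]
              exact mem_orbit_sub.mpr ⟨s, hs.2, rfl⟩
            rw [hcon _ hsz, hcon _ hz]
            exact smul_mem_of_eq (hinv₂ s hs.1) z
        | one => intro z _; rw [one_smul]
        | mul a b ha hb iha ihb =>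
          intro z hz
          rw [mul_smul, iha _ ?_, ihb z hz]
          rw [← orbit_sub_eq hz]
          exact mem_orbit_sub.mpr ⟨b, hle hb, rfl⟩
        | inv a ha ih =>
          intro z hz
          rw [← ih (a⁻¹ • z) ?_, smul_inv_smul]
          rw [← orbit_sub_eq hz]
          exact mem_orbit_sub.mpr ⟨a⁻¹, inv_mem (hle ha), rfl⟩
      have hall : ∀ z ∈ MulAction.orbit (grp g I) x, (z ∈ V₁ ↔ x ∈ V₁) := by
        intro z hz
        obtain ⟨a, ha, rfl⟩ := mem_orbit_sub.mp hz
        exact key a ha x (MulAction.mem_orbit_self x)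
      by_cases hx : x ∈ V₁
      · apply hbad.2
        refine hV₁.finite_diff.subset ?_
        rintro z ⟨hz, hzU⟩
        exact ⟨(hall z hz).mpr hx, hzU⟩
      · apply hbad.1
        refine hV₁.finite_diff'.subset ?_
        rintro z ⟨hzU, hz⟩
        exact ⟨hzU, fun h => hx ((hall z hz).mp h)⟩
    obtain ⟨a, ha, rfl⟩ := mem_orbit_sub.mp hy
    refine ⟨a, ha, fun P hP => ?_⟩
    obtain ⟨V, hV, hinv⟩ := hsmall P hP
    rw [virt_iff, virt_iff]
    by_cases hd : (a • x ∈ V ↔ a • x ∈ V₁)
    · right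
      refine finite_of_ne hV hinv hV₂ hinv₂ inf_le_left inf_le_right ?_
      tauto
    · left
      exact finite_of_ne hV hinv hV₁ hinv₁ inf_le_left inf_le_right hd
  · right
    obtain ⟨A₁, B₁, hA₁, hB₁, iA, iB, χ, χ', hχ, hχ', heq, hell, hell', hbA, hbB⟩ :=
      fibre hU (tws_finite I) (tws_finite (far I)) hcomm hbad hB
    refine ⟨A₁, B₁, hA₁, hB₁, iA, iB, χ, χ', hχ, hχ', ?_, ?_, ?_, ?_⟩
    · intro a b
      rw [heq a b, MulAction.mem_stabilizer_iff, mul_smul, inv_smul_eq_iff, eq_comm]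
    · intro a ha
      exact hell a (ell_twPow hg hU ha)
    · intro b hb
      exact hell' b (ell_twPow hg hU hb)
    · rintro P hP (⟨a, ha, hca⟩ | ⟨b, hb, hcb⟩)
      · exact virt_iff.mpr (finite_of_comm hU (hsmall P hP) hca (hbA a ha))
      · exact virt_iff.mpr (finite_of_comm hU (hsmall P hP) hcb (hbB b hb))

/-- The structure theorem for subgroups with at least two relative ends. -/
theorem large (hg : 3 ≤ g) {S : Set (Mod g)} (hS : Subgroup.closure S = ⊤)
    {H : Subgroup (Mod g)} (h : 2 ≤ relEnds S H) :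
    ∃ (p : ZMod (2 * g)) (n : ℕ) (γ : Mod g),
      1 ≤ n ∧ n ≤ 2 * g - 1 ∧ (n = 1 → p.val % 2 = 0) ∧ 2 ≤ endsIn (cj γ H) (arc g p n) ∧
      (Product n (cj γ H) (arc g p n) ∨
        Fibre n (cj γ H) (grp g (arc g p n)) (grp g (far (arc g p n)))) := by
  obtain ⟨U, hU, hU1, hU2⟩ := exists_AInv hS h
  obtain ⟨p, n, x, h1, h2, h3, h4, h5⟩ := large_act hg hU hU1 hU2
  induction x using QuotientGroup.induction_on with
  | H γ =>
  have e : ∀ a : Mod g, MulAction.stabilizer (Mod g) (a • ((γ : Mod g) : Mod g ⧸ H)) =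
      cj a (cj γ H) := fun a => (stab_eq H (a * γ)).trans (cj_mul a γ H).symm
  refine ⟨p, n, γ, h1, h2, h3, ?_, ?_⟩
  · unfold endsIn
    rw [← stab_eq]
    exact h4
  · unfold Product
    simp only [← e]
    rw [← stab_eq]
    exact h5

end Pool.Agent.H.MP_ee9c6f_al
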