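import Pool.Agent.H.MP_ee9c6f_al.Mcg
import Pool.Agent.H.MP_ee9c6f_al.Garside

/-!
MP_ee9c6f_al (helper22). The relations between the Dehn twists in the mapping class group.
-/

set_option autoImplicit false

namespace Pool.Agent.H.MP_ee9c6f_al

variable {g : ℕ}

/-- The twist as an element of `GA`. -/
def T (g p q : ℕ) : GA g := ⟨tw g p q, tw_mem p q⟩

/-- The twist `bt j` as an element of `GA`. -/
def Bg (j : Fin g) : GA g := ⟨bt j, bt_mem j⟩

theorem rho_T (p q : ℕ) : rho g (T g p q) = twist g p q := rfl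

theorem rho_Bg (j : Fin g) : rho g (Bg j) = twA j := rfl

theorem T_comm {p q p' q' : ℕ} (hpq : p ≤ q) (hpq' : p' ≤ q') (h : Lam (p, q) (p', q')) :
    Commute (T g p q) (T g p' q') := Subtype.ext (tw_comm hpq hpq' h)

theorem T_Bg_comm {p q : ℕ} (j : Fin g)
    (h : (p ≤ 2 * j ∧ 2 * (j : ℕ) + 2 ≤ q) ∨ 2 * (j : ℕ) + 2 ≤ p ∨ q ≤ 2 * j) :
    Commute (T g p q) (Bg j) := Subtype.ext (bt_tw_comm j h)

theorem bt_bt_comm (i j : Fin g) : Commute (bt i) (bt j) := by
  apply aut_ext
  · intro k
    simp only [MulAut.mul_apply, bt_apply, btHom_A]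
  · intro k
    simp only [MulAut.mul_apply, bt_apply, btHom_B]
    by_cases h1 : k = j
    · by_cases h2 : k = i
      · rw [if_pos h1, if_pos h2, map_mul, map_mul, map_inv, map_inv, btHom_A, btHom_A, btHom_B,
          btHom_B, if_pos h1, if_pos h2]
      · rw [if_pos h1, if_neg h2, map_mul, map_inv, btHom_A, btHom_B, btHom_B, if_neg h2,
          if_pos h1]
    · by_cases h2 : k = i
      · rw [if_neg h1, if_pos h2, map_mul, map_inv, btHom_A, btHom_B, btHom_B, if_neg h1,
          if_pos h2]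
      · rw [if_neg h1, if_neg h2, btHom_B, btHom_B, if_neg h1, if_neg h2]

theorem Bg_comm (i j : Fin g) : Commute (Bg i) (Bg j) := Subtype.ext (bt_bt_comm i j)

theorem T_braid_end {p : ℕ} (j : Fin g) (h : p ≤ 2 * j) :
    T g p (2 * j + 1) * Bg j * T g p (2 * j + 1) = Bg j * T g p (2 * j + 1) * Bg j :=
  Subtype.ext (tw_braid_end j h)

theorem T_braid_start {q : ℕ} (j : Fin g) (h : 2 * (j : ℕ) + 2 ≤ q) :
    T g (2 * j + 1) q * Bg j * T g (2 * j + 1) q = Bg j * T g (2 * j + 1) q * Bg j :=
  Subtype.ext (tw_braid_start j h)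

theorem T_single (m : Fin g) : T g (2 * m) (2 * m + 1) = T g (2 * m + 1) (2 * m + 2) :=
  Subtype.ext (tw_single m)

theorem T_of_le {p q : ℕ} (h : q ≤ p) : T g p q = 1 := Subtype.ext (tw_of_le h)

/-- The fourth curve in the lantern. -/
def Ac (g p m n q : ℕ) : GA g :=
  T g p q * T g p m * T g m n * T g n q * (T g p n)⁻¹ * (T g m q)⁻¹

theorem Ac_val (p m n q : ℕ) : (Ac g p m n q : MulAut (Fr g)) = ac g p m n q := rfl

theorem Ac_braid_end {p m n : ℕ} (j : Fin g) (h1 : p ≤ m) (h2 : m ≤ n) (h3 : n ≤ 2 * j) :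
    Ac g p m n (2 * j + 1) * Bg j * Ac g p m n (2 * j + 1) =
      Bg j * Ac g p m n (2 * j + 1) * Bg j :=
  Subtype.ext (ac_braid_end j h1 h2 h3)

theorem T_lantern (p m n q : ℕ) :
    T g p q * T g p m * T g m n * T g n q = Ac g p m n q * T g m q * T g p n := by
  unfold Ac
  group

theorem T_star (m : Fin g) {p q : ℕ} (hp : p ≤ 2 * m) (hq : 2 * (m : ℕ) + 2 ≤ q) :
    (T g p (2 * m + 1) * T g (2 * m + 1) (2 * m + 2) * T g (2 * m + 1) q * Bg m) ^ 3 =
      T g p (2 * m) * T g (2 * m + 2) q * T g p q :=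
  Subtype.ext (star m hp hq)

theorem T_garside (m : Fin g) {p q : ℕ} (hp : p ≤ 2 * m) (hq : 2 * (m : ℕ) + 2 ≤ q) :
    T g (2 * m + 1) (2 * m + 2) * Bg m * T g (2 * m + 1) q * T g (2 * m + 1) (2 * m + 2) *
        Bg m * T g (2 * m + 1) (2 * m + 2) * T g p (2 * m + 1) =
      Ac g p (2 * m) (2 * m + 1) q * (T g (2 * m + 1) (2 * m + 2) * Bg m * T g (2 * m + 1) q *
        T g (2 * m + 1) (2 * m + 2) * Bg m * T g (2 * m + 1) (2 * m + 2)) :=
  Subtype.ext (garside m hp hq)

/-! ### The same relations in the mapping class group -/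

theorem twist_comm {p q p' q' : ℕ} (hpq : p ≤ q) (hpq' : p' ≤ q') (h : Lam (p, q) (p', q')) :
    Commute (twist g p q) (twist g p' q') := (T_comm hpq hpq' h).map (rho g)

theorem twist_twA_comm {p q : ℕ} (j : Fin g)
    (h : (p ≤ 2 * j ∧ 2 * (j : ℕ) + 2 ≤ q) ∨ 2 * (j : ℕ) + 2 ≤ p ∨ q ≤ 2 * j) :
    Commute (twist g p q) (twA j) := (T_Bg_comm j h).map (rho g)

theorem twA_comm (i j : Fin g) : Commute (twA i) (twA j) := (Bg_comm i j).map (rho g)

theorem twist_braid_end {p : ℕ} (j : Fin g) (h : p ≤ 2 * j) :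
    twist g p (2 * j + 1) * twA j * twist g p (2 * j + 1) =
      twA j * twist g p (2 * j + 1) * twA j := by
  have := congrArg (rho g) (T_braid_end j h)
  simpa only [map_mul, rho_T, rho_Bg] using this

theorem twist_braid_start {q : ℕ} (j : Fin g) (h : 2 * (j : ℕ) + 2 ≤ q) :
    twist g (2 * j + 1) q * twA j * twist g (2 * j + 1) q =
      twA j * twist g (2 * j + 1) q * twA j := by
  have := congrArg (rho g) (T_braid_start j h)
  simpa only [map_mul, rho_T, rho_Bg] using this

theorem twist_single (m : Fin g) : twist g (2 * m) (2 * m + 1) = twist g (2 * m + 1) (2 * m + 2) :=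
  congrArg (rho g) (T_single m)

/-- The fourth curve in the lantern. -/
def twAc (g p m n q : ℕ) : Mod g := rho g (Ac g p m n q)

theorem rho_Ac (p m n q : ℕ) : rho g (Ac g p m n q) = twAc g p m n q := rfl

theorem twAc_braid_end {p m n : ℕ} (j : Fin g) (h1 : p ≤ m) (h2 : m ≤ n) (h3 : n ≤ 2 * j) :
    twAc g p m n (2 * j + 1) * twA j * twAc g p m n (2 * j + 1) =
      twA j * twAc g p m n (2 * j + 1) * twA j := by
  have := congrArg (rho g) (Ac_braid_end j h1 h2 h3)
  simpa only [map_mul, rho_Bg, rho_Ac] using this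

theorem twist_lantern (p m n q : ℕ) :
    twist g p q * twist g p m * twist g m n * twist g n q =
      twAc g p m n q * twist g m q * twist g p n := by
  have := congrArg (rho g) (T_lantern (g := g) p m n q)
  simpa only [map_mul, rho_T, rho_Ac] using this

theorem twist_star (m : Fin g) {p q : ℕ} (hp : p ≤ 2 * m) (hq : 2 * (m : ℕ) + 2 ≤ q) :
    (twist g p (2 * m + 1) * twist g (2 * m + 1) (2 * m + 2) * twist g (2 * m + 1) q *
      twA m) ^ 3 = twist g p (2 * m) * twist g (2 * m + 2) q * twist g p q := by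
  have := congrArg (rho g) (T_star m hp hq)
  simpa only [map_mul, map_pow, rho_T, rho_Bg] using this

theorem twist_garside (m : Fin g) {p q : ℕ} (hp : p ≤ 2 * m) (hq : 2 * (m : ℕ) + 2 ≤ q) :
    twist g (2 * m + 1) (2 * m + 2) * twA m * twist g (2 * m + 1) q *
        twist g (2 * m + 1) (2 * m + 2) * twA m * twist g (2 * m + 1) (2 * m + 2) *
        twist g p (2 * m + 1) =
      twAc g p (2 * m) (2 * m + 1) q * (twist g (2 * m + 1) (2 * m + 2) * twA m *
        twist g (2 * m + 1) q * twist g (2 * m + 1) (2 * m + 2) * twA m *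
        twist g (2 * m + 1) (2 * m + 2)) := by
  have := congrArg (rho g) (T_garside m hp hq)
  simpa only [map_mul, rho_T, rho_Bg, rho_Ac] using this

/-! ### Abstract consequences of the braid relations -/

section Abstract

variable {G : Type*} [Group G]

/-- In a chain `x, y, z` the element `x y z x y x` exchanges `x` and `z` and commutes with `y`. -/
theorem chain_swap {x y z : G} (h1 : x * y * x = y * x * y) (h2 : y * z * y = z * y * z)
    (h3 : x * z = z * x) :
    (x * y * z * x * y * x) * x = z * (x * y * z * x * y * x) ∧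
      (x * y * z * x * y * x) * y = y * (x * y * z * x * y * x) ∧
      (x * y * z * x * y * x) * z = x * (x * y * z * x * y * x) := by
  refine ⟨?_, ?_, ?_⟩
  · have e : z * (x * y * z * x * y * x) = x * (z * y * z) * x * y * x := by
      calc z * (x * y * z * x * y * x) = (z * x) * y * z * x * y * x := by group
        _ = (x * z) * y * z * x * y * x := by rw [h3]
        _ = _ := by group
    rw [e, ← h2]
    calc (x * y * z * x * y * x) * x = x * y * z * (x * y * x) * x := by group
      _ = x * y * z * (y * x * y) * x := by rw [h1]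
      _ = _ := by group
  · calc (x * y * z * x * y * x) * y = x * y * z * x * (y * x * y) := by group
      _ = x * y * z * x * (x * y * x) := by rw [h1]
      _ = x * y * (z * x) * x * y * x := by group
      _ = x * y * (x * z) * x * y * x := by rw [h3]
      _ = (x * y * x) * (z * x) * y * x := by group
      _ = (y * x * y) * (z * x) * y * x := by rw [h1]
      _ = _ := by group
  · calc (x * y * z * x * y * x) * z = x * y * z * x * y * (x * z) := by group
      _ = x * y * z * x * y * (z * x) := by rw [h3]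
      _ = x * y * (z * x) * y * z * x := by group
      _ = x * y * (x * z) * y * z * x := by rw [h3]
      _ = x * y * x * (z * y * z) * x := by group
      _ = x * y * x * (y * z * y) * x := by rw [h2]
      _ = x * (y * x * y) * z * y * x := by group
      _ = x * (x * y * x) * z * y * x := by rw [h1]
      _ = x * (x * y * (x * z) * y * x) := by group
      _ = x * (x * y * (z * x) * y * x) := by rw [h3]
      _ = _ := by group

/-- If `b` and `c` commute and both satisfy the braid relation with `a`, then `a` commutes with its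
conjugate by `c b⁻¹`. -/
theorem comm_of_braid {a b c : G} (h1 : a * b * a = b * a * b) (h2 : a * c * a = c * a * c)
    (h3 : b * c = c * b) : Commute a (c * b⁻¹ * a * b * c⁻¹) := by
  have e1 : b⁻¹ * a * b = a * b * a⁻¹ := by
    rw [eq_mul_inv_iff_mul_eq, mul_assoc, mul_assoc, inv_mul_eq_iff_eq_mul, ← mul_assoc,
      ← mul_assoc]
    exact h1
  have e2 : c * a * c⁻¹ = a⁻¹ * c * a := by
    rw [mul_inv_eq_iff_eq_mul, mul_assoc, mul_assoc, eq_inv_mul_iff_mul_eq, ← mul_assoc,
      ← mul_assoc]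
    exact h2
  have e3 : c * b⁻¹ * a * b * c⁻¹ = a⁻¹ * (c * b⁻¹ * a * b * c⁻¹) * a := by
    have e4 : c * b⁻¹ * a * b * c⁻¹ = c * (a * b * a⁻¹) * c⁻¹ := by
      rw [← e1]; group
    have e5 : c * b * c⁻¹ = b := by rw [← h3]; group
    calc c * b⁻¹ * a * b * c⁻¹ = (c * a * c⁻¹) * (c * b * c⁻¹) * (c * a * c⁻¹)⁻¹ := by
          rw [e4]; group
      _ = (a⁻¹ * c * a) * b * (a⁻¹ * c * a)⁻¹ := by rw [e2, e5]
      _ = a⁻¹ * (c * (a * b * a⁻¹) * c⁻¹) * a := by group
      _ = _ := by rw [← e4]
  change a * (c * b⁻¹ * a * b * c⁻¹) = c * b⁻¹ * a * b * c⁻¹ * a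
  conv_lhs => rw [e3]
  group

end Abstract

end Pool.Agent.H.MP_ee9c6f_al
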