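import Pool.Agent.H.MP_ee9c6f_al.Star

/-!
MP_ee9c6f_al (helper22). The twist about every interval of feet lies in the group generated by
Lickorish's twists; the elements `twist g p q` and `twA j` of the mapping class group and their
relations.
-/

set_option autoImplicit false

namespace Pool.Agent.H.MP_ee9c6f_al

variable {g : ℕ}

/-! ### The subgroup of the automorphism group of the free group -/

/-- Lickorish's twists, as automorphisms of the free group. -/
def gens (g : ℕ) : Set (MulAut (Fr g)) :=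
  {φ | ∃ j : Fin g, φ = bt j ∨ φ = tw g (2 * j + 1) (2 * j + 2) ∨
    ((j : ℕ) + 1 < g ∧ φ = tw g (2 * j + 1) (2 * j + 3))}

/-- The group generated by Lickorish's twists in the automorphism group of the free group. -/
def GA (g : ℕ) : Subgroup (MulAut (Fr g)) := Subgroup.closure (gens g)

theorem bt_mem (j : Fin g) : bt j ∈ GA g := Subgroup.subset_closure ⟨j, Or.inl rfl⟩

theorem b_mem (j : Fin g) : tw g (2 * j + 1) (2 * j + 2) ∈ GA g :=
  Subgroup.subset_closure ⟨j, Or.inr (Or.inl rfl)⟩

theorem c_mem (j : Fin g) (h : (j : ℕ) + 1 < g) : tw g (2 * j + 1) (2 * j + 3) ∈ GA g :=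
  Subgroup.subset_closure ⟨j, Or.inr (Or.inr ⟨h, rfl⟩)⟩

theorem tw_of_le {p q : ℕ} (h : q ≤ p) : tw g p q = 1 := by
  have h1 : IsFc (1 : MulAut (Fr g)) (fun _ => 1) := by
    intro x
    rw [fc_one]
    rfl
  exact (isFc_tw p q).eq h1 (fun r _ => cut_out (by omega))

theorem tw_top (p : ℕ) {q : ℕ} (h : 2 * g ≤ q) : tw g p q = tw g p (2 * g) := by
  rcases le_total p (2 * g) with hp | hp
  · refine (isFc_tw p q).eq (isFc_tw p (2 * g)) (fun r hr => ?_)
    by_cases h' : p ≤ r
    · rw [cut_in h' (by omega), cut_in h' hr, word_split hp h, word_top le_rfl, mul_one]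
    · rw [cut_out (by omega), cut_out (by omega)]
  · rw [tw_of_le hp]
    have h1 : IsFc (1 : MulAut (Fr g)) (fun _ => 1) := by
      intro x
      rw [fc_one]
      rfl
    exact (isFc_tw p q).eq h1 (fun r _ => cut_out (by omega))

theorem tw_single (m : Fin g) : tw g (2 * m) (2 * m + 1) = tw g (2 * m + 1) (2 * m + 2) := by
  apply aut_ext
  · intro i
    rw [(isFc_tw _ _).A, (isFc_tw _ _).A]
    by_cases hi : i = m
    · subst hi
      rw [cut_in le_rfl (by omega), cut_out (by omega), cut_out (by omega),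
        cut_in (by omega) (by omega), foot_eq_word_even, foot_eq_word_odd]
      group
    · have hi' : (i : ℕ) ≠ m := fun h => hi (Fin.ext h)
      rw [cut_out (by omega), cut_out (by omega), cut_out (by omega), cut_out (by omega)]
  · intro i
    rw [(isFc_tw _ _).B, (isFc_tw _ _).B]
    by_cases hi : i = m
    · subst hi
      rw [cut_out (by omega), cut_in (by omega) (by omega), foot_eq_word_odd]
      group
    · have hi' : (i : ℕ) ≠ m := fun h => hi (Fin.ext h)
      rw [cut_out (by omega), cut_out (by omega)]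

theorem tw_mem_aux : ∀ (n p q : ℕ), q - p ≤ n → q ≤ 2 * g → tw g p q ∈ GA g := by
  intro n
  induction n with
  | zero =>
    intro p q h _
    rw [tw_of_le (by omega)]
    exact one_mem _
  | succ n ih =>
    intro p q h hq
    by_cases h0 : q ≤ p
    · rw [tw_of_le h0]
      exact one_mem _
    rcases Nat.even_or_odd' p with ⟨i, hi | hi⟩
    · -- `p = 2i`
      have hig : i < g := by omega
      by_cases h1 : q = 2 * i + 1
      · rw [h1, hi]
        have := tw_single (⟨i, hig⟩ : Fin g)
        simp only at this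
        rw [this]
        exact b_mem ⟨i, hig⟩
      · have hs := star (⟨i, hig⟩ : Fin g) (p := 2 * i) (q := q) le_rfl (by simp only; omega)
        simp only at hs
        rw [tw_of_le (le_refl (2 * i)), one_mul] at hs
        have m1 : tw g (2 * i) (2 * i + 1) ∈ GA g := by
          have := tw_single (⟨i, hig⟩ : Fin g)
          simp only at this
          rw [this]
          exact b_mem ⟨i, hig⟩
        have m2 : tw g (2 * i + 1) (2 * i + 2) ∈ GA g := b_mem ⟨i, hig⟩
        have m3 : tw g (2 * i + 1) q ∈ GA g := ih _ _ (by omega) hq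
        have m4 : tw g (2 * i + 2) q ∈ GA g := ih _ _ (by omega) hq
        have m5 := (GA g).pow_mem
          ((GA g).mul_mem ((GA g).mul_mem ((GA g).mul_mem m1 m2) m3) (bt_mem ⟨i, hig⟩)) 3
        rw [hs] at m5
        rw [hi]
        exact ((GA g).mul_mem_cancel_left m4).mp m5
    · -- `p = 2i + 1`
      rcases Nat.even_or_odd' q with ⟨m, hm | hm⟩
      · -- `q = 2m`
        by_cases h1 : m = i + 1
        · rw [hi, hm, h1, show 2 * (i + 1) = 2 * i + 2 by ring]
          exact b_mem ⟨i, by omega⟩
        · obtain ⟨k, rfl⟩ : ∃ k, m = k + 1 := ⟨m - 1, by omega⟩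
          have hkg : k < g := by omega
          have hs := star (⟨k, hkg⟩ : Fin g) (p := p) (q := 2 * k + 2) (by simp only; omega)
            le_rfl
          simp only at hs
          rw [tw_of_le (le_refl (2 * k + 2)), mul_one] at hs
          have m1 : tw g p (2 * k + 1) ∈ GA g := ih _ _ (by omega) (by omega)
          have m2 : tw g (2 * k + 1) (2 * k + 2) ∈ GA g := b_mem ⟨k, hkg⟩
          have m3 : tw g p (2 * k) ∈ GA g := ih _ _ (by omega) (by omega)
          have m5 := (GA g).pow_mem
            ((GA g).mul_mem ((GA g).mul_mem ((GA g).mul_mem m1 m2) m2) (bt_mem ⟨k, hkg⟩)) 3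
          rw [hs] at m5
          rw [hm, show 2 * (k + 1) = 2 * k + 2 by ring]
          exact ((GA g).mul_mem_cancel_left m3).mp m5
      · -- `q = 2m + 1`
        by_cases h1 : m = i + 1
        · rw [hi, hm, h1, show 2 * (i + 1) + 1 = 2 * i + 3 by ring]
          exact c_mem ⟨i, by omega⟩ (by simp only; omega)
        · obtain ⟨k, rfl⟩ : ∃ k, m = k + 1 := ⟨m - 1, by omega⟩
          have hkg : k < g := by omega
          have hs := star (⟨k, hkg⟩ : Fin g) (p := p) (q := 2 * k + 3) (by simp only; omega)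
            (by simp only; omega)
          simp only at hs
          have m1 : tw g p (2 * k + 1) ∈ GA g := ih _ _ (by omega) (by omega)
          have m2 : tw g (2 * k + 1) (2 * k + 2) ∈ GA g := b_mem ⟨k, hkg⟩
          have m3 : tw g (2 * k + 1) (2 * k + 3) ∈ GA g := c_mem ⟨k, hkg⟩ (by simp only; omega)
          have m4 : tw g p (2 * k) ∈ GA g := ih _ _ (by omega) (by omega)
          have m6 : tw g (2 * k + 2) (2 * k + 3) ∈ GA g := ih _ _ (by omega) (by omega)
          have m5 := (GA g).pow_mem
            ((GA g).mul_mem ((GA g).mul_mem ((GA g).mul_mem m1 m2) m3) (bt_mem ⟨k, hkg⟩)) 3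
          rw [hs] at m5
          rw [hm, show 2 * (k + 1) + 1 = 2 * k + 3 by ring]
          exact ((GA g).mul_mem_cancel_left ((GA g).mul_mem m4 m6)).mp m5

theorem tw_mem (p q : ℕ) : tw g p q ∈ GA g := by
  rcases le_total q (2 * g) with h | h
  · exact tw_mem_aux _ p q le_rfl h
  · rw [tw_top p h]
    exact tw_mem_aux _ p _ le_rfl le_rfl

theorem GA_le : GA g ≤ Stab g := by
  rw [GA, Subgroup.closure_le]
  rintro φ ⟨j, rfl | rfl | ⟨-, rfl⟩⟩
  · exact bt_surfRel j
  · exact tw_surfRel _ _ _
  · exact tw_surfRel _ _ _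

/-! ### The map to the mapping class group -/

/-- The map to `Out (π₁)`. -/
def toOut (g : ℕ) : GA g →* Out (Surf g) := (out g).comp (Subgroup.inclusion GA_le)

theorem toOut_bt (j : Fin g) (h : bt j ∈ GA g) : toOut g ⟨bt j, h⟩ = Bt j := rfl

theorem toOut_tw (p q : ℕ) (h : tw g p q ∈ GA g) : toOut g ⟨tw g p q, h⟩ = Tw g p q := rfl

theorem toOut_mem (x : GA g) : toOut g x ∈ Mod g := by
  have h : Subgroup.closure ((Subtype.val : GA g → MulAut (Fr g)) ⁻¹' gens g) ≤
      (Mod g).comap (toOut g) := by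
    rw [Subgroup.closure_le]
    rintro ⟨x, hx⟩ hx'
    change x ∈ gens g at hx'
    change toOut g ⟨x, hx⟩ ∈ Mod g
    obtain ⟨j, h | h | ⟨h', h⟩⟩ := hx'
    · subst h
      rw [toOut_bt]
      exact Subgroup.subset_closure ⟨j, Or.inl rfl⟩
    · subst h
      rw [toOut_tw]
      exact Subgroup.subset_closure ⟨j, Or.inr (Or.inl rfl)⟩
    · subst h
      rw [toOut_tw]
      exact Subgroup.subset_closure ⟨j, Or.inr (Or.inr ⟨h', rfl⟩)⟩
  have h2 := Subgroup.closure_closure_coe_preimage (k := gens g)
  have h3 : (⊤ : Subgroup (GA g)) ≤ (Mod g).comap (toOut g) := h2 ▸ h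
  exact h3 (Subgroup.mem_top x)

/-- The map to the mapping class group. -/
def rho (g : ℕ) : GA g →* Mod g := (toOut g).codRestrict (Mod g) toOut_mem

theorem Tw_mem (p q : ℕ) : Tw g p q ∈ Mod g := toOut_mem ⟨tw g p q, tw_mem p q⟩

theorem Bt_mem (j : Fin g) : Bt j ∈ Mod g := toOut_mem ⟨bt j, bt_mem j⟩

/-- The Dehn twist about the curve around the feet `p, …, q - 1`. -/
def twist (g p q : ℕ) : Mod g := ⟨Tw g p q, Tw_mem p q⟩

/-- The Dehn twist about the curve `a_j`. -/
def twA {g : ℕ} (j : Fin g) : Mod g := ⟨Bt j, Bt_mem j⟩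

end Pool.Agent.H.MP_ee9c6f_al
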