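import Pool.Agent.H.MP_ee9c6f_al.Defs

/-!
MP_ee9c6f_al (helper22). Relations between the twists in the automorphism group of the free group:
commutation, braid relation, lantern relation, chain relation.
-/

set_option autoImplicit false

namespace Pool.Agent.H.MP_ee9c6f_al

variable {g : ℕ}

theorem aut_ext {φ ψ : MulAut (Fr g)} (hA : ∀ i, φ (A i) = ψ (A i))
    (hB : ∀ i, φ (B i) = ψ (B i)) : φ = ψ := by
  have h : (φ : Fr g →* Fr g) = (ψ : Fr g →* Fr g) := hom_ext hA hB
  ext x
  exact DFunLike.congr_fun h x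

/-- `φ` acts as `fc c`. -/
def IsFc (φ : MulAut (Fr g)) (c : ℕ → Fr g) : Prop := ∀ x, φ x = fc c x

theorem isFc_tw (p q : ℕ) : IsFc (tw g p q) (cut g p q) := fun _ => rfl

theorem IsFc.mul {φ ψ : MulAut (Fr g)} {c d : ℕ → Fr g} (h1 : IsFc φ c) (h2 : IsFc ψ d) :
    IsFc (φ * ψ) (fun r => φ (d r) * c r) := by
  intro x
  rw [MulAut.mul_apply, h1, h2, ← MonoidHom.comp_apply, fc_comp]
  congr 2
  funext r
  rw [h1]

theorem IsFc.eq {φ ψ : MulAut (Fr g)} {c d : ℕ → Fr g} (h1 : IsFc φ c) (h2 : IsFc ψ d)
    (h : ∀ r < 2 * g, c r = d r) : φ = ψ := by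
  ext x
  rw [h1, h2, fc_congr h]

theorem IsFc.A {φ : MulAut (Fr g)} {c : ℕ → Fr g} (h : IsFc φ c) (i : Fin g) :
    φ (A i) = c (2 * i) * A i * (c (2 * i + 1))⁻¹ := by rw [h, fc_A]

theorem IsFc.B {φ : MulAut (Fr g)} {c : ℕ → Fr g} (h : IsFc φ c) (i : Fin g) :
    φ (B i) = c (2 * i + 1) * B i * (c (2 * i + 1))⁻¹ := by rw [h, fc_B]

theorem tw_word_in {p q p' q' : ℕ} (h1 : p ≤ p') (h2 : q' ≤ q) :
    tw g p q (word g p' q') = word g p q * word g p' q' * (word g p q)⁻¹ := by
  rw [tw_apply, fc_word _ (word g p q) p' q' (fun r h3 h4 => cut_in (by omega) (by omega))]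

theorem tw_word_out {p q p' q' : ℕ} (h : q' ≤ p ∨ q ≤ p') :
    tw g p q (word g p' q') = word g p' q' := by
  rw [tw_apply, fc_word _ 1 p' q' (fun r h3 h4 => cut_out (by omega))]
  simp

theorem tw_word_sup {p q p' q' : ℕ} (h1 : p' ≤ p) (h2 : p ≤ q) (h3 : q ≤ q') :
    tw g p q (word g p' q') = word g p' q' := by
  rw [word_split h1 (h2.trans h3), word_split h2 h3, map_mul, map_mul,
    tw_word_out (Or.inl le_rfl), tw_word_out (Or.inr le_rfl), tw_apply, fc_cut_word]

theorem tw_comm_nested {p q p' q' : ℕ} (h1 : p ≤ p') (h2 : p' ≤ q') (h3 : q' ≤ q) :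
    tw g p q * tw g p' q' = tw g p' q' * tw g p q := by
  refine ((isFc_tw p q).mul (isFc_tw p' q')).eq ((isFc_tw p' q').mul (isFc_tw p q)) ?_
  intro r _
  by_cases hr : p' ≤ r ∧ r < q'
  · rw [cut_in hr.1 hr.2, cut_in (by omega : p ≤ r) (by omega), tw_word_in h1 h3,
      tw_word_sup h1 h2 h3]
    group
  · rw [cut_out hr, map_one, one_mul, mul_one]
    by_cases hr' : p ≤ r ∧ r < q
    · rw [cut_in hr'.1 hr'.2, tw_word_sup h1 h2 h3]
    · rw [cut_out hr', map_one]

theorem tw_comm_disj {p q p' q' : ℕ} (h : q ≤ p') :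
    tw g p q * tw g p' q' = tw g p' q' * tw g p q := by
  refine ((isFc_tw p q).mul (isFc_tw p' q')).eq ((isFc_tw p' q').mul (isFc_tw p q)) ?_
  intro r _
  by_cases hr : p' ≤ r ∧ r < q'
  · rw [cut_in hr.1 hr.2, cut_out (by omega : ¬ (p ≤ r ∧ r < q)), tw_word_out (Or.inr h)]
    simp
  · rw [cut_out hr, map_one, one_mul, mul_one]
    by_cases hr' : p ≤ r ∧ r < q
    · rw [cut_in hr'.1 hr'.2, tw_word_out (Or.inl h)]
    · rw [cut_out hr', map_one]

theorem tw_comm {p q p' q' : ℕ} (hpq : p ≤ q) (hpq' : p' ≤ q') (h : Lam (p, q) (p', q')) :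
    Commute (tw g p q) (tw g p' q') := by
  rcases h with h | h | h | h
  · exact tw_comm_disj h
  · exact (tw_comm_disj h).symm
  · exact tw_comm_nested h.1 hpq' h.2
  · exact (tw_comm_nested h.1 hpq h.2).symm

/-! ### Commutation with `bt` -/

theorem bt_comm_of_fc {φ : MulAut (Fr g)} {c : ℕ → Fr g} (hφ : IsFc φ c) (j : Fin g)
    (h : c (2 * j) = c (2 * j + 1)) (hc : ∀ r < 2 * g, bt j (c r) = c r) :
    Commute φ (bt j) := by
  apply aut_ext
  · intro i
    rw [MulAut.mul_apply, MulAut.mul_apply, bt_apply j (A i), btHom_A, hφ.A, map_mul, map_mul,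
      map_inv, hc _ (by have := i.2; omega), hc _ (by have := i.2; omega), bt_apply, btHom_A]
  · intro i
    rw [MulAut.mul_apply, MulAut.mul_apply, bt_apply j (B i), btHom_B]
    split_ifs with hij
    · subst hij
      rw [map_mul, map_inv, hφ.A, hφ.B, map_mul, map_mul, map_inv,
        hc _ (by have := i.2; omega), bt_apply, btHom_B, if_pos rfl, h]
      group
    · rw [hφ.B, map_mul, map_mul, map_inv, hc _ (by have := i.2; omega), bt_apply, btHom_B,
        if_neg hij]

theorem bt_tw_comm {p q : ℕ} (j : Fin g)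
    (h : (p ≤ 2 * j ∧ 2 * (j : ℕ) + 2 ≤ q) ∨ 2 * (j : ℕ) + 2 ≤ p ∨ q ≤ 2 * j) :
    Commute (tw g p q) (bt j) := by
  have hw : btHom j (word g p q) = word g p q := by
    rcases h with h | h | h
    · exact bt_word_in j p q h.1 h.2
    · exact bt_word_out j p q fun r _ _ => by omega
    · exact bt_word_out j p q fun r _ _ => by omega
  apply bt_comm_of_fc (isFc_tw p q) j
  · rcases h with h | h | h
    · rw [cut_in (by omega) (by omega), cut_in (by omega) (by omega)]
    · rw [cut_out (by omega), cut_out (by omega)]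
    · rw [cut_out (by omega), cut_out (by omega)]
  · intro r _
    by_cases hr : p ≤ r ∧ r < q
    · rw [cut_in hr.1 hr.2]
      exact hw
    · rw [cut_out hr, map_one]

/-! ### The braid relation -/

theorem braid_end {φ : MulAut (Fr g)} {c : ℕ → Fr g} (hφ : IsFc φ c) (j : Fin g) (v : Fr g)
    (h0 : c (2 * j) = v) (h1 : c (2 * j + 1) = 1) (hv : bt j v = v * (A j)⁻¹) (hφv : φ v = v)
    (hr : ∀ r < 2 * g, r / 2 ≠ j → φ (bt j (c r)) * c r = bt j (c r)) :
    φ * bt j * φ = bt j * φ * bt j := by
  have hAj : φ (A j) = v * A j := by rw [hφ.A, h0, h1]; simp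
  have hBj : φ (B j) = B j := by rw [hφ.B, h1]; simp
  have bA : ∀ i, bt j (A i) = A i := fun i => by rw [bt_apply, btHom_A]
  have bBj : bt j (B j) = B j * (A j)⁻¹ := by rw [bt_apply, btHom_B, if_pos rfl]
  apply aut_ext
  · intro i
    simp only [MulAut.mul_apply, bA]
    by_cases hij : i = j
    · subst hij
      rw [hAj, map_mul, hv, bA]
      simp [hφv]
    · have hij' : (i : ℕ) ≠ j := fun h => hij (Fin.ext h)
      rw [hφ.A]
      simp only [map_mul, map_inv, bA]
      rw [hφ.A]
      have e1 := hr (2 * i) (by have := i.2; omega) (by omega)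
      have e2 := hr (2 * i + 1) (by have := i.2; omega) (by omega)
      have e1' : φ (bt j (c (2 * i))) = bt j (c (2 * i)) * (c (2 * i))⁻¹ :=
        eq_mul_inv_of_mul_eq e1
      have e2' : φ (bt j (c (2 * i + 1))) = bt j (c (2 * i + 1)) * (c (2 * i + 1))⁻¹ :=
        eq_mul_inv_of_mul_eq e2
      rw [e1', e2']
      group
  · intro i
    simp only [MulAut.mul_apply]
    by_cases hij : i = j
    · subst hij
      rw [hBj, bBj, map_mul, map_inv, hBj, hAj, map_mul, map_inv, map_mul, hv, bA, bBj]
      group
    · have hij' : (i : ℕ) ≠ j := fun h => hij (Fin.ext h)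
      have bBi : bt j (B i) = B i := by rw [bt_apply, btHom_B, if_neg hij]
      rw [bBi, hφ.B]
      simp only [map_mul, map_inv, bBi]
      rw [hφ.B]
      have e2 := hr (2 * i + 1) (by have := i.2; omega) (by omega)
      have e2' : φ (bt j (c (2 * i + 1))) = bt j (c (2 * i + 1)) * (c (2 * i + 1))⁻¹ :=
        eq_mul_inv_of_mul_eq e2
      rw [e2']
      group

theorem braid_start {φ : MulAut (Fr g)} {c : ℕ → Fr g} (hφ : IsFc φ c) (j : Fin g) (w : Fr g)
    (h0 : c (2 * j) = 1) (h1 : c (2 * j + 1) = w) (hw : bt j w = A j * w) (hφw : φ w = w)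
    (hr : ∀ r < 2 * g, r / 2 ≠ j → φ (bt j (c r)) * c r = bt j (c r)) :
    φ * bt j * φ = bt j * φ * bt j := by
  have hAj : φ (A j) = A j * w⁻¹ := by rw [hφ.A, h0, h1]; simp
  have hBj : φ (B j) = w * B j * w⁻¹ := by rw [hφ.B, h1]
  have bA : ∀ i, bt j (A i) = A i := fun i => by rw [bt_apply, btHom_A]
  have bBj : bt j (B j) = B j * (A j)⁻¹ := by rw [bt_apply, btHom_B, if_pos rfl]
  apply aut_ext
  · intro i
    simp only [MulAut.mul_apply, bA]
    by_cases hij : i = j
    · subst hij
      rw [hAj, map_mul, map_inv, hw, bA, map_mul, map_inv, map_mul, hAj, hφw]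
      group
    · have hij' : (i : ℕ) ≠ j := fun h => hij (Fin.ext h)
      rw [hφ.A]
      simp only [map_mul, map_inv, bA]
      rw [hφ.A]
      have e1 := hr (2 * i) (by have := i.2; omega) (by omega)
      have e2 := hr (2 * i + 1) (by have := i.2; omega) (by omega)
      have e1' : φ (bt j (c (2 * i))) = bt j (c (2 * i)) * (c (2 * i))⁻¹ :=
        eq_mul_inv_of_mul_eq e1
      have e2' : φ (bt j (c (2 * i + 1))) = bt j (c (2 * i + 1)) * (c (2 * i + 1))⁻¹ :=
        eq_mul_inv_of_mul_eq e2
      rw [e1', e2']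
      group
  · intro i
    simp only [MulAut.mul_apply]
    by_cases hij : i = j
    · subst hij
      rw [hBj, bBj]
      simp only [map_mul, map_inv, hAj, hBj, bBj, hw, hφw, bA]
      group
    · have hij' : (i : ℕ) ≠ j := fun h => hij (Fin.ext h)
      have bBi : bt j (B i) = B i := by rw [bt_apply, btHom_B, if_neg hij]
      rw [bBi, hφ.B]
      simp only [map_mul, map_inv, bBi]
      rw [hφ.B]
      have e2 := hr (2 * i + 1) (by have := i.2; omega) (by omega)
      have e2' : φ (bt j (c (2 * i + 1))) = bt j (c (2 * i + 1)) * (c (2 * i + 1))⁻¹ :=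
        eq_mul_inv_of_mul_eq e2
      rw [e2']
      group

theorem bt_word_end {p : ℕ} (j : Fin g) (h : p ≤ 2 * j) :
    bt j (word g p (2 * j + 1)) = word g p (2 * j + 1) * (A j)⁻¹ := by
  rw [word_succ h, map_mul, bt_apply, bt_apply, bt_word_out j p (2 * j) (fun r _ _ => by omega),
    bt_foot_even]
  group

theorem bt_word_start {q : ℕ} (j : Fin g) (h : 2 * (j : ℕ) + 2 ≤ q) :
    bt j (word g (2 * j + 1) q) = A j * word g (2 * j + 1) q := by
  rw [word_split (by omega : 2 * (j : ℕ) + 1 ≤ 2 * j + 1 + 1) (by omega : _ ≤ q), word_single,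
    map_mul, bt_apply, bt_apply, bt_foot_odd, bt_word_out j _ q (fun r _ _ => by omega)]
  group

/-- The twist about an interval that ends with the foot `2j` satisfies the braid relation with
`bt j`. -/
theorem tw_braid_end {p : ℕ} (j : Fin g) (h : p ≤ 2 * j) :
    tw g p (2 * j + 1) * bt j * tw g p (2 * j + 1) = bt j * tw g p (2 * j + 1) * bt j := by
  have hA : tw g p (2 * j + 1) (A j) = word g p (2 * j + 1) * A j := by
    rw [(isFc_tw p _).A, cut_in h (by omega), cut_out (by omega)]
    simp
  have hw : tw g p (2 * j + 1) (word g p (2 * j + 1)) = word g p (2 * j + 1) := by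
    rw [tw_apply, fc_cut_word]
  refine braid_end (isFc_tw p _) j (word g p (2 * j + 1)) (cut_in h (by omega))
    (cut_out (by omega)) (bt_word_end j h) hw ?_
  intro r _ _
  by_cases hr : p ≤ r ∧ r < 2 * j + 1
  · rw [cut_in hr.1 hr.2, bt_word_end j h, map_mul, map_inv, hw, hA]
    group
  · rw [cut_out hr, map_one, map_one, mul_one]

/-- The twist about an interval that starts with the foot `2j+1` satisfies the braid relation with
`bt j`. -/
theorem tw_braid_start {q : ℕ} (j : Fin g) (h : 2 * (j : ℕ) + 2 ≤ q) :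
    tw g (2 * j + 1) q * bt j * tw g (2 * j + 1) q = bt j * tw g (2 * j + 1) q * bt j := by
  have hA : tw g (2 * j + 1) q (A j) = A j * (word g (2 * j + 1) q)⁻¹ := by
    rw [(isFc_tw _ q).A, cut_in (r := 2 * (j : ℕ) + 1) le_rfl (by omega), cut_out (by omega)]
    simp
  have hw : tw g (2 * j + 1) q (word g (2 * j + 1) q) = word g (2 * j + 1) q := by
    rw [tw_apply, fc_cut_word]
  refine braid_start (isFc_tw _ q) j (word g (2 * j + 1) q) (cut_out (by omega))
    (cut_in le_rfl (by omega)) (bt_word_start j h) hw ?_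
  intro r _ _
  by_cases hr : 2 * (j : ℕ) + 1 ≤ r ∧ r < q
  · rw [cut_in hr.1 hr.2, bt_word_start j h, map_mul, hw, hA]
    group
  · rw [cut_out hr, map_one, map_one, mul_one]

/-! ### The lantern relation -/

/-- The twist about the curve that encloses the feet `p, …, m - 1` and `n, …, q - 1` and passes
around the feet `m, …, n - 1`. -/
def ac (g p m n q : ℕ) : MulAut (Fr g) :=
  tw g p q * tw g p m * tw g m n * tw g n q * (tw g p n)⁻¹ * (tw g m q)⁻¹

theorem lantern (p m n q : ℕ) :
    tw g p q * tw g p m * tw g m n * tw g n q = ac g p m n q * tw g m q * tw g p n := by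
  unfold ac
  group

/-- The conjugating elements of `ac`. -/
def acut (g p m n q r : ℕ) : Fr g :=
  if p ≤ r ∧ r < m then word g p q * (word g m n)⁻¹
  else if n ≤ r ∧ r < q then (word g m n)⁻¹ * word g p q else 1

theorem isFc_ac {p m n q : ℕ} (h1 : p ≤ m) (h2 : m ≤ n) (h3 : n ≤ q) :
    IsFc (ac g p m n q) (acut g p m n q) := by
  have key : (fc (acut g p m n q)).comp ((fc (cut g m q)).comp (fc (cut g p n))) =
      (fc (cut g p q)).comp ((fc (cut g p m)).comp ((fc (cut g m n)).comp (fc (cut g n q)))) := by
    have wA : fc (acut g p m n q) (word g p m) =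
        (word g p q * (word g m n)⁻¹) * word g p m * (word g p q * (word g m n)⁻¹)⁻¹ :=
      fc_word _ _ p m (fun r h4 h5 => by simp [acut, h4, h5])
    have wB : fc (acut g p m n q) (word g m n) = word g m n := by
      rw [fc_word _ 1 m n (fun r h4 h5 => by
        unfold acut
        rw [if_neg (by omega), if_neg (by omega)])]
      simp
    have wC : fc (acut g p m n q) (word g n q) =
        ((word g m n)⁻¹ * word g p q) * word g n q * ((word g m n)⁻¹ * word g p q)⁻¹ :=
      fc_word _ _ n q (fun r h4 h5 => by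
        unfold acut
        rw [if_neg (by omega), if_pos ⟨h4, h5⟩])
    have eF : word g p q = word g p m * word g m n * word g n q := by
      rw [word_split (h1.trans h2) h3, word_split h1 h2]
    have eBC : word g m q = word g m n * word g n q := word_split h2 h3
    have eAB : word g p n = word g p m * word g m n := word_split h1 h2
    -- images under the twist about `m, …, q-1`
    have tA : fc (cut g m q) (word g p m) = word g p m := by
      have := tw_word_out (g := g) (p := m) (q := q) (p' := p) (q' := m) (Or.inl le_rfl)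
      rwa [tw_apply] at this
    have tB : fc (cut g m q) (word g m n) = word g m q * word g m n * (word g m q)⁻¹ := by
      have := tw_word_in (g := g) (p := m) (q := q) (p' := m) (q' := n) le_rfl h3
      rwa [tw_apply] at this
    -- images under the twist about `p, …, q-1`
    have sA : fc (cut g p q) (word g p m) = word g p q * word g p m * (word g p q)⁻¹ := by
      have := tw_word_in (g := g) (p := p) (q := q) (p' := p) (q' := m) le_rfl (h2.trans h3)
      rwa [tw_apply] at this
    have sB : fc (cut g p q) (word g m n) = word g p q * word g m n * (word g p q)⁻¹ := by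
      have := tw_word_in (g := g) (p := p) (q := q) (p' := m) (q' := n) h1 h3
      rwa [tw_apply] at this
    have sC : fc (cut g p q) (word g n q) = word g p q * word g n q * (word g p q)⁻¹ := by
      have := tw_word_in (g := g) (p := p) (q := q) (p' := n) (q' := q) (h1.trans h2) le_rfl
      rwa [tw_apply] at this
    have uB : fc (cut g p m) (word g m n) = word g m n := by
      have := tw_word_out (g := g) (p := p) (q := m) (p' := m) (q' := n) (Or.inr le_rfl)
      rwa [tw_apply] at this
    have uC : fc (cut g p m) (word g n q) = word g n q := by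
      have := tw_word_out (g := g) (p := p) (q := m) (p' := n) (q' := q) (Or.inr h2)
      rwa [tw_apply] at this
    have vC : fc (cut g m n) (word g n q) = word g n q := by
      have := tw_word_out (g := g) (p := m) (q := n) (p' := n) (q' := q) (Or.inr le_rfl)
      rwa [tw_apply] at this
    rw [fc_comp (cut g m q) (cut g p n), fc_comp (acut g p m n q), fc_comp (cut g m n) (cut g n q),
      fc_comp (cut g p m), fc_comp (cut g p q)]
    apply fc_congr
    intro r _
    by_cases a1 : p ≤ r ∧ r < m
    · rw [cut_in (p := p) (q := n) (by omega) (by omega), cut_out (p := m) (q := q) (by omega),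
        cut_in (p := p) (q := q) (by omega) (by omega), cut_in (p := p) (q := m) a1.1 a1.2,
        cut_out (p := m) (q := n) (by omega), cut_out (p := n) (q := q) (by omega)]
      have a3 : acut g p m n q r = word g p q * (word g m n)⁻¹ := by simp [acut, a1]
      rw [a3]
      simp only [map_mul, map_inv, map_one, mul_one, one_mul, eAB, tA, tB, eBC, wA, wB, wC, sA]
      rw [eF]
      group
    · by_cases a2 : m ≤ r ∧ r < n
      · rw [cut_in (p := p) (q := n) (by omega) (by omega), cut_in (p := m) (q := q) (by omega)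
          (by omega), cut_in (p := p) (q := q) (by omega) (by omega), cut_out (p := p) (q := m)
          (by omega), cut_in (p := m) (q := n) a2.1 a2.2, cut_out (p := n) (q := q) (by omega)]
        have a3 : acut g p m n q r = 1 := by
          unfold acut
          rw [if_neg (by omega), if_neg (by omega)]
        rw [a3]
        simp only [map_mul, map_inv, map_one, mul_one, one_mul, eAB, tA, tB, eBC, wA, wB, wC, sB,
          uB]
        rw [eF]
        group
      · by_cases a4 : n ≤ r ∧ r < q
        · rw [cut_out (p := p) (q := n) (by omega), cut_in (p := m) (q := q) (by omega)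
            (by omega), cut_in (p := p) (q := q) (by omega) (by omega), cut_out (p := p) (q := m)
            (by omega), cut_out (p := m) (q := n) (by omega), cut_in (p := n) (q := q) a4.1 a4.2]
          have a3 : acut g p m n q r = (word g m n)⁻¹ * word g p q := by
            unfold acut
            rw [if_neg (by omega), if_pos a4]
          rw [a3]
          simp only [map_mul, map_one, mul_one, one_mul, eBC, wB, wC, sC, uC, vC]
          rw [eF]
          group
        · rw [cut_out (p := p) (q := n) (by omega), cut_out (p := m) (q := q) (by omega),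
            cut_out (p := p) (q := q) (by omega), cut_out (p := p) (q := m)
            (by omega), cut_out (p := m) (q := n) (by omega), cut_out (p := n) (q := q) (by omega)]
          have a3 : acut g p m n q r = 1 := by
            unfold acut
            rw [if_neg (by omega), if_neg (by omega)]
          rw [a3]
          simp
  intro x
  obtain ⟨y, rfl⟩ := (tw g m q * tw g p n).surjective x
  have h := DFunLike.congr_fun key y
  change fc (acut g p m n q) ((tw g m q * tw g p n) y) = _ at h
  rw [h]
  have hl := DFunLike.congr_fun (lantern (g := g) p m n q) y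
  exact hl.symm

theorem ac_word_all {p m n q : ℕ} (h1 : p ≤ m) (h2 : m ≤ n) (h3 : n ≤ q) :
    ac g p m n q (word g p q) = word g p q := by
  have eF : word g p q = word g p m * word g m n * word g n q := by
    rw [word_split (h1.trans h2) h3, word_split h1 h2]
  have wA : fc (acut g p m n q) (word g p m) =
      (word g p q * (word g m n)⁻¹) * word g p m * (word g p q * (word g m n)⁻¹)⁻¹ :=
    fc_word _ _ p m (fun r h4 h5 => by simp [acut, h4, h5])
  have wB : fc (acut g p m n q) (word g m n) = word g m n := by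
    rw [fc_word _ 1 m n (fun r h4 h5 => by
      unfold acut
      rw [if_neg (by omega), if_neg (by omega)])]
    simp
  have wC : fc (acut g p m n q) (word g n q) =
      ((word g m n)⁻¹ * word g p q) * word g n q * ((word g m n)⁻¹ * word g p q)⁻¹ :=
    fc_word _ _ n q (fun r h4 h5 => by
      unfold acut
      rw [if_neg (by omega), if_pos ⟨h4, h5⟩])
  rw [isFc_ac h1 h2 h3]
  conv_lhs => rw [eF]
  rw [map_mul, map_mul, wA, wB, wC, eF]
  group

theorem ac_word_mid {p m n q : ℕ} (h1 : p ≤ m) (h2 : m ≤ n) (h3 : n ≤ q) :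
    ac g p m n q (word g m n) = word g m n := by
  rw [isFc_ac h1 h2 h3, fc_word _ 1 m n (fun r h4 h5 => by
    unfold acut
    rw [if_neg (by omega), if_neg (by omega)])]
  simp

/-- The curve `ac` whose last foot is `2j` satisfies the braid relation with `bt j`. -/
theorem ac_braid_end {p m n : ℕ} (j : Fin g) (h1 : p ≤ m) (h2 : m ≤ n) (h3 : n ≤ 2 * j) :
    ac g p m n (2 * j + 1) * bt j * ac g p m n (2 * j + 1) =
      bt j * ac g p m n (2 * j + 1) * bt j := by
  have h3' : n ≤ 2 * (j : ℕ) + 1 := by omega
  have hF := ac_word_all (g := g) h1 h2 h3'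
  have hB := ac_word_mid (g := g) h1 h2 h3'
  have bB : bt j (word g m n) = word g m n := bt_word_out j m n (fun r _ _ => by omega)
  have bF := bt_word_end (p := p) j (by omega)
  have c0 : acut g p m n (2 * j + 1) (2 * j) = (word g m n)⁻¹ * word g p (2 * j + 1) := by
    unfold acut
    rw [if_neg (by omega), if_pos (by omega)]
  have c1 : acut g p m n (2 * j + 1) (2 * j + 1) = 1 := by
    unfold acut
    rw [if_neg (by omega), if_neg (by omega)]
  have hA : ac g p m n (2 * j + 1) (A j) = (word g m n)⁻¹ * word g p (2 * j + 1) * A j := by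
    rw [(isFc_ac h1 h2 h3').A, c0, c1]
    simp
  refine braid_end (isFc_ac h1 h2 h3') j ((word g m n)⁻¹ * word g p (2 * j + 1)) c0 c1
    (by rw [map_mul, map_inv, bB, bF]; group) (by rw [map_mul, map_inv, hF, hB]) ?_
  intro r _ _
  unfold acut
  split_ifs
  · simp only [map_mul, map_inv, bB, bF, hF, hB, hA]
    group
  · simp only [map_mul, map_inv, bB, bF, hF, hB, hA]
    group
  · simp

/-- The curve `ac` whose first foot is `2j` and which passes around the foot `2j+1` satisfies the
braid relation with `bt j`. -/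
theorem ac_braid_handle {q : ℕ} (j : Fin g) (h : 2 * (j : ℕ) + 2 ≤ q) :
    ac g (2 * j) (2 * j + 1) (2 * j + 2) q * bt j * ac g (2 * j) (2 * j + 1) (2 * j + 2) q =
      bt j * ac g (2 * j) (2 * j + 1) (2 * j + 2) q * bt j := by
  have h1 : 2 * (j : ℕ) ≤ 2 * j + 1 := by omega
  have h2 : 2 * (j : ℕ) + 1 ≤ 2 * j + 2 := by omega
  have hF := ac_word_all (g := g) h1 h2 h
  have hB := ac_word_mid (g := g) h1 h2 h
  have bF : bt j (word g (2 * j) q) = word g (2 * j) q := bt_word_in j _ _ le_rfl h
  have bB : bt j (word g (2 * j + 1) (2 * j + 2)) = A j * word g (2 * j + 1) (2 * j + 2) :=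
    bt_word_start j le_rfl
  have c0 : acut g (2 * j) (2 * j + 1) (2 * j + 2) q (2 * j) =
      word g (2 * j) q * (word g (2 * j + 1) (2 * j + 2))⁻¹ := by
    unfold acut
    rw [if_pos (by omega)]
  have c1 : acut g (2 * j) (2 * j + 1) (2 * j + 2) q (2 * j + 1) = 1 := by
    unfold acut
    rw [if_neg (by omega), if_neg (by omega)]
  have hA : ac g (2 * j) (2 * j + 1) (2 * j + 2) q (A j) =
      word g (2 * j) q * (word g (2 * j + 1) (2 * j + 2))⁻¹ * A j := by
    rw [(isFc_ac h1 h2 h).A, c0, c1]
    simp
  refine braid_end (isFc_ac h1 h2 h) j _ c0 c1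
    (by rw [map_mul, map_inv, bB, bF]; group) (by rw [map_mul, map_inv, hF, hB]) ?_
  intro r _ hr
  unfold acut
  rw [if_neg (by omega)]
  split_ifs
  · simp only [map_mul, map_inv, bB, bF, hF, hB, hA]
    group
  · simp

/-! ### The chain relation -/

theorem chain (j : Fin g) :
    (tw g (2 * j + 1) (2 * j + 2) * bt j) ^ 6 = tw g (2 * j) (2 * j + 2) := by
  have wS : word g (2 * j + 1) (2 * j + 2) = (B j)⁻¹ := by
    rw [show 2 * (j : ℕ) + 2 = 2 * j + 1 + 1 by ring, word_single, foot_odd]
  have wD : word g (2 * j) (2 * j + 2) = A j * B j * (A j)⁻¹ * (B j)⁻¹ := by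
    rw [show 2 * (j : ℕ) + 2 = 2 * j + 1 + 1 by ring, word_succ (by omega), word_single,
      foot_odd, foot_even]
  set σ : MulAut (Fr g) := tw g (2 * j + 1) (2 * j + 2) * bt j with hσ
  have sA : σ (A j) = A j * B j := by
    rw [hσ, MulAut.mul_apply, bt_apply, btHom_A, (isFc_tw _ _).A, cut_out (by omega),
      cut_in (by omega) (by omega), wS]
    simp
  have tB : tw g (2 * j + 1) (2 * j + 2) (B j) = B j := by
    rw [(isFc_tw _ _).B, cut_in (by omega) (by omega), wS]
    group
  have sB : σ (B j) = (A j)⁻¹ := by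
    rw [hσ, MulAut.mul_apply, bt_apply, btHom_B, if_pos rfl, map_mul, map_inv, tB,
      (isFc_tw _ _).A, cut_out (by omega), cut_in (by omega) (by omega), wS]
    group
  have sO : ∀ i, i ≠ j → σ (A i) = A i ∧ σ (B i) = B i := by
    intro i hij
    have hij' : (i : ℕ) ≠ j := fun h => hij (Fin.ext h)
    constructor
    · rw [hσ, MulAut.mul_apply, bt_apply, btHom_A, (isFc_tw _ _).A, cut_out (by omega),
        cut_out (by omega)]
      simp
    · rw [hσ, MulAut.mul_apply, bt_apply, btHom_B, if_neg hij, (isFc_tw _ _).B,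
        cut_out (by omega)]
      simp
  apply aut_ext
  · intro i
    by_cases hij : i = j
    · subst hij
      rw [(isFc_tw _ _).A, cut_in (by omega) (by omega), cut_in (by omega) (by omega), wD]
      simp only [pow_succ, pow_zero, one_mul, MulAut.mul_apply, map_mul, map_inv, sA, sB]
      group
    · have hij' : (i : ℕ) ≠ j := fun h => hij (Fin.ext h)
      rw [(isFc_tw _ _).A, cut_out (by omega), cut_out (by omega)]
      simp only [pow_succ, pow_zero, one_mul, MulAut.mul_apply, (sO i hij).1]
      simp
  · intro i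
    by_cases hij : i = j
    · subst hij
      rw [(isFc_tw _ _).B, cut_in (by omega) (by omega), wD]
      simp only [pow_succ, pow_zero, one_mul, MulAut.mul_apply, map_mul, map_inv, sA, sB]
      group
    · have hij' : (i : ℕ) ≠ j := fun h => hij (Fin.ext h)
      rw [(isFc_tw _ _).B, cut_out (by omega)]
      simp only [pow_succ, pow_zero, one_mul, MulAut.mul_apply, (sO i hij).2]
      simp

end Pool.Agent.H.MP_ee9c6f_al
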