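import Pool.Agent.H.MP_ee9c6f_al.Rel

/-!
MP_ee9c6f_al (helper22). The star relation, and the subgroup generated by Lickorish's twists
contains the twist about every interval of feet.
-/

set_option autoImplicit false

namespace Pool.Agent.H.MP_ee9c6f_al

variable {g : ℕ}

theorem foot_eq_word_even (m : Fin g) :
    word g (2 * m) (2 * m + 1) = A m * B m * (A m)⁻¹ := by
  rw [word_single, foot_even]

theorem foot_eq_word_odd (m : Fin g) :
    word g (2 * m + 1) (2 * m + 2) = (B m)⁻¹ := by
  rw [show 2 * (m : ℕ) + 2 = 2 * m + 1 + 1 by ring, word_single, foot_odd]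

/-- The star relation. -/
theorem star (m : Fin g) {p q : ℕ} (hp : p ≤ 2 * m) (hq : 2 * (m : ℕ) + 2 ≤ q) :
    (tw g p (2 * m + 1) * tw g (2 * m + 1) (2 * m + 2) * tw g (2 * m + 1) q * bt m) ^ 3 =
      tw g p (2 * m) * tw g (2 * m + 2) q * tw g p q := by
  set P := word g p (2 * m) with hP
  set Q := word g (2 * m + 2) q with hQ
  set E := word g p (2 * m + 1) with hE
  set G := word g (2 * m + 1) q with hG
  set F := word g p q with hF
  have eE : E = P * (A m * B m * (A m)⁻¹) := by
    rw [hE, hP, word_succ hp, foot_even]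
  have eG : G = (B m)⁻¹ * Q := by
    rw [hG, hQ, word_split (by omega : 2 * (m : ℕ) + 1 ≤ 2 * m + 2) hq, foot_eq_word_odd]
  have eF : F = P * (A m * B m * (A m)⁻¹ * (B m)⁻¹) * Q := by
    rw [hF, word_split (by omega : p ≤ 2 * (m : ℕ) + 1) (by omega : 2 * (m : ℕ) + 1 ≤ q), ← hE,
      ← hG, eE, eG]
    group
  -- the product of the three commuting twists
  set τ := tw g p (2 * m + 1) * tw g (2 * m + 1) (2 * m + 2) * tw g (2 * m + 1) q with hτ
  have hτc := (isFc_tw (g := g) p (2 * m + 1)).mul (isFc_tw (2 * m + 1) (2 * m + 2))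
  have hτc2 := hτc.mul (isFc_tw (g := g) (2 * m + 1) q)
  rw [← hτ] at hτc2
  let c : ℕ → Fr g := fun r => (tw g p (2 * m + 1) * tw g (2 * m + 1) (2 * m + 2))
    (cut g (2 * m + 1) q r) * (tw g p (2 * m + 1) (cut g (2 * m + 1) (2 * m + 2) r) *
      cut g p (2 * m + 1) r)
  have hc : IsFc τ c := hτc2
  have c1 : ∀ r, p ≤ r → r < 2 * m + 1 → c r = E := by
    intro r h1 h2
    simp only [c]
    rw [cut_out (by omega), cut_out (by omega), cut_in h1 h2]
    simp [hE]
  have c2 : c (2 * m + 1) = G * (B m)⁻¹ := by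
    simp only [c]
    rw [cut_in (by omega) (by omega), cut_in (by omega) (by omega), cut_out (by omega),
      MulAut.mul_apply, tw_word_sup le_rfl (by omega) hq, tw_word_out (Or.inr le_rfl),
      tw_word_out (Or.inr le_rfl), foot_eq_word_odd, mul_one]
  have c3 : ∀ r, 2 * (m : ℕ) + 2 ≤ r → r < q → c r = G := by
    intro r h1 h2
    simp only [c]
    rw [cut_in (by omega) h2, cut_out (by omega), cut_out (by omega), MulAut.mul_apply,
      tw_word_sup le_rfl (by omega) hq, tw_word_out (Or.inr le_rfl)]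
    simp [hG]
  have c4 : ∀ r, ¬ (p ≤ r ∧ r < q) → c r = 1 := by
    intro r h
    simp only [c]
    rw [cut_out (by omega), cut_out (by omega), cut_out (by omega)]
    simp
  -- the values of `σ`
  set σ := τ * bt m with hσ
  have bA : ∀ i, bt m (A i) = A i := fun i => by rw [bt_apply, btHom_A]
  have bB : bt m (B m) = B m * (A m)⁻¹ := by rw [bt_apply, btHom_B, if_pos rfl]
  have bO : ∀ i, i ≠ m → bt m (B i) = B i := fun i h => by rw [bt_apply, btHom_B, if_neg h]
  have sA : σ (A m) = E * A m * B m * G⁻¹ := by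
    rw [hσ, MulAut.mul_apply, bA, hc.A, c1 _ hp (by omega), c2]
    group
  have sB : σ (B m) = G * (A m)⁻¹ * E⁻¹ := by
    rw [hσ, MulAut.mul_apply, bB, map_mul, map_inv, hc.A, hc.B, c1 _ hp (by omega), c2]
    group
  have sP : σ P = E * P * E⁻¹ := by
    rw [hσ, MulAut.mul_apply, hP, bt_apply, bt_word_out m p (2 * m) (fun r _ _ => by omega), hc,
      fc_word _ E p (2 * m) (fun r h1 h2 => c1 r h1 (by omega))]
  have sQ : σ Q = G * Q * G⁻¹ := by
    rw [hσ, MulAut.mul_apply, hQ, bt_apply, bt_word_out m _ q (fun r _ _ => by omega), hc,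
      fc_word _ G _ q (fun r h1 h2 => c3 r h1 h2)]
  have sE : σ E = E * G * (B m)⁻¹ * (A m)⁻¹ * E⁻¹ := by
    rw [eE, map_mul, map_mul, map_mul, map_inv, sA, sB, sP, eE]
    group
  have sG : σ G = E * A m * Q * G⁻¹ := by
    rw [eG, map_mul, map_inv, sB, sQ, eG]
    group
  have sO : ∀ i, i ≠ m → σ (A i) = c (2 * i) * A i * (c (2 * i + 1))⁻¹ ∧
      σ (B i) = c (2 * i + 1) * B i * (c (2 * i + 1))⁻¹ := by
    intro i hi
    constructor
    · rw [hσ, MulAut.mul_apply, bA, hc.A]
    · rw [hσ, MulAut.mul_apply, bO i hi, hc.B]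
  have dE : σ (σ E) * σ E * E = F * P := by
    rw [sE]
    simp only [map_mul, map_inv, sE, sG, sA, sB]
    rw [eF, eE, eG]
    group
  have dG : σ (σ G) * σ G * G = F * Q := by
    rw [sG]
    simp only [map_mul, map_inv, sE, sG, sA, sQ]
    rw [eF, eE, eG]
    group
  -- the right-hand side
  have hρ := ((isFc_tw (g := g) p (2 * m)).mul (isFc_tw (2 * m + 2) q)).mul
    (isFc_tw (g := g) p q)
  let c' : ℕ → Fr g := fun r => (tw g p (2 * m) * tw g (2 * m + 2) q) (cut g p q r) *
    (tw g p (2 * m) (cut g (2 * m + 2) q r) * cut g p (2 * m) r)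
  have hρc : IsFc (tw g p (2 * m) * tw g (2 * m + 2) q * tw g p q) c' := hρ
  have hF' : (tw g p (2 * m) * tw g (2 * m + 2) q) (word g p q) = word g p q := by
    rw [MulAut.mul_apply, tw_word_sup (by omega) hq le_rfl, tw_word_sup le_rfl hp (by omega)]
  have c1' : ∀ r, p ≤ r → r < 2 * m → c' r = F * P := by
    intro r h1 h2
    simp only [c']
    rw [cut_in (by omega) (by omega), cut_out (by omega), cut_in h1 h2, hF', map_one, one_mul]
  have c2' : ∀ r, 2 * (m : ℕ) ≤ r → r < 2 * m + 2 → c' r = F := by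
    intro r h1 h2
    simp only [c']
    rw [cut_in (by omega) (by omega), cut_out (by omega), cut_out (by omega), hF', map_one,
      one_mul, mul_one]
  have c3' : ∀ r, 2 * (m : ℕ) + 2 ≤ r → r < q → c' r = F * Q := by
    intro r h1 h2
    simp only [c']
    rw [cut_in (by omega) (by omega), cut_in h1 h2, cut_out (by omega), hF',
      tw_word_out (Or.inr (by omega)), mul_one]
  have c4' : ∀ r, ¬ (p ≤ r ∧ r < q) → c' r = 1 := by
    intro r h
    simp only [c']
    rw [cut_out (by omega), cut_out (by omega), cut_out (by omega)]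
    simp
  have hd : ∀ r : ℕ, r / 2 ≠ (m : ℕ) → σ (σ (c r)) * σ (c r) * c r = c' r := by
    intro r hr
    by_cases h : p ≤ r ∧ r < q
    · rcases lt_or_ge r (2 * (m : ℕ)) with h' | h'
      · rw [c1 r h.1 (by omega), c1' r h.1 h', dE]
      · rw [c3 r (by omega) h.2, c3' r (by omega) h.2, dG]
    · rw [c4 r h, c4' r h]
      simp
  apply aut_ext
  · intro i
    rw [hρc.A]
    by_cases hi : i = m
    · subst hi
      rw [c2' _ le_rfl (by omega), c2' _ (by omega) (by omega)]
      simp only [pow_succ, pow_zero, one_mul, MulAut.mul_apply, map_mul, map_inv, sA, sB, sE, sG,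
        sQ]
      rw [eF, eE, eG]
      group
    · have hi' : (i : ℕ) ≠ m := fun h => hi (Fin.ext h)
      rw [← hd (2 * i) (by omega), ← hd (2 * i + 1) (by omega)]
      simp only [pow_succ, pow_zero, one_mul, MulAut.mul_apply, map_mul, map_inv, (sO i hi).1]
      group
  · intro i
    rw [hρc.B]
    by_cases hi : i = m
    · subst hi
      rw [c2' _ (by omega) (by omega)]
      simp only [pow_succ, pow_zero, one_mul, MulAut.mul_apply, map_mul, map_inv, sA, sB, sE, sG,
        sQ]
      rw [eF, eE, eG]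
      group
    · have hi' : (i : ℕ) ≠ m := fun h => hi (Fin.ext h)
      rw [← hd (2 * i + 1) (by omega)]
      simp only [pow_succ, pow_zero, one_mul, MulAut.mul_apply, map_mul, map_inv, (sO i hi).2]
      group

end Pool.Agent.H.MP_ee9c6f_al
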