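import Pool.Agent.H.MP_ee9c6f_al.Large

/-!
MP_ee9c6f_al (helper22). The definitions used in the statements of the results.
-/

set_option autoImplicit false

namespace Pool.Agent.H.MP_ee9c6f_al.St

/-! ### Groups -/

section Groups

variable {Γ : Type} [Group Γ]

/-- Some positive power of `t` lies in `H`. -/
def HasPow (H : Subgroup Γ) (t : Γ) : Prop := ∃ n : ℕ, 0 < n ∧ t ^ n ∈ H

/-- `K` contains a subgroup of finite index of `P`. -/
def Virt (K P : Subgroup Γ) : Prop := K.relIndex P ≠ 0

/-- The conjugate `γ t γ⁻¹`. -/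
def con (γ t : Γ) : Γ := γ * t * γ⁻¹

/-- The conjugate of the subgroup `H` by `γ`. -/
def cj (γ : Γ) (H : Subgroup Γ) : Subgroup Γ := H.map (MulAut.conj γ).toMonoidHom

/-- The fibre product of `χ` and `χ'` is cut out by `K`. -/
def FibProd (K : Subgroup Γ) {A B : Subgroup Γ} (χ : A →* Multiplicative ℤ)
    (χ' : B →* Multiplicative ℤ) : Prop :=
  ∀ (a : A) (b : B), χ a = χ' b ↔ (a : Γ)⁻¹ * (b : Γ) ∈ K

/-- `P` centralises an element outside the kernel of `χ`. -/
def Cen (P : Subgroup Γ) {A : Subgroup Γ} (χ : A →* Multiplicative ℤ) : Prop :=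
  ∃ a : A, χ a ≠ 1 ∧ ∀ p ∈ P, Commute p (a : Γ)

end Groups

/-! ### The mapping class group -/

/-- The fundamental group of the closed orientable surface of genus `g`. -/
def Surf (g : ℕ) : Type := PresentedGroup ({surfRel g} : Set (Fr g))

instance (g : ℕ) : Group (Surf g) := instGroupPresentedGroup {surfRel g}

theorem map_ncl {g : ℕ} (φ : MulAut (Fr g)) (h : φ (surfRel g) = surfRel g) :
    (Subgroup.normalClosure {surfRel g}).map φ.toMonoidHom =
      Subgroup.normalClosure {surfRel g} :=
  map_normalClosure ⟨φ, h⟩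

/-- The automorphism of the surface group induced by an automorphism of the free group that fixes
the relator. -/
def desc {g : ℕ} (φ : MulAut (Fr g)) (h : φ (surfRel g) = surfRel g) : MulAut (Surf g) :=
  QuotientGroup.congr _ _ φ (map_ncl φ h)

/-- The outer automorphism group of `G`. -/
def Out (G : Type) [Group G] : Type := MulAut G ⧸ Inn G

instance (G : Type) [Group G] : Group (Out G) := QuotientGroup.Quotient.group (Inn G)

/-- The class of an automorphism. -/
def cls {G : Type} [Group G] (φ : MulAut G) : Out G := QuotientGroup.mk φ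

/-- The Dehn twist about the curve around the feet `p, …, q - 1`. -/
def Tw (g p q : ℕ) : Out (Surf g) := cls (desc (tw g p q) (tw_surfRel g p q))

/-- The Dehn twist about the curve `a_j`. -/
def Bt {g : ℕ} (j : Fin g) : Out (Surf g) := cls (desc (bt j) (bt_surfRel j))

/-- The group generated by Lickorish's twists: the twists about the curves `a_j`, about the curves
around the foot `2j + 1` (that is `b_j`), and about the curves around the two feet `2j + 1` and
`2j + 2`. -/
def Lick (g : ℕ) : Subgroup (Out (Surf g)) :=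
  Subgroup.closure {x | ∃ j : Fin g, x = Bt j ∨ x = Tw g (2 * j + 1) (2 * j + 2) ∨
    ((j : ℕ) + 1 < g ∧ x = Tw g (2 * j + 1) (2 * j + 3))}

/-- The mapping class group of the closed orientable surface of genus `g`, as the subgroup of the
outer automorphism group of its fundamental group that is generated by Lickorish's twists. -/
def Mod (g : ℕ) : Type := Lick g

instance (g : ℕ) : Group (Mod g) := (Lick g).toGroup

theorem Lick_eq (g : ℕ) : Lick g = Pool.Agent.H.MP_ee9c6f_al.Mod g := rfl

theorem Tw_mem {g : ℕ} (p q : ℕ) : Tw g p q ∈ Lick g :=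
  Pool.Agent.H.MP_ee9c6f_al.Tw_mem p q

theorem Bt_mem {g : ℕ} (j : Fin g) : Bt j ∈ Lick g := Pool.Agent.H.MP_ee9c6f_al.Bt_mem j

/-- The Dehn twist about the curve around the feet `p, …, q - 1`, in the mapping class group. -/
def twist (g p q : ℕ) : Mod g := ⟨Tw g p q, Tw_mem p q⟩

/-- The Dehn twist about the curve `a_j`, in the mapping class group. -/
def twA {g : ℕ} (j : Fin g) : Mod g := ⟨Bt j, Bt_mem j⟩

/-- The Dehn twist about the curve `b_j`. -/
def twB {g : ℕ} (j : Fin g) : Mod g := twist g (2 * j + 1) (2 * j + 2)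

/-- The Dehn twist about the curve around the feet `2j + 1`, `2j + 2`. -/
def twC (g j : ℕ) : Mod g := twist g (2 * j + 1) (2 * j + 3)

/-! ### First theorem -/

variable {g : ℕ}

/-- First alternative: for every family `L` of pairwise disjoint or nested intervals `(i, k)`,
after conjugation `H` contains a positive power of every Lickorish twist and of every twist about
the curve around the feet `2i + 1, …, 2k` with `(i, k)` in `L`. -/
def CaseI (g : ℕ) (H : Subgroup (Mod g)) : Prop :=
  ∀ L : Set (ℕ × ℕ), (∀ I ∈ L, I.1 < I.2 ∧ I.2 < g) → (∀ I ∈ L, ∀ J ∈ L, Lam I J) →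
    ∃ γ : Mod g,
      (∀ j : Fin g, HasPow H (con γ (twA j)) ∧ HasPow H (con γ (twB j))) ∧
      (∀ j : ℕ, j + 1 < g → HasPow H (con γ (twC g j))) ∧
      ∀ I ∈ L, HasPow H (con γ (twist g (2 * I.1 + 1) (2 * I.2 + 1)))

/-- Second alternative: after conjugation `H` contains a subgroup of finite index of the
centraliser of the two twists about `a_0` and `b_0` and a positive power of the twist about the
curve around the feet `1, 2`, but no positive power of the twists about `a_0` and `b_0`. -/
def CaseII (g : ℕ) (hg : 0 < g) (H : Subgroup (Mod g)) : Prop :=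
  ∃ γ : Mod g,
    Virt H (Subgroup.centralizer {con γ (twA ⟨0, hg⟩), con γ (twB ⟨0, hg⟩)}) ∧
    HasPow H (con γ (twC g 0)) ∧
    ¬ HasPow H (con γ (twA ⟨0, hg⟩)) ∧ ¬ HasPow H (con γ (twB ⟨0, hg⟩))

theorem first (hg : 3 ≤ g) (S : Set (Mod g)) (hS : Subgroup.closure S = ⊤)
    (H : Subgroup (Mod g)) (hH : ¬ H.FiniteIndex) :
    relEnds S H = 1 ∨ CaseI g H ∨ CaseII g (by omega) H :=
  trichotomy hg hS hH

/-! ### Second theorem -/

/-- The units, arranged in a circle: the unit `2j` consists of the twists about `a_j` and `b_j`, the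
unit `2j + 1` consists of the twist about the curve that joins the handles `j` and `j + 1`. -/
def unit (g : ℕ) (u : ZMod (2 * g)) : Set (Mod g) :=
  {t | ∃ j : Fin g, (u.val = 2 * j ∧ (t = twA j ∨ t = twB j)) ∨
    (u.val = 2 * j + 1 ∧ (j : ℕ) + 1 < g ∧ t = twC g j) ∨
    (u.val = 2 * j + 1 ∧ (j : ℕ) + 1 = g ∧ t = twist g 1 (2 * g - 1))}

/-- The twists in a set of units. -/
def tws (g : ℕ) (J : Set (ZMod (2 * g))) : Set (Mod g) := ⋃ u ∈ J, unit g u

/-- The group generated by the twists in a set of units. -/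
def grp (g : ℕ) (J : Set (ZMod (2 * g))) : Subgroup (Mod g) := Subgroup.closure (tws g J)

/-- The subgroup is conjugate into a group generated by a set of units that contains no `n`
consecutive units. -/
def Small (n : ℕ) (P : Subgroup (Mod g)) : Prop :=
  ∃ (δ : Mod g) (J : Set (ZMod (2 * g))), Thin n J ∧ P ≤ cj δ (grp g J)

/-- The powers of Dehn twists about nonseparating curves. -/
def TwPow (t : Mod g) : Prop := ∃ (γ : Mod g) (j : Fin g) (m : ℤ), t = con γ (twA j ^ m)

/-- `χ` is onto and kills the powers of Dehn twists about nonseparating curves. -/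
def Kills {A : Subgroup (Mod g)} (χ : A →* Multiplicative ℤ) : Prop :=
  Function.Surjective χ ∧ ∀ a : A, TwPow (a : Mod g) → χ a = 1

/-- There are subgroups `A₁` and `B₁` of finite index in `A` and `B` with homomorphisms onto the
integers, which kill the powers of Dehn twists about nonseparating curves, such that `K ∩ A₁B₁` is
their fibre product; and `K` contains a subgroup of finite index of every small group that
centralises an element of `A₁` or `B₁` outside the kernels. -/
def Fibre (n : ℕ) (K A B : Subgroup (Mod g)) : Prop :=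
  ∃ A₁ B₁ : Subgroup (Mod g), A₁ ≤ A ∧ B₁ ≤ B ∧ Virt A₁ A ∧ Virt B₁ B ∧
    ∃ (χ : A₁ →* Multiplicative ℤ) (χ' : B₁ →* Multiplicative ℤ),
      Kills χ ∧ Kills χ' ∧ FibProd K χ χ' ∧
      ∀ P, Small n P → Cen P χ ∨ Cen P χ' → Virt K P

/-- The number of relative ends of the pair `(grp g I, K ∩ grp g I)`. -/
noncomputable def endsIn (K : Subgroup (Mod g)) (I : Set (ZMod (2 * g))) : ℕ∞ :=
  relEnds ((Subtype.val : grp g I → Mod g) ⁻¹' tws g I) (K.subgroupOf (grp g I))

/-- `K` contains a subgroup of finite index of the group of the units far from `I`; and if two small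
groups generate `grp g I` then there is a conjugate of `K` that contains, for every small group `P`,
a subgroup of finite index of the intersection of `P` with one of the two groups. -/
def Product (n : ℕ) (K : Subgroup (Mod g)) (I : Set (ZMod (2 * g))) : Prop :=
  Virt K (grp g (far I)) ∧ ∀ P₁ P₂, Small n P₁ → Small n P₂ →
    grp g I ≤ (P₁ ⊓ grp g I) ⊔ (P₂ ⊓ grp g I) → ∃ a ∈ grp g I, ∀ P, Small n P →
      Virt (cj a K) (P ⊓ P₁) ∨ Virt (cj a K) (P ⊓ P₂)

theorem Fibre.of {n : ℕ} {K A B : Subgroup (Pool.Agent.H.MP_ee9c6f_al.Mod g)}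
    (h : Pool.Agent.H.MP_ee9c6f_al.Fibre n K A B) :
    Fibre (g := g) n K A B := by
  obtain ⟨A₁, B₁, h1, h2, h3, h4, χ, χ', h5, h6, h7, h8, h9, h10⟩ := h
  exact ⟨A₁, B₁, h1, h2, h3, h4, χ, χ', ⟨h5, h8⟩, ⟨h6, h9⟩, h7, h10⟩

theorem second (hg : 3 ≤ g) (S : Set (Mod g)) (hS : Subgroup.closure S = ⊤)
    (H : Subgroup (Mod g)) (h : 2 ≤ relEnds S H) :
    ∃ (p : ZMod (2 * g)) (n : ℕ) (γ : Mod g),
      1 ≤ n ∧ n ≤ 2 * g - 1 ∧ (n = 1 → p.val % 2 = 0) ∧ 2 ≤ endsIn (cj γ H) (arc g p n) ∧
      (Product n (cj γ H) (arc g p n) ∨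
        Fibre n (cj γ H) (grp g (arc g p n)) (grp g (far (arc g p n)))) := by
  obtain ⟨p, n, γ, h1, h2, h3, h4, h5⟩ := large hg hS h
  exact ⟨p, n, γ, h1, h2, h3, h4, h5.imp id Fibre.of⟩

end Pool.Agent.H.MP_ee9c6f_al.St
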