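import Pool.Agent.H.MP_ee9c6f_al.Fam

/-!
MP_ee9c6f_al (helper22). Almost invariant sets and orbits of subgroups: bad orbits, the chain lemma
and commuting subgroups.
-/

set_option autoImplicit false

namespace Pool.Agent.H.MP_ee9c6f_al

open Pointwise

variable {G X : Type*} [Group G] [MulAction G X]

/-- `U` splits the `A`-orbit of `x` into two infinite sets. -/
def Bad (U : Set X) (A : Subgroup G) (x : X) : Prop :=
  (U ∩ MulAction.orbit A x).Infinite ∧ (MulAction.orbit A x \ U).Infinite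

theorem mem_orbit_sub {A : Subgroup G} {x y : X} :
    y ∈ MulAction.orbit A x ↔ ∃ a ∈ A, a • x = y := by
  constructor
  · rintro ⟨⟨a, ha⟩, rfl⟩
    exact ⟨a, ha, rfl⟩
  · rintro ⟨a, ha, rfl⟩
    exact ⟨⟨a, ha⟩, rfl⟩

theorem orbit_sub_eq {A : Subgroup G} {x y : X} (h : y ∈ MulAction.orbit A x) :
    MulAction.orbit A y = MulAction.orbit A x := MulAction.orbit_eq_iff.mpr h

theorem orbit_smul_sub {A : Subgroup G} {a : G} (ha : a ∈ A) (x : X) :
    MulAction.orbit A (a • x) = MulAction.orbit A x :=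
  orbit_sub_eq (mem_orbit_sub.mpr ⟨a, ha, rfl⟩)

theorem orbit_mono {A B : Subgroup G} (h : A ≤ B) (x : X) :
    MulAction.orbit A x ⊆ MulAction.orbit B x := by
  intro y hy
  obtain ⟨a, ha, rfl⟩ := mem_orbit_sub.mp hy
  exact mem_orbit_sub.mpr ⟨a, h ha, rfl⟩

theorem orbit_comm {A : Subgroup G} {b : G} (h : ∀ a ∈ A, Commute a b) (x : X) :
    MulAction.orbit A (b • x) = b • MulAction.orbit A x := by
  ext y
  rw [mem_orbit_sub, Set.mem_smul_set_iff_inv_smul_mem, mem_orbit_sub]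
  constructor
  · rintro ⟨a, ha, rfl⟩
    refine ⟨a, ha, ?_⟩
    have h1 : b⁻¹ * (a * b) = a := by
      rw [(h a ha).eq, inv_mul_cancel_left]
    rw [smul_smul, smul_smul, mul_assoc, h1]
  · rintro ⟨a, ha, hy⟩
    refine ⟨a, ha, ?_⟩
    rw [smul_smul, (h a ha).eq, mul_smul, hy, smul_inv_smul]

theorem Bad.of_mem {U : Set X} {A : Subgroup G} {x y : X} (h : Bad U A x)
    (hy : y ∈ MulAction.orbit A x) : Bad U A y := by
  unfold Bad
  rw [orbit_sub_eq hy]
  exact h

theorem Bad.mono {U : Set X} {A B : Subgroup G} (hAB : A ≤ B) {x : X} (h : Bad U A x) :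
    Bad U B x :=
  ⟨h.1.mono (Set.inter_subset_inter_right _ (orbit_mono hAB x)),
    h.2.mono (Set.sdiff_subset_sdiff_left (orbit_mono hAB x))⟩

/-! ### The boundary -/

/-- The boundary of `U` with respect to `T`. -/
def bd (U : Set X) (T : Set G) : Set X :=
  {z | z ∈ U ∧ ∃ s : G, (s ∈ T ∨ s⁻¹ ∈ T) ∧ s • z ∉ U}

theorem bd_finite {U : Set X} (hU : AInv G U) {T : Set G} (hT : T.Finite) : (bd U T).Finite := by
  have h1 : (⋃ s ∈ T, (U \ s⁻¹ • U)).Finite := hT.biUnion fun s _ => (hU s⁻¹).finite_diff'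
  have h2 : (⋃ s ∈ T, (U \ s • U)).Finite := hT.biUnion fun s _ => (hU s).finite_diff'
  refine (h1.union h2).subset ?_
  rintro z ⟨hz, s, hs | hs, hsz⟩
  · left
    refine Set.mem_biUnion hs ⟨hz, fun h => hsz ?_⟩
    rwa [Set.mem_inv_smul_set_iff] at h
  · right
    refine Set.mem_biUnion hs ⟨hz, fun h => hsz ?_⟩
    rwa [Set.mem_smul_set_iff_inv_smul_mem, inv_inv] at h

theorem pure_of_disjoint {U : Set X} {T : Set G} {x : X}
    (h : ∀ z ∈ MulAction.orbit (Subgroup.closure T) x, z ∉ bd U T) :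
    ∀ y ∈ MulAction.orbit (Subgroup.closure T) x, (y ∈ U ↔ x ∈ U) := by
  have key : ∀ a ∈ Subgroup.closure T, ∀ z ∈ MulAction.orbit (Subgroup.closure T) x,
      (a • z ∈ U ↔ z ∈ U) := by
    intro a ha
    induction ha using Subgroup.closure_induction with
    | mem s hs =>
      intro z hz
      constructor
      · intro h1
        by_contra h2
        refine h (s • z) ?_ ⟨h1, s⁻¹, Or.inr (by rwa [inv_inv]), by rwa [inv_smul_smul]⟩
        rw [← orbit_sub_eq hz]
        exact mem_orbit_sub.mpr ⟨s, Subgroup.subset_closure hs, rfl⟩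
      · intro h1
        by_contra h2
        exact h z hz ⟨h1, s, Or.inl hs, h2⟩
    | one => intro z _; rw [one_smul]
    | mul a b _ hb iha ihb =>
      intro z hz
      rw [mul_smul, iha _ ?_, ihb z hz]
      rw [← orbit_sub_eq hz]
      exact mem_orbit_sub.mpr ⟨b, hb, rfl⟩
    | inv a ha ih =>
      intro z hz
      rw [← ih (a⁻¹ • z) ?_, smul_inv_smul]
      rw [← orbit_sub_eq hz]
      exact mem_orbit_sub.mpr ⟨a⁻¹, inv_mem ha, rfl⟩
  intro y hy
  obtain ⟨a, ha, rfl⟩ := mem_orbit_sub.mp hy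
  exact key a ha x (MulAction.mem_orbit_self x)

/-- If `U` neither contains nor misses the orbit then the orbit meets the boundary. -/
theorem exists_bd {U : Set X} {T : Set G} {x y z : X}
    (hy : y ∈ MulAction.orbit (Subgroup.closure T) x) (hyU : y ∈ U)
    (hz : z ∈ MulAction.orbit (Subgroup.closure T) x) (hzU : z ∉ U) :
    ∃ w ∈ MulAction.orbit (Subgroup.closure T) x, w ∈ bd U T := by
  by_contra h
  push Not at h
  have := pure_of_disjoint h
  exact hzU ((this z hz).mpr ((this y hy).mp hyU))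

theorem fin_small {U : Set X} (hU : AInv G U) {T : Set G} (hT : T.Finite) :
    {y | y ∈ U ∧ (MulAction.orbit (Subgroup.closure T) y).Infinite ∧
      (U ∩ MulAction.orbit (Subgroup.closure T) y).Finite}.Finite := by
  classical
  let f : X → Set X := fun z => if (U ∩ MulAction.orbit (Subgroup.closure T) z).Finite then
    U ∩ MulAction.orbit (Subgroup.closure T) z else ∅
  have hf : (⋃ z ∈ bd U T, f z).Finite := by
    apply (bd_finite hU hT).biUnion
    intro z _
    by_cases h : (U ∩ MulAction.orbit (Subgroup.closure T) z).Finite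
    · simp only [f, if_pos h]
      exact h
    · simp only [f, if_neg h]
      exact Set.finite_empty
  refine hf.subset ?_
  rintro y ⟨hy, hinf, hfin⟩
  obtain ⟨z, hz, hzU⟩ : ∃ z ∈ MulAction.orbit (Subgroup.closure T) y, z ∉ U := by
    by_contra h
    push Not at h
    apply hinf
    refine hfin.subset fun z hz => ⟨h z hz, hz⟩
  obtain ⟨w, hw, hwb⟩ := exists_bd (MulAction.mem_orbit_self y) hy hz hzU
  refine Set.mem_biUnion hwb ?_
  have e := orbit_sub_eq hw
  simp only [f, e, if_pos hfin]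
  exact ⟨hy, MulAction.mem_orbit_self y⟩

/-! ### The chain lemma -/

theorem not_bad_iff {U : Set X} {A : Subgroup G} {x : X} (h : ¬ Bad U A x) :
    (U ∩ MulAction.orbit A x).Finite ∨ (MulAction.orbit A x \ U).Finite := by
  unfold Bad at h
  by_contra h'
  push Not at h'
  exact h ⟨h'.1, h'.2⟩

theorem chain_lemma {U : Set X} (hU : AInv G U) {T : Set G} (hT : T.Finite)
    {A A₂ D : Subgroup G} (hA : A = Subgroup.closure T ⊔ A₂) (hD₁ : D ≤ Subgroup.closure T)
    (hD₂ : D ≤ A₂) {x : X} (h1 : ∀ y ∈ MulAction.orbit A x, ¬ Bad U (Subgroup.closure T) y)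
    (h2 : ∀ y ∈ MulAction.orbit A x, ¬ Bad U A₂ y)
    (hD : ∀ y ∈ MulAction.orbit A x, (MulAction.orbit D y).Infinite) : ¬ Bad U A x := by
  set A₁ := Subgroup.closure T with hA₁
  intro hbad
  have hA1A : A₁ ≤ A := hA ▸ le_sup_left
  have hA2A : A₂ ≤ A := hA ▸ le_sup_right
  -- comparison of the two groups
  have comp : ∀ (B C : Subgroup G), D ≤ B → D ≤ C → ∀ y ∈ MulAction.orbit A x, ¬ Bad U C y →
      (MulAction.orbit B y \ U).Finite → (MulAction.orbit C y \ U).Finite := by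
    intro B C hB hC y hy hC' h
    rcases not_bad_iff hC' with h' | h'
    · exfalso
      apply hD y hy
      refine (h.union h').subset ?_
      intro z hz
      by_cases hzU : z ∈ U
      · exact Or.inr ⟨hzU, orbit_mono hC y hz⟩
      · exact Or.inl ⟨orbit_mono hB y hz, hzU⟩
    · exact h'
  have h12 : ∀ y ∈ MulAction.orbit A x,
      ((MulAction.orbit A₁ y \ U).Finite ↔ (MulAction.orbit A₂ y \ U).Finite) := fun y hy =>
    ⟨comp A₁ A₂ hD₁ hD₂ y hy (h2 y hy), comp A₂ A₁ hD₂ hD₁ y hy (h1 y hy)⟩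
  have key : ∀ a ∈ A, ∀ y ∈ MulAction.orbit A x,
      ((MulAction.orbit A₁ (a • y) \ U).Finite ↔ (MulAction.orbit A₁ y \ U).Finite) := by
    intro a ha
    have ha' : a ∈ Subgroup.closure ((A₁ : Set G) ∪ (A₂ : Set G)) := by
      rw [← Subgroup.sup_eq_closure, ← hA]
      exact ha
    have hle : Subgroup.closure ((A₁ : Set G) ∪ (A₂ : Set G)) ≤ A := by
      rw [← Subgroup.sup_eq_closure, ← hA]
    clear ha
    induction ha' using Subgroup.closure_induction with
    | mem s hs =>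
      intro y hy
      rcases hs with hs | hs
      · rw [orbit_smul_sub hs]
      · have hy' : s • y ∈ MulAction.orbit A x := by
          rw [← orbit_sub_eq hy]
          exact mem_orbit_sub.mpr ⟨s, hA2A hs, rfl⟩
        rw [h12 _ hy', h12 y hy, orbit_smul_sub hs]
    | one => intro y _; rw [one_smul]
    | mul a b _ hb iha ihb =>
      intro y hy
      have hy' : b • y ∈ MulAction.orbit A x := by
        rw [← orbit_sub_eq hy]
        exact mem_orbit_sub.mpr ⟨b, hle hb, rfl⟩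
      rw [mul_smul, iha _ hy', ihb y hy]
    | inv a ha ih =>
      intro y hy
      have hy' : a⁻¹ • y ∈ MulAction.orbit A x := by
        rw [← orbit_sub_eq hy]
        exact mem_orbit_sub.mpr ⟨a⁻¹, inv_mem (hle ha), rfl⟩
      rw [← ih _ hy', smul_inv_smul]
  have hinf : ∀ y ∈ MulAction.orbit A x, (MulAction.orbit A₁ y).Infinite := fun y hy =>
    (hD y hy).mono (orbit_mono hD₁ y)
  by_cases hx : (MulAction.orbit A₁ x \ U).Finite
  · apply hbad.2
    refine (fin_small hU.compl hT).subset ?_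
    rintro y ⟨hy, hyU⟩
    refine ⟨hyU, hinf y hy, ?_⟩
    obtain ⟨a, ha, rfl⟩ := mem_orbit_sub.mp hy
    have := (key a ha x (MulAction.mem_orbit_self x)).mpr hx
    rwa [Set.inter_comm, ← Set.sdiff_eq]
  · apply hbad.1
    refine (fin_small hU hT).subset ?_
    rintro y ⟨hyU, hy⟩
    refine ⟨hyU, hinf y hy, ?_⟩
    obtain ⟨a, ha, rfl⟩ := mem_orbit_sub.mp hy
    have h3 : ¬ (MulAction.orbit A₁ (a • x) \ U).Finite := fun h =>
      hx ((key a ha x (MulAction.mem_orbit_self x)).mp h)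
    rcases not_bad_iff (h1 _ hy) with h' | h'
    · exact h'
    · exact absurd h' h3

/-! ### Commuting subgroups -/

/-- The orbit of `x` under the product of two commuting subgroups. -/
def prodOrbit (A B : Subgroup G) (x : X) : Set X := {z | ∃ a ∈ A, ∃ b ∈ B, z = a • b • x}

theorem prodOrbit_comm {A B : Subgroup G} (hAB : ∀ a ∈ A, ∀ b ∈ B, Commute a b) (x : X) :
    prodOrbit A B x = prodOrbit B A x := by
  ext z
  constructor
  · rintro ⟨a, ha, b, hb, rfl⟩
    refine ⟨b, hb, a, ha, ?_⟩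
    rw [smul_smul, smul_smul, (hAB a ha b hb).eq]
  · rintro ⟨b, hb, a, ha, rfl⟩
    refine ⟨a, ha, b, hb, ?_⟩
    rw [smul_smul, smul_smul, (hAB a ha b hb).eq]

theorem inf_smul {U : Set X} (hU : AInv G U) {O : Set X} (g : G) (h : (U ∩ O).Infinite) :
    (U ∩ g • O).Infinite := by
  intro hfin
  have h1 : (g • (U ∩ O)).Infinite := h.smul_set
  apply h1
  refine (hfin.union (hU g).finite_diff).subset ?_
  rw [Set.smul_set_inter]
  rintro z ⟨hz1, hz2⟩
  by_cases hzU : z ∈ U
  · exact Or.inl ⟨hzU, hz2⟩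
  · exact Or.inr ⟨hz1, hzU⟩

theorem fin_smul {U : Set X} (hU : AInv G U) {O : Set X} (g : G) (h : (U ∩ O).Finite) :
    (U ∩ g • O).Finite := by
  by_contra h'
  have := inf_smul hU g⁻¹ (O := g • O) h'
  rw [inv_smul_smul] at this
  exact this h

theorem Bad.smul {U : Set X} (hU : AInv G U) {A : Subgroup G} {x : X} (h : Bad U A x) {b : G}
    (hb : ∀ a ∈ A, Commute a b) : Bad U A (b • x) := by
  unfold Bad
  rw [orbit_comm hb]
  refine ⟨inf_smul hU b h.1, ?_⟩
  have := inf_smul hU.compl (O := MulAction.orbit A x) b (by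
    rw [Set.inter_comm, ← Set.sdiff_eq]; exact h.2)
  rwa [Set.inter_comm, ← Set.sdiff_eq] at this

theorem Bad.meets {U : Set X} {T : Set G} {x : X} (h : Bad U (Subgroup.closure T) x) :
    ∃ w ∈ MulAction.orbit (Subgroup.closure T) x, w ∈ bd U T := by
  obtain ⟨y, hyU, hy⟩ := h.1.nonempty
  obtain ⟨z, hz, hzU⟩ := h.2.nonempty
  exact exists_bd hy hyU hz hzU

/-- If `A` is bad at `x` then the product orbit is a finite union of `A`-orbits. -/
theorem finite_A {U : Set X} (hU : AInv G U) {T : Set G} (hT : T.Finite) {B : Subgroup G}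
    (hAB : ∀ a ∈ Subgroup.closure T, ∀ b ∈ B, Commute a b) {x : X}
    (h : Bad U (Subgroup.closure T) x) :
    ∃ F : Set X, F.Finite ∧ F ⊆ prodOrbit (Subgroup.closure T) B x ∧
      ∀ z ∈ prodOrbit (Subgroup.closure T) B x,
        ∃ w ∈ F, z ∈ MulAction.orbit (Subgroup.closure T) w := by
  refine ⟨bd U T ∩ prodOrbit (Subgroup.closure T) B x, (bd_finite hU hT).inter_of_left _,
    Set.inter_subset_right, ?_⟩
  rintro z ⟨a, ha, b, hb, rfl⟩
  have h1 := h.smul hU (fun a ha => hAB a ha b hb)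
  obtain ⟨w, hw, hwb⟩ := h1.meets
  obtain ⟨a', ha', hw'⟩ := mem_orbit_sub.mp hw
  refine ⟨w, ⟨hwb, a', ha', b, hb, hw'.symm⟩, ?_⟩
  rw [orbit_sub_eq hw, ← orbit_smul_sub ha (b • x)]
  exact MulAction.mem_orbit_self _

theorem orbit_B {A B : Subgroup G} (hAB : ∀ a ∈ A, ∀ b ∈ B, Commute a b) {x z : X}
    (hz : z ∈ prodOrbit A B x) : ∃ a ∈ A, MulAction.orbit B z = a • MulAction.orbit B x := by
  obtain ⟨a, ha, b, hb, rfl⟩ := hz
  refine ⟨a, ha, ?_⟩
  rw [orbit_comm (fun b hb => (hAB a ha b hb).symm), orbit_smul_sub hb]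

/-- If `A` is bad at `x` and `B` has an infinite orbit then the product orbit is a finite union of
`B`-orbits. -/
theorem finite_B {U : Set X} (hU : AInv G U) {A : Subgroup G} {T : Set G} (hT : T.Finite)
    (hAB : ∀ a ∈ A, ∀ b ∈ Subgroup.closure T, Commute a b) {x : X} (h : Bad U A x)
    (hB : (MulAction.orbit (Subgroup.closure T) x).Infinite) :
    ∃ F : Set X, F.Finite ∧ F ⊆ prodOrbit A (Subgroup.closure T) x ∧
      ∀ z ∈ prodOrbit A (Subgroup.closure T) x,
        ∃ w ∈ F, z ∈ MulAction.orbit (Subgroup.closure T) w := by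
  set B := Subgroup.closure T with hBdef
  have hsubA : MulAction.orbit A x ⊆ prodOrbit A B x := by
    intro y hy
    obtain ⟨a, ha, rfl⟩ := mem_orbit_sub.mp hy
    exact ⟨a, ha, 1, one_mem _, by rw [one_smul]⟩
  have hinf : ∀ z ∈ prodOrbit A B x, (MulAction.orbit B z).Infinite := by
    intro z hz
    obtain ⟨a, -, e⟩ := orbit_B hAB hz
    rw [e]
    exact hB.smul_set
  have hmem : ∀ z ∈ prodOrbit A B x, ∀ w ∈ MulAction.orbit B z, w ∈ prodOrbit A B x := by
    rintro z ⟨a, ha, b, hb, rfl⟩ w hw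
    obtain ⟨b', hb', rfl⟩ := mem_orbit_sub.mp hw
    refine ⟨a, ha, b' * b, mul_mem hb' hb, ?_⟩
    simp only [smul_smul]
    rw [← mul_assoc, ← mul_assoc, (hAB a ha b' hb').eq]
  by_cases hall : ∀ z ∈ prodOrbit A B x, ∃ w ∈ MulAction.orbit B z, w ∈ bd U T
  · refine ⟨bd U T ∩ prodOrbit A B x, (bd_finite hU hT).inter_of_left _,
      Set.inter_subset_right, ?_⟩
    intro z hz
    obtain ⟨w, hw, hwb⟩ := hall z hz
    refine ⟨w, ⟨hwb, hmem z hz w hw⟩, ?_⟩
    rw [orbit_sub_eq hw]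
    exact MulAction.mem_orbit_self _
  · exfalso
    push Not at hall
    obtain ⟨z₀, hz₀, hpure⟩ := hall
    have hp := pure_of_disjoint hpure
    -- all `B`-orbits in the product orbit are translates of the orbit of `z₀`
    have htrans : ∀ z ∈ prodOrbit A B x, ∃ s : G,
        MulAction.orbit B z = s • MulAction.orbit B z₀ := by
      intro z hz
      obtain ⟨a, -, e⟩ := orbit_B hAB hz
      obtain ⟨a₀, -, e₀⟩ := orbit_B hAB hz₀
      refine ⟨a * a₀⁻¹, ?_⟩
      rw [e, e₀, smul_smul, mul_assoc, inv_mul_cancel, mul_one]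
    have main : ∀ W : Set X, AInv G W → (W ∩ MulAction.orbit B z₀).Finite →
        (W ∩ MulAction.orbit A x).Finite := by
      intro W hW hfin
      refine (fin_small hW hT).subset ?_
      rintro y ⟨hyW, hy⟩
      have hy' := hsubA hy
      refine ⟨hyW, hinf y hy', ?_⟩
      obtain ⟨s, e⟩ := htrans y hy'
      rw [← hBdef, e]
      exact fin_smul hW s hfin
    by_cases hz₀U : z₀ ∈ U
    · apply h.2
      have := main Uᶜ hU.compl (by
        have : Uᶜ ∩ MulAction.orbit B z₀ = ∅ := by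
          ext w
          simp only [Set.mem_inter_iff, Set.mem_compl_iff, Set.mem_empty_iff_false, iff_false]
          rintro ⟨hwU, hw⟩
          exact hwU ((hp w hw).mpr hz₀U)
        rw [this]
        exact Set.finite_empty)
      rwa [Set.inter_comm, ← Set.sdiff_eq] at this
    · apply h.1
      refine main U hU ?_
      have : U ∩ MulAction.orbit B z₀ = ∅ := by
        ext w
        simp only [Set.mem_inter_iff, Set.mem_empty_iff_false, iff_false]
        rintro ⟨hwU, hw⟩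
        exact hz₀U ((hp w hw).mp hwU)
      rw [this]
      exact Set.finite_empty

/-- If the product orbit is a finite union of `B`-orbits, `U` splits it into two infinite sets and
`B` has infinite orbits, then elliptic elements of `A` have powers that act trivially, together with
all their conjugates in `A`. -/
theorem lemma_Q {U : Set X} (hU : AInv G U) {A B : Subgroup G}
    (hAB : ∀ a ∈ A, ∀ b ∈ B, Commute a b) {x : X} (hB : (MulAction.orbit B x).Infinite)
    {F : Set X} (hF : F.Finite) (hFZ : F ⊆ prodOrbit A B x)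
    (hcov : ∀ z ∈ prodOrbit A B x, ∃ w ∈ F, z ∈ MulAction.orbit B w)
    (hZ1 : ¬ (U ∩ prodOrbit A B x).Finite) (hZ2 : ¬ (prodOrbit A B x \ U).Finite)
    {t : G} (ht : t ∈ A) (hell : Ell U t) :
    ∃ n : ℕ, 0 < n ∧ ∀ a ∈ A, ∀ z ∈ prodOrbit A B x, (a * t ^ n * a⁻¹) • z = z := by
  classical
  obtain ⟨V, hV, htV⟩ := hell
  have hinf : ∀ z ∈ prodOrbit A B x, (MulAction.orbit B z).Infinite := by
    intro z hz
    obtain ⟨a, -, e⟩ := orbit_B hAB hz
    rw [e]
    exact hB.smul_set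
  have hVa : ∀ a : G, AE (a • V) U ∧ (a * t * a⁻¹) • (a • V) = a • V := by
    intro a
    refine ⟨(hV.smul a).trans (hU a), ?_⟩
    rw [smul_smul, mul_assoc, inv_mul_cancel, mul_one, mul_smul, htV]
  by_cases hex : ∃ z₀ ∈ prodOrbit A B x, z₀ ∈ InfO X t
  · exfalso
    obtain ⟨z₀, hz₀, hz₀i⟩ := hex
    -- values agree
    have agree : ∀ z ∈ prodOrbit A B x, ∀ a ∈ A, ∀ a' ∈ A, z ∈ InfO X (a * t * a⁻¹) →
        z ∈ InfO X (a' * t * a'⁻¹) → (z ∈ a • V ↔ z ∈ a' • V) := by
      intro z hz a ha a' ha' h1 h2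
      by_contra hne
      have h3 := orbit_finite hU (hVa a).1 (hVa a).2 (hVa a').1 (hVa a').2 h1 h2 hne
      apply hinf z hz
      refine h3.subset ?_
      intro w hw
      obtain ⟨b, hb, rfl⟩ := mem_orbit_sub.mp hw
      refine mem_orbit_sub.mpr ⟨b, ?_, rfl⟩
      rw [Subgroup.mem_centralizer_iff]
      rintro u (rfl | rfl)
      · exact (hAB _ (mul_mem (mul_mem ha ht) (inv_mem ha)) b hb).eq
      · exact (hAB _ (mul_mem (mul_mem ha' ht) (inv_mem ha')) b hb).eq
    -- move `z₀` to `z`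
    have move : ∀ z ∈ prodOrbit A B x, ∃ a ∈ A, z ∈ InfO X (a * t * a⁻¹) ∧
        (z ∈ a • V ↔ z₀ ∈ V) := by
      rintro z ⟨a1, ha1, b1, hb1, rfl⟩
      obtain ⟨a0, ha0, b0, hb0, e0⟩ := hz₀
      have hb : b1 * b0⁻¹ ∈ B := mul_mem hb1 (inv_mem hb0)
      have e1 : a1 • b1 • x = (a1 * a0⁻¹) • ((b1 * b0⁻¹) • z₀) := by
        rw [e0]
        simp only [smul_smul]
        congr 1
        have hc := (hAB a0 ha0 (b1 * b0⁻¹) hb).eq
        calc a1 * b1 = a1 * a0⁻¹ * (a0 * (b1 * b0⁻¹)) * b0 := by group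
          _ = a1 * a0⁻¹ * ((b1 * b0⁻¹) * a0) * b0 := by rw [hc]
          _ = _ := by group
      have hcb : Commute t (b1 * b0⁻¹) := hAB t ht _ hb
      refine ⟨a1 * a0⁻¹, mul_mem ha1 (inv_mem ha0), ?_, ?_⟩
      · rw [e1]
        exact InfO.conj _ (InfO.smul hcb hz₀i)
      · rw [e1, Set.smul_mem_smul_set_iff]
        exact inv_of_commute hU hcb hV htV hz₀i
    -- choose the conjugating elements for the points of `F`
    choose! c hcA hcI hcV using fun w (hw : w ∈ F) => move w (hFZ hw)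
    have hval : ∀ w ∈ F, ∀ z ∈ MulAction.orbit B w, z ∈ prodOrbit A B x →
        (z ∈ c w • V ↔ z₀ ∈ V) := by
      intro w hw z hz hzZ
      obtain ⟨b, hb, rfl⟩ := mem_orbit_sub.mp hz
      have hcomm : Commute (c w * t * (c w)⁻¹) b :=
        hAB _ (mul_mem (mul_mem (hcA w hw) ht) (inv_mem (hcA w hw))) b hb
      rw [← hcV w hw]
      exact inv_of_commute hU hcomm (hVa (c w)).1 (hVa (c w)).2 (hcI w hw)
    by_cases hv : z₀ ∈ V
    · apply hZ2
      have hfin : (⋃ w ∈ F, (c w • V \ U)).Finite := hF.biUnion fun w _ => (hVa (c w)).1.finite_diff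
      refine hfin.subset ?_
      rintro z ⟨hz, hzU⟩
      obtain ⟨w, hw, hzw⟩ := hcov z hz
      exact Set.mem_biUnion hw ⟨(hval w hw z hzw hz).mpr hv, hzU⟩
    · apply hZ1
      have hfin : (⋃ w ∈ F, (U \ c w • V)).Finite := hF.biUnion fun w _ => (hVa (c w)).1.finite_diff'
      refine hfin.subset ?_
      rintro z ⟨hzU, hz⟩
      obtain ⟨w, hw, hzw⟩ := hcov z hz
      exact Set.mem_biUnion hw ⟨hzU, fun h => hv ((hval w hw z hzw hz).mp h)⟩
  · push Not at hex
    have hn : ∀ w ∈ F, ∃ n : ℕ, 0 < n ∧ t ^ n • w = w := by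
      intro w hw
      by_contra hcon
      exact hex w (hFZ hw) fun n hn h' => hcon ⟨n, hn, h'⟩
    choose! m hm hmw using hn
    refine ⟨∏ w ∈ hF.toFinset, m w, Finset.prod_pos fun w hw => hm w (by simpa using hw), ?_⟩
    have htriv : ∀ z ∈ prodOrbit A B x, t ^ (∏ w ∈ hF.toFinset, m w) • z = z := by
      intro z hz
      obtain ⟨w, hw, hzw⟩ := hcov z hz
      obtain ⟨b, hb, rfl⟩ := mem_orbit_sub.mp hzw
      obtain ⟨k, hk⟩ := Finset.dvd_prod_of_mem m (a := w) (s := hF.toFinset) (by simpa using hw)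
      have h1 : t ^ (∏ w ∈ hF.toFinset, m w) • w = w := by
        rw [hk]
        exact pow_fix (hmw w hw) k
      have hc : Commute (t ^ (∏ w ∈ hF.toFinset, m w)) b := (hAB t ht b hb).pow_left _
      rw [smul_smul, hc.eq, mul_smul, h1]
    intro a ha z hz
    have hz' : a⁻¹ • z ∈ prodOrbit A B x := by
      obtain ⟨a1, ha1, b1, hb1, rfl⟩ := hz
      exact ⟨a⁻¹ * a1, mul_mem (inv_mem ha) ha1, b1, hb1, by rw [mul_smul]⟩
    rw [mul_smul, mul_smul, htriv _ hz', smul_inv_smul]

omit [Group G] in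
theorem exists_common {T : Set G} (hT : T.Finite) (P : G → ℕ → Prop)
    (hmul : ∀ t n m, 0 < m → P t n → P t (n * m)) (h : ∀ t ∈ T, ∃ n, 0 < n ∧ P t n) :
    ∃ n, 0 < n ∧ ∀ t ∈ T, P t n := by
  classical
  choose! m hm hP using h
  refine ⟨∏ t ∈ hT.toFinset, m t, Finset.prod_pos fun t ht => hm t (by simpa using ht), ?_⟩
  intro t ht
  obtain ⟨k, hk⟩ := Finset.dvd_prod_of_mem m (a := t) (s := hT.toFinset) (by simpa using ht)
  have hpos : 0 < ∏ t ∈ hT.toFinset, m t :=
    Finset.prod_pos fun t ht => hm t (by simpa using ht)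
  rw [hk] at hpos ⊢
  exact hmul t _ _ (Nat.pos_of_mul_pos_left hpos) (hP t ht)

end Pool.Agent.H.MP_ee9c6f_al
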