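import Pool.Agent.H.MP_ee9c6f_al.MRel
import Pool.Agent.H.MP_ee9c6f_al.Fam

/-!
MP_ee9c6f_al (helper22). If the values at `a` and at `b` differ, then some power of the twist about
a curve that meets `a` and not `b` fixes a point at which the centraliser of `a, b` has a finite
orbit.
-/

set_option autoImplicit false

namespace Pool.Agent.H.MP_ee9c6f_al

open Pointwise

section Abstract

variable {G X : Type*} [Group G] [MulAction G X]

theorem tau_step {U : Set X} (hU : AInv G U) {a b c : G}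
    (hab : a * b * a = b * a * b) (hac : a * c * a = c * a * c) (hbc : b * c = c * b)
    (hb : b ∈ Subgroup.closure ({c * b⁻¹} ∪ {z | Commute a z ∧ Commute b z} : Set G))
    {V W : Set X} (hV : AE V U) (haV : a • V = V) (hW : AE W U) (hbW : b • W = W)
    {x : X} (hxa : x ∈ InfO X a) (hxb : x ∈ InfO X b) (hne : ¬ (x ∈ V ↔ x ∈ W)) :
    ∃ y, y ∈ InfO X a ∧ y ∈ InfO X b ∧ ¬ (y ∈ V ↔ y ∈ W) ∧
      ((c * b⁻¹) • y ∉ InfO X a ∨ (c * b⁻¹)⁻¹ • y ∉ InfO X a) := by
  by_contra hcon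
  set τ := c * b⁻¹ with hτ
  have hcτ : Commute b τ := (show Commute b c from hbc).mul_right (Commute.refl b).inv_right
  have hc1 : Commute a (τ * a * τ⁻¹) := by
    have := comm_of_braid hab hac hbc
    rwa [show c * b⁻¹ * a * b * c⁻¹ = τ * a * τ⁻¹ by rw [hτ]; group] at this
  have hc2 : Commute a (τ⁻¹ * a * τ) := by
    have h : τ⁻¹ * (a * (τ * a * τ⁻¹)) * τ = τ⁻¹ * ((τ * a * τ⁻¹) * a) * τ := by rw [hc1.eq]
    change a * (τ⁻¹ * a * τ) = τ⁻¹ * a * τ * a
    calc a * (τ⁻¹ * a * τ) = τ⁻¹ * ((τ * a * τ⁻¹) * a) * τ := by group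
      _ = τ⁻¹ * (a * (τ * a * τ⁻¹)) * τ := h.symm
      _ = _ := by group
  -- one step
  have step : ∀ σ : G, Commute b σ → Commute a (σ⁻¹ * a * σ) → ∀ y, y ∈ InfO X a →
      y ∈ InfO X b → ¬ (y ∈ V ↔ y ∈ W) → σ • y ∈ InfO X a →
      (σ • y ∈ InfO X a ∧ σ • y ∈ InfO X b ∧ ¬ (σ • y ∈ V ↔ σ • y ∈ W)) := by
    intro σ h1 h2 y hya hyb hyn hσ
    refine ⟨hσ, InfO.smul h1 hyb, ?_⟩
    have e1 := inv_of_commute hU h1 hW hbW hyb
    have hyu : y ∈ InfO X (σ⁻¹ * a * σ) := by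
      have := InfO.conj σ⁻¹ hσ
      rwa [inv_smul_smul, inv_inv] at this
    have hV' : AE (σ⁻¹ • V) U := (hV.smul _).trans (hU _)
    have hV'' : (σ⁻¹ * a * σ) • (σ⁻¹ • V) = σ⁻¹ • V := by
      rw [smul_smul, mul_assoc, mul_inv_cancel, mul_one, mul_smul, haV]
    have e2 := agree_of_commute hU h2 hV haV hV' hV'' hya hyu
    rw [Set.mem_inv_smul_set_iff] at e2
    rw [e1, ← e2]
    exact hyn
  have key : ∀ w ∈ Subgroup.closure ({τ} ∪ {z | Commute a z ∧ Commute b z} : Set G),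
      ∀ y, (y ∈ InfO X a ∧ y ∈ InfO X b ∧ ¬ (y ∈ V ↔ y ∈ W)) ↔
        (w • y ∈ InfO X a ∧ w • y ∈ InfO X b ∧ ¬ (w • y ∈ V ↔ w • y ∈ W)) := by
    intro w hw
    induction hw using Subgroup.closure_induction with
    | mem w hw =>
      intro y
      rcases hw with hw | hw
      · rw [Set.mem_singleton_iff] at hw
        subst hw
        constructor
        · rintro ⟨h1, h2, h3⟩
          apply step _ hcτ hc2 y h1 h2 h3
          by_contra h4
          exact hcon ⟨y, h1, h2, h3, Or.inl h4⟩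
        · rintro ⟨h1, h2, h3⟩
          have := step τ⁻¹ hcτ.inv_right (by rwa [inv_inv]) (τ • y) h1 h2 h3 (by
            by_contra h4
            exact hcon ⟨τ • y, h1, h2, h3, Or.inr h4⟩)
          rwa [inv_smul_smul] at this
      · constructor
        · rintro ⟨h1, h2, h3⟩
          refine ⟨InfO.smul hw.1 h1, InfO.smul hw.2 h2, ?_⟩
          rw [inv_of_commute hU hw.1 hV haV h1, inv_of_commute hU hw.2 hW hbW h2]
          exact h3
        · rintro ⟨h1, h2, h3⟩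
          have e1 : y ∈ InfO X a := by
            have := InfO.smul hw.1.inv_right h1
            rwa [inv_smul_smul] at this
          have e2 : y ∈ InfO X b := by
            have := InfO.smul hw.2.inv_right h2
            rwa [inv_smul_smul] at this
          rw [inv_of_commute hU hw.1 hV haV e1, inv_of_commute hU hw.2 hW hbW e2] at h3
          exact ⟨e1, e2, h3⟩
    | one => intro y; rw [one_smul]
    | mul w w' _ _ ih ih' => intro y; rw [mul_smul, ← ih, ← ih']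
    | inv w _ ih => intro y; rw [ih (w⁻¹ • y), smul_inv_smul]
  have hall : ∀ n : ℕ, b ^ n • x ∈ symmDiff V W := by
    intro n
    have h1 := (key (b ^ n) (pow_mem hb n) x).mp ⟨hxa, hxb, hne⟩
    rw [Set.mem_symmDiff]
    by_cases h : b ^ n • x ∈ V
    · exact Or.inl ⟨h, fun h' => h1.2.2 ⟨fun _ => h', fun _ => h⟩⟩
    · refine Or.inr ⟨?_, h⟩
      by_contra h'
      exact h1.2.2 ⟨fun h'' => absurd h'' h, fun h'' => absurd h'' h'⟩
  have hfin : (Set.range fun n : ℕ => b ^ n • x).Finite :=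
    (hV.trans hW.symm).subset (by rintro _ ⟨n, rfl⟩; exact hall n)
  exact Set.infinite_range_of_injective (InfO.inj hxb) hfin

theorem tau_main {U : Set X} (hU : AInv G U) {a b c : G}
    (hab : a * b * a = b * a * b) (hac : a * c * a = c * a * c) (hbc : b * c = c * b)
    (hb : b ∈ Subgroup.closure ({c * b⁻¹} ∪ {z | Commute a z ∧ Commute b z} : Set G))
    {V W : Set X} (hV : AE V U) (haV : a • V = V) (hW : AE W U) (hbW : b • W = W)
    {x : X} (hxa : x ∈ InfO X a) (hxb : x ∈ InfO X b) (hne : ¬ (x ∈ V ↔ x ∈ W)) :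
    ∃ y, y ∈ InfO X a ∧ y ∈ InfO X b ∧
      (MulAction.orbit (Subgroup.centralizer ({a, b} : Set G)) y).Finite ∧
      ∃ n : ℕ, 0 < n ∧ c ^ n • y = y := by
  obtain ⟨y, hya, hyb, hyn, hy⟩ := tau_step hU hab hac hbc hb hV haV hW hbW hxa hxb hne
  have hfin : (MulAction.orbit (Subgroup.centralizer ({b, a} : Set G)) y).Finite :=
    orbit_finite hU hW hbW hV haV hyb hya fun h => hyn h.symm
  obtain ⟨ψ, hψ⟩ : ∃ ψ, ψ = b * a * b := ⟨_, rfl⟩
  have f1 : ψ * a * ψ⁻¹ = b := by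
    rw [mul_inv_eq_iff_eq_mul, hψ]
    calc b * a * b * a = b * (a * b * a) := by group
      _ = b * (b * a * b) := by rw [hab]
  have f2 : ψ * b * ψ⁻¹ = a := by
    rw [mul_inv_eq_iff_eq_mul, hψ]
    calc b * a * b * b = (a * b * a) * b := by rw [hab]
      _ = a * (b * a * b) := by group
  have f3 : ψ⁻¹ * b * ψ = a := by
    rw [← f1]
    group
  have f4 : ψ⁻¹ * a * ψ = b := by
    rw [← f2]
    group
  -- a point with the required properties from a conjugating element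
  have fin : ∀ s : G, s * a * s⁻¹ = b → s * b * s⁻¹ = a → (∃ n : ℕ, 0 < n ∧
      (s * c * s⁻¹) ^ n • y = y) → ∃ y, y ∈ InfO X a ∧ y ∈ InfO X b ∧
      (MulAction.orbit (Subgroup.centralizer ({a, b} : Set G)) y).Finite ∧
      ∃ n : ℕ, 0 < n ∧ c ^ n • y = y := by
    rintro s h1 h2 ⟨n, hn, h3⟩
    refine ⟨s⁻¹ • y, InfO.of_conj s (by rwa [h1]), InfO.of_conj s (by rwa [h2]),
      orbit_conj s (by rwa [h1, h2]), n, hn, ?_⟩
    rw [conj_pow] at h3
    have := congrArg (s⁻¹ • ·) h3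
    simp only [smul_smul] at this
    rw [smul_smul, ← this]
    congr 1
    group
  have e1 : c⁻¹ * a * c = a * c * a⁻¹ := by
    rw [eq_mul_inv_iff_mul_eq, mul_assoc, mul_assoc, inv_mul_eq_iff_eq_mul, ← mul_assoc,
      ← mul_assoc]
    exact hac
  have e2 : c * a * c⁻¹ = a⁻¹ * c * a := by
    rw [mul_inv_eq_iff_eq_mul, mul_assoc, mul_assoc, eq_inv_mul_iff_mul_eq, ← mul_assoc,
      ← mul_assoc]
    exact hac
  rcases hy with hy | hy
  · -- `τ • y` has a finite `a`-orbit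
    have : ∃ n : ℕ, 0 < n ∧ a ^ n • (c * b⁻¹) • y = (c * b⁻¹) • y := by
      by_contra h
      exact hy fun n hn h' => h ⟨n, hn, h'⟩
    obtain ⟨n, hn, h3⟩ := this
    refine fin ψ f1 f2 ⟨n, hn, ?_⟩
    have e3 : ψ * c * ψ⁻¹ = (c * b⁻¹)⁻¹ * a * (c * b⁻¹)⁻¹⁻¹ := by
      calc ψ * c * ψ⁻¹ = b * a * (b * c) * (b * a * b)⁻¹ := by rw [hψ]; group
        _ = b * a * (c * b) * (b * a * b)⁻¹ := by rw [hbc]
        _ = b * (a * c * a⁻¹) * b⁻¹ := by group
        _ = b * (c⁻¹ * a * c) * b⁻¹ := by rw [e1]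
        _ = _ := by group
    rw [e3, conj_pow, mul_smul, mul_smul, inv_inv, h3, inv_smul_smul]
  · have : ∃ n : ℕ, 0 < n ∧ a ^ n • (c * b⁻¹)⁻¹ • y = (c * b⁻¹)⁻¹ • y := by
      by_contra h
      exact hy fun n hn h' => h ⟨n, hn, h'⟩
    obtain ⟨n, hn, h3⟩ := this
    refine fin ψ⁻¹ (by rw [inv_inv]; exact f4) (by rw [inv_inv]; exact f3) ⟨n, hn, ?_⟩
    have e3 : ψ⁻¹ * c * ψ⁻¹⁻¹ = (c * b⁻¹) * a * (c * b⁻¹)⁻¹ := by
      have e4 : b⁻¹ * c * b = c := by
        rw [mul_assoc, ← hbc]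
        group
      calc ψ⁻¹ * c * ψ⁻¹⁻¹ = b⁻¹ * a⁻¹ * (b⁻¹ * c * b) * a * b := by rw [hψ]; group
        _ = b⁻¹ * (a⁻¹ * c * a) * b := by rw [e4]; group
        _ = b⁻¹ * (c * a * c⁻¹) * b := by rw [e2]
        _ = (b⁻¹ * c) * a * (b⁻¹ * c)⁻¹ := by group
        _ = (c * b⁻¹) * a * (c * b⁻¹)⁻¹ := by
            rw [show b⁻¹ * c = c * b⁻¹ from
              (show Commute b c from hbc).inv_left.eq]
    rw [e3, conj_pow, mul_smul, mul_smul, h3, smul_inv_smul]

end Abstract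

variable {g : ℕ}

/-- The twist `b = twist 1 2` is a product of conjugates of `twist 1 3 * b⁻¹` and elements that
commute with `a_0` and `b`. -/
theorem b_mem_closure (hg : 3 ≤ g) :
    twist g 1 2 ∈ Subgroup.closure ({twist g 1 3 * (twist g 1 2)⁻¹} ∪
      {z | Commute (twA (⟨0, by omega⟩ : Fin g)) z ∧ Commute (twist g 1 2) z} : Set (Mod g)) := by
  let j0 : Fin g := ⟨0, by omega⟩
  let j1 : Fin g := ⟨1, by omega⟩
  set N := Subgroup.closure ({twist g 1 3 * (twist g 1 2)⁻¹} ∪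
      {z | Commute (twA (⟨0, by omega⟩ : Fin g)) z ∧ Commute (twist g 1 2) z} : Set (Mod g))
    with hN
  set b := twist g 1 2 with hb
  have hτ : twist g 1 3 * b⁻¹ ∈ N := Subgroup.subset_closure (Or.inl rfl)
  have hz : ∀ z, Commute (twA j0) z → Commute b z → z ∈ N := fun z h1 h2 =>
    Subgroup.subset_closure (Or.inr ⟨h1, h2⟩)
  have cA : ∀ p q, 2 ≤ p → Commute (twA j0) (twist g p q) := fun p q h =>
    (twist_twA_comm (p := p) (q := q) j0 (Or.inr (Or.inl (by simpa [j0] using h)))).symm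
  have cB : ∀ p q, 2 ≤ p → p ≤ q → Commute b (twist g p q) := fun p q h h' =>
    twist_comm (by omega) h' (Or.inl h)
  have h34 := hz _ (cA 3 4 (by omega)) (cB 3 4 (by omega) (by omega))
  have h35 := hz _ (cA 3 5 (by omega)) (cB 3 5 (by omega) (by omega))
  have h45 := hz _ (cA 4 5 (by omega)) (cB 4 5 (by omega) (by omega))
  have h25 := hz _ (cA 2 5 (by omega)) (cB 2 5 (by omega) (by omega))
  have h23 := hz _ (cA 2 3 (by omega)) (cB 2 3 (by omega) (by omega))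
  have ca1b : Commute b (twA j1) := twist_twA_comm j1 (Or.inr (Or.inr (by simp [j1])))
  have ha1 := hz (twA j1) (twA_comm j0 j1) ca1b
  have c13 : Commute b (twist g 1 3) := twist_comm (by omega) (by omega) (by unfold Lam; simp)
  have c15 : Commute b (twist g 1 5) := twist_comm (by omega) (by omega) (by unfold Lam; simp)
  -- Garside element
  set D := twist g 3 4 * twA j1 * twist g 3 5 * twist g 3 4 * twA j1 * twist g 3 4 with hD
  have hDN : D ∈ N := mul_mem (mul_mem (mul_mem (mul_mem (mul_mem h34 ha1) h35) h34) ha1) h34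
  have cD : Commute b D :=
    (((((cB 3 4 (by omega) (by omega)).mul_right ca1b).mul_right (cB 3 5 (by omega)
      (by omega))).mul_right (cB 3 4 (by omega) (by omega))).mul_right ca1b).mul_right
      (cB 3 4 (by omega) (by omega))
  have hga : D * twist g 1 3 = twAc g 1 2 3 5 * D :=
    twist_garside (p := 1) (q := 5) j1 (by simp [j1]) (by simp [j1])
  have h1 : twAc g 1 2 3 5 * b⁻¹ = D * (twist g 1 3 * b⁻¹) * D⁻¹ := by
    have e : twAc g 1 2 3 5 = D * twist g 1 3 * D⁻¹ := by rw [hga]; group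
    rw [e, mul_assoc, ← cD.inv_inv.eq]
    group
  have h1' : twAc g 1 2 3 5 * b⁻¹ ∈ N := by
    rw [h1]
    exact mul_mem (mul_mem hDN hτ) (inv_mem hDN)
  have hla := twist_lantern (g := g) 1 2 3 5
  rw [← hb] at hla
  have h2 : twist g 1 5 * b⁻¹ = (twAc g 1 2 3 5 * b⁻¹) * twist g 2 5 * (twist g 1 3 * b⁻¹) *
      (twist g 3 5)⁻¹ * (twist g 2 3)⁻¹ := by
    have e : twist g 1 5 = twAc g 1 2 3 5 * twist g 2 5 * twist g 1 3 * (twist g 3 5)⁻¹ *
        (twist g 2 3)⁻¹ * b⁻¹ := by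
      rw [← hla]
      group
    have k25 := (cB 2 5 (by omega) (by omega)).inv_left.eq
    have kw : b⁻¹ * ((twist g 3 5)⁻¹ * (twist g 2 3)⁻¹) =
        ((twist g 3 5)⁻¹ * (twist g 2 3)⁻¹) * b⁻¹ :=
      ((cB 3 5 (by omega) (by omega)).inv_inv.mul_right
        (cB 2 3 (by omega) (by omega)).inv_inv).eq
    have k13 := c13.inv_left.eq
    rw [e]
    symm
    calc twAc g 1 2 3 5 * b⁻¹ * twist g 2 5 * (twist g 1 3 * b⁻¹) * (twist g 3 5)⁻¹ *
        (twist g 2 3)⁻¹ = twAc g 1 2 3 5 * (b⁻¹ * twist g 2 5) * twist g 1 3 *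
        (b⁻¹ * ((twist g 3 5)⁻¹ * (twist g 2 3)⁻¹)) := by group
      _ = twAc g 1 2 3 5 * (twist g 2 5 * b⁻¹) * twist g 1 3 *
        (((twist g 3 5)⁻¹ * (twist g 2 3)⁻¹) * b⁻¹) := by rw [k25, kw]
      _ = twAc g 1 2 3 5 * twist g 2 5 * (b⁻¹ * twist g 1 3) *
        ((twist g 3 5)⁻¹ * (twist g 2 3)⁻¹) * b⁻¹ := by group
      _ = twAc g 1 2 3 5 * twist g 2 5 * (twist g 1 3 * b⁻¹) *
        ((twist g 3 5)⁻¹ * (twist g 2 3)⁻¹) * b⁻¹ := by rw [k13]
      _ = twAc g 1 2 3 5 * twist g 2 5 * twist g 1 3 *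
        (b⁻¹ * ((twist g 3 5)⁻¹ * (twist g 2 3)⁻¹)) * b⁻¹ := by group
      _ = twAc g 1 2 3 5 * twist g 2 5 * twist g 1 3 *
        (((twist g 3 5)⁻¹ * (twist g 2 3)⁻¹) * b⁻¹) * b⁻¹ := by rw [kw]
      _ = _ := by group
  have h2' : twist g 1 5 * b⁻¹ ∈ N := by
    rw [h2]
    exact mul_mem (mul_mem (mul_mem (mul_mem h1' h25) hτ) (inv_mem h35)) (inv_mem h23)
  -- the star relation
  have hst : (twist g 1 3 * twist g 3 4 * twist g 3 5 * twA j1) ^ 3 =
      b * twist g 4 5 * twist g 1 5 :=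
    twist_star (p := 1) (q := 5) j1 (by simp [j1]) (by simp [j1])
  set f := twist g 3 4 * twist g 3 5 * twA j1 with hf
  have hfN : f ∈ N := mul_mem (mul_mem h34 h35) ha1
  have cf : Commute b f := ((cB 3 4 (by omega) (by omega)).mul_right (cB 3 5 (by omega)
      (by omega))).mul_right ca1b
  have cτf : Commute (twist g 1 3 * b⁻¹ * f) b :=
    (((c13.mul_right (Commute.refl b).inv_right).mul_right cf)).symm
  have h3 : (twist g 1 3 * twist g 3 4 * twist g 3 5 * twA j1) = (twist g 1 3 * b⁻¹ * f) * b := by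
    calc (twist g 1 3 * twist g 3 4 * twist g 3 5 * twA j1) = twist g 1 3 * f := by
          rw [hf]; group
      _ = twist g 1 3 * b⁻¹ * (b * f) := by group
      _ = twist g 1 3 * b⁻¹ * (f * b) := by rw [cf.eq]
      _ = _ := by group
  rw [h3, cτf.mul_pow] at hst
  have h4 : b = ((twist g 1 3 * b⁻¹ * f) ^ 3)⁻¹ * twist g 4 5 * (twist g 1 5 * b⁻¹) := by
    have k45 := (cB 4 5 (by omega) (by omega)).eq
    have e : (twist g 1 3 * b⁻¹ * f) ^ 3 * b = twist g 4 5 * (twist g 1 5 * b⁻¹) := by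
      have e2 : (twist g 1 3 * b⁻¹ * f) ^ 3 * b = ((twist g 1 3 * b⁻¹ * f) ^ 3 * b ^ 3) *
          (b⁻¹ * b⁻¹) := by group
      rw [e2, hst]
      calc b * twist g 4 5 * twist g 1 5 * (b⁻¹ * b⁻¹) = twist g 4 5 * (b * twist g 1 5) *
            (b⁻¹ * b⁻¹) := by rw [k45]; group
        _ = twist g 4 5 * (twist g 1 5 * b) * (b⁻¹ * b⁻¹) := by rw [c15.eq]
        _ = _ := by group
    calc b = ((twist g 1 3 * b⁻¹ * f) ^ 3)⁻¹ * ((twist g 1 3 * b⁻¹ * f) ^ 3 * b) := by group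
      _ = ((twist g 1 3 * b⁻¹ * f) ^ 3)⁻¹ * (twist g 4 5 * (twist g 1 5 * b⁻¹)) := by rw [e]
      _ = _ := by group
  rw [h4]
  exact mul_mem (mul_mem (inv_mem (pow_mem (mul_mem hτ hfN) 3)) h45) h2'

end Pool.Agent.H.MP_ee9c6f_al
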